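import Pool.Agent.Work.MP_2f1fa1_lc.Mt.PTred
import Pool.Agent.Work.MP_2f1fa1_lc.PRaw

/-!
# Encodings of the instances, polynomial bounds for the coordinates
-/

namespace MST

open PTime

variable {α β γ : Type} [Code α] [Code β] [Code γ]

/-- binary digits, each preceded by `true`, terminated by `false` -/
def encNat (n : ℕ) : List Bool := n.bits.flatMap (fun b => [true, b]) ++ [false]

/-- sign and absolute value -/
def encInt (z : ℤ) : List Bool := decide (z < 0) :: encNat z.natAbs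

/-- list of points, each preceded by `true`, terminated by `false` -/
def encPts (P : List (ℤ × ℤ)) : List Bool :=
  P.flatMap (fun p => true :: (encInt p.1 ++ encInt p.2)) ++ [false]

/-- points and threshold -/
def encInst (I : List (ℤ × ℤ) × ℕ) : List Bool := encPts I.1 ++ encNat I.2

theorem ptTagged {l : α → List Bool} (hl : PT l) :
    PT (fun a => (l a).flatMap (fun b => [true, b]) ++ [false]) :=
  (PT.flatMap (g := fun x : α × Bool => [true, x.2]) hl
    ((PT.const true).cons (PT.snd.cons (PT.const [])))).append (PT.const [false])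

theorem ptEncNat {n : α → ℕ} (hn : PT n) : PT (fun a => encNat (n a)) := ptTagged hn.bits

theorem ptEncInt {z : α → ℤ} (hz : PT z) : PT (fun a => encInt (z a)) := by
  have h : PT (fun a => (decide (z a < 0), (z a).natAbs.bits)) := PT.recode2 hz fun _ => rfl
  exact (PT.fst.comp h).cons (ptTagged (PT.snd.comp h))

theorem ptEncPts {P : α → List (ℤ × ℤ)} (hP : PT P) : PT (fun a => encPts (P a)) :=
  (PT.flatMap (g := fun x : α × ℤ × ℤ => true :: (encInt x.2.1 ++ encInt x.2.2)) hP
    ((PT.const true).cons ((ptEncInt (PT.fst.comp PT.snd)).append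
      (ptEncInt (PT.snd.comp PT.snd))))).append (PT.const [false])

theorem ptEncInst {P : α → List (ℤ × ℤ)} {n : α → ℕ} (hP : PT P) (hn : PT n) :
    PT (fun a => encInst (P a, n a)) := (ptEncPts hP).append (ptEncNat hn)

/-! ### absolute values -/

theorem ZPT.natAbs {z : α → ℤ} (h : ZPT z) : PT (fun a => (z a).natAbs) := by
  obtain ⟨p, n, hp, hn, e⟩ := h
  refine ((hp.sub hn).add (hn.sub hp)).congr fun a => ?_
  rw [e a]
  omega

/-- absolute values of the coordinates -/
def absPt (p : ℤ × ℤ) : ℕ × ℕ := (p.1.natAbs, p.2.natAbs)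

theorem ptAbs {P K : α → ℕ} {r : α → Rec} (hP : PT P) (hK : PT K) (hr : PT r) :
    PT (fun a => absPt (pt (P a) (K a) (r a))) := by
  have hQ := ZPT.scQ hP
  have hN := ZPT.scN hP hK
  have hm : ZPT (fun a => ((r a).2.1 : ℤ)) := ZPT.cast (PT.fst.comp (PT.snd.comp hr))
  have hpu : ZPT (fun a => ((r a).2.2.1 : ℤ)) :=
    ZPT.cast (PT.fst.comp (PT.snd.comp (PT.snd.comp hr)))
  have hpl : ZPT (fun a => ((r a).2.2.2 : ℤ)) :=
    ZPT.cast (PT.snd.comp (PT.snd.comp (PT.snd.comp hr)))
  have h2 : ZPT (fun _ : α => (2 : ℤ)) := ZPT.const 2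
  have h4 : ZPT (fun _ : α => (4 : ℤ)) := ZPT.const 4
  have h8 : ZPT (fun _ : α => (8 : ℤ)) := ZPT.const 8
  have h1 : ZPT (fun _ : α => (1 : ℤ)) := ZPT.const 1
  have hd := hpu.sub hpl
  have hu := (hQ.mul hm).add hd
  have hs := (((h4.mul (hQ.pow 2)).mul (hm.pow 2)).add
    (((h4.mul hQ).mul ((h2.mul hm).sub h1)).mul hd)).add ((h8.mul hQ).mul hpu)
  have hv := (hQ.neg.mul ((h2.mul hm).sub h1)).add (h2.mul hd)
  have ht := (((((ZPT.const (-4)).mul (hQ.pow 2)).mul (hm.mul (hm.sub h1))).add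
    ((h8.mul hQ).mul hpl)).add (h4.mul hQ)).add (((h8.mul hQ).mul hm).mul hd)
  have hT : PT (fun a => ((4 * scQ (P a) ^ 2 * ((r a).2.1 : ℤ) ^ 2 +
      4 * scQ (P a) * (2 * ((r a).2.1 : ℤ) - 1) * (((r a).2.2.1 : ℤ) - ((r a).2.2.2 : ℤ)) +
      8 * scQ (P a) * ((r a).2.2.1 : ℤ) +
      2 * (scQ (P a) * ((r a).2.1 : ℤ) +
        (((r a).2.2.1 : ℤ) - ((r a).2.2.2 : ℤ))) ^ 2).natAbs,
      (2 * scN (P a) (K a) * (scQ (P a) * ((r a).2.1 : ℤ) +
        (((r a).2.2.1 : ℤ) - ((r a).2.2.2 : ℤ)))).natAbs)) :=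
    (hs.add (h2.mul (hu.pow 2))).natAbs.pair ((h2.mul hN).mul hu).natAbs
  have hF := (((hN.pow 2).add ht).sub (h2.mul (hv.pow 2))).natAbs.pair
    ((h2.mul hN).mul hv).natAbs
  refine (PT.cond (PT.fst.comp hr) hT hF).congr fun a => ?_
  unfold absPt pt
  cases (r a).1 <;> rfl

theorem ptAbsPoints {K : α → ℕ} {o : α → List Op} (hK : PT K) (ho : PT o) :
    PT (fun a => (points (K a) (o a)).map absPt) := by
  have h := PT.map (g := fun x : α × Op × ℕ => absPt (pt ((o x.1).length + 1) (K x.1)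
      (recOf (o x.1).length x.2.2 x.2.1))) (ptZipIdx (.lnk 0) ho)
    (ptAbs (ho.comp PT.fst).length.succ (hK.comp PT.fst)
      (ptRecOf (ho.comp PT.fst).length (PT.snd.comp PT.snd) (PT.fst.comp PT.snd)))
  refine h.congr fun a => ?_
  unfold points
  rw [List.map_map]
  rfl

theorem ptAbsRed : PT (fun φ => (red φ).1.map absPt) :=
  ptAbsPoints (ptLin 2 1 ptCls.length) ptOpsOf

/-- the coordinates and the threshold are polynomially bounded -/
theorem red_bound {f : List Bool → CNF} (hf : PT f) : ∃ q : Polynomial ℕ, ∀ x : List Bool,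
    (∀ p ∈ (red (f x)).1, p.1.natAbs ≤ q.eval x.length ∧ p.2.natAbs ≤ q.eval x.length) ∧
      (red (f x)).2.toNat ≤ q.eval x.length := by
  obtain ⟨q1, h1⟩ := (ptAbsRed.comp hf).size
  obtain ⟨q2, h2⟩ := (ptRed2.comp hf).size
  refine ⟨q1.comp (4 * Polynomial.X + 1) + q2.comp (4 * Polynomial.X + 1), fun x => ?_⟩
  have hx : sz x ≤ 4 * x.length + 1 := by
    have := sz_list_le (l := x) (B := 3) fun b _ => sz_bool b
    omega
  have e1 := (h1 x).trans (eval_mono q1 hx)
  have e2 := (h2 x).trans (eval_mono q2 hx)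
  rw [sz_nat] at e2
  simp only [Polynomial.eval_add, Polynomial.eval_mul, Polynomial.eval_X,
    Polynomial.eval_ofNat, Polynomial.eval_comp, Polynomial.eval_one]
  simp only at e1 e2
  refine ⟨fun p hp => ?_, by omega⟩
  have h3 : absPt p ∈ (red (f x)).1.map absPt := List.mem_map.2 ⟨p, hp, rfl⟩
  have h4 := (sz_mem h3).trans e1
  unfold absPt at h4
  rw [sz_pair, sz_nat, sz_nat] at h4
  constructor <;> omega

/-- the reduction, as a map to instances -/
def redN (φ : CNF) : List (ℤ × ℤ) × ℕ := ((red φ).1, (red φ).2.toNat)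

theorem red_nonneg (φ : CNF) : 0 ≤ (red φ).2 := by
  unfold red
  positivity

/-- a polynomial time reduction followed by `redN` is computed by one of Mathlib's polynomial
time machines -/
theorem redN_machine {f : List Bool → CNF} (hf : PT f) :
    Nonempty (Turing.TM2ComputableInPolyTime (fun x : List Bool => x) encInst
      (fun x => redN (f x))) :=
  PT.compileOut (ptEncInst (ptRed1.comp hf) (ptRed2.comp hf))

end MST
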