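import Pool.Agent.Work.MP_2f1fa1_lc.Mt.Defs2

/-! Block formulas used by both directions. -/

namespace MST

theorem dl_nil (r : ℕ) : Dl [] r = 0 := rfl

theorem dl_append (A B : List (Op × ℕ)) (r : ℕ) : Dl (A ++ B) r = Dl A r + Dl B r := by
  simp [Dl]

theorem dl_cons (x : Op × ℕ) (B : List (Op × ℕ)) (r : ℕ) : Dl (x :: B) r = ctr x r + Dl B r := by
  simp [Dl]

theorem dl_flatMap {ι : Type} (l : List ι) (f : ι → List (Op × ℕ)) (r : ℕ) :
    Dl (l.flatMap f) r = (l.map fun i => Dl (f i) r).sum := by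
  induction l with
  | nil => rfl
  | cons a l ih => rw [List.flatMap_cons, dl_append, List.map_cons, List.sum_cons, ih]

theorem ctr_lnk_odd {f z : ℕ} (hf : f % 2 = 1) (hz : z ≤ 2) (r : ℕ) : ctr (.lnk f, z) r =
    if r = f then (z : ℤ) else if r = f + 1 then 2 - (z : ℤ) else 0 := by
  unfold ctr stub Op.isSrc
  simp only [hf, beq_self_eq_true, if_true]
  split_ifs <;> omega

theorem ctr_lnk_even {f z : ℕ} (hf : f % 2 = 0) (hz : z ≤ 2) (r : ℕ) : ctr (.lnk f, z) r =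
    if r = f then (z : ℤ) - 2 else if r = f + 1 then -(z : ℤ) else 0 := by
  unfold ctr stub Op.isSrc
  have h1 : ¬ f % 2 = 1 := by omega
  have h2 : ((f % 2 == 1) = true) = False := by
    simp [h1]
  simp only [h2, if_false, if_neg h1]
  split_ifs <;> omega

theorem ctr_src (s z r : ℕ) : ctr (.src s, z) r = if r = s then 2 else 0 := by
  unfold ctr stub Op.isSrc
  simp only [if_true]
  split_ifs <;> rfl

theorem ctr_snk (s z r : ℕ) : ctr (.snk s, z) r = if r = s then -2 else 0 := by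
  unfold ctr stub Op.isSrc
  simp only [Bool.false_eq_true, if_false]
  split_ifs <;> rfl

/-- the annotation of a list without repetitions is a function -/
theorem exists_ann {P : List (Op × ℕ)} {ops : List Op} (h : P.map Prod.fst = ops)
    (hn : ops.Nodup) : ∃ g : Op → ℕ, P = ops.map fun o => (o, g o) := by
  subst h
  induction P with
  | nil => exact ⟨fun _ => 0, rfl⟩
  | cons x P ih =>
    rw [List.map_cons, List.nodup_cons] at hn
    obtain ⟨g, hg⟩ := ih hn.2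
    refine ⟨fun o => if o = x.1 then x.2 else g o, ?_⟩
    rw [List.map_cons, List.map_cons]
    have e : (List.map Prod.fst P).map (fun o => (o, (fun o => if o = x.1 then x.2 else g o) o)) =
        (List.map Prod.fst P).map (fun o => (o, g o)) := by
      apply List.map_congr_left
      intro o ho
      have : o ≠ x.1 := by
        rintro rfl
        exact hn.1 ho
      beta_reduce
      rw [if_neg this]
    rw [e, ← hg]
    beta_reduce
    rw [if_pos rfl]

theorem nodup_oddL (m : ℕ) : (oddL m).Nodup := by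
  unfold oddL
  apply List.Nodup.map _ List.nodup_range
  intro a b h
  simp only [Op.lnk.injEq] at h
  omega

theorem nodup_evenL (m : ℕ) : (evenL m).Nodup := by
  unfold evenL
  apply List.Nodup.map _ List.nodup_range
  intro a b h
  simp only [Op.lnk.injEq] at h
  omega

theorem bk_range (F : ℕ → ℕ → ℤ) (a : ℕ → ℕ → ℤ) (k r : ℕ)
    (h0 : F 0 r = 0) (hs : ∀ k, F (k + 1) r = F k r + a k r) : F k r = ∑ i ∈ Finset.range k, a i r := by
  induction k with
  | zero => simpa using h0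
  | succ k ih => rw [hs, ih, Finset.sum_range_succ]

theorem bk_odd (g : ℕ → ℕ) (hg : ∀ i, g i ≤ 2) (k r : ℕ) :
    Dl ((List.range k).map fun i => (Op.lnk (2 * i + 1), g i)) r =
      if r % 2 = 1 ∧ r < 2 * k then (g (r / 2) : ℤ)
      else if r % 2 = 0 ∧ 1 ≤ r ∧ r ≤ 2 * k then 2 - (g (r / 2 - 1) : ℤ) else 0 := by
  induction k with
  | zero =>
    rw [List.range_zero, List.map_nil, dl_nil, if_neg (by omega), if_neg (by omega)]
  | succ k ih =>
    rw [List.range_succ, List.map_append, dl_append, ih, List.map_singleton, dl_cons, dl_nil,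
      ctr_lnk_odd (by omega) (hg k)]
    rcases Nat.lt_trichotomy r (2 * k + 1) with h | h | h
    · rw [if_neg (show ¬ r = 2 * k + 1 by omega), if_neg (show ¬ r = 2 * k + 1 + 1 by omega)]
      have e1 : (r % 2 = 1 ∧ r < 2 * (k + 1)) ↔ (r % 2 = 1 ∧ r < 2 * k) := by omega
      have e2 : (r % 2 = 0 ∧ 1 ≤ r ∧ r ≤ 2 * (k + 1)) ↔ (r % 2 = 0 ∧ 1 ≤ r ∧ r ≤ 2 * k) := by
        omega
      simp only [e1, e2]
      ring
    · have e3 : r / 2 = k := by omega
      rw [if_pos h, if_neg (show ¬ (r % 2 = 1 ∧ r < 2 * k) by omega),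
        if_neg (show ¬ (r % 2 = 0 ∧ 1 ≤ r ∧ r ≤ 2 * k) by omega),
        if_pos (show r % 2 = 1 ∧ r < 2 * (k + 1) by omega), e3]
      ring
    · rw [if_neg (show ¬ r = 2 * k + 1 by omega), if_neg (show ¬ (r % 2 = 1 ∧ r < 2 * k) by omega),
        if_neg (show ¬ (r % 2 = 0 ∧ 1 ≤ r ∧ r ≤ 2 * k) by omega),
        if_neg (show ¬ (r % 2 = 1 ∧ r < 2 * (k + 1)) by omega)]
      by_cases h2 : r = 2 * k + 1 + 1
      · have e3 : r / 2 - 1 = k := by omega
        rw [if_pos h2, if_pos (show r % 2 = 0 ∧ 1 ≤ r ∧ r ≤ 2 * (k + 1) by omega), e3]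
        ring
      · rw [if_neg h2, if_neg (show ¬ (r % 2 = 0 ∧ 1 ≤ r ∧ r ≤ 2 * (k + 1)) by omega)]
        ring

theorem bk_even (g : ℕ → ℕ) (hg : ∀ i, g i ≤ 2) (k r : ℕ) :
    Dl ((List.range k).map fun i => (Op.lnk (2 * i + 2), g i)) r =
      if r % 2 = 0 ∧ 1 ≤ r ∧ r ≤ 2 * k then (g (r / 2 - 1) : ℤ) - 2
      else if r % 2 = 1 ∧ 3 ≤ r ∧ r ≤ 2 * k + 1 then -(g (r / 2 - 1) : ℤ) else 0 := by
  induction k with
  | zero =>
    rw [List.range_zero, List.map_nil, dl_nil, if_neg (by omega), if_neg (by omega)]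
  | succ k ih =>
    rw [List.range_succ, List.map_append, dl_append, ih, List.map_singleton, dl_cons, dl_nil,
      ctr_lnk_even (by omega) (hg k)]
    rcases Nat.lt_trichotomy r (2 * k + 2) with h | h | h
    · rw [if_neg (show ¬ r = 2 * k + 2 by omega), if_neg (show ¬ r = 2 * k + 2 + 1 by omega)]
      have e1 : (r % 2 = 0 ∧ 1 ≤ r ∧ r ≤ 2 * (k + 1)) ↔ (r % 2 = 0 ∧ 1 ≤ r ∧ r ≤ 2 * k) := by
        omega
      have e2 : (r % 2 = 1 ∧ 3 ≤ r ∧ r ≤ 2 * (k + 1) + 1) ↔
          (r % 2 = 1 ∧ 3 ≤ r ∧ r ≤ 2 * k + 1) := by omega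
      simp only [e1, e2]
      ring
    · have e3 : r / 2 - 1 = k := by omega
      rw [if_pos h, if_neg (show ¬ (r % 2 = 0 ∧ 1 ≤ r ∧ r ≤ 2 * k) by omega),
        if_neg (show ¬ (r % 2 = 1 ∧ 3 ≤ r ∧ r ≤ 2 * k + 1) by omega),
        if_pos (show r % 2 = 0 ∧ 1 ≤ r ∧ r ≤ 2 * (k + 1) by omega), e3]
      ring
    · rw [if_neg (show ¬ r = 2 * k + 2 by omega),
        if_neg (show ¬ (r % 2 = 0 ∧ 1 ≤ r ∧ r ≤ 2 * k) by omega),
        if_neg (show ¬ (r % 2 = 1 ∧ 3 ≤ r ∧ r ≤ 2 * k + 1) by omega),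
        if_neg (show ¬ (r % 2 = 0 ∧ 1 ≤ r ∧ r ≤ 2 * (k + 1)) by omega)]
      by_cases h2 : r = 2 * k + 2 + 1
      · have e3 : r / 2 - 1 = k := by omega
        rw [if_pos h2, if_pos (show r % 2 = 1 ∧ 3 ≤ r ∧ r ≤ 2 * (k + 1) + 1 by omega), e3]
        ring
      · rw [if_neg h2, if_neg (show ¬ (r % 2 = 1 ∧ 3 ≤ r ∧ r ≤ 2 * (k + 1) + 1) by omega)]
        ring

theorem dl_oddL (m : ℕ) (g : Op → ℕ) (hg : ∀ o ∈ oddL m, g o ≤ 2) (r : ℕ) :
    Dl ((oddL m).map fun o => (o, g o)) r =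
      if r % 2 = 1 ∧ r < 4 * m then (g (.lnk r) : ℤ)
      else if r % 2 = 0 ∧ 1 ≤ r ∧ r ≤ 4 * m then 2 - (g (.lnk (r - 1)) : ℤ) else 0 := by
  have h1 : (oddL m).map (fun o => (o, g o)) =
      (List.range (2 * m)).map fun i => (Op.lnk (2 * i + 1), min (g (.lnk (2 * i + 1))) 2) := by
    unfold oddL
    rw [List.map_map]
    apply List.map_congr_left
    intro i hi
    have h2 := hg (.lnk (2 * i + 1)) (List.mem_map.2 ⟨i, hi, rfl⟩)
    simp [h2]
  have h2 : ∀ i < 2 * m, min (g (.lnk (2 * i + 1))) 2 = g (.lnk (2 * i + 1)) := by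
    intro i hi
    exact min_eq_left (hg _ (List.mem_map.2 ⟨i, List.mem_range.2 hi, rfl⟩))
  rw [h1, bk_odd _ (fun i => min_le_right _ _)]
  by_cases e1 : r % 2 = 1 ∧ r < 4 * m
  · rw [if_pos (by omega), if_pos e1, h2 _ (by omega)]
    congr 3
    omega
  · rw [if_neg (by omega), if_neg e1]
    by_cases e2 : r % 2 = 0 ∧ 1 ≤ r ∧ r ≤ 4 * m
    · rw [if_pos (by omega), if_pos e2, h2 _ (by omega)]
      congr 4
      omega
    · rw [if_neg (by omega), if_neg e2]

theorem dl_evenL (m : ℕ) (g : Op → ℕ) (hg : ∀ o ∈ evenL m, g o ≤ 2) (r : ℕ) :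
    Dl ((evenL m).map fun o => (o, g o)) r =
      if r % 2 = 0 ∧ 1 ≤ r ∧ r ≤ 4 * m then (g (.lnk r) : ℤ) - 2
      else if r % 2 = 1 ∧ 3 ≤ r ∧ r ≤ 4 * m + 1 then -(g (.lnk (r - 1)) : ℤ) else 0 := by
  have h1 : (evenL m).map (fun o => (o, g o)) =
      (List.range (2 * m)).map fun i => (Op.lnk (2 * i + 2), min (g (.lnk (2 * i + 2))) 2) := by
    unfold evenL
    rw [List.map_map]
    apply List.map_congr_left
    intro i hi
    have h2 := hg (.lnk (2 * i + 2)) (List.mem_map.2 ⟨i, hi, rfl⟩)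
    simp [h2]
  have h2 : ∀ i < 2 * m, min (g (.lnk (2 * i + 2))) 2 = g (.lnk (2 * i + 2)) := by
    intro i hi
    exact min_eq_left (hg _ (List.mem_map.2 ⟨i, List.mem_range.2 hi, rfl⟩))
  rw [h1, bk_even _ (fun i => min_le_right _ _)]
  by_cases e1 : r % 2 = 0 ∧ 1 ≤ r ∧ r ≤ 4 * m
  · rw [if_pos (by omega), if_pos e1, h2 _ (by omega)]
    congr 4
    omega
  · rw [if_neg (by omega), if_neg e1]
    by_cases e2 : r % 2 = 1 ∧ 3 ≤ r ∧ r ≤ 4 * m + 1
    · rw [if_pos (by omega), if_pos e2, h2 _ (by omega)]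
      congr 4
      omega
    · rw [if_neg (by omega), if_neg e2]

theorem bk_src {P : List (Op × ℕ)} (k : ℕ)
    (h : P.map Prod.fst = (List.range k).map fun j => .src (4 * j + 5)) (r : ℕ) :
    Dl P r = if r % 4 = 1 ∧ 5 ≤ r ∧ r < 4 * k + 4 then 2 else 0 := by
  induction k generalizing P with
  | zero =>
    simp only [List.range_zero, List.map_nil, List.map_eq_nil_iff] at h
    rw [h, dl_nil, if_neg (by omega)]
  | succ k ih =>
    rw [List.range_succ, List.map_append, List.map_eq_append_iff] at h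
    obtain ⟨P1, P2, rfl, h1, h2⟩ := h
    match P2, h2 with
    | [(o, z)], h2 =>
      simp only [List.map_cons, List.map_nil, List.cons.injEq, and_true] at h2
      subst h2
      rw [dl_append, ih h1, dl_cons, dl_nil, ctr_src]
      split_ifs <;> omega

theorem bk_snk {P : List (Op × ℕ)} (k : ℕ)
    (h : P.map Prod.fst = (List.range k).map fun j => .snk (4 * j + 5)) (r : ℕ) :
    Dl P r = if r % 4 = 1 ∧ 5 ≤ r ∧ r < 4 * k + 4 then -2 else 0 := by
  induction k generalizing P with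
  | zero =>
    simp only [List.range_zero, List.map_nil, List.map_eq_nil_iff] at h
    rw [h, dl_nil, if_neg (by omega)]
  | succ k ih =>
    rw [List.range_succ, List.map_append, List.map_eq_append_iff] at h
    obtain ⟨P1, P2, rfl, h1, h2⟩ := h
    match P2, h2 with
    | [(o, z)], h2 =>
      simp only [List.map_cons, List.map_nil, List.cons.injEq, and_true] at h2
      subst h2
      rw [dl_append, ih h1, dl_cons, dl_nil, ctr_snk]
      split_ifs <;> omega

/-- the annotation of forced operations does not matter -/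
theorem dl_srcC {m : ℕ} {P : List (Op × ℕ)} (h : P.map Prod.fst = srcC m) (r : ℕ) :
    Dl P r = if r % 4 = 1 ∧ 5 ≤ r ∧ r < 4 * m then 2 else 0 := by
  rw [bk_src (m - 1) h]
  have e : (r % 4 = 1 ∧ 5 ≤ r ∧ r < 4 * (m - 1) + 4) ↔ (r % 4 = 1 ∧ 5 ≤ r ∧ r < 4 * m) := by omega
  simp only [e]

theorem dl_snkC {m : ℕ} {P : List (Op × ℕ)} (h : P.map Prod.fst = snkC m) (r : ℕ) :
    Dl P r = if r % 4 = 1 ∧ 5 ≤ r ∧ r < 4 * m then -2 else 0 := by
  rw [bk_snk (m - 1) h]
  have e : (r % 4 = 1 ∧ 5 ≤ r ∧ r < 4 * (m - 1) + 4) ↔ (r % 4 = 1 ∧ 5 ≤ r ∧ r < 4 * m) := by omega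
  simp only [e]

theorem bk_pair {P : List (Op × ℕ)} {s : ℕ} (h : P.map Prod.fst = [.src s, .snk s]) :
    ∃ x y, P = [(.src s, x), (.snk s, y)] := by
  match P, h with
  | [(o1, x), (o2, y)], h =>
    simp only [List.map_cons, List.map_nil, List.cons.injEq, and_true] at h
    obtain ⟨rfl, rfl⟩ := h
    exact ⟨x, y, rfl⟩

theorem bk_pair_dl (s x y r : ℕ) : Dl [(Op.src s, x), (Op.snk s, y)] r = 0 := by
  rw [dl_cons, dl_cons, dl_nil, ctr_src, ctr_snk]
  split_ifs <;> rfl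

/-- lists of visits -/
theorem bk_vis {P : List (Op × ℕ)} (f : ℕ → ℕ) (l : List ℕ)
    (h : P.map Prod.fst = l.flatMap fun i => [.src (f i), .snk (f i)]) (r : ℕ) : Dl P r = 0 := by
  induction l generalizing P with
  | nil =>
    simp only [List.flatMap_nil, List.map_eq_nil_iff] at h
    rw [h, dl_nil]
  | cons i l ih =>
    rw [List.flatMap_cons, List.map_eq_append_iff] at h
    obtain ⟨P1, P2, rfl, h1, h2⟩ := h
    obtain ⟨x, y, rfl⟩ := bk_pair h1
    rw [dl_append, ih h2, bk_pair_dl]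
    rfl

theorem dl_visits {m : ℕ} {P : List (Op × ℕ)} (h : P.map Prod.fst = visits m) (r : ℕ) :
    Dl P r = 0 := bk_vis (fun i => i + 1) _ h r

theorem dl_check {m : ℕ} {P : List (Op × ℕ)} (h : P.map Prod.fst = check m) (r : ℕ) :
    Dl P r = 0 := by
  unfold check at h
  rw [List.map_eq_append_iff] at h
  obtain ⟨P12, P3, rfl, h12, h3⟩ := h
  rw [List.map_eq_append_iff] at h12
  obtain ⟨P1, P2, rfl, h1, h2⟩ := h12
  obtain ⟨x, y, rfl⟩ := bk_pair h1
  rw [dl_append, dl_append, bk_pair_dl, bk_vis (fun i => 2 * i + 2) _ h2]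
  match P3, h3 with
  | [(o1, x1), (o2, x2), (o3, x3), (o4, x4)], h3 =>
    simp only [List.map_cons, List.map_nil, List.cons.injEq, and_true] at h3
    obtain ⟨rfl, rfl, rfl, rfl⟩ := h3
    rw [dl_cons, dl_cons, dl_cons, dl_cons, dl_nil, ctr_snk, ctr_src, ctr_snk, ctr_src]
    split_ifs <;> rfl

/-- a visit in the middle of `visits` -/
theorem visits_split {m : ℕ} {P : List (Op × ℕ)} (h : P.map Prod.fst = visits m) {r : ℕ}
    (h1 : 1 ≤ r) (h2 : r ≤ 4 * m + 1) : ∃ A B x y,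
      P = A ++ (Op.src r, x) :: (Op.snk r, y) :: B ∧ ∀ r', Dl A r' = 0 := by
  have e : List.range (4 * m + 1) = List.range (r - 1) ++ [r - 1] ++
      List.map (fun x => (r - 1) + 1 + x) (List.range (4 * m + 1 - r)) := by
    have h3 : 4 * m + 1 = (r - 1) + 1 + (4 * m + 1 - r) := by omega
    conv_lhs => rw [h3]
    rw [List.range_add, List.range_succ]
  unfold visits at h
  rw [e, List.flatMap_append, List.flatMap_append, List.map_eq_append_iff] at h
  obtain ⟨P12, P3, rfl, h12, h3⟩ := h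
  rw [List.map_eq_append_iff] at h12
  obtain ⟨P1, P2, rfl, h1', h2'⟩ := h12
  simp only [List.flatMap_cons, List.flatMap_nil, List.append_nil] at h2'
  obtain ⟨x, y, rfl⟩ := bk_pair h2'
  have e4 : r - 1 + 1 = r := by omega
  refine ⟨P1, P3, x, y, ?_, fun r' => bk_vis (fun i => i + 1) _ h1' r'⟩
  rw [e4]
  simp

end MST
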