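import Mathlib

/-!
# MP_2f1fa1_lc, route of helper25: common definitions

Rows are numbered `1, 2, …`; face `f` lies between the rows `f` and `f + 1`.
An operation is a vertex of the graph; its time is its index in the list.
-/

namespace MST

/-- operations: `lnk f` may use the rows `f`, `f+1` (source if `f` is odd, sink if `f` is even),
`src r` is a source on row `r`, `snk r` is a sink on row `r` -/
inductive Op
  | lnk (f : ℕ)
  | src (r : ℕ)
  | snk (r : ℕ)
  deriving DecidableEq

/-- sources -/
def Op.isSrc : Op → Bool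
  | .lnk f => f % 2 == 1
  | .src _ => true
  | .snk _ => false

/-- the operation may use row `r` -/
def Op.on : Op → ℕ → Bool
  | .lnk f, r => r == f || r == f + 1
  | .src s, r => r == s
  | .snk s, r => r == s

/-- `i` is a source before the sink `j` on a common row -/
def Arc (ops : List Op) (i j : ℕ) : Prop :=
  i < j ∧ ∃ a b, ops[i]? = some a ∧ ops[j]? = some b ∧ a.isSrc = true ∧ b.isSrc = false ∧
    ∃ r, a.on r = true ∧ b.on r = true

def Adj (ops : List Op) (i j : ℕ) : Prop := Arc ops i j ∨ Arc ops j i

/-- Hamiltonian cycles of a relation on `{0, …, n-1}` : a cyclic ordering -/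
def Ham (n : ℕ) (R : ℕ → ℕ → Prop) : Prop :=
  ∃ g : ℕ → ℕ, Set.BijOn g (Set.Iio n) (Set.Iio n) ∧ ∀ i < n, R (g i) (g ((i + 1) % n))

/-! ### annotated operations: the split of a link -/

/-- number of stubs of the annotated operation `x` on row `r`; a source link has `x.2` stubs on
its upper row `f`, a sink link has `x.2` stubs on its lower row `f+1` -/
def stub (x : Op × ℕ) (r : ℕ) : ℕ :=
  match x.1 with
  | .lnk f =>
    if f % 2 = 1 then (if r = f then x.2 else if r = f + 1 then 2 - x.2 else 0)
    else (if r = f then 2 - x.2 else if r = f + 1 then x.2 else 0)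
  | .src s => if r = s then 2 else 0
  | .snk s => if r = s then 2 else 0

/-- contribution to the number of open edges on row `r` -/
def ctr (x : Op × ℕ) (r : ℕ) : ℤ := if x.1.isSrc then stub x r else -(stub x r : ℤ)

/-- number of open edges on row `r` after the list `L` -/
def Dl (L : List (Op × ℕ)) (r : ℕ) : ℤ := (L.map fun x => ctr x r).sum

/-- feasible splits -/
structure Feas (L : List (Op × ℕ)) : Prop where
  le2 : ∀ x ∈ L, x.2 ≤ 2
  nonneg : ∀ A B, L = A ++ B → ∀ r, 0 ≤ Dl A r
  fin : ∀ r, Dl L r = 0

/-- connectedness: `c` colours the vertices, `κ r t` colours row `r` at the cut before the vertex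
number `t` -/
def Conn (L : List (Op × ℕ)) : Prop := ∀ (c : ℕ → Bool) (κ : ℕ → ℕ → Bool),
  (∀ A x B r, L = A ++ x :: B → 0 < stub x r →
    c A.length = κ r (if x.1.isSrc then A.length + 1 else A.length)) →
  (∀ A x B r, L = A ++ x :: B → 0 < Dl A r → 0 < Dl (A ++ [x]) r →
    κ r A.length = κ r (A.length + 1)) →
  ∀ i j, i < L.length → j < L.length → c i = c j

/-- a source directly followed by a sink on the same row is only possible on a live row -/
def Visit (L : List (Op × ℕ)) : Prop := ∀ A B r x y,
  L = A ++ (Op.src r, x) :: (Op.snk r, y) :: B → 1 ≤ Dl A r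

/-! ### the instance -/

/-- all links on odd faces `1, 3, …, 4m-1` -/
def oddL (m : ℕ) : List Op := (List.range (2 * m)).map fun i => .lnk (2 * i + 1)

/-- all links on even faces `2, 4, …, 4m` -/
def evenL (m : ℕ) : List Op := (List.range (2 * m)).map fun i => .lnk (2 * i + 2)

/-- sources on the rows `5, 9, …, 4m-3` -/
def srcC (m : ℕ) : List Op := (List.range (m - 1)).map fun j => .src (4 * j + 5)

/-- sinks on the rows `5, 9, …, 4m-3` -/
def snkC (m : ℕ) : List Op := (List.range (m - 1)).map fun j => .snk (4 * j + 5)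

/-- visit of the rows `1, …, 4m+1` -/
def visits (m : ℕ) : List Op := (List.range (4 * m + 1)).flatMap fun i => [.src (i + 1), .snk (i + 1)]

/-- the checkpoint -/
def check (m : ℕ) : List Op :=
  [.src 1, .snk 1] ++ ((List.range (2 * m)).flatMap fun i => [.src (2 * i + 2), .snk (2 * i + 2)]) ++
    [.snk (4 * m + 1), .src (4 * m + 1), .snk (4 * m + 1), .src (4 * m + 1)]

/-- initialisation -/
def init (m : ℕ) : List Op :=
  [.lnk 1] ++ ((List.range (m - 1)).flatMap fun j =>
    [.src (4 * j + 4), .lnk (4 * j + 5), .lnk (4 * j + 4)]) ++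
    [.src (4 * m), .src (4 * m + 1), .src (4 * m + 1), .lnk (4 * m)]

/-- the end -/
def final (m : ℕ) : List Op :=
  [.lnk 1, .snk 1] ++ ((List.range (m - 1)).flatMap fun j =>
    [.lnk (4 * j + 5), .lnk (4 * j + 4), .snk (4 * j + 6)]) ++
    [.lnk (4 * m), .snk (4 * m + 1), .snk 2]

/-- crossing gadget of the clause number `k` (from `0`) of sign `sg` -/
def gad (sg : Bool) (k : ℕ) : List Op :=
  if sg then [.lnk (4 * k + 3), .lnk (4 * k + 3), .snk (4 * k + 3), .snk (4 * k + 4)]
  else [.src (4 * k + 2), .src (4 * k + 3), .lnk (4 * k + 2), .lnk (4 * k + 2)]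

variable {σ : Type} [DecidableEq σ]

/-- crossing gadgets of the variable `s` -/
def cross (cl : List (Bool × List σ)) (s : σ) : List Op :=
  cl.zipIdx.flatMap fun c => if s ∈ c.1.2 then gad c.1.1 c.2 else []

/-- the slab of the variable `s` -/
def slab (cl : List (Bool × List σ)) (s : σ) : List Op :=
  oddL cl.length ++ srcC cl.length ++ evenL cl.length ++ cross cl s ++ visits cl.length ++
    oddL cl.length ++ [.src (4 * cl.length + 1)] ++ evenL cl.length ++ snkC cl.length ++ [.snk 1]

/-- the instance: `sl` = variables, `cl` = clauses with signs -/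
def inst (sl : List σ) (cl : List (Bool × List σ)) : List Op :=
  init cl.length ++ check cl.length ++
    (sl.flatMap fun s => slab cl s ++ check cl.length) ++ final cl.length

/-- satisfiability of a monotone instance -/
def MSat (sl : List σ) (cl : List (Bool × List σ)) : Prop :=
  ∃ v : σ → Bool, ∀ c ∈ cl, ∃ s ∈ c.2, s ∈ sl ∧ v s = c.1

/-- positive clauses first -/
def Sorted (cl : List (Bool × List σ)) : Prop :=
  ∃ P N, cl = P ++ N ∧ (∀ c ∈ P, c.1 = true) ∧ ∀ c ∈ N, c.1 = false

end MST
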