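import Pool.Agent.Work.MP_2f1fa1_lc.Mt.Defs

/-! Further common definitions: matchings of stubs, colours, the annotated instance. -/

namespace MST

/-! ### stubs and matchings (modules Glue1a, b, c) -/

/-- row of the stub number `b` of the annotated operation `x` -/
def srow (x : Op × ℕ) (b : Bool) : ℕ :=
  match x.1 with
  | .lnk f =>
    if f % 2 = 1 then (if (if b then 2 else 1) ≤ x.2 then f else f + 1)
    else (if (if b then 2 else 1) ≤ x.2 then f + 1 else f)
  | .src s => s
  | .snk s => s

/-- a matching of the stubs (vertex, number) of `L` : an involution exchanging source stubs and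
later sink stubs of the same row -/
structure Mat (L : List (Op × ℕ)) (M : ℕ × Bool → ℕ × Bool) : Prop where
  invol : ∀ s : ℕ × Bool, s.1 < L.length → M (M s) = s
  lt : ∀ s : ℕ × Bool, s.1 < L.length → (M s).1 < L.length
  src : ∀ (s : ℕ × Bool) (x y : Op × ℕ), L[s.1]? = some x → L[(M s).1]? = some y →
    x.1.isSrc = true → s.1 < (M s).1 ∧ y.1.isSrc = false ∧ srow y (M s).2 = srow x s.2
  snk : ∀ (s : ℕ × Bool) (x y : Op × ℕ), L[s.1]? = some x → L[(M s).1]? = some y →
    x.1.isSrc = false → (M s).1 < s.1 ∧ y.1.isSrc = true ∧ srow y (M s).2 = srow x s.2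

/-- a set of vertices closed under the matching -/
def Closed (L : List (Op × ℕ)) (M : ℕ × Bool → ℕ × Bool) (A : Set ℕ) : Prop :=
  ∀ s : ℕ × Bool, s.1 < L.length → (s.1 ∈ A ↔ (M s).1 ∈ A)

/-! ### tour => SAT -/

/-- number of open edges at the checkpoints -/
def target (m r : ℕ) : ℤ :=
  if r = 4 * m + 1 then 3 else if r = 1 ∨ (r % 2 = 0 ∧ 2 ≤ r ∧ r ≤ 4 * m) then 1 else 0

/-- colour of row `r` for the clause number `k` when the row `4k+3` has colour `c` -/
def col (k : ℕ) (c : Bool) (r : ℕ) : Bool :=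
  if r ≤ 4 * k + 2 then true else if 4 * k + 4 ≤ r then false else c

/-- no operation of `S` has stubs of different colours -/
def NC (k : ℕ) (c : Bool) (S : List (Op × ℕ)) : Prop :=
  ∀ x ∈ S, ∀ r r', 0 < stub x r → 0 < stub x r' → col k c r = col k c r'

variable {σ : Type} [DecidableEq σ]

/-- decomposition of an annotated instance: initial part, checkpoint, blocks (variable, slab,
checkpoint), final part -/
structure Dec (sl : List σ) (cl : List (Bool × List σ)) (L I C0 Fn : List (Op × ℕ))
    (bl : List (σ × List (Op × ℕ) × List (Op × ℕ))) : Prop where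
  I_eq : I.map Prod.fst = init cl.length
  C_eq : C0.map Prod.fst = check cl.length
  F_eq : Fn.map Prod.fst = final cl.length
  sl_eq : bl.map Prod.fst = sl
  S_eq : ∀ b ∈ bl, b.2.1.map Prod.fst = slab cl b.1
  K_eq : ∀ b ∈ bl, b.2.2.map Prod.fst = check cl.length
  L_eq : L = I ++ C0 ++ (bl.flatMap fun b => b.2.1 ++ b.2.2) ++ Fn

/-! ### SAT => tour: the annotated instance -/

/-- split of the link of face `f` in the first phase -/
def zz (y f : ℕ) : ℕ := (if f % 4 = 1 ∨ f % 4 = 2 then 0 else 1) + y

def an0 (o : Op) : Op × ℕ := (o, 1)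

def an1 (y : ℕ) (o : Op) : Op × ℕ := (o, match o with | .lnk f => zz y f | _ => 1)

def an2 (y : ℕ) (o : Op) : Op × ℕ := (o, match o with | .lnk f => 2 - zz y f | _ => 1)

/-- annotated slab, `y = 1` if the variable is true and `y = 0` otherwise -/
def slabA (cl : List (Bool × List σ)) (s : σ) (y : ℕ) : List (Op × ℕ) :=
  (oddL cl.length).map (an1 y) ++ (srcC cl.length).map an0 ++ (evenL cl.length).map (an1 y) ++
    (cross cl s).map an0 ++ (visits cl.length).map an0 ++ (oddL cl.length).map (an2 y) ++
    [an0 (.src (4 * cl.length + 1))] ++ (evenL cl.length).map (an2 y) ++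
    (snkC cl.length).map an0 ++ [an0 (.snk 1)]

/-- annotated instance -/
def instA (sl : List σ) (cl : List (Bool × List σ)) (v : σ → Bool) : List (Op × ℕ) :=
  (init cl.length).map an0 ++ (check cl.length).map an0 ++
    (sl.flatMap fun s => slabA cl s (if v s then 1 else 0) ++ (check cl.length).map an0) ++
    (final cl.length).map an0

/-! ### geometry -/

/-- squared distance -/
def d2 (p q : ℤ × ℤ) : ℤ := (p.1 - q.1) ^ 2 + (p.2 - q.2) ^ 2

/-- source?, cluster, position on the upper row, position on the lower row -/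
abbrev Rec := Bool × ℕ × ℕ × ℕ

/-- the record of the operation number `t` of an instance with `n` operations; source cluster `m`
has the rows `2m+1`, `2m+2`, sink cluster `m` the rows `2m`, `2m+1` -/
def recOf (n t : ℕ) : Op → Rec
  | .lnk f => if f % 2 = 1 then (true, f / 2, t + 1, t + 1) else (false, f / 2, t + 1, t + 1)
  | .src r => if r % 2 = 1 then (true, r / 2, t + 1, n + 1) else (true, r / 2 - 1, n + 1, t + 1)
  | .snk r => if r % 2 = 0 then (false, r / 2, t + 1, 0) else (false, r / 2, 0, t + 1)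

/-- adjacency of a source record and a sink record -/
def RAdj (p q : Rec) : Prop :=
  (q.2.1 = p.2.1 ∧ p.2.2.1 ≤ q.2.2.2) ∨ (q.2.1 = p.2.1 + 1 ∧ p.2.2.2 ≤ q.2.2.1)

/-- the two scales, for positions `≤ P` and clusters `≤ K` -/
def scQ (P : ℕ) : ℤ := 8 * (P + 1) ^ 2

def scN (P K : ℕ) : ℤ := 1000 * (scQ P) ^ 2 * (K + 1) ^ 2

/-- the point of a record -/
def pt (P K : ℕ) (p : Rec) : ℤ × ℤ :=
  let Q := scQ P
  let N := scN P K
  let m : ℤ := p.2.1
  let pu : ℤ := p.2.2.1
  let pl : ℤ := p.2.2.2
  if p.1 then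
    let u := Q * m + (pu - pl)
    let s := 4 * Q ^ 2 * m ^ 2 + 4 * Q * (2 * m - 1) * (pu - pl) + 8 * Q * pu
    (s + 2 * u ^ 2, 2 * N * u)
  else
    let v := -Q * (2 * m - 1) + 2 * (pu - pl)
    let t := -4 * Q ^ 2 * (m * (m - 1)) + 8 * Q * pl + 4 * Q + 8 * Q * m * (pu - pl)
    (N ^ 2 + t - 2 * v ^ 2, 2 * N * v)

/-- the point list of a list of operations -/
def points (K : ℕ) (ops : List Op) : List (ℤ × ℤ) :=
  ops.zipIdx.map fun x => pt (ops.length + 1) K (recOf ops.length x.2 x.1)

/-- all clusters are `≤ K` and sources have positive rows -/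
def WF (K : ℕ) (ops : List Op) : Prop := ∀ o ∈ ops,
  match o with
  | .lnk f => f ≤ 2 * K
  | .src r => 1 ≤ r ∧ r ≤ 2 * K
  | .snk r => r ≤ 2 * K

/-- a tour (cyclic ordering) all whose edges have squared length `≥ D` -/
def IsTour (D : ℤ) (l : List (ℤ × ℤ)) : Prop :=
  ∀ i (h : i < l.length), D ≤ d2 l[i] (l[(i + 1) % l.length]'(Nat.mod_lt _ (by omega)))

/-- the decision problem of maximum scatter TSP in the plane -/
def ScatterYes (P : List (ℤ × ℤ)) (D : ℤ) : Prop :=
  P.Nodup ∧ 3 ≤ P.length ∧ ∃ l, l.Perm P ∧ IsTour D l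

/-! ### CNF to monotone instances -/

abbrev Lit := Bool × List Bool

/-- the variables of a CNF (and one dummy) -/
def vars (φ : List (List Lit)) : List (List Bool) :=
  ([] :: (φ.flatMap fun C => C.map Prod.snd)).dedup

/-- the slabs -/
def sls (φ : List (List Lit)) : List Lit := (vars φ).flatMap fun x => [(true, x), (false, x)]

/-- the clauses -/
def cls (φ : List (List Lit)) : List (Bool × List Lit) :=
  φ.map (fun C => (true, C)) ++ (vars φ).map (fun x => (true, [(true, x), (false, x)])) ++
    (vars φ).map fun x => (false, [(true, x), (false, x)])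

/-- the operations of a CNF -/
def opsOf (φ : List (List Lit)) : List Op := inst (sls φ) (cls φ)

/-- the reduction -/
def red (φ : List (List Lit)) : List (ℤ × ℤ) × ℤ :=
  (points (2 * (cls φ).length + 1) (opsOf φ),
    scN ((opsOf φ).length + 1) (2 * (cls φ).length + 1) ^ 4)

end MST
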