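import Pool.Agent.Work.MP_2f1fa1_lc.Mt.Defs2

namespace MST

theorem geo1_arc {ops : List Op} {i j : ℕ} {a b : Op}
    (hi : ops[i]? = some a) (hj : ops[j]? = some b) (ha : a.isSrc = true)
    (hb : b.isSrc = false) :
    Arc ops i j ↔ i < j ∧ ∃ r, a.on r = true ∧ b.on r = true := by
  unfold Arc
  constructor
  · rintro ⟨h, a', b', h1, h2, _, _, r, hr⟩
    rw [hi] at h1
    rw [hj] at h2
    cases h1
    cases h2
    exact ⟨h, r, hr⟩
  · rintro ⟨h, r, hr⟩
    exact ⟨h, a, b, hi, hj, ha, hb, r, hr⟩

/-- arcs in terms of the records -/
theorem arc_rec {K : ℕ} {ops : List Op} (hW : WF K ops) {i j : ℕ} {a b : Op}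
    (hi : ops[i]? = some a) (hj : ops[j]? = some b) (ha : a.isSrc = true)
    (hb : b.isSrc = false) :
    Arc ops i j ↔ RAdj (recOf ops.length i a) (recOf ops.length j b) := by
  rw [geo1_arc hi hj ha hb]
  have hin : i < ops.length := by
    by_contra h
    rw [List.getElem?_eq_none (by omega)] at hi
    cases hi
  have hjn : j < ops.length := by
    by_contra h
    rw [List.getElem?_eq_none (by omega)] at hj
    cases hj
  have hne : i ≠ j := by
    rintro rfl
    rw [hi] at hj
    cases hj
    rw [ha] at hb
    cases hb
  have hWa := hW a (List.mem_of_getElem? hi)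
  have hWb := hW b (List.mem_of_getElem? hj)
  generalize ops.length = n at *
  cases a with
  | lnk f =>
    simp only [Op.isSrc, beq_iff_eq] at ha
    cases b with
    | lnk g =>
      simp only [Op.isSrc, beq_eq_false_iff_ne, ne_eq] at hb
      simp only [Op.on, Bool.or_eq_true, beq_iff_eq, recOf, RAdj, if_pos ha, if_neg hb]
      constructor
      · rintro ⟨h, r, h1, h2⟩
        omega
      · intro h
        rcases h with h | h
        · exact ⟨by omega, f, by omega, by omega⟩
        · exact ⟨by omega, f + 1, by omega, by omega⟩
    | src g => simp [Op.isSrc] at hb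
    | snk g =>
      simp only [Op.on, Bool.or_eq_true, beq_iff_eq, recOf, RAdj, if_pos ha]
      by_cases hg : g % 2 = 0
      · simp only [if_pos hg]
        constructor
        · rintro ⟨h, r, h1, h2⟩
          omega
        · intro h
          exact ⟨by omega, g, by omega, by omega⟩
      · simp only [if_neg hg]
        constructor
        · rintro ⟨h, r, h1, h2⟩
          omega
        · intro h
          exact ⟨by omega, g, by omega, by omega⟩
  | src f =>
    have hf1 : 1 ≤ f := hWa.1
    cases b with
    | lnk g =>
      simp only [Op.isSrc, beq_eq_false_iff_ne, ne_eq] at hb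
      simp only [Op.on, Bool.or_eq_true, beq_iff_eq, recOf, RAdj, if_neg hb]
      by_cases hf : f % 2 = 1
      · simp only [if_pos hf]
        constructor
        · rintro ⟨h, r, h1, h2⟩
          omega
        · intro h
          exact ⟨by omega, f, by omega, by omega⟩
      · simp only [if_neg hf]
        constructor
        · rintro ⟨h, r, h1, h2⟩
          omega
        · intro h
          exact ⟨by omega, f, by omega, by omega⟩
    | src g => simp [Op.isSrc] at hb
    | snk g =>
      simp only [Op.on, beq_iff_eq, recOf, RAdj]
      by_cases hf : f % 2 = 1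
      · by_cases hg : g % 2 = 0
        · simp only [if_pos hg, if_pos hf]
          constructor
          · rintro ⟨h, r, h1, h2⟩
            omega
          · intro h
            exact ⟨by omega, g, by omega, by omega⟩
        · simp only [if_neg hg, if_pos hf]
          constructor
          · rintro ⟨h, r, h1, h2⟩
            omega
          · intro h
            exact ⟨by omega, g, by omega, by omega⟩
      · by_cases hg : g % 2 = 0
        · simp only [if_pos hg, if_neg hf]
          constructor
          · rintro ⟨h, r, h1, h2⟩
            omega
          · intro h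
            exact ⟨by omega, g, by omega, by omega⟩
        · simp only [if_neg hg, if_neg hf]
          constructor
          · rintro ⟨h, r, h1, h2⟩
            omega
          · intro h
            exact ⟨by omega, g, by omega, by omega⟩
  | snk f => simp [Op.isSrc] at ha

theorem rec_fst (n t : ℕ) (o : Op) : (recOf n t o).1 = o.isSrc := by
  cases o with
  | lnk f =>
    simp only [recOf, Op.isSrc]
    split_ifs with h <;> simp [h]
  | src r =>
    simp only [recOf, Op.isSrc]
    split_ifs <;> rfl
  | snk r =>
    simp only [recOf, Op.isSrc]
    split_ifs <;> rfl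

/-- bounds of the records -/
theorem rec_le {K : ℕ} {ops : List Op} (hW : WF K ops) {i : ℕ} {a : Op}
    (hi : ops[i]? = some a) : (recOf ops.length i a).2.1 ≤ K ∧
      (recOf ops.length i a).2.2.1 ≤ ops.length + 1 ∧
      (recOf ops.length i a).2.2.2 ≤ ops.length + 1 := by
  have hin : i < ops.length := by
    by_contra h
    rw [List.getElem?_eq_none (by omega)] at hi
    cases hi
  have hWa := hW a (List.mem_of_getElem? hi)
  generalize ops.length = n at *
  cases a with
  | lnk f =>
    have hf : f ≤ 2 * K := hWa
    simp only [recOf]
    split_ifs
    · refine ⟨?_, ?_, ?_⟩ <;> dsimp only <;> omega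
    · refine ⟨?_, ?_, ?_⟩ <;> dsimp only <;> omega
  | src f =>
    have hf : 1 ≤ f ∧ f ≤ 2 * K := hWa
    simp only [recOf]
    split_ifs
    · refine ⟨?_, ?_, ?_⟩ <;> dsimp only <;> omega
    · refine ⟨?_, ?_, ?_⟩ <;> dsimp only <;> omega
  | snk f =>
    have hf : f ≤ 2 * K := hWa
    simp only [recOf]
    split_ifs
    · refine ⟨?_, ?_, ?_⟩ <;> dsimp only <;> omega
    · refine ⟨?_, ?_, ?_⟩ <;> dsimp only <;> omega

theorem geo1_time {n i : ℕ} {a : Op} (hin : i < n) :
    i + 1 = (if (recOf n i a).1 = true then min (recOf n i a).2.2.1 (recOf n i a).2.2.2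
      else max (recOf n i a).2.2.1 (recOf n i a).2.2.2) := by
  cases a with
  | lnk f =>
    simp only [recOf]
    by_cases h : f % 2 = 1
    · simp only [if_pos h]
      simp
    · simp only [if_neg h]
      simp
  | src f =>
    simp only [recOf]
    by_cases h : f % 2 = 1
    · simp only [if_pos h]
      simp
      omega
    · simp only [if_neg h]
      simp
      omega
  | snk f =>
    simp only [recOf]
    by_cases h : f % 2 = 0
    · simp only [if_pos h]
      simp
    · simp only [if_neg h]
      simp

/-- different operations have different records -/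
theorem rec_inj {ops : List Op} {i j : ℕ} {a b : Op} (hi : ops[i]? = some a)
    (hj : ops[j]? = some b) (h : recOf ops.length i a = recOf ops.length j b) : i = j := by
  have hin : i < ops.length := by
    by_contra h
    rw [List.getElem?_eq_none (by omega)] at hi
    cases hi
  have hjn : j < ops.length := by
    by_contra h
    rw [List.getElem?_eq_none (by omega)] at hj
    cases hj
  have h1 := geo1_time (a := a) hin
  have h2 := geo1_time (a := b) hjn
  rw [h, ← h2] at h1
  omega

end MST
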