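import Pool.Agent.Work.MP_2f1fa1_lc.Mt.Defs2

namespace MST

/-- bounds -/
def BR (P K : ℕ) (p : Rec) : Prop := p.2.1 ≤ K ∧ p.2.2.1 ≤ P ∧ p.2.2.2 ≤ P

theorem geo2_abs_mul {x y A B : ℤ} (hx : |x| ≤ A) (hy : |y| ≤ B) : |x * y| ≤ A * B := by
  rw [abs_mul]
  exact mul_le_mul hx hy (abs_nonneg _) ((abs_nonneg _).trans hx)

/-- integer context: `Q = 8 (P+1)²`, `0 ≤ m < T`, `0 ≤ a, b ≤ P` -/
structure Geo2Ctx (P T Q m a b : ℤ) : Prop where
  hQ : Q = 8 * (P + 1) ^ 2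
  hP : 0 ≤ P
  hm : 0 ≤ m
  hmT : m + 1 ≤ T
  ha : 0 ≤ a
  haP : a ≤ P
  hb : 0 ≤ b
  hbP : b ≤ P

namespace Geo2Ctx

variable {P T Q m a b : ℤ} (h : Geo2Ctx P T Q m a b)
include h

theorem hQ8 : 8 * (P + 1) ≤ Q := by
  rw [h.hQ]; nlinarith [h.hP]

theorem hT : 1 ≤ T := by have := h.hm; have := h.hmT; omega

theorem hQpos : 8 ≤ Q := by have := h.hQ8; have := h.hP; omega

theorem hab : |a - b| ≤ P := by
  rw [abs_le]
  have := h.ha; have := h.haP; have := h.hb; have := h.hbP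
  constructor <;> omega

theorem hBQ : Q * T ≤ Q ^ 2 * T ^ 2 := by
  have h1 := h.hQpos
  have h2 := h.hT
  have h3 : 1 ≤ Q * T := by nlinarith
  nlinarith

theorem hQB : Q ^ 2 ≤ Q ^ 2 * T ^ 2 := by
  have h2 := h.hT
  have h3 : 1 ≤ T ^ 2 := by nlinarith
  nlinarith [sq_nonneg Q]

theorem hQTB : Q ^ 2 * T ≤ Q ^ 2 * T ^ 2 := by
  have h2 := h.hT
  have h3 : T ≤ T ^ 2 := by nlinarith
  nlinarith [sq_nonneg Q]

theorem u_le : |Q * m + (a - b)| ≤ Q * T := by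
  have h1 := h.hQ8; have h2 := h.hP; have h3 := abs_le.1 h.hab; have h4 := h.hQpos
  have h5 : 0 ≤ Q * m := mul_nonneg (by omega) h.hm
  have h6 : Q * (m + 1) ≤ Q * T := mul_le_mul_of_nonneg_left h.hmT (by omega)
  have h7 : 0 ≤ Q * T := mul_nonneg (by omega) (by have := h.hT; omega)
  rw [abs_le]
  constructor <;> nlinarith

theorem s_le : |4 * Q ^ 2 * m ^ 2 + 4 * Q * (2 * m - 1) * (a - b) + 8 * Q * a| ≤
    6 * (Q ^ 2 * T ^ 2) := by
  have h1 := h.hQ8; have h2 := h.hP; have h4 := h.hQpos; have h5 := h.hT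
  have hm := h.hm; have hmT := h.hmT
  have e1 : |4 * Q ^ 2 * m ^ 2| ≤ 4 * (Q ^ 2 * T ^ 2) := by
    rw [abs_of_nonneg (by positivity)]
    have : m ^ 2 ≤ T ^ 2 := by nlinarith
    nlinarith [sq_nonneg Q]
  have e2 : |4 * Q * (2 * m - 1) * (a - b)| ≤ Q ^ 2 * T ^ 2 := by
    have e3 : |4 * Q * (2 * m - 1)| ≤ 4 * Q * (2 * T) := by
      refine geo2_abs_mul ?_ ?_
      · rw [abs_of_nonneg (by omega)]
      · rw [abs_le]; constructor <;> omega
    refine (geo2_abs_mul e3 h.hab).trans ?_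
    refine le_trans ?_ h.hQTB
    have e4 : 0 ≤ Q * T := mul_nonneg (by omega) (by omega)
    nlinarith
  have e5 : |8 * Q * a| ≤ Q ^ 2 * T ^ 2 := by
    rw [abs_of_nonneg (mul_nonneg (by omega) h.ha)]
    refine le_trans ?_ h.hQB
    have := h.haP
    nlinarith
  refine (abs_add_three _ _ _).trans ?_
  linarith

theorem src_le : |4 * Q ^ 2 * m ^ 2 + 4 * Q * (2 * m - 1) * (a - b) + 8 * Q * a +
    2 * (Q * m + (a - b)) ^ 2| ≤ 8 * (Q ^ 2 * T ^ 2) := by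
  have h1 := h.s_le
  have h2 := geo2_abs_mul h.u_le h.u_le
  have h3 : |2 * (Q * m + (a - b)) ^ 2| ≤ 2 * (Q ^ 2 * T ^ 2) := by
    rw [abs_mul, sq, abs_of_nonneg (by norm_num : (0 : ℤ) ≤ 2)]
    nlinarith
  refine (abs_add_le _ _).trans ?_
  linarith

theorem v_le : |-Q * (2 * m - 1) + 2 * (a - b)| ≤ 2 * (Q * T) := by
  have h1 := h.hQ8; have h2 := h.hP; have h3 := abs_le.1 h.hab; have h4 := h.hQpos
  have h5 : 0 ≤ Q * m := mul_nonneg (by omega) h.hm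
  have h6 : Q * (m + 1) ≤ Q * T := mul_le_mul_of_nonneg_left h.hmT (by omega)
  have h7 : Q * 1 ≤ Q * T := mul_le_mul_of_nonneg_left h.hT (by omega)
  rw [abs_le]
  constructor <;> nlinarith

theorem t_le : |-4 * Q ^ 2 * (m * (m - 1)) + 8 * Q * b + 4 * Q + 8 * Q * m * (a - b)| ≤
    6 * (Q ^ 2 * T ^ 2) := by
  have h1 := h.hQ8; have h2 := h.hP; have h4 := h.hQpos; have h5 := h.hT
  have hm := h.hm; have hmT := h.hmT
  have e1 : |-4 * Q ^ 2 * (m * (m - 1))| ≤ 4 * (Q ^ 2 * T ^ 2) := by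
    have e2 : |m * (m - 1)| ≤ T * T :=
      geo2_abs_mul (abs_le.2 ⟨by omega, by omega⟩) (abs_le.2 ⟨by omega, by omega⟩)
    have e3 : |-4 * Q ^ 2| ≤ 4 * Q ^ 2 := by
      rw [neg_mul, abs_neg, abs_of_nonneg (by positivity)]
    refine (geo2_abs_mul e3 e2).trans ?_
    nlinarith
  have e5 : |8 * Q * b + 4 * Q| ≤ Q ^ 2 * T ^ 2 := by
    have := h.hb
    rw [abs_of_nonneg (by nlinarith)]
    refine le_trans ?_ h.hQB
    have := h.hbP
    nlinarith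
  have e6 : |8 * Q * m * (a - b)| ≤ Q ^ 2 * T ^ 2 := by
    have e3 : |8 * Q * m| ≤ 8 * Q * T := by
      rw [abs_of_nonneg (mul_nonneg (by omega) hm)]
      nlinarith
    refine (geo2_abs_mul e3 h.hab).trans ?_
    refine le_trans ?_ h.hQTB
    have e4 : 0 ≤ Q * T := mul_nonneg (by omega) (by omega)
    nlinarith
  have e7 : -4 * Q ^ 2 * (m * (m - 1)) + 8 * Q * b + 4 * Q + 8 * Q * m * (a - b) =
      -4 * Q ^ 2 * (m * (m - 1)) + (8 * Q * b + 4 * Q) + 8 * Q * m * (a - b) := by ring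
  rw [e7]
  refine (abs_add_three _ _ _).trans ?_
  linarith

theorem snk_le : |-4 * Q ^ 2 * (m * (m - 1)) + 8 * Q * b + 4 * Q + 8 * Q * m * (a - b) -
    2 * (-Q * (2 * m - 1) + 2 * (a - b)) ^ 2| ≤ 14 * (Q ^ 2 * T ^ 2) := by
  have h1 := h.t_le
  have h2 := geo2_abs_mul h.v_le h.v_le
  have h3 : |2 * (-Q * (2 * m - 1) + 2 * (a - b)) ^ 2| ≤ 8 * (Q ^ 2 * T ^ 2) := by
    rw [abs_mul, sq, abs_of_nonneg (by norm_num : (0 : ℤ) ≤ 2)]
    nlinarith
  refine (abs_sub _ _).trans ?_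
  linarith

end Geo2Ctx

/-- the main dichotomy -/
theorem geo2_F {P T Q m a b m' a' b' : ℤ} (h : Geo2Ctx P T Q m a b)
    (h' : Geo2Ctx P T Q m' a' b') :
    let F := -4 * Q ^ 2 * (m' * (m' - 1)) + 8 * Q * b' + 4 * Q + 8 * Q * m' * (a' - b') -
      (4 * Q ^ 2 * m ^ 2 + 4 * Q * (2 * m - 1) * (a - b) + 8 * Q * a) -
      4 * (Q * m + (a - b)) * (-Q * (2 * m' - 1) + 2 * (a' - b'))
    ((m' = m ∧ a ≤ b') ∨ (m' = m + 1 ∧ b ≤ a') → 0 ≤ F) ∧
    (¬((m' = m ∧ a ≤ b') ∨ (m' = m + 1 ∧ b ≤ a')) → F ≤ -1) := by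
  intro F
  have hF : F = -4 * Q ^ 2 * ((m' - m) * ((m' - m) - 1)) + 8 * Q * (b' - a) + 4 * Q +
      8 * Q * (m' - m) * (a' - b') + 8 * Q * (m' - m) * (a - b) - 8 * ((a - b) * (a' - b')) := by
    simp only [F]; ring
  have hQ8 := h.hQ8
  have hQ := h.hQpos
  have hP := h.hP
  have hprod : |(a - b) * (a' - b')| ≤ P * P := geo2_abs_mul h.hab h'.hab
  have hprod' := abs_le.1 hprod
  have hPP : 8 * (P * P) ≤ Q := by rw [h.hQ]; nlinarith
  have ha := h.ha; have haP := h.haP; have hb := h.hb; have hbP := h.hbP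
  have ha' := h'.ha; have haP' := h'.haP; have hb' := h'.hb; have hbP' := h'.hbP
  constructor
  · rintro (⟨h1, h2⟩ | ⟨h1, h2⟩)
    · subst h1
      rw [hF]
      have h3 : 0 ≤ Q * (b' - a) := mul_nonneg (by omega) (by omega)
      nlinarith
    · subst h1
      have hF2 : F = 8 * Q * (a' - b) + 4 * Q - 8 * ((a - b) * (a' - b')) := by rw [hF]; ring
      rw [hF2]
      have h3 : 0 ≤ Q * (a' - b) := mul_nonneg (by omega) (by omega)
      nlinarith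
  · intro hn
    by_cases h1 : m' = m
    · subst h1
      have h2 : b' + 1 ≤ a := by
        by_contra h3
        exact hn (Or.inl ⟨rfl, by omega⟩)
      rw [hF]
      have h3 : 0 ≤ Q * (a - b' - 1) := mul_nonneg (by omega) (by omega)
      nlinarith
    by_cases h2 : m' = m + 1
    · subst h2
      have h2 : a' + 1 ≤ b := by
        by_contra h3
        exact hn (Or.inr ⟨rfl, by omega⟩)
      have hF2 : F = 8 * Q * (a' - b) + 4 * Q - 8 * ((a - b) * (a' - b')) := by rw [hF]; ring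
      rw [hF2]
      have h3 : 0 ≤ Q * (b - a' - 1) := mul_nonneg (by omega) (by omega)
      nlinarith
    · obtain ⟨d, hd⟩ : ∃ d, d = m' - m := ⟨_, rfl⟩
      rw [← hd] at hF
      have hd0 : 1 ≤ |d| ∧ |d| ≤ d * (d - 1) := by
        rcases le_total 0 d with h3 | h3
        · rw [abs_of_nonneg h3]
          have : 2 ≤ d := by omega
          constructor
          · omega
          · nlinarith
        · rw [abs_of_nonpos h3]
          have : d ≤ -1 := by omega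
          constructor
          · omega
          · nlinarith
      obtain ⟨hd1, hd2⟩ := hd0
      have e1 : |d * (a' - b')| ≤ |d| * P := geo2_abs_mul le_rfl h'.hab
      have e2 : |d * (a - b)| ≤ |d| * P := geo2_abs_mul le_rfl h.hab
      have e1' := (abs_le.1 e1).2
      have e2' := (abs_le.1 e2).2
      have f1 : 8 * Q * (d * (a' - b')) ≤ 8 * Q * (|d| * P) :=
        mul_le_mul_of_nonneg_left e1' (by omega)
      have f2 : 8 * Q * (d * (a - b)) ≤ 8 * Q * (|d| * P) :=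
        mul_le_mul_of_nonneg_left e2' (by omega)
      have f3 : 8 * Q * (b' - a) ≤ 8 * Q * P := mul_le_mul_of_nonneg_left (by omega) (by omega)
      have f4 : 4 * Q ^ 2 * |d| ≤ 4 * Q ^ 2 * (d * (d - 1)) :=
        mul_le_mul_of_nonneg_left hd2 (by positivity)
      have f5 : Q * (8 * (P + 1)) * |d| ≤ Q ^ 2 * |d| := by
        rw [sq]
        exact mul_le_mul_of_nonneg_right (mul_le_mul_of_nonneg_left hQ8 (by omega)) (abs_nonneg _)
      have f6 : Q * (P + 1) * 1 ≤ Q * (P + 1) * |d| :=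
        mul_le_mul_of_nonneg_left hd1 (mul_nonneg (by omega) (by omega))
      have f7 : 0 ≤ Q * |d| := mul_nonneg (by omega) (abs_nonneg _)
      have f8 : 0 ≤ Q * P * |d| := mul_nonneg (mul_nonneg (by omega) hP) (abs_nonneg _)
      rw [hF]
      nlinarith

theorem geo2_ctx {P K : ℕ} {p : Rec} (hp : BR P K p) :
    Geo2Ctx P (K + 1) (scQ P) p.2.1 p.2.2.1 p.2.2.2 where
  hQ := rfl
  hP := Int.natCast_nonneg _
  hm := Int.natCast_nonneg _
  hmT := by have := hp.1; omega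
  ha := Int.natCast_nonneg _
  haP := by have := hp.2.1; omega
  hb := Int.natCast_nonneg _
  hbP := by have := hp.2.2; omega

theorem geo2_B {P K : ℕ} {p : Rec} (hp : BR P K p) : 64 ≤ scQ P ^ 2 * ((K : ℤ) + 1) ^ 2 := by
  have h := geo2_ctx hp
  have h1 := h.hQB
  have h2 := h.hQpos
  nlinarith

theorem geo2_N (P K : ℕ) : scN P K = 1000 * (scQ P ^ 2 * ((K : ℤ) + 1) ^ 2) := by
  unfold scN; ring

theorem geo2_src (P K : ℕ) (p : Rec) (h : p.1 = true) : pt P K p =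
    (4 * scQ P ^ 2 * (p.2.1 : ℤ) ^ 2 + 4 * scQ P * (2 * (p.2.1 : ℤ) - 1) *
      ((p.2.2.1 : ℤ) - p.2.2.2) + 8 * scQ P * p.2.2.1 +
      2 * (scQ P * (p.2.1 : ℤ) + ((p.2.2.1 : ℤ) - p.2.2.2)) ^ 2,
      2 * scN P K * (scQ P * (p.2.1 : ℤ) + ((p.2.2.1 : ℤ) - p.2.2.2))) := by
  unfold pt
  rw [h]
  rfl

theorem geo2_snk (P K : ℕ) (p : Rec) (h : p.1 = false) : pt P K p =
    (scN P K ^ 2 + (-4 * scQ P ^ 2 * ((p.2.1 : ℤ) * ((p.2.1 : ℤ) - 1)) + 8 * scQ P * p.2.2.2 +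
      4 * scQ P + 8 * scQ P * (p.2.1 : ℤ) * ((p.2.2.1 : ℤ) - p.2.2.2)) -
      2 * (-scQ P * (2 * (p.2.1 : ℤ) - 1) + 2 * ((p.2.2.1 : ℤ) - p.2.2.2)) ^ 2,
      2 * scN P K * (-scQ P * (2 * (p.2.1 : ℤ) - 1) + 2 * ((p.2.2.1 : ℤ) - p.2.2.2))) := by
  unfold pt
  rw [h]
  rfl

theorem pt_far {P K : ℕ} {p q : Rec} (hp : BR P K p) (hq : BR P K q) (h1 : p.1 = true)
    (h2 : q.1 = false) : scN P K ^ 4 ≤ d2 (pt P K p) (pt P K q) ↔ RAdj p q := by
  have cp := geo2_ctx hp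
  have cq := geo2_ctx hq
  have hF := geo2_F cp cq
  have hB := geo2_B hp
  have hs := cp.src_le
  have ht := cq.snk_le
  rw [geo2_src P K p h1, geo2_snk P K q h2, geo2_N]
  unfold d2 RAdj
  have hadj : ((q.2.1 = p.2.1 ∧ p.2.2.1 ≤ q.2.2.2) ∨ (q.2.1 = p.2.1 + 1 ∧ p.2.2.2 ≤ q.2.2.1)) ↔
      (((q.2.1 : ℤ) = p.2.1 ∧ (p.2.2.1 : ℤ) ≤ q.2.2.2) ∨
        ((q.2.1 : ℤ) = p.2.1 + 1 ∧ (p.2.2.2 : ℤ) ≤ q.2.2.1)) := by
    constructor
    · rintro (⟨a, b⟩ | ⟨a, b⟩)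
      · exact Or.inl ⟨by omega, by omega⟩
      · exact Or.inr ⟨by omega, by omega⟩
    · rintro (⟨a, b⟩ | ⟨a, b⟩)
      · exact Or.inl ⟨by omega, by omega⟩
      · exact Or.inr ⟨by omega, by omega⟩
  rw [hadj]
  obtain ⟨B, hBd⟩ : ∃ B, B = scQ P ^ 2 * ((K : ℤ) + 1) ^ 2 := ⟨_, rfl⟩
  rw [← hBd] at hB hs ht ⊢
  obtain ⟨hF1, hF2⟩ := hF
  obtain ⟨Q, hQ⟩ : ∃ Q, Q = scQ P := ⟨_, rfl⟩
  rw [← hQ] at hF1 hF2 hs ht ⊢
  clear cp cq hadj hp hq hBd hQ
  generalize (p.2.1 : ℤ) = m at *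
  generalize (p.2.2.1 : ℤ) = a at *
  generalize (p.2.2.2 : ℤ) = b at *
  generalize (q.2.1 : ℤ) = m' at *
  generalize (q.2.2.1 : ℤ) = a' at *
  generalize (q.2.2.2 : ℤ) = b' at *
  obtain ⟨u, hu⟩ : ∃ u, u = Q * m + (a - b) := ⟨_, rfl⟩
  obtain ⟨v, hv⟩ : ∃ v, v = -Q * (2 * m' - 1) + 2 * (a' - b') := ⟨_, rfl⟩
  obtain ⟨s, hs'⟩ : ∃ s, s = 4 * Q ^ 2 * m ^ 2 + 4 * Q * (2 * m - 1) * (a - b) + 8 * Q * a :=
    ⟨_, rfl⟩
  obtain ⟨t, ht'⟩ : ∃ t, t = -4 * Q ^ 2 * (m' * (m' - 1)) + 8 * Q * b' + 4 * Q +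
    8 * Q * m' * (a' - b') := ⟨_, rfl⟩
  rw [← hu, ← hv, ← hs', ← ht'] at hF1 hF2
  rw [← hu, ← hs'] at hs
  rw [← hv, ← ht'] at ht
  simp only [← hu, ← hv, ← hs', ← ht']
  have hX : |(s + 2 * u ^ 2) - (t - 2 * v ^ 2)| ≤ 22 * B := by
    refine (abs_sub _ _).trans ?_
    linarith
  have hX2 := abs_le.1 hX
  obtain ⟨X, hXd⟩ : ∃ X, X = (s + 2 * u ^ 2) - (t - 2 * v ^ 2) := ⟨_, rfl⟩
  rw [← hXd] at hX2
  have hkey : (s + 2 * u ^ 2 - ((1000 * B) ^ 2 + t - 2 * v ^ 2)) ^ 2 +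
      (2 * (1000 * B) * u - 2 * (1000 * B) * v) ^ 2 =
      (1000 * B) ^ 4 + 2 * (1000 * B) ^ 2 * (t - s - 4 * u * v) + X ^ 2 := by
    rw [hXd]; ring
  rw [hkey]
  have hXX : X ^ 2 ≤ 484 * B ^ 2 := by nlinarith
  constructor
  · intro h3
    by_contra hn
    have h4 := hF2 hn
    nlinarith
  · intro h3
    have h4 := hF1 h3
    have h5 : 0 ≤ B ^ 2 * (t - s - 4 * u * v) := mul_nonneg (by positivity) h4
    nlinarith

theorem pt_near {P K : ℕ} {p q : Rec} (hp : BR P K p) (hq : BR P K q) (h : p.1 = q.1) :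
    d2 (pt P K p) (pt P K q) < scN P K ^ 4 := by
  have cp := geo2_ctx hp
  have cq := geo2_ctx hq
  have hB := geo2_B hp
  have hBQ := cp.hBQ
  have hQT : 0 ≤ scQ P * ((K : ℤ) + 1) := mul_nonneg (by have := cp.hQpos; omega) (by omega)
  have hgen : ∀ B D x1 x2 y1 y2 : ℤ, 64 ≤ B → D ^ 2 = B → 0 ≤ D → |x1| ≤ 14 * B → |x2| ≤ 14 * B →
      |y1| ≤ 2 * D → |y2| ≤ 2 * D →
      (x1 - x2) ^ 2 + (2 * (1000 * B) * y1 - 2 * (1000 * B) * y2) ^ 2 < (1000 * B) ^ 4 := by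
    intro B D x1 x2 y1 y2 hB hD hD0 h1 h2 h3 h4
    have h5 : (x1 - x2) ^ 2 ≤ (28 * B) ^ 2 := by
      apply sq_le_sq'
      · have := abs_le.1 h1; have := abs_le.1 h2; linarith
      · have := abs_le.1 h1; have := abs_le.1 h2; linarith
    have h6 : (y1 - y2) ^ 2 ≤ (4 * D) ^ 2 := by
      apply sq_le_sq'
      · have := abs_le.1 h3; have := abs_le.1 h4; linarith
      · have := abs_le.1 h3; have := abs_le.1 h4; linarith
    have h7 : (2 * (1000 * B) * y1 - 2 * (1000 * B) * y2) ^ 2 =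
        (2000 * B) ^ 2 * (y1 - y2) ^ 2 := by ring
    have h8 : (2000 * B) ^ 2 * (y1 - y2) ^ 2 ≤ (2000 * B) ^ 2 * (16 * B) := by
      apply mul_le_mul_of_nonneg_left _ (by positivity)
      nlinarith
    have h9 : 0 < B := by omega
    have h10 : B ^ 2 ≤ B ^ 3 := by nlinarith [sq_nonneg B]
    have h11 : 64 * B ^ 3 ≤ B ^ 4 := by nlinarith [pow_pos h9 3]
    have h12 : 0 < B ^ 3 := pow_pos h9 3
    nlinarith
  unfold d2
  rw [geo2_N]
  obtain ⟨B, hBd⟩ : ∃ B, B = scQ P ^ 2 * ((K : ℤ) + 1) ^ 2 := ⟨_, rfl⟩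
  have hDB : (scQ P * ((K : ℤ) + 1)) ^ 2 = B := by rw [hBd]; ring
  cases hc : p.1 with
  | true =>
    have hc' : q.1 = true := by rw [← h, hc]
    have h1 := cp.src_le
    have h2 := cq.src_le
    have h3 := cp.u_le
    have h4 := cq.u_le
    rw [geo2_src P K p hc, geo2_src P K q hc', geo2_N]
    rw [← hBd] at h1 h2 hB ⊢
    exact hgen B _ _ _ _ _ hB hDB hQT (by linarith) (by linarith) (by linarith) (by linarith)
  | false =>
    have hc' : q.1 = false := by rw [← h, hc]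
    have h1 := cp.snk_le
    have h2 := cq.snk_le
    have h3 := cp.v_le
    have h4 := cq.v_le
    rw [geo2_snk P K p hc, geo2_snk P K q hc', geo2_N]
    rw [← hBd] at h1 h2 hB ⊢
    have := hgen B _ _ _ _ _ hB hDB hQT h1 h2 h3 h4
    refine lt_of_eq_of_lt ?_ this
    ring

theorem pt_inj {P K : ℕ} {p q : Rec} (hp : BR P K p) (hq : BR P K q)
    (h : pt P K p = pt P K q) : p = q := by
  have cp := geo2_ctx hp
  have cq := geo2_ctx hq
  have hB := geo2_B hp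
  have hN0 : 0 < scN P K := by rw [geo2_N]; linarith
  have hQ8 := cp.hQ8
  have hQpos := cp.hQpos
  have a1 := abs_le.1 cp.hab
  have a2 := abs_le.1 cq.hab
  have hfin : p.1 = q.1 → (p.2.1 : ℤ) = q.2.1 → (p.2.2.1 : ℤ) = q.2.2.1 →
      (p.2.2.2 : ℤ) = q.2.2.2 → p = q := by
    intro e1 e2 e3 e4
    refine Prod.ext e1 (Prod.ext ?_ (Prod.ext ?_ ?_))
    · exact_mod_cast e2
    · exact_mod_cast e3
    · exact_mod_cast e4
  have hmix : ∀ p q : Rec, BR P K p → BR P K q → p.1 = true → q.1 = false →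
      pt P K p ≠ pt P K q := by
    intro p q hp hq h1 h2 h
    have h3 := congrArg Prod.fst h
    rw [geo2_src P K p h1, geo2_snk P K q h2, geo2_N] at h3
    simp only at h3
    have b1 := abs_le.1 (geo2_ctx hp).src_le
    have b2 := abs_le.1 (geo2_ctx hq).snk_le
    have hB := geo2_B hp
    nlinarith
  cases hc : p.1 with
  | true =>
    cases hc' : q.1 with
    | false => exact absurd h (hmix p q hp hq hc hc')
    | true =>
      have h1 := congrArg Prod.fst h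
      have h2 := congrArg Prod.snd h
      rw [geo2_src P K p hc, geo2_src P K q hc'] at h1 h2
      simp only at h1 h2
      have h3 : scQ P * (p.2.1 : ℤ) + ((p.2.2.1 : ℤ) - p.2.2.2) =
          scQ P * (q.2.1 : ℤ) + ((q.2.2.1 : ℤ) - q.2.2.2) :=
        mul_left_cancel₀ (mul_ne_zero two_ne_zero hN0.ne') h2
      have h4 : (p.2.1 : ℤ) = q.2.1 := by
        by_contra hne
        rcases lt_or_gt_of_ne hne with h5 | h5
        · have : scQ P * ((p.2.1 : ℤ) + 1) ≤ scQ P * q.2.1 :=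
            mul_le_mul_of_nonneg_left (by omega) (by omega)
          linarith
        · have : scQ P * ((q.2.1 : ℤ) + 1) ≤ scQ P * p.2.1 :=
            mul_le_mul_of_nonneg_left (by omega) (by omega)
          linarith
      rw [h4] at h1 h3
      have h5 : (p.2.2.1 : ℤ) - p.2.2.2 = (q.2.2.1 : ℤ) - q.2.2.2 := by linarith
      rw [h5] at h1
      have h6 : (8 * scQ P) * (p.2.2.1 : ℤ) = (8 * scQ P) * q.2.2.1 := by linarith
      have h7 : (p.2.2.1 : ℤ) = q.2.2.1 := mul_left_cancel₀ (mul_ne_zero (by norm_num) (by omega)) h6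
      exact hfin (by rw [hc, hc']) h4 h7 (by linarith)
  | false =>
    cases hc' : q.1 with
    | true => exact absurd h.symm (hmix q p hq hp hc' hc)
    | false =>
      have h1 := congrArg Prod.fst h
      have h2 := congrArg Prod.snd h
      rw [geo2_snk P K p hc, geo2_snk P K q hc'] at h1 h2
      simp only at h1 h2
      have h3 : -scQ P * (2 * (p.2.1 : ℤ) - 1) + 2 * ((p.2.2.1 : ℤ) - p.2.2.2) =
          -scQ P * (2 * (q.2.1 : ℤ) - 1) + 2 * ((q.2.2.1 : ℤ) - q.2.2.2) :=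
        mul_left_cancel₀ (mul_ne_zero two_ne_zero hN0.ne') h2
      have h4 : (p.2.1 : ℤ) = q.2.1 := by
        by_contra hne
        rcases lt_or_gt_of_ne hne with h5 | h5
        · have : scQ P * ((p.2.1 : ℤ) + 1) ≤ scQ P * q.2.1 :=
            mul_le_mul_of_nonneg_left (by omega) (by omega)
          linarith
        · have : scQ P * ((q.2.1 : ℤ) + 1) ≤ scQ P * p.2.1 :=
            mul_le_mul_of_nonneg_left (by omega) (by omega)
          linarith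
      rw [h4] at h1 h3
      have h5 : (p.2.2.1 : ℤ) - p.2.2.2 = (q.2.2.1 : ℤ) - q.2.2.2 := by linarith
      rw [h5] at h1
      have h6 : (8 * scQ P) * (p.2.2.2 : ℤ) = (8 * scQ P) * q.2.2.2 := by linarith
      have h7 : (p.2.2.2 : ℤ) = q.2.2.2 := mul_left_cancel₀ (mul_ne_zero (by norm_num) (by omega)) h6
      exact hfin (by rw [hc, hc']) h4 (by linarith) h7

end MST
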