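import Pool.Agent.Work.MP_2f1fa1_lc.Mt.Geo1
import Pool.Agent.Work.MP_2f1fa1_lc.Mt.Geo2

namespace MST

theorem d2_symm (p q : ℤ × ℤ) : d2 p q = d2 q p := by unfold d2; ring

theorem geo3_length (K : ℕ) (ops : List Op) : (points K ops).length = ops.length := by
  simp [points]

theorem geo3_get {K : ℕ} {ops : List Op} {i : ℕ} (h : i < (points K ops).length)
    (h' : i < ops.length) :
    (points K ops)[i] = pt (ops.length + 1) K (recOf ops.length i ops[i]) := by
  simp [points]

theorem geo3_br {K : ℕ} {ops : List Op} (hW : WF K ops) {i : ℕ} (h : i < ops.length) :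
    BR (ops.length + 1) K (recOf ops.length i ops[i]) :=
  rec_le hW (List.getElem?_eq_getElem h)

theorem points_nodup {K : ℕ} {ops : List Op} (hW : WF K ops) : (points K ops).Nodup := by
  rw [List.nodup_iff_injective_get]
  rintro ⟨i, hi⟩ ⟨j, hj⟩ h
  have hi' : i < ops.length := by rwa [geo3_length] at hi
  have hj' : j < ops.length := by rwa [geo3_length] at hj
  simp only [List.get_eq_getElem] at h
  rw [geo3_get hi hi', geo3_get hj hj'] at h
  have h1 := pt_inj (geo3_br hW hi') (geo3_br hW hj') h
  have h2 := rec_inj (List.getElem?_eq_getElem hi') (List.getElem?_eq_getElem hj') h1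
  subst h2; rfl

/-- far points are adjacent operations -/
theorem geo3_far {K : ℕ} {ops : List Op} (hW : WF K ops) {i j : ℕ}
    (hi : i < (points K ops).length) (hj : j < (points K ops).length) :
    scN (ops.length + 1) K ^ 4 ≤ d2 (points K ops)[i] (points K ops)[j] ↔ Adj ops i j := by
  have hi' : i < ops.length := by rwa [geo3_length] at hi
  have hj' : j < ops.length := by rwa [geo3_length] at hj
  rw [geo3_get hi hi', geo3_get hj hj']
  have gi := List.getElem?_eq_getElem hi'
  have gj := List.getElem?_eq_getElem hj'
  have bi := geo3_br hW hi'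
  have bj := geo3_br hW hj'
  have key : ∀ {i j : ℕ}, Arc ops i j → ∀ (hi : i < ops.length) (hj : j < ops.length),
      ops[i].isSrc = true ∧ ops[j].isSrc = false := by
    rintro i j ⟨_, a, b, ha, hb, h1, h2, _⟩ hi hj
    rw [List.getElem?_eq_getElem hi, Option.some.injEq] at ha
    rw [List.getElem?_eq_getElem hj, Option.some.injEq] at hb
    rw [ha, hb]; exact ⟨h1, h2⟩
  cases ha : ops[i].isSrc with
  | true =>
    cases hb : ops[j].isSrc with
    | true =>
      constructor
      · intro h
        exact absurd h (not_le.2 (pt_near bi bj (by rw [rec_fst, rec_fst, ha, hb])))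
      · rintro (h | h)
        · have := (key h hi' hj').2
          rw [hb] at this; cases this
        · have := (key h hj' hi').2
          rw [ha] at this; cases this
    | false =>
      rw [pt_far bi bj (by rw [rec_fst, ha]) (by rw [rec_fst, hb]), ← arc_rec hW gi gj ha hb]
      constructor
      · exact Or.inl
      · rintro (h | h)
        · exact h
        · have := (key h hj' hi').1
          rw [hb] at this; cases this
  | false =>
    cases hb : ops[j].isSrc with
    | true =>
      rw [d2_symm, pt_far bj bi (by rw [rec_fst, hb]) (by rw [rec_fst, ha]),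
        ← arc_rec hW gj gi hb ha]
      constructor
      · exact Or.inr
      · rintro (h | h)
        · have := (key h hi' hj').1
          rw [ha] at this; cases this
        · exact h
    | false =>
      constructor
      · intro h
        exact absurd h (not_le.2 (pt_near bi bj (by rw [rec_fst, rec_fst, ha, hb])))
      · rintro (h | h)
        · have := (key h hi' hj').1
          rw [ha] at this; cases this
        · have := (key h hj' hi').1
          rw [hb] at this; cases this

/-- the scatter problem of the point list is the Hamiltonian cycle problem -/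
theorem scatter_iff {K : ℕ} {ops : List Op} (hW : WF K ops) (h3 : 3 ≤ ops.length) :
    ScatterYes (points K ops) (scN (ops.length + 1) K ^ 4) ↔ Ham ops.length (Adj ops) := by
  have hlen := geo3_length K ops
  have hnd := points_nodup hW
  constructor
  · rintro ⟨_, _, l, hl, ht⟩
    have hll : l.length = ops.length := by rw [hl.length_eq, hlen]
    have hlnd : l.Nodup := hl.nodup_iff.2 hnd
    -- the permutation
    have hmem : ∀ i (h : i < l.length), l[i] ∈ points K ops := fun i h =>
      hl.mem_iff.1 (List.getElem_mem h)
    let g : ℕ → ℕ := fun i => if h : i < l.length then (points K ops).idxOf l[i] else 0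
    have hg : ∀ i (h : i < l.length), ∃ h' : g i < (points K ops).length,
        (points K ops)[g i] = l[i] := by
      intro i h
      have e : g i = (points K ops).idxOf l[i] := dif_pos h
      have h1 : g i < (points K ops).length := by
        rw [e]; exact List.idxOf_lt_length_of_mem (hmem i h)
      refine ⟨h1, ?_⟩
      simp only [e, List.getElem_idxOf]
    have hmaps : Set.MapsTo g (Set.Iio ops.length) (Set.Iio ops.length) := by
      intro i hi
      obtain ⟨h1, _⟩ := hg i (by rw [hll]; exact hi)
      rw [hlen] at h1; exact h1
    have hinj : Set.InjOn g (Set.Iio ops.length) := by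
      intro i hi j hj hij
      obtain ⟨h1, e1⟩ := hg i (by rw [hll]; exact hi)
      obtain ⟨h2, e2⟩ := hg j (by rw [hll]; exact hj)
      have : l[i]'(by rw [hll]; exact hi) = l[j]'(by rw [hll]; exact hj) := by
        rw [← e1, ← e2]; congr 1
      exact (hlnd.getElem_inj_iff).1 this
    refine ⟨g, ((Set.finite_Iio _).injOn_iff_bijOn_of_mapsTo hmaps).1 hinj, ?_⟩
    · intro i hi
      have hi' : i < l.length := by rw [hll]; exact hi
      have hm : (i + 1) % l.length < l.length := Nat.mod_lt _ (by omega)
      obtain ⟨h1, e1⟩ := hg i hi'
      obtain ⟨h2, e2⟩ := hg _ hm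
      have h5 := ht i hi'
      rw [← hll]
      rw [← geo3_far hW h1 h2, e1, e2]
      exact h5
  · rintro ⟨g, ⟨hmaps, hinj, hsurj⟩, hadj⟩
    refine ⟨hnd, by rw [hlen]; exact h3, ?_⟩
    have hgl : ∀ i < ops.length, g i < (points K ops).length := by
      intro i hi; rw [hlen]; exact hmaps hi
    let l : List (ℤ × ℤ) := (List.range ops.length).map fun i => (points K ops).getD (g i) (0, 0)
    have hll : l.length = ops.length := by simp [l]
    have hget : ∀ i (h : i < ops.length) (h' : i < l.length), l[i] = (points K ops)[g i]'(hgl i h) := by
      intro i h h'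
      simp [l, List.getD, hgl i h]
    refine ⟨l, ?_, ?_⟩
    · apply (List.perm_ext_iff_of_nodup ?_ hnd).2
      · intro a
        rw [List.mem_iff_getElem, List.mem_iff_getElem]
        constructor
        · rintro ⟨i, hi, rfl⟩
          have hi' : i < ops.length := by rw [← hll]; exact hi
          exact ⟨g i, hgl i hi', (hget i hi' hi).symm⟩
        · rintro ⟨j, hj, rfl⟩
          obtain ⟨i, hi, rfl⟩ := hsurj (show j ∈ Set.Iio ops.length by rw [← hlen]; exact hj)
          exact ⟨i, by rw [hll]; exact hi, hget i hi _⟩
      · rw [List.nodup_iff_injective_get]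
        rintro ⟨i, hi⟩ ⟨j, hj⟩ h
        have hi' : i < ops.length := by rw [← hll]; exact hi
        have hj' : j < ops.length := by rw [← hll]; exact hj
        simp only [List.get_eq_getElem] at h
        rw [hget i hi' hi, hget j hj' hj] at h
        have h1 := (hnd.getElem_inj_iff).1 h
        have h2 := hinj hi' hj' h1
        subst h2; rfl
    · intro i hi
      have hi' : i < ops.length := by rw [← hll]; exact hi
      have hm : (i + 1) % l.length < ops.length := by rw [hll]; exact Nat.mod_lt _ (by omega)
      rw [hget i hi' hi, hget _ hm]
      rw [geo3_far hW]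
      have := hadj i hi'
      rw [hll]
      exact this

end MST
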