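import Pool.Agent.Work.MP_2f1fa1_lc.Mt.Defs2

/-! # Glue1a : existence of a matching of the stubs (Hall) -/

namespace MST

/-- `stub` counts the stubs -/
theorem g1a_stub_eq (x : Op × ℕ) (hx : x.2 ≤ 2) (r : ℕ) :
    stub x r = (Finset.univ.filter fun b : Bool => srow x b = r).card := by
  rw [Finset.card_filter, Fintype.sum_bool]
  obtain ⟨o, k⟩ := x
  simp only at hx
  cases o with
  | lnk f =>
    unfold stub srow
    simp only [if_true, Bool.false_eq_true, if_false]
    by_cases hf : f % 2 = 1
    · simp only [hf, if_true]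
      interval_cases k <;> simp <;> split_ifs <;> omega
    · simp only [hf, if_false]
      interval_cases k <;> simp <;> split_ifs <;> omega
  | src s =>
    unfold stub srow
    simp only
    split_ifs <;> omega
  | snk s =>
    unfold stub srow
    simp only
    split_ifs <;> omega

/-- the operation number `i` -/
def g1a_x (L : List (Op × ℕ)) (i : ℕ) : Op × ℕ := L.getD i (Op.src 0, 0)

def g1a_kind (L : List (Op × ℕ)) (s : ℕ × Bool) : Bool := (g1a_x L s.1).1.isSrc

def g1a_row (L : List (Op × ℕ)) (s : ℕ × Bool) : ℕ := srow (g1a_x L s.1) s.2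

/-- the stubs of kind `k` on row `r` before the time `t` -/
def g1a_S (L : List (Op × ℕ)) (k : Bool) (r t : ℕ) : Finset (ℕ × Bool) :=
  ((Finset.range t) ×ˢ (Finset.univ : Finset Bool)).filter fun s =>
    g1a_kind L s = k ∧ g1a_row L s = r

theorem g1a_mem {L : List (Op × ℕ)} {k : Bool} {r t : ℕ} {s : ℕ × Bool} :
    s ∈ g1a_S L k r t ↔ s.1 < t ∧ g1a_kind L s = k ∧ g1a_row L s = r := by
  unfold g1a_S
  rw [Finset.mem_filter, Finset.mem_product]
  simp

theorem g1a_card (L : List (Op × ℕ)) (k : Bool) (r t : ℕ) :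
    (g1a_S L k r t).card = ∑ i ∈ Finset.range t,
      if (g1a_x L i).1.isSrc = k then
        (Finset.univ.filter fun b : Bool => srow (g1a_x L i) b = r).card else 0 := by
  unfold g1a_S
  rw [Finset.card_filter, Finset.sum_product]
  refine Finset.sum_congr rfl fun i _ => ?_
  unfold g1a_kind g1a_row
  simp only
  by_cases h : (g1a_x L i).1.isSrc = k
  · simp only [h, true_and, if_true]
    rw [Finset.card_filter]
  · simp [h]

theorem g1a_Dl (L : List (Op × ℕ)) (hle : ∀ x ∈ L, x.2 ≤ 2) (r t : ℕ) (ht : t ≤ L.length) :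
    Dl (L.take t) r = ((g1a_S L true r t).card : ℤ) - (g1a_S L false r t).card := by
  induction t with
  | zero => simp [Dl, g1a_S]
  | succ t ih =>
    have ht' : t < L.length := ht
    have hx : g1a_x L t = L[t] := by
      unfold g1a_x
      simp [List.getD, List.getElem?_eq_getElem ht']
    have h1 : Dl (L.take (t + 1)) r = Dl (L.take t) r + ctr (g1a_x L t) r := by
      rw [List.take_succ_eq_append_getElem ht', hx]
      unfold Dl
      rw [List.map_append, List.sum_append]
      simp
    rw [h1, ih ht'.le, g1a_card, g1a_card, g1a_card, g1a_card, Finset.sum_range_succ,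
      Finset.sum_range_succ]
    have h2 : (g1a_x L t).2 ≤ 2 := by rw [hx]; exact hle _ (List.getElem_mem ht')
    unfold ctr
    rw [g1a_stub_eq _ h2]
    cases (g1a_x L t).1.isSrc
    · simp; ring
    · simp; ring

/-- existence of a matching of the stubs -/
theorem exists_mat (L : List (Op × ℕ)) (hF : Feas L) : ∃ M, Mat L M := by
  classical
  have hgx : ∀ i x, L[i]? = some x → g1a_x L i = x := by
    intro i x h
    unfold g1a_x
    simp [List.getD, h]
  have hD := g1a_Dl L hF.le2
  have hnn : ∀ r t, t ≤ L.length → (g1a_S L false r t).card ≤ (g1a_S L true r t).card := by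
    intro r t ht
    have h1 := hF.nonneg (L.take t) (L.drop t) (List.take_append_drop t L).symm r
    rw [hD r t ht] at h1
    omega
  have heq : ∀ r, (g1a_S L false r L.length).card = (g1a_S L true r L.length).card := by
    intro r
    have h1 := hF.fin r
    have h2 := hD r L.length le_rfl
    rw [List.take_length] at h2
    omega
  -- Hall
  let ι := {s : ℕ × Bool // s.1 < L.length ∧ g1a_kind L s = false}
  let tt : ι → Finset (ℕ × Bool) := fun s => g1a_S L true (g1a_row L s.1) s.1.1
  obtain ⟨f, hfi, hft⟩ := (Finset.all_card_le_biUnion_card_iff_exists_injective tt).1 (by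
    intro X
    set X' : Finset (ℕ × Bool) := X.map (Function.Embedding.subtype _) with hX'
    have hXc : X.card = X'.card := by rw [hX', Finset.card_map]
    rw [hXc]
    set U := X.biUnion tt with hU
    set R := X'.image (g1a_row L) with hR
    have h1 : X'.card = ∑ r ∈ R, (X'.filter fun s => g1a_row L s = r).card :=
      Finset.card_eq_sum_card_image _ _
    have h2 : U.card = ∑ r ∈ R, (U.filter fun s => g1a_row L s = r).card := by
      apply Finset.card_eq_sum_card_fiberwise
      intro u hu
      rw [Finset.mem_coe, hU, Finset.mem_biUnion] at hu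
      obtain ⟨s, hs, hus⟩ := hu
      rw [Finset.mem_coe, hR, Finset.mem_image]
      refine ⟨s.1, ?_, ?_⟩
      · rw [hX', Finset.mem_map]; exact ⟨s, hs, rfl⟩
      · exact (g1a_mem.1 hus).2.2.symm
    rw [h1, h2]
    refine Finset.sum_le_sum fun r hr => ?_
    have hne : (X'.filter fun s => g1a_row L s = r).Nonempty := by
      rw [hR, Finset.mem_image] at hr
      obtain ⟨s, hs, hsr⟩ := hr
      exact ⟨s, Finset.mem_filter.2 ⟨hs, hsr⟩⟩
    obtain ⟨s, hs, hmax⟩ := Finset.exists_max_image _ (fun s => s.1) hne
    rw [Finset.mem_filter] at hs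
    obtain ⟨hsX, hsr⟩ := hs
    rw [hX', Finset.mem_map] at hsX
    obtain ⟨s0, hs0, rfl⟩ := hsX
    have hs1 : s0.1.1 < L.length := s0.2.1
    have hs2 : g1a_kind L s0.1 = false := s0.2.2
    have hsr' : g1a_row L s0.1 = r := hsr
    have a1 : (X'.filter fun s => g1a_row L s = r) ⊆ g1a_S L false r (s0.1.1 + 1) := by
      intro u hu
      have hu' := hmax u hu
      rw [Finset.mem_filter] at hu
      obtain ⟨huX, hur⟩ := hu
      rw [hX', Finset.mem_map] at huX
      obtain ⟨u0, hu0, rfl⟩ := huX
      refine g1a_mem.2 ⟨Nat.lt_succ_of_le hu', u0.2.2, hur⟩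
    have a2 : g1a_S L true r (s0.1.1 + 1) ⊆ (U.filter fun s => g1a_row L s = r) := by
      intro u hu
      have hu' := g1a_mem.1 hu
      rw [Finset.mem_filter, hU, Finset.mem_biUnion]
      refine ⟨⟨s0, hs0, ?_⟩, hu'.2.2⟩
      refine g1a_mem.2 ⟨?_, hu'.2.1, ?_⟩
      · have h3 : u.1 ≠ s0.1.1 := by
          intro h4
          have h5 := hu'.2.1
          unfold g1a_kind at h5 hs2
          rw [h4, hs2] at h5
          exact absurd h5 (by decide)
        have := hu'.1
        omega
      · rw [hu'.2.2, hsr']
    exact (Finset.card_le_card a1).trans ((hnn r _ hs1).trans (Finset.card_le_card a2)))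
  have hf : ∀ s : ι, (f s).1 < s.1.1 ∧ g1a_kind L (f s) = true ∧
      g1a_row L (f s) = g1a_row L s.1 := fun s => g1a_mem.1 (hft s)
  -- surjectivity
  have hsurj : ∀ u : ℕ × Bool, u.1 < L.length → g1a_kind L u = true → ∃ s : ι, f s = u := by
    intro u hu1 hu2
    set r := g1a_row L u with hr
    set B := (g1a_S L false r L.length).attach.image (fun s =>
      f ⟨s.1, (g1a_mem.1 s.2).1, (g1a_mem.1 s.2).2.1⟩) with hB
    have hBc : B.card = (g1a_S L false r L.length).card := by
      rw [hB, Finset.card_image_of_injective, Finset.card_attach]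
      intro s s' h
      have h1 := hfi h
      rw [Subtype.mk.injEq] at h1
      exact Subtype.ext h1
    have hsub : B ⊆ g1a_S L true r L.length := by
      intro v hv
      rw [hB, Finset.mem_image] at hv
      obtain ⟨s, -, rfl⟩ := hv
      have h1 := hf ⟨s.1, (g1a_mem.1 s.2).1, (g1a_mem.1 s.2).2.1⟩
      have h2 := g1a_mem.1 s.2
      refine g1a_mem.2 ⟨h1.1.trans h2.1, h1.2.1, h1.2.2.trans h2.2.2⟩
    have hBe := Finset.eq_of_subset_of_card_le hsub (by rw [hBc, heq])
    have hu : u ∈ B := by
      rw [hBe]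
      exact g1a_mem.2 ⟨hu1, hu2, hr.symm⟩
    rw [hB, Finset.mem_image] at hu
    obtain ⟨s, -, hs⟩ := hu
    exact ⟨_, hs⟩
  choose g hg using hsurj
  let M : ℕ × Bool → ℕ × Bool := fun s =>
    if h : s.1 < L.length then
      (if k : g1a_kind L s = true then (g s h k).1 else
        f ⟨s, h, by simpa using k⟩)
    else s
  have hMs : ∀ s (h : s.1 < L.length) (k : g1a_kind L s = true), M s = (g s h k).1 := by
    intro s h k
    simp only [M]
    rw [dif_pos h, dif_pos k]
  have hMk : ∀ s (h : s.1 < L.length) (k : g1a_kind L s = false), M s = f ⟨s, h, k⟩ := by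
    intro s h k
    simp only [M]
    rw [dif_pos h, dif_neg (by rw [k]; decide)]
  refine ⟨M, ?_, ?_, ?_, ?_⟩
  · intro s hs
    by_cases k : g1a_kind L s = true
    · have h1 := hg s hs k
      have h2 : g1a_kind L (g s hs k).1 = false := (g s hs k).2.2
      rw [hMs s hs k, hMk _ (g s hs k).2.1 h2]
      exact h1
    · have k' : g1a_kind L s = false := by simpa using k
      rw [hMk s hs k']
      have h1 := hf ⟨s, hs, k'⟩
      have h2 : (f ⟨s, hs, k'⟩).1 < L.length := h1.1.trans hs
      rw [hMs _ h2 h1.2.1]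
      have h3 := hfi (hg _ h2 h1.2.1)
      rw [h3]
  · intro s hs
    by_cases k : g1a_kind L s = true
    · rw [hMs s hs k]
      exact (g s hs k).2.1
    · have k' : g1a_kind L s = false := by simpa using k
      rw [hMk s hs k']
      exact (hf ⟨s, hs, k'⟩).1.trans hs
  · intro s x y hx hy hxs
    have hs : s.1 < L.length := (List.getElem?_eq_some_iff.1 hx).1
    have h1 := hgx _ _ hx
    have h2 := hgx _ _ hy
    have k : g1a_kind L s = true := by unfold g1a_kind; rw [h1]; exact hxs
    have h3 := hMs s hs k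
    have h4 := hf (g s hs k)
    rw [hg s hs k] at h4
    have h5 : g1a_kind L (g s hs k).1 = false := (g s hs k).2.2
    rw [← h3] at h4 h5
    unfold g1a_kind g1a_row at *
    rw [h1, h2] at *
    exact ⟨h4.1, h5, h4.2.2.symm⟩
  · intro s x y hx hy hxs
    have hs : s.1 < L.length := (List.getElem?_eq_some_iff.1 hx).1
    have h1 := hgx _ _ hx
    have h2 := hgx _ _ hy
    have k : g1a_kind L s = false := by unfold g1a_kind; rw [h1]; exact hxs
    have h3 := hMk s hs k
    have h4 := hf ⟨s, hs, k⟩
    rw [← h3] at h4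
    unfold g1a_kind g1a_row at h4
    rw [h2] at h4
    simp only at h4
    rw [h1] at h4
    exact h4

end MST
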