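import Pool.Agent.Work.MP_2f1fa1_lc.Mt.Glue1a

/-! # Glue1b : a matching with the fewest closed sets -/

namespace MST

/-- `Mat` in terms of kinds and rows -/
theorem g1b_mat_iff (L : List (Op × ℕ)) (M : ℕ × Bool → ℕ × Bool) :
    Mat L M ↔ (∀ s : ℕ × Bool, s.1 < L.length → M (M s) = s) ∧
      (∀ s : ℕ × Bool, s.1 < L.length → (M s).1 < L.length) ∧
      (∀ s : ℕ × Bool, s.1 < L.length → g1a_kind L s = true →
        s.1 < (M s).1 ∧ g1a_kind L (M s) = false ∧ g1a_row L (M s) = g1a_row L s) ∧
      (∀ s : ℕ × Bool, s.1 < L.length → g1a_kind L s = false →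
        (M s).1 < s.1 ∧ g1a_kind L (M s) = true ∧ g1a_row L (M s) = g1a_row L s) := by
  have hgx : ∀ i x, L[i]? = some x → g1a_x L i = x := by
    intro i x h
    unfold g1a_x
    simp [List.getD, h]
  have hxg : ∀ i, i < L.length → L[i]? = some (g1a_x L i) := by
    intro i h
    unfold g1a_x
    simp [List.getD, h]
  constructor
  · intro hM
    refine ⟨hM.invol, hM.lt, ?_, ?_⟩
    · intro s hs k
      exact hM.src s _ _ (hxg _ hs) (hxg _ (hM.lt s hs)) k
    · intro s hs k
      exact hM.snk s _ _ (hxg _ hs) (hxg _ (hM.lt s hs)) k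
  · rintro ⟨h1, h2, h3, h4⟩
    refine ⟨h1, h2, ?_, ?_⟩
    · intro s x y hx hy k
      have hs : s.1 < L.length := (List.getElem?_eq_some_iff.1 hx).1
      have ex := hgx _ _ hx
      have ey := hgx _ _ hy
      have := h3 s hs (by unfold g1a_kind; rw [ex]; exact k)
      unfold g1a_kind g1a_row at this
      rw [ex, ey] at this
      exact this
    · intro s x y hx hy k
      have hs : s.1 < L.length := (List.getElem?_eq_some_iff.1 hx).1
      have ex := hgx _ _ hx
      have ey := hgx _ _ hy
      have := h4 s hs (by unfold g1a_kind; rw [ex]; exact k)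
      unfold g1a_kind g1a_row at this
      rw [ex, ey] at this
      exact this

theorem g1b_even {α : Type*} [DecidableEq α] (W : Finset α) (g : α → α)
    (h1 : ∀ a ∈ W, g a ∈ W) (h2 : ∀ a ∈ W, g (g a) = a) (h3 : ∀ a ∈ W, g a ≠ a) :
    Even W.card := by
  have h := Finset.sum_involution (s := W) (f := fun _ => (1 : ZMod 2)) (fun a _ => g a)
    (fun a _ => by decide) (fun a ha _ => h3 a ha) (fun a ha => h1 a ha) (fun a ha => h2 a ha)
  rw [Finset.sum_const, nsmul_eq_mul, mul_one] at h
  exact (ZMod.natCast_eq_zero_iff_even).1 h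

/-- an edge of row `r` which crosses the cut `t` -/
def g1b_cr (L : List (Op × ℕ)) (M : ℕ × Bool → ℕ × Bool) (r t : ℕ) (s : ℕ × Bool) : Prop :=
  s.1 < t ∧ t ≤ (M s).1 ∧ (M s).1 < L.length ∧ g1a_kind L s = true ∧ g1a_row L s = r

theorem g1b_exists_cr {L : List (Op × ℕ)} (hF : Feas L) {M : ℕ × Bool → ℕ × Bool}
    (hM : Mat L M) {r t : ℕ} (ht : t ≤ L.length) (h : 0 < Dl (L.take t) r) :
    ∃ s, g1b_cr L M r t s := by
  classical
  rw [g1b_mat_iff] at hM
  obtain ⟨m1, m2, m3, m4⟩ := hM
  rw [g1a_Dl L hF.le2 r t ht] at h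
  by_contra hcon
  push Not at hcon
  have hle : (g1a_S L true r t).card ≤ (g1a_S L false r t).card := by
    refine Finset.card_le_card_of_injOn M ?_ ?_
    · intro s hs
      rw [Finset.mem_coe, g1a_mem] at hs
      have hs1 : s.1 < L.length := lt_of_lt_of_le hs.1 ht
      have h1 := m3 s hs1 hs.2.1
      rw [Finset.mem_coe, g1a_mem]
      refine ⟨?_, h1.2.1, h1.2.2.trans hs.2.2⟩
      by_contra h2
      push Not at h2
      exact hcon s ⟨hs.1, h2, m2 s hs1, hs.2.1, hs.2.2⟩
    · intro s hs s' hs' hss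
      rw [Finset.mem_coe, g1a_mem] at hs hs'
      rw [← m1 s (lt_of_lt_of_le hs.1 ht), hss, m1 s' (lt_of_lt_of_le hs'.1 ht)]
  omega

/-- the exchange of two edges -/
def g1b_sw (M : ℕ × Bool → ℕ × Bool) (s s' : ℕ × Bool) (u : ℕ × Bool) : ℕ × Bool :=
  if u = s then M s' else if u = M s' then s else if u = s' then M s else
    if u = M s then s' else M u

theorem g1b_swap {L : List (Op × ℕ)} {M : ℕ × Bool → ℕ × Bool} (hM : Mat L M)
    {A : Set ℕ} (hA : Closed L M A) {r t : ℕ} {s s' : ℕ × Bool} (hs : g1b_cr L M r t s)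
    (hs' : g1b_cr L M r t s') (hsA : s.1 ∈ A) (hsA' : s'.1 ∉ A) :
    Mat L (g1b_sw M s s') ∧ (∀ B, Closed L (g1b_sw M s s') B → Closed L M B) ∧
      ¬ Closed L (g1b_sw M s s') A := by
  classical
  have hM0 := hM
  rw [g1b_mat_iff] at hM
  obtain ⟨m1, m2, m3, m4⟩ := hM
  obtain ⟨a1, a2, a3, a4, a5⟩ := hs
  obtain ⟨b1, b2, b3, b4, b5⟩ := hs'
  have hs1 : s.1 < L.length := by omega
  have hs'1 : s'.1 < L.length := by omega
  have c1 := m3 s hs1 a4
  have c2 := m3 s' hs'1 b4
  have hMsA : (M s).1 ∈ A := (hA s hs1).1 hsA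
  have hMsA' : (M s').1 ∉ A := fun h => hsA' ((hA s' hs'1).2 h)
  have n1 : s ≠ s' := by rintro rfl; exact hsA' hsA
  have n2 : s ≠ M s := by intro h; rw [← h] at c1; omega
  have n3 : s' ≠ M s' := by intro h; rw [← h] at c2; omega
  have n4 : s ≠ M s' := by intro h; rw [← h] at hMsA'; exact hMsA' hsA
  have n5 : s' ≠ M s := by intro h; rw [← h] at hMsA; exact hsA' hMsA
  have n6 : M s ≠ M s' := by intro h; rw [h] at hMsA; exact hMsA' hMsA
  have e1 : g1b_sw M s s' s = M s' := by unfold g1b_sw; rw [if_pos rfl]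
  have e2 : g1b_sw M s s' (M s') = s := by
    unfold g1b_sw; rw [if_neg n4.symm, if_pos rfl]
  have e3 : g1b_sw M s s' s' = M s := by
    unfold g1b_sw; rw [if_neg n1.symm, if_neg n3, if_pos rfl]
  have e4 : g1b_sw M s s' (M s) = s' := by
    unfold g1b_sw; rw [if_neg n2.symm, if_neg n6, if_neg n5.symm, if_pos rfl]
  have e5 : ∀ u, u ≠ s → u ≠ M s' → u ≠ s' → u ≠ M s → g1b_sw M s s' u = M u := by
    intro u h1 h2 h3 h4
    unfold g1b_sw; rw [if_neg h1, if_neg h2, if_neg h3, if_neg h4]
  have hcase : ∀ u, u = s ∨ u = M s' ∨ u = s' ∨ u = M s ∨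
      (u ≠ s ∧ u ≠ M s' ∧ u ≠ s' ∧ u ≠ M s) := by
    intro u; tauto
  have hother : ∀ u : ℕ × Bool, u.1 < L.length → (u ≠ s ∧ u ≠ M s' ∧ u ≠ s' ∧ u ≠ M s) →
      (M u ≠ s ∧ M u ≠ M s' ∧ M u ≠ s' ∧ M u ≠ M s) := by
    intro u hu h
    refine ⟨?_, ?_, ?_, ?_⟩
    · intro h1; apply h.2.2.2; rw [← h1, m1 u hu]
    · intro h1; apply h.2.2.1; rw [← m1 u hu, h1, m1 s' hs'1]
    · intro h1; apply h.2.1; rw [← h1, m1 u hu]
    · intro h1; apply h.1; rw [← m1 u hu, h1, m1 s hs1]
  have k1 : g1a_kind L (M s) = false := c1.2.1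
  have k2 : g1a_kind L (M s') = false := c2.2.1
  have r1 : g1a_row L (M s) = r := c1.2.2.trans a5
  have r2 : g1a_row L (M s') = r := c2.2.2.trans b5
  refine ⟨?_, ?_, ?_⟩
  · rw [g1b_mat_iff]
    refine ⟨?_, ?_, ?_, ?_⟩
    · intro u hu
      rcases hcase u with rfl | rfl | rfl | rfl | h
      · rw [e1, e2]
      · rw [e2, e1]
      · rw [e3, e4]
      · rw [e4, e3]
      · have h' := hother u hu h
        rw [e5 u h.1 h.2.1 h.2.2.1 h.2.2.2, e5 _ h'.1 h'.2.1 h'.2.2.1 h'.2.2.2, m1 u hu]
    · intro u hu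
      rcases hcase u with rfl | rfl | rfl | rfl | h
      · rw [e1]; exact b3
      · rw [e2]; exact hs1
      · rw [e3]; exact a3
      · rw [e4]; exact hs'1
      · rw [e5 u h.1 h.2.1 h.2.2.1 h.2.2.2]; exact m2 u hu
    · intro u hu k
      rcases hcase u with rfl | rfl | rfl | rfl | h
      · rw [e1]; exact ⟨by omega, k2, by rw [r2, a5]⟩
      · rw [k2] at k; exact absurd k (by decide)
      · rw [e3]; exact ⟨by omega, k1, by rw [r1, b5]⟩
      · rw [k1] at k; exact absurd k (by decide)
      · rw [e5 u h.1 h.2.1 h.2.2.1 h.2.2.2]; exact m3 u hu k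
    · intro u hu k
      rcases hcase u with rfl | rfl | rfl | rfl | h
      · rw [a4] at k; exact absurd k (by decide)
      · rw [e2]; exact ⟨by omega, a4, by rw [r2, a5]⟩
      · rw [b4] at k; exact absurd k (by decide)
      · rw [e4]; exact ⟨by omega, b4, by rw [r1, b5]⟩
      · rw [e5 u h.1 h.2.1 h.2.2.1 h.2.2.2]; exact m4 u hu k
  · intro B hB
    have d1 : s.1 ∈ B ↔ (M s').1 ∈ B := by
      have := hB s hs1; rwa [e1] at this
    have d2 : s'.1 ∈ B ↔ (M s).1 ∈ B := by
      have := hB s' hs'1; rwa [e3] at this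
    -- parity
    set N : Finset (ℕ × Bool) := ((Finset.range L.length) ×ˢ (Finset.univ : Finset Bool)).filter
      fun u => u.1 ∈ A ∧ u.1 ∈ B with hN
    have hNmem : ∀ u, u ∈ N ↔ u.1 < L.length ∧ u.1 ∈ A ∧ u.1 ∈ B := by
      intro u
      rw [hN, Finset.mem_filter, Finset.mem_product, Finset.mem_range]
      simp
    have hNeven : Even N.card := by
      refine g1b_even N (fun u => (u.1, !u.2)) ?_ ?_ ?_
      · intro u hu
        rw [hNmem] at hu ⊢
        exact hu
      · intro u _
        simp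
      · intro u _ h
        have := congrArg Prod.snd h
        simp at this
    set W : Finset (ℕ × Bool) := N.filter fun u => u ≠ s ∧ u ≠ M s with hW
    have hWmem : ∀ u, u ∈ W ↔ (u.1 < L.length ∧ u.1 ∈ A ∧ u.1 ∈ B) ∧ u ≠ s ∧ u ≠ M s := by
      intro u
      rw [hW, Finset.mem_filter, hNmem]
    have hWeven : Even W.card := by
      refine g1b_even W M ?_ ?_ ?_
      · intro u hu
        rw [hWmem] at hu
        obtain ⟨⟨u1, u2, u3⟩, u4, u5⟩ := hu
        have u6 : u ≠ M s' := by rintro rfl; exact hMsA' u2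
        have u7 : u ≠ s' := by rintro rfl; exact hsA' u2
        have h' := hother u u1 ⟨u4, u6, u7, u5⟩
        rw [hWmem]
        refine ⟨⟨m2 u u1, (hA u u1).1 u2, ?_⟩, h'.1, h'.2.2.2⟩
        have := (hB u u1).1 u3
        rwa [e5 u u4 u6 u7 u5] at this
      · intro u hu
        rw [hWmem] at hu
        exact m1 u hu.1.1
      · intro u hu h
        rw [hWmem] at hu
        rcases hk : g1a_kind L u with _ | _
        · have := m4 u hu.1.1 hk
          rw [h] at this; omega
        · have := m3 u hu.1.1 hk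
          rw [h] at this; omega
    have hsplit : N.card = W.card + (N.filter fun u => ¬ (u ≠ s ∧ u ≠ M s)).card := by
      rw [hW, Finset.card_filter_add_card_filter_not]
    have hrest : Even (N.filter fun u => ¬ (u ≠ s ∧ u ≠ M s)).card := by
      rw [hsplit] at hNeven
      exact (Nat.even_add.1 hNeven).1 hWeven
    have d3 : s.1 ∈ B ↔ (M s).1 ∈ B := by
      by_contra hcon
      have hone : (N.filter fun u => ¬ (u ≠ s ∧ u ≠ M s)).card = 1 := by
        by_cases hsB : s.1 ∈ B
        · have hMB : (M s).1 ∉ B := fun h => hcon ⟨fun _ => h, fun _ => hsB⟩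
          rw [Finset.card_eq_one]
          refine ⟨s, ?_⟩
          ext u
          rw [Finset.mem_filter, hNmem, Finset.mem_singleton]
          constructor
          · rintro ⟨⟨u1, u2, u3⟩, u4⟩
            by_contra h1
            apply u4
            refine ⟨h1, ?_⟩
            rintro rfl
            exact hMB u3
          · rintro rfl
            exact ⟨⟨hs1, hsA, hsB⟩, fun h => h.1 rfl⟩
        · have hMB : (M s).1 ∈ B := by
            by_contra h
            exact hcon ⟨fun h' => absurd h' hsB, fun h' => absurd h' h⟩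
          rw [Finset.card_eq_one]
          refine ⟨M s, ?_⟩
          ext u
          rw [Finset.mem_filter, hNmem, Finset.mem_singleton]
          constructor
          · rintro ⟨⟨u1, u2, u3⟩, u4⟩
            by_contra h1
            apply u4
            refine ⟨?_, h1⟩
            rintro rfl
            exact hsB u3
          · rintro rfl
            exact ⟨⟨a3, hMsA, hMB⟩, fun h => h.2 rfl⟩
      rw [hone] at hrest
      exact absurd hrest (by decide)
    intro u hu
    rcases hcase u with rfl | rfl | rfl | rfl | h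
    · exact d3
    · rw [m1 s' hs'1]; tauto
    · tauto
    · rw [m1 s hs1]; tauto
    · have := hB u hu
      rwa [e5 u h.1 h.2.1 h.2.2.1 h.2.2.2] at this
  · intro h
    have := h s hs1
    rw [e1] at this
    exact hMsA' (this.1 hsA)

theorem g1b_closed_congr {L : List (Op × ℕ)} {M : ℕ × Bool → ℕ × Bool} (hM : Mat L M)
    {A B : Set ℕ} (h : ∀ i < L.length, i ∈ A ↔ i ∈ B) : Closed L M A ↔ Closed L M B := by
  unfold Closed
  constructor
  · intro h1 s hs
    rw [← h _ hs, ← h _ (hM.lt s hs)]
    exact h1 s hs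
  · intro h1 s hs
    rw [h _ hs, h _ (hM.lt s hs)]
    exact h1 s hs

/-- a matching with the fewest closed sets has only trivial closed sets -/
theorem exists_conn_mat (L : List (Op × ℕ)) (hF : Feas L) (hC : Conn L) :
    ∃ M, Mat L M ∧ ∀ A : Set ℕ, Closed L M A →
      (∀ i < L.length, i ∈ A) ∨ ∀ i < L.length, i ∉ A := by
  classical
  let cl : (ℕ × Bool → ℕ × Bool) → Finset (Finset ℕ) := fun M =>
    (Finset.range L.length).powerset.filter fun B : Finset ℕ => Closed L M (B : Set ℕ)
  obtain ⟨M, hM, hmin⟩ : ∃ M, Mat L M ∧ ∀ M', Mat L M' → (cl M).card ≤ (cl M').card := by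
    have hne : {k | ∃ M, Mat L M ∧ (cl M).card = k}.Nonempty := by
      obtain ⟨M, hM⟩ := exists_mat L hF
      exact ⟨_, M, hM, rfl⟩
    obtain ⟨M, hM, hMk⟩ := Nat.sInf_mem hne
    refine ⟨M, hM, fun M' hM' => ?_⟩
    rw [hMk]
    exact Nat.sInf_le ⟨M', hM', rfl⟩
  refine ⟨M, hM, ?_⟩
  intro A hA
  have hM' := hM
  rw [g1b_mat_iff] at hM'
  obtain ⟨m1, m2, m3, m4⟩ := hM'
  -- no cut is crossed by both kinds of edges on the same row
  have key : ∀ r t s s', g1b_cr L M r t s → g1b_cr L M r t s' → s.1 ∈ A → s'.1 ∈ A := by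
    intro r t s s' hs hs' hsA
    by_contra hsA'
    obtain ⟨h1, h2, h3⟩ := g1b_swap hM hA hs hs' hsA hsA'
    have h4 := hmin _ h1
    have hsub : cl (g1b_sw M s s') ⊆ cl M := by
      intro B hB
      rw [Finset.mem_filter] at hB ⊢
      exact ⟨hB.1, h2 _ hB.2⟩
    have h5 := Finset.eq_of_subset_of_card_le hsub h4
    let A' : Finset ℕ := (Finset.range L.length).filter fun i => i ∈ A
    have hAA' : ∀ i < L.length, i ∈ A ↔ i ∈ (A' : Set ℕ) := by
      intro i hi
      rw [Finset.mem_coe, Finset.mem_filter, Finset.mem_range]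
      tauto
    have h6 : A' ∈ cl M := by
      rw [Finset.mem_filter, Finset.mem_powerset]
      refine ⟨Finset.filter_subset _ _, ?_⟩
      exact (g1b_closed_congr hM hAA').1 hA
    rw [← h5, Finset.mem_filter] at h6
    exact h3 ((g1b_closed_congr h1 hAA').2 h6.2)
  -- the colours
  have hres := hC (fun i => decide (i ∈ A))
    (fun r t => decide (∃ s, g1b_cr L M r t s ∧ s.1 ∈ A)) ?_ ?_
  · rcases Nat.eq_zero_or_pos L.length with h0 | h0
    · left; intro i hi; omega
    · by_cases h : 0 ∈ A
      · left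
        intro i hi
        have := hres 0 i h0 hi
        simp only [h, decide_true] at this
        exact of_decide_eq_true this.symm
      · right
        intro i hi
        have := hres 0 i h0 hi
        simp only [h, decide_false] at this
        exact of_decide_eq_false this.symm
  · intro P x B r hL hst
    have ht : P.length < L.length := by rw [hL]; simp
    have hx : g1a_x L P.length = x := by
      unfold g1a_x
      rw [hL]
      simp [List.getD]
    have hx2 : x.2 ≤ 2 := hF.le2 x (by rw [hL]; simp)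
    rw [g1a_stub_eq x hx2 r, Finset.card_pos] at hst
    obtain ⟨b, hb⟩ := hst
    rw [Finset.mem_filter] at hb
    have hrow : g1a_row L (P.length, b) = r := by
      unfold g1a_row; simp only; rw [hx]; exact hb.2
    rcases hk : x.1.isSrc with _ | _
    · -- sink
      have hkind : g1a_kind L (P.length, b) = false := by
        unfold g1a_kind; simp only; rw [hx]; exact hk
      have h1 := m4 (P.length, b) ht hkind
      have h2 : g1b_cr L M r P.length (M (P.length, b)) := by
        refine ⟨h1.1, ?_, ?_, h1.2.1, h1.2.2.trans hrow⟩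
        · rw [m1 _ ht]
        · rw [m1 _ ht]; exact ht
      have h3 : P.length ∈ A ↔ (M (P.length, b)).1 ∈ A := hA (P.length, b) ht
      simp only [Bool.false_eq_true, if_false]
      by_cases h4 : P.length ∈ A
      · have : ∃ s, g1b_cr L M r P.length s ∧ s.1 ∈ A := ⟨_, h2, h3.1 h4⟩
        simp only [h4, this]
      · have : ¬ ∃ s, g1b_cr L M r P.length s ∧ s.1 ∈ A := by
          rintro ⟨s, hs, hsA⟩
          exact h4 (h3.2 (key r _ s _ hs h2 hsA))
        simp only [h4, this]
    · -- source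
      have hkind : g1a_kind L (P.length, b) = true := by
        unfold g1a_kind; simp only; rw [hx]; exact hk
      have h1 := m3 (P.length, b) ht hkind
      have h2 : g1b_cr L M r (P.length + 1) (P.length, b) :=
        ⟨Nat.lt_succ_self _, h1.1, m2 _ ht, hkind, hrow⟩
      simp only [if_true]
      by_cases h4 : P.length ∈ A
      · have : ∃ s, g1b_cr L M r (P.length + 1) s ∧ s.1 ∈ A := ⟨_, h2, h4⟩
        simp only [h4, this]
      · have : ¬ ∃ s, g1b_cr L M r (P.length + 1) s ∧ s.1 ∈ A := by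
          rintro ⟨s, hs, hsA⟩
          exact h4 (key r _ s _ hs h2 hsA)
        simp only [h4, this]
  · intro P x B r hL hD1 hD2
    have ht : P.length < L.length := by rw [hL]; simp
    have e1 : L.take P.length = P := by rw [hL]; simp
    have e2 : L.take (P.length + 1) = P ++ [x] := by
      rw [hL]
      rw [List.take_append]
      simp
    obtain ⟨s1, hs1⟩ := g1b_exists_cr hF hM (r := r) ht.le (by rw [e1]; exact hD1)
    obtain ⟨s2, hs2⟩ := g1b_exists_cr hF hM (r := r) (t := P.length + 1) ht (by rw [e2]; exact hD2)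
    -- an edge crossing only the first cut and an edge crossing only the second cut
    have hno : ∀ u v, g1b_cr L M r P.length u → ¬ g1b_cr L M r (P.length + 1) u →
        g1b_cr L M r (P.length + 1) v → ¬ g1b_cr L M r P.length v → False := by
      intro u v hu hu' hv hv'
      obtain ⟨u1, u2, u3, u4, u5⟩ := hu
      obtain ⟨v1, v2, v3, v4, v5⟩ := hv
      have hu6 : (M u).1 = P.length := by
        by_contra h
        exact hu' ⟨by omega, by omega, u3, u4, u5⟩
      have hv6 : v.1 = P.length := by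
        by_contra h
        exact hv' ⟨by omega, by omega, v3, v4, v5⟩
      have h1 := (m3 u (by omega) u4).2.1
      unfold g1a_kind at h1 v4
      rw [hu6] at h1
      rw [hv6, h1] at v4
      exact absurd v4 (by decide)
    by_cases h1 : ∃ s, g1b_cr L M r P.length s ∧ s.1 ∈ A
    · by_cases h2 : ∃ s, g1b_cr L M r (P.length + 1) s ∧ s.1 ∈ A
      · simp only [h1, h2]
      · exfalso
        obtain ⟨u, hu, huA⟩ := h1
        have hu2 : ¬ g1b_cr L M r (P.length + 1) u := fun h => h2 ⟨u, h, huA⟩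
        have hs2A : s2.1 ∉ A := fun h => h2 ⟨s2, hs2, h⟩
        have hs2' : ¬ g1b_cr L M r P.length s2 := fun h => hs2A (key r _ u s2 hu h huA)
        exact hno u s2 hu hu2 hs2 hs2'
    · by_cases h2 : ∃ s, g1b_cr L M r (P.length + 1) s ∧ s.1 ∈ A
      · exfalso
        obtain ⟨v, hv, hvA⟩ := h2
        have hv2 : ¬ g1b_cr L M r P.length v := fun h => h1 ⟨v, h, hvA⟩
        have hs1A : s1.1 ∉ A := fun h => h1 ⟨s1, hs1, h⟩
        have hs1' : ¬ g1b_cr L M r (P.length + 1) s1 := fun h => hs1A (key r _ v s1 hv h hvA)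
        exact hno s1 v hs1 hs1' hv hv2
      · simp only [h1, h2]

end MST
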