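import Pool.Agent.Work.MP_2f1fa1_lc.Mt.Defs2

/-! MP_2f1fa1_lc, module Glue1c: a matching of the stubs with trivial closed sets gives a
Hamiltonian cycle. -/

namespace MST

theorem glue1c_on (x : Op × ℕ) (b : Bool) : x.1.on (srow x b) = true := by
  obtain ⟨o, k⟩ := x
  cases o with
  | lnk f =>
    simp only [srow, Op.on]
    split_ifs <;> simp
  | src s => simp [srow, Op.on]
  | snk s => simp [srow, Op.on]

/-- matched stubs belong to adjacent vertices -/
theorem glue1c_adj {L : List (Op × ℕ)} {M : ℕ × Bool → ℕ × Bool} (hM : Mat L M)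
    (s : ℕ × Bool) (hs : s.1 < L.length) : Adj (L.map Prod.fst) s.1 (M s).1 := by
  have hs' := hM.lt s hs
  have e1 : L[s.1]? = some L[s.1] := List.getElem?_eq_getElem hs
  have e2 : L[(M s).1]? = some L[(M s).1] := List.getElem?_eq_getElem hs'
  have f1 : (L.map Prod.fst)[s.1]? = some (L[s.1]).1 := by rw [List.getElem?_map, e1]; rfl
  have f2 : (L.map Prod.fst)[(M s).1]? = some (L[(M s).1]).1 := by
    rw [List.getElem?_map, e2]; rfl
  cases hx : (L[s.1]).1.isSrc with
  | true =>
    obtain ⟨h1, h2, h3⟩ := hM.src s _ _ e1 e2 hx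
    exact Or.inl ⟨h1, _, _, f1, f2, hx, h2, srow (L[s.1]) s.2, glue1c_on _ _,
      h3 ▸ glue1c_on _ _⟩
  | false =>
    obtain ⟨h1, h2, h3⟩ := hM.snk s _ _ e1 e2 hx
    exact Or.inr ⟨h1, _, _, f2, f1, h2, hx, srow (L[s.1]) s.2, h3 ▸ glue1c_on _ _,
      glue1c_on _ _⟩

theorem glue1c_ne {L : List (Op × ℕ)} {M : ℕ × Bool → ℕ × Bool} (hM : Mat L M)
    (s : ℕ × Bool) (hs : s.1 < L.length) : M s ≠ s := by
  intro h
  rcases glue1c_adj hM s hs with h1 | h1
  · exact absurd h1.1 (by rw [h]; exact lt_irrefl _)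
  · exact absurd h1.1 (by rw [h]; exact lt_irrefl _)

/-- the abstract argument: `m` an involution without fixed points on `Fin n × Bool` -/
theorem glue1c_core {n : ℕ} (hn : 0 < n) (m : Fin n × Bool → Fin n × Bool)
    (hm : ∀ s, m (m s) = s) (hne : ∀ s, m s ≠ s)
    (hA : ∀ A : Set (Fin n), (∀ s : Fin n × Bool, s.1 ∈ A ↔ (m s).1 ∈ A) →
      (∀ i, i ∈ A) ∨ ∀ i, i ∉ A) :
    ∃ G : ℕ → Fin n, (∀ i < n, ∀ j < n, G i = G j → i = j) ∧ (∀ v, ∃ i < n, G i = v) ∧
      ∀ i < n, ∃ t : Fin n × Bool, G i = t.1 ∧ G ((i + 1) % n) = (m t).1 := by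
  classical
  set φ : Fin n × Bool → Fin n × Bool := fun s => (s.1, !s.2) with hφ
  have hφφ : ∀ s, φ (φ s) = s := fun s => by simp [hφ]
  have hφne : ∀ s, φ s ≠ s := by
    rintro ⟨v, b⟩ h
    cases b <;> simp [hφ] at h
  have hφ1 : ∀ s, (φ s).1 = s.1 := fun s => rfl
  have hsame : ∀ s t : Fin n × Bool, s.1 = t.1 → s = t ∨ s = φ t := by
    rintro ⟨v, b⟩ ⟨w, c⟩ h
    simp only at h
    subst h
    cases b <;> cases c <;> simp [hφ]
  set h : Fin n × Bool → Fin n × Bool := fun s => φ (m s) with hh
  have hinj : Function.Injective h := by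
    intro s t hst
    have h1 : m s = m t := by
      have := congrArg φ hst
      rwa [hφφ, hφφ] at this
    have := congrArg m h1
    rwa [hm, hm] at this
  have hconj : ∀ k s, h^[k] (φ (h^[k] s)) = φ s := by
    intro k
    induction k with
    | zero => intro s; rfl
    | succ k ih =>
      intro s
      rw [Function.iterate_succ_apply, Function.iterate_succ_apply']
      have h1 : h (φ (h (h^[k] s))) = φ (h^[k] s) := by
        simp only [hh]
        rw [hφφ, hm]
      rw [h1, ih]
  have hno : ∀ k s, h^[k] s ≠ φ s := by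
    intro k s hk
    rcases Nat.even_or_odd' k with ⟨j, rfl | rfl⟩
    · rw [← hconj j s, two_mul, Function.iterate_add_apply] at hk
      exact hφne _ ((hinj.iterate j) hk).symm
    · rw [← hconj j s, two_mul, add_assoc, Function.iterate_add_apply] at hk
      have h1 := (hinj.iterate j) hk
      rw [Function.iterate_succ_apply'] at h1
      have h2 := congrArg φ h1
      simp only [hh, hφφ] at h2
      exact hne _ h2
  set s0 : Fin n × Bool := (⟨0, hn⟩, false) with hs0
  have hper : s0 ∈ Function.periodicPts h := hinj.mem_periodicPts s0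
  set P := Function.minimalPeriod h s0 with hP
  have hP0 : 0 < P := Function.minimalPeriod_pos_of_mem_periodicPts hper
  have hmod : ∀ i, h^[i % P] s0 = h^[i] s0 := fun i =>
    Function.iterate_mod_minimalPeriod_eq
  -- injectivity
  have key : ∀ i j, i ≤ j → j < P → (h^[i] s0).1 = (h^[j] s0).1 → i = j := by
    intro i j hij hj he
    rcases hsame _ _ he.symm with h1 | h1
    · exact (Function.iterate_injOn_Iio_minimalPeriod (hij.trans_lt hj) hj h1.symm)
    · exfalso
      obtain ⟨d, rfl⟩ := Nat.exists_eq_add_of_le hij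
      rw [add_comm, Function.iterate_add_apply] at h1
      exact hno _ _ h1
  have hGinj : ∀ i < P, ∀ j < P, (h^[i] s0).1 = (h^[j] s0).1 → i = j := by
    intro i hi j hj he
    rcases le_total i j with h1 | h1
    · exact key i j h1 hj he
    · exact (key j i h1 hi he.symm).symm
  -- closed set
  have hcl : ∀ s : Fin n × Bool, s.1 ∈ {v | ∃ i, (h^[i] s0).1 = v} →
      (m s).1 ∈ {v | ∃ i, (h^[i] s0).1 = v} := by
    rintro s ⟨i, hi⟩
    rcases hsame _ _ hi.symm with h1 | h1
    · refine ⟨i + 1, ?_⟩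
      rw [Function.iterate_succ_apply', h1]
    · -- `s = φ (h^i s0)`; `m s = h^(i - 1) s0`
      obtain ⟨k, hk⟩ : ∃ k, h (h^[k] s0) = h^[i] s0 := by
        refine ⟨i + P - 1, ?_⟩
        rw [← Function.iterate_succ_apply' h, ← hmod, Nat.succ_eq_add_one,
          Nat.sub_add_cancel (by omega), Nat.add_mod_right, hmod]
      refine ⟨k, ?_⟩
      rw [h1, ← hk]
      simp only [hh]
      rw [hφφ, hm]
  have hall : ∀ v, ∃ i, (h^[i] s0).1 = v := by
    rcases hA {v | ∃ i, (h^[i] s0).1 = v} (fun s => ⟨hcl s, fun h1 => by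
      have := hcl _ h1
      rwa [hm] at this⟩) with h1 | h1
    · exact h1
    · exact absurd ⟨0, rfl⟩ (h1 s0.1)
  have hsurj : ∀ v, ∃ i < P, (h^[i] s0).1 = v := by
    intro v
    obtain ⟨i, hi⟩ := hall v
    exact ⟨i % P, Nat.mod_lt _ hP0, by rw [hmod, hi]⟩
  have hPn : P = n := by
    have h1 : (Finset.range P).image (fun i => (h^[i] s0).1) = Finset.univ := by
      ext v
      simp only [Finset.mem_image, Finset.mem_range, Finset.mem_univ, iff_true]
      exact hsurj v
    have h2 := Finset.card_image_of_injOn (s := Finset.range P) (f := fun i => (h^[i] s0).1)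
      (by
        intro i hi j hj he
        exact hGinj i (by simpa using hi) j (by simpa using hj) he)
    rw [h1, Finset.card_univ, Fintype.card_fin, Finset.card_range] at h2
    exact h2.symm
  refine ⟨fun i => (h^[i] s0).1, ?_, ?_, ?_⟩
  · intro i hi j hj he
    exact hGinj i (hPn ▸ hi) j (hPn ▸ hj) he
  · intro v
    obtain ⟨i, hi, hi'⟩ := hsurj v
    exact ⟨i, hPn ▸ hi, hi'⟩
  · intro i _
    refine ⟨h^[i] s0, rfl, ?_⟩
    have e1 : (i + 1) % n = (i + 1) % P := by rw [hPn]
    simp only
    rw [e1, hmod, Function.iterate_succ_apply']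

/-- a matching of the stubs with trivial closed sets gives a Hamiltonian cycle -/
theorem ham_of_mat (L : List (Op × ℕ)) (M : ℕ × Bool → ℕ × Bool) (hM : Mat L M)
    (hA : ∀ A : Set ℕ, Closed L M A → (∀ i < L.length, i ∈ A) ∨ ∀ i < L.length, i ∉ A) :
    Ham L.length (Adj (L.map Prod.fst)) := by
  rcases Nat.eq_zero_or_pos L.length with h0 | hn
  · refine ⟨id, ?_, ?_⟩
    · rw [h0]
      exact Set.bijOn_id _
    · intro i hi
      omega
  · have hlt : ∀ s : Fin L.length × Bool, (M (s.1, s.2)).1 < L.length := fun s =>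
      hM.lt _ s.1.2
    obtain ⟨G, h1, h2, h3⟩ := glue1c_core hn
      (fun s => (⟨(M (s.1, s.2)).1, hlt s⟩, (M (s.1, s.2)).2))
      (by
        intro s
        have := hM.invol (s.1, s.2) s.1.2
        ext
        · simp [this]
        · simp [this])
      (by
        intro s h
        refine glue1c_ne hM (s.1, s.2) s.1.2 ?_
        have a1 := congrArg (fun t : Fin L.length × Bool => (t.1 : ℕ)) h
        have a2 := congrArg (fun t : Fin L.length × Bool => t.2) h
        simp only at a1 a2
        exact Prod.ext a1 a2)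
      (by
        intro A hcl
        have hc : Closed L M {i | ∃ h : i < L.length, (⟨i, h⟩ : Fin L.length) ∈ A} := by
          intro s hs
          have := hcl (⟨s.1, hs⟩, s.2)
          simp only [Set.mem_ofPred_eq]
          constructor
          · rintro ⟨_, h⟩
            exact ⟨hM.lt s hs, this.1 h⟩
          · rintro ⟨_, h⟩
            exact ⟨hs, this.2 h⟩
        rcases hA _ hc with h | h
        · left
          intro i
          obtain ⟨_, h'⟩ := h i.1 i.2
          exact h'
        · right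
          intro i hi
          exact h i.1 i.2 ⟨i.2, hi⟩)
    refine ⟨fun i => (G i : ℕ), ⟨?_, ?_, ?_⟩, ?_⟩
    · intro i _
      exact (G i).2
    · intro i hi j hj he
      exact h1 i hi j hj (Fin.ext he)
    · intro v hv
      obtain ⟨i, hi, hi'⟩ := h2 ⟨v, hv⟩
      exact ⟨i, hi, by simp [hi']⟩
    · intro i hi
      obtain ⟨t, ht, ht'⟩ := h3 i hi
      simp only
      rw [ht, ht']
      exact glue1c_adj hM (t.1, t.2) t.1.2

end MST
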