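import Pool.Agent.Work.MP_2f1fa1_lc.Mt.Defs2

namespace MST

theorem glue2a_succ {n a : ℕ} (ha : a < n) : (a + 1) % n = if a + 1 = n then 0 else a + 1 := by
  split_ifs with h
  · rw [h, Nat.mod_self]
  · exact Nat.mod_eq_of_lt (by omega)

theorem glue2a_pred {n a : ℕ} (ha : a < n) :
    (a + (n - 1)) % n = if a = 0 then n - 1 else a - 1 := by
  split_ifs with h
  · rw [h, zero_add]
    exact Nat.mod_eq_of_lt (by omega)
  · have h1 : a + (n - 1) = (a - 1) + n := by omega
    rw [h1, Nat.add_mod_right]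
    exact Nat.mod_eq_of_lt (by omega)

/-- neighbour sets of a Hamiltonian cycle -/
theorem nb_of_ham {n : ℕ} {R : ℕ → ℕ → Prop} (hR : ∀ i j, R i j → R j i) (h3 : 3 ≤ n)
    (h : Ham n R) : ∃ nb : ℕ → Finset ℕ, (∀ i < n, (nb i).card = 2) ∧
      (∀ i < n, ∀ j ∈ nb i, j < n ∧ i ∈ nb j ∧ R i j) ∧
      ∀ A : Set ℕ, (∀ i < n, ∀ j ∈ nb i, (i ∈ A ↔ j ∈ A)) →
        (∀ i < n, i ∈ A) ∨ ∀ i < n, i ∉ A := by
  obtain ⟨g, hg, hgR⟩ := h
  have hlt : ∀ a, a < n → g a < n := fun a ha => hg.1 ha
  have hinj : ∀ a b, a < n → b < n → g a = g b → a = b := fun a b ha hb hab => hg.2.1 ha hb hab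
  have hidx : ∀ v, ∃ a, v < n → a < n ∧ g a = v := by
    intro v
    by_cases hv : v < n
    · obtain ⟨a, ha, hav⟩ := hg.2.2 hv
      exact ⟨a, fun _ => ⟨ha, hav⟩⟩
    · exact ⟨0, fun h => absurd h hv⟩
  choose idx hidx using hidx
  have hidx1 : ∀ a, a < n → idx (g a) = a := fun a ha =>
    hinj _ _ (hidx _ (hlt a ha)).1 ha (hidx _ (hlt a ha)).2
  refine ⟨fun v => {g ((idx v + 1) % n), g ((idx v + (n - 1)) % n)}, ?_, ?_, ?_⟩
  · intro v hv
    obtain ⟨h1, h2⟩ := hidx v hv
    apply Finset.card_pair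
    intro he
    have h4 := hinj _ _ (Nat.mod_lt _ (by omega)) (Nat.mod_lt _ (by omega)) he
    rw [glue2a_succ h1, glue2a_pred h1] at h4
    split_ifs at h4 <;> omega
  · intro v hv j hj
    obtain ⟨h1, h2⟩ := hidx v hv
    rw [Finset.mem_insert, Finset.mem_singleton] at hj
    rcases hj with hj | hj
    · have h5 : (idx v + 1) % n < n := Nat.mod_lt _ (by omega)
      have h6 : idx j = (idx v + 1) % n := by rw [hj]; exact hidx1 _ h5
      refine ⟨by rw [hj]; exact hlt _ h5, ?_, ?_⟩
      · show v ∈ ({g ((idx j + 1) % n), g ((idx j + (n - 1)) % n)} : Finset ℕ)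
        rw [Finset.mem_insert, Finset.mem_singleton]
        right
        have h7 : (idx j + (n - 1)) % n = idx v := by
          rw [h6, glue2a_pred h5, glue2a_succ h1]
          by_cases hc : idx v + 1 = n
          · rw [if_pos hc, if_pos rfl]; omega
          · rw [if_neg hc, if_neg (by omega)]; omega
        rw [h7, h2]
      · have := hgR (idx v) h1
        rw [h2, ← hj] at this
        exact this
    · have h5 : (idx v + (n - 1)) % n < n := Nat.mod_lt _ (by omega)
      have h6 : idx j = (idx v + (n - 1)) % n := by rw [hj]; exact hidx1 _ h5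
      have h7 : (idx j + 1) % n = idx v := by
        rw [h6, glue2a_succ h5, glue2a_pred h1]
        by_cases hc : idx v = 0
        · rw [if_pos hc, if_pos (by omega)]; omega
        · rw [if_neg hc, if_neg (by omega)]; omega
      refine ⟨by rw [hj]; exact hlt _ h5, ?_, ?_⟩
      · show v ∈ ({g ((idx j + 1) % n), g ((idx j + (n - 1)) % n)} : Finset ℕ)
        rw [Finset.mem_insert, Finset.mem_singleton]
        left
        rw [h7, h2]
      · have := hgR (idx j) (by rw [h6]; exact h5)
        rw [h7, h2] at this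
        have hj2 : g (idx j) = j := by rw [h6, ← hj]
        rw [hj2] at this
        exact hR _ _ this
  · intro A hA
    have key : ∀ a, a < n → (g a ∈ A ↔ g 0 ∈ A) := by
      intro a
      induction a with
      | zero => intro _; rfl
      | succ a ih =>
        intro ha
        have h1 : a < n := by omega
        rw [← ih h1]
        refine (hA (g a) (hlt a h1) (g (a + 1)) ?_).symm
        rw [Finset.mem_insert, Finset.mem_singleton]
        left
        rw [hidx1 a h1, glue2a_succ h1, if_neg (by omega)]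
    by_cases h0 : g 0 ∈ A
    · left
      intro i hi
      obtain ⟨h1, h2⟩ := hidx i hi
      rw [← h2]
      exact (key _ h1).2 h0
    · right
      intro i hi hiA
      obtain ⟨h1, h2⟩ := hidx i hi
      rw [← h2] at hiA
      exact h0 ((key _ h1).1 hiA)

end MST
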