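import Pool.Agent.Work.MP_2f1fa1_lc.Mt.Glue2a

namespace MST

theorem g2b_common {a b : Op} {r r' : ℕ} (ha : a.isSrc = true) (hb : b.isSrc = false)
    (h1 : a.on r = true) (h2 : b.on r = true) (h3 : a.on r' = true) (h4 : b.on r' = true) :
    r = r' := by
  cases a <;> cases b <;> simp_all [Op.on, Op.isSrc] <;> omega

/-- operation number `i` -/
def g2bo (ops : List Op) (i : ℕ) : Op := ops.getD i (.src 0)

/-- number of neighbours on row `r` -/
def g2bN (ops : List Op) (nb : ℕ → Finset ℕ) (i r : ℕ) : ℕ :=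
  ((nb i).filter fun j => (g2bo ops i).on r = true ∧ (g2bo ops j).on r = true).card

def g2bx (ops : List Op) (nb : ℕ → Finset ℕ) (i : ℕ) : ℕ :=
  match g2bo ops i with
  | .lnk f => if f % 2 = 1 then g2bN ops nb i f else g2bN ops nb i (f + 1)
  | _ => 0

def g2bL (ops : List Op) (nb : ℕ → Finset ℕ) : List (Op × ℕ) :=
  (List.range ops.length).map fun i => (g2bo ops i, g2bx ops nb i)

/-- indicator of the cycle edge `(p, q)` on row `r` -/
def g2be (ops : List Op) (nb : ℕ → Finset ℕ) (p q r : ℕ) : ℤ :=
  if (g2bo ops p).isSrc = true ∧ q ∈ nb p ∧ (g2bo ops p).on r = true ∧ (g2bo ops q).on r = true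
  then 1 else 0

theorem g2be_nonneg (ops : List Op) (nb : ℕ → Finset ℕ) (p q r : ℕ) : 0 ≤ g2be ops nb p q r := by
  unfold g2be; split_ifs <;> norm_num

theorem g2bL_fst (ops : List Op) (nb : ℕ → Finset ℕ) : (g2bL ops nb).map Prod.fst = ops := by
  apply List.ext_getElem
  · simp [g2bL]
  · intro i h1 h2
    simp [g2bL, g2bo, List.getD, h2]

theorem g2bL_length (ops : List Op) (nb : ℕ → Finset ℕ) : (g2bL ops nb).length = ops.length := by
  simp [g2bL]

section
variable {ops : List Op} {nb : ℕ → Finset ℕ}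

theorem g2b_arc {i j : ℕ} (h : Arc ops i j) : i < j ∧ (g2bo ops i).isSrc = true ∧
    (g2bo ops j).isSrc = false ∧ ∃ r, (g2bo ops i).on r = true ∧ (g2bo ops j).on r = true := by
  obtain ⟨hij, a, b, ha, hb, h1, h2, r, h3, h4⟩ := h
  have e1 : g2bo ops i = a := by simp [g2bo, List.getD, ha]
  have e2 : g2bo ops j = b := by simp [g2bo, List.getD, hb]
  rw [e1, e2]
  exact ⟨hij, h1, h2, r, h3, h4⟩

variable (hN : ∀ i < ops.length, ∀ j ∈ nb i, j < ops.length ∧ i ∈ nb j ∧ Adj ops i j)
  (hc : ∀ i < ops.length, (nb i).card = 2)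

include hN in
theorem g2b_src {i j : ℕ} (hi : i < ops.length) (hj : j ∈ nb i) (hs : (g2bo ops i).isSrc = true) :
    i < j ∧ j < ops.length ∧ (g2bo ops j).isSrc = false ∧
      ∃ r, (g2bo ops i).on r = true ∧ (g2bo ops j).on r = true := by
  obtain ⟨h1, h2, h3⟩ := hN i hi j hj
  rcases h3 with h3 | h3
  · obtain ⟨a, b, c, d⟩ := g2b_arc h3
    exact ⟨a, h1, c, d⟩
  · obtain ⟨a, b, c, d⟩ := g2b_arc h3
    rw [hs] at c; cases c

include hN in
theorem g2b_snk {i j : ℕ} (hi : i < ops.length) (hj : j ∈ nb i) (hs : (g2bo ops i).isSrc = false) :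
    j < i ∧ (g2bo ops j).isSrc = true ∧
      ∃ r, (g2bo ops j).on r = true ∧ (g2bo ops i).on r = true := by
  obtain ⟨h1, h2, h3⟩ := hN i hi j hj
  rcases h3 with h3 | h3
  · obtain ⟨a, b, c, d⟩ := g2b_arc h3
    rw [hs] at b; cases b
  · obtain ⟨a, b, c, d⟩ := g2b_arc h3
    exact ⟨a, b, d⟩

include hN in
/-- neighbours share exactly one row -/
theorem g2b_row {i j : ℕ} (hi : i < ops.length) (hj : j ∈ nb i) :
    ∃ r, ((g2bo ops i).on r = true ∧ (g2bo ops j).on r = true) ∧
      ∀ r', (g2bo ops i).on r' = true → (g2bo ops j).on r' = true → r' = r := by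
  cases hs : (g2bo ops i).isSrc with
  | true =>
    obtain ⟨_, _, h2, r, h3, h4⟩ := g2b_src hN hi hj hs
    exact ⟨r, ⟨h3, h4⟩, fun r' h5 h6 => g2b_common hs h2 h5 h6 h3 h4⟩
  | false =>
    obtain ⟨_, h2, r, h3, h4⟩ := g2b_snk hN hi hj hs
    exact ⟨r, ⟨h4, h3⟩, fun r' h5 h6 => g2b_common h2 hs h6 h5 h3 h4⟩

theorem g2bN_le (hc : ∀ i < ops.length, (nb i).card = 2) {i : ℕ} (hi : i < ops.length) (r : ℕ) :
    g2bN ops nb i r ≤ 2 := by
  rw [← hc i hi]; exact Finset.card_filter_le _ _

theorem g2bN_off {i r : ℕ} (h : (g2bo ops i).on r = false) : g2bN ops nb i r = 0 := by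
  unfold g2bN
  simp [h]

include hN hc in
theorem g2bN_one {i s : ℕ} (hi : i < ops.length) (h : ∀ r, (g2bo ops i).on r = true ↔ r = s) :
    g2bN ops nb i s = 2 := by
  rw [← hc i hi]
  unfold g2bN
  congr 1
  apply Finset.filter_true_of_mem
  intro j hj
  obtain ⟨r, ⟨h1, h2⟩, _⟩ := g2b_row hN hi hj
  have := (h r).1 h1
  subst this
  exact ⟨h1, h2⟩

include hN hc in
theorem g2bN_two {i s t : ℕ} (hi : i < ops.length) (hst : s ≠ t)
    (h : ∀ r, (g2bo ops i).on r = true ↔ r = s ∨ r = t) :
    g2bN ops nb i s + g2bN ops nb i t = 2 := by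
  rw [← hc i hi]
  unfold g2bN
  rw [← Finset.card_union_of_disjoint]
  · congr 1
    ext j
    simp only [Finset.mem_union, Finset.mem_filter]
    constructor
    · rintro (⟨h1, _⟩ | ⟨h1, _⟩) <;> exact h1
    · intro hj
      obtain ⟨r, ⟨h1, h2⟩, _⟩ := g2b_row hN hi hj
      rcases (h r).1 h1 with h3 | h3
      · subst h3; exact Or.inl ⟨hj, h1, h2⟩
      · subst h3; exact Or.inr ⟨hj, h1, h2⟩
  · rw [Finset.disjoint_left]
    intro j h1 h2
    simp only [Finset.mem_filter] at h1 h2
    obtain ⟨r, _, h4⟩ := g2b_row hN hi h1.1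
    exact hst ((h4 s h1.2.1 h1.2.2).trans (h4 t h2.2.1 h2.2.2).symm)

include hN hc in
theorem g2b_stub {i : ℕ} (hi : i < ops.length) (r : ℕ) :
    stub (g2bo ops i, g2bx ops nb i) r = g2bN ops nb i r := by
  unfold stub g2bx
  rcases ho : g2bo ops i with f | s | s
  · simp only
    have hon : ∀ r, (g2bo ops i).on r = true ↔ r = f ∨ r = f + 1 := by
      intro r; rw [ho]; simp [Op.on]
    have h2 := g2bN_two hN hc hi (by omega : f ≠ f + 1) hon
    have hoff : ∀ r, r ≠ f → r ≠ f + 1 → g2bN ops nb i r = 0 := by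
      intro r h3 h4
      apply g2bN_off
      rw [ho]; simp [Op.on, h3, h4]
    split_ifs with h3 h4 h5 h5 h6
    · rw [h4]
    · rw [h5]; omega
    · rw [hoff r h4 h5]
    · rw [h5]; omega
    · rw [h6]
    · rw [hoff r h5 h6]
  · simp only
    have hon : ∀ r, (g2bo ops i).on r = true ↔ r = s := by
      intro r; rw [ho]; simp [Op.on]
    split_ifs with h3
    · rw [h3, g2bN_one hN hc hi hon]
    · rw [g2bN_off]; rw [ho]; simp [Op.on, h3]
  · simp only
    have hon : ∀ r, (g2bo ops i).on r = true ↔ r = s := by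
      intro r; rw [ho]; simp [Op.on]
    split_ifs with h3
    · rw [h3, g2bN_one hN hc hi hon]
    · rw [g2bN_off]; rw [ho]; simp [Op.on, h3]

include hN in
theorem g2be_lt {p q r : ℕ} (hp : p < ops.length) (h : g2be ops nb p q r ≠ 0) : p < q := by
  unfold g2be at h
  split_ifs at h with h1
  · exact (g2b_src hN hp h1.2.1 h1.1).1
  · exact absurd rfl h

include hN hc in
theorem g2b_ctr {i : ℕ} (hi : i < ops.length) (r : ℕ) :
    ctr (g2bo ops i, g2bx ops nb i) r =
      ∑ q ∈ Finset.range ops.length, g2be ops nb i q r -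
        ∑ p ∈ Finset.range ops.length, g2be ops nb p i r := by
  unfold ctr
  rw [g2b_stub hN hc hi]
  simp only
  cases hs : (g2bo ops i).isSrc with
  | true =>
    have h1 : ∑ p ∈ Finset.range ops.length, g2be ops nb p i r = 0 := by
      apply Finset.sum_eq_zero
      intro p hp
      unfold g2be
      split_ifs with h2
      · exfalso
        have := (g2b_src hN (Finset.mem_range.1 hp) h2.2.1 h2.1).2.2.1
        rw [hs] at this; cases this
      · rfl
    rw [h1, sub_zero, if_pos rfl]
    unfold g2bN g2be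
    rw [Finset.card_filter, Nat.cast_sum]
    have h3 : nb i ⊆ Finset.range ops.length := by
      intro j hj; exact Finset.mem_range.2 (hN i hi j hj).1
    rw [← Finset.sum_subset h3]
    · apply Finset.sum_congr rfl
      intro j hj
      simp [hs, hj]
    · intro j _ hj
      simp [hj]
  | false =>
    have h1 : ∑ q ∈ Finset.range ops.length, g2be ops nb i q r = 0 := by
      apply Finset.sum_eq_zero
      intro q hq
      unfold g2be
      simp [hs]
    rw [h1, zero_sub]
    simp only [Bool.false_eq_true, if_false]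
    congr 1
    unfold g2bN g2be
    rw [Finset.card_filter, Nat.cast_sum]
    have h3 : nb i ⊆ Finset.range ops.length := by
      intro j hj; exact Finset.mem_range.2 (hN i hi j hj).1
    rw [← Finset.sum_subset h3]
    · apply Finset.sum_congr rfl
      intro j hj
      have h4 := (g2b_snk hN hi hj hs).2.1
      have h5 := (hN i hi j hj).2.1
      simp [h4, h5, and_comm]
    · intro j hj1 hj2
      rw [if_neg]
      rintro ⟨_, h5, _⟩
      exact hj2 (hN j (Finset.mem_range.1 hj1) i h5).2.1

theorem g2b_sum_range (f : ℕ → ℤ) (t : ℕ) :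
    ((List.range t).map f).sum = ∑ i ∈ Finset.range t, f i := by
  induction t with
  | zero => simp
  | succ t ih => rw [List.range_succ, List.map_append, List.sum_append, ih, Finset.sum_range_succ]; simp

include hN hc in
/-- the number of open edges -/
theorem g2b_Dl (t : ℕ) (ht : t ≤ ops.length) (r : ℕ) :
    Dl ((g2bL ops nb).take t) r =
      ∑ p ∈ Finset.range t, ∑ q ∈ Finset.Ico t ops.length, g2be ops nb p q r := by
  have h1 : Dl ((g2bL ops nb).take t) r =
      ∑ i ∈ Finset.range t, (∑ q ∈ Finset.range ops.length, g2be ops nb i q r -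
        ∑ p ∈ Finset.range ops.length, g2be ops nb p i r) := by
    unfold Dl g2bL
    rw [← List.map_take, List.take_range, min_eq_left ht, List.map_map, g2b_sum_range]
    apply Finset.sum_congr rfl
    intro i hi
    exact g2b_ctr hN hc (lt_of_lt_of_le (Finset.mem_range.1 hi) ht) r
  rw [h1, Finset.sum_sub_distrib]
  have h2 : ∀ f : ℕ → ℤ, ∑ q ∈ Finset.range ops.length, f q =
      ∑ q ∈ Finset.range t, f q + ∑ q ∈ Finset.Ico t ops.length, f q := by
    intro f; rw [Finset.sum_range_add_sum_Ico f ht]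
  simp_rw [h2]
  rw [Finset.sum_add_distrib, Finset.sum_add_distrib]
  have h3 : ∑ i ∈ Finset.range t, ∑ p ∈ Finset.Ico t ops.length, g2be ops nb p i r = 0 := by
    apply Finset.sum_eq_zero
    intro i hi
    apply Finset.sum_eq_zero
    intro p hp
    by_contra h4
    have h5 := g2be_lt hN (Finset.mem_Ico.1 hp).2 h4
    have h6 := (Finset.mem_Ico.1 hp).1
    have h7 := Finset.mem_range.1 hi
    omega
  rw [h3, Finset.sum_comm (s := Finset.range t) (t := Finset.range t)
    (f := fun i p => g2be ops nb p i r)]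
  ring

end

theorem g2b_split {α : Type*} {L A B : List α} (h : L = A ++ B) : L.take A.length = A := by
  rw [h, List.take_left']; rfl

/-- a Hamiltonian cycle gives feasible, connected splits passing the visit tests -/
theorem feas_of_ham (ops : List Op) (h3 : 3 ≤ ops.length) (h : Ham ops.length (Adj ops)) :
    ∃ L : List (Op × ℕ), L.map Prod.fst = ops ∧ Feas L ∧ Conn L ∧ Visit L := by
  obtain ⟨nb, hc, hN, hA⟩ := nb_of_ham (fun i j h => Or.symm h) h3 h
  have hDl := fun t ht r => g2b_Dl (r := r) hN hc t ht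
  have hnn : ∀ p q r, 0 ≤ g2be ops nb p q r := g2be_nonneg ops nb
  have hlen := g2bL_length ops nb
  -- positivity of `Dl` under an edge
  have hpos : ∀ t r p q, t ≤ ops.length → p < t → t ≤ q → q < ops.length →
      (g2bo ops p).isSrc = true → q ∈ nb p → (g2bo ops p).on r = true → (g2bo ops q).on r = true →
      1 ≤ Dl ((g2bL ops nb).take t) r := by
    intro t r p q ht hp hq1 hq2 h1 h2 h3 h4
    rw [hDl t ht r]
    have e1 : g2be ops nb p q r = 1 := by
      unfold g2be; rw [if_pos ⟨h1, h2, h3, h4⟩]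
    have e2 : g2be ops nb p q r ≤ ∑ q ∈ Finset.Ico t ops.length, g2be ops nb p q r :=
      Finset.single_le_sum (f := fun q => g2be ops nb p q r) (fun i _ => hnn p i r)
        (Finset.mem_Ico.2 ⟨hq1, hq2⟩)
    have e3 : ∑ q ∈ Finset.Ico t ops.length, g2be ops nb p q r ≤
        ∑ p ∈ Finset.range t, ∑ q ∈ Finset.Ico t ops.length, g2be ops nb p q r :=
      Finset.single_le_sum (f := fun p => ∑ q ∈ Finset.Ico t ops.length, g2be ops nb p q r)
        (fun i _ => Finset.sum_nonneg fun q _ => hnn i q r) (Finset.mem_range.2 hp)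
    rw [← e1]; exact e2.trans e3
  have hget : ∀ A x B, g2bL ops nb = A ++ x :: B → A.length < ops.length ∧
      x = (g2bo ops A.length, g2bx ops nb A.length) := by
    intro A x B hL
    have h1 : A.length < ops.length := by
      rw [← hlen, hL]; simp
    refine ⟨h1, ?_⟩
    have h2 : (g2bL ops nb)[A.length]? = some x := by rw [hL]; simp
    have h4 : (g2bL ops nb)[A.length]? = some (g2bo ops A.length, g2bx ops nb A.length) := by
      simp [g2bL, h1]
    rw [h4] at h2
    exact (Option.some.inj h2).symm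
  refine ⟨g2bL ops nb, g2bL_fst ops nb, ⟨?_, ?_, ?_⟩, ?_, ?_⟩
  · -- le2
    intro x hx
    unfold g2bL at hx
    obtain ⟨i, hi, rfl⟩ := List.mem_map.1 hx
    have hi := List.mem_range.1 hi
    show g2bx ops nb i ≤ 2
    unfold g2bx
    split
    · split_ifs <;> exact g2bN_le hc hi _
    · omega
  · intro A B hL r
    have h1 : A.length ≤ ops.length := by rw [← hlen, hL]; simp
    rw [← g2b_split hL, hDl A.length h1 r]
    exact Finset.sum_nonneg fun p _ => Finset.sum_nonneg fun q _ => hnn p q r
  · intro r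
    have h1 : (g2bL ops nb).take ops.length = g2bL ops nb := by
      rw [← hlen]; exact List.take_length
    rw [← h1, hDl ops.length le_rfl r]
    simp
  · -- Conn
    intro c κ H1 H2
    have step : ∀ r t, t < ops.length → 0 < Dl ((g2bL ops nb).take t) r →
        0 < Dl ((g2bL ops nb).take (t + 1)) r → κ r t = κ r (t + 1) := by
      intro r t ht e1 e2
      have ht' : t < (g2bL ops nb).length := by rw [hlen]; exact ht
      have e3 : g2bL ops nb = (g2bL ops nb).take t ++ (g2bL ops nb)[t] :: (g2bL ops nb).drop (t + 1) := by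
        rw [← List.drop_eq_getElem_cons ht', List.take_append_drop]
      have e4 : ((g2bL ops nb).take t).length = t := by rw [List.length_take, hlen]; omega
      have e5 := H2 _ _ _ r e3 e1 (by rw [← List.take_succ_eq_append_getElem ht']; exact e2)
      rwa [e4] at e5
    have run : ∀ r p q, q < ops.length → (∀ t, p < t → t ≤ q → 0 < Dl ((g2bL ops nb).take t) r) →
        ∀ d, p + 1 + d ≤ q → κ r (p + 1) = κ r (p + 1 + d) := by
      intro r p q hq hD d
      induction d with
      | zero => intro _; rfl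
      | succ d ih =>
        intro hd
        rw [ih (by omega)]
        exact step r (p + 1 + d) (by omega) (hD _ (by omega) (by omega))
          (hD _ (by omega) (by omega))
    have vert : ∀ i r, i < ops.length → 0 < g2bN ops nb i r →
        c i = κ r (if (g2bo ops i).isSrc then i + 1 else i) := by
      intro i r hi hp
      have ht' : i < (g2bL ops nb).length := by rw [hlen]; exact hi
      have e3 : g2bL ops nb = (g2bL ops nb).take i ++ (g2bL ops nb)[i] :: (g2bL ops nb).drop (i + 1) := by
        rw [← List.drop_eq_getElem_cons ht', List.take_append_drop]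
      have e4 : ((g2bL ops nb).take i).length = i := by rw [List.length_take, hlen]; omega
      have e6 : (g2bL ops nb)[i] = (g2bo ops i, g2bx ops nb i) := by simp [g2bL]
      have e5 := H1 _ _ _ r e3
      rw [e6, e4, g2b_stub hN hc hi] at e5
      exact e5 hp
    have edge : ∀ i < ops.length, ∀ j ∈ nb i, (g2bo ops i).isSrc = true → c i = c j := by
      intro i hi j hj hs
      obtain ⟨h1, h2, h4, r, h5, h6⟩ := g2b_src hN hi hj hs
      have p1 : 0 < g2bN ops nb i r := Finset.card_pos.2 ⟨j, Finset.mem_filter.2 ⟨hj, h5, h6⟩⟩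
      have p2 : 0 < g2bN ops nb j r :=
        Finset.card_pos.2 ⟨i, Finset.mem_filter.2 ⟨(hN i hi j hj).2.1, h6, h5⟩⟩
      have v1 := vert i r hi p1
      have v2 := vert j r h2 p2
      rw [if_pos hs] at v1
      rw [h4] at v2
      simp only [Bool.false_eq_true, if_false] at v2
      rw [v1, v2]
      have := run r i j h2 (fun t e1 e2 => hpos t r i j (by omega) e1 e2 h2 hs hj h5 h6)
        (j - (i + 1)) (by omega)
      rw [this]; congr 1; omega
    have edge' : ∀ i < ops.length, ∀ j ∈ nb i, c i = c j := by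
      intro i hi j hj
      cases hs : (g2bo ops i).isSrc with
      | true => exact edge i hi j hj hs
      | false =>
        have h1 := hN i hi j hj
        exact (edge j h1.1 i h1.2.1 (g2b_snk hN hi hj hs).2.1).symm
    intro i j hi hj
    rw [hlen] at hi hj
    rcases hA {k | c k = c i} (by
      intro a ha b hb
      show c a = c i ↔ c b = c i
      rw [edge' a ha b hb]) with h1 | h1
    · exact (h1 j hj).symm
    · exact absurd rfl (h1 i hi)
  · -- Visit
    intro A B r x y hL
    obtain ⟨h1, h2⟩ := hget _ _ _ hL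
    have hL' : g2bL ops nb = (A ++ [(Op.src r, x)]) ++ (Op.snk r, y) :: B := by rw [hL]; simp
    obtain ⟨h4, h5⟩ := hget _ _ _ hL'
    have e0 : (A ++ [(Op.src r, x)]).length = A.length + 1 := by simp
    rw [e0] at h4 h5
    have o1 : g2bo ops A.length = .src r := (congrArg Prod.fst h2).symm
    have o2 : g2bo ops (A.length + 1) = .snk r := (congrArg Prod.fst h5).symm
    have hex : ∃ p ∈ nb (A.length + 1), p ≠ A.length := by
      by_contra hcon
      push_neg at hcon
      have : nb (A.length + 1) ⊆ {A.length} := by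
        intro p hp; exact Finset.mem_singleton.2 (hcon p hp)
      have h6 := Finset.card_le_card this
      rw [hc _ h4] at h6
      simp at h6
    obtain ⟨p, hp, hne⟩ := hex
    obtain ⟨k1, k2, r', k3, k4⟩ := g2b_snk hN h4 hp (by rw [o2]; rfl)
    have hr : r' = r := by
      rw [o2] at k4; simpa [Op.on] using k4
    subst hr
    rw [← g2b_split hL]
    exact hpos A.length r' p (A.length + 1) (by omega) (by omega) (by omega) h4 k2
      ((hN _ h4 p hp).2.1) k3 k4

end MST
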