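import Pool.Agent.Work.MP_2f1fa1_lc.Mt.Defs2
import Pool.Agent.Work.MP_2f1fa1_lc.CLPT

namespace MST

theorem mem_vars {φ : List (List Lit)} {C : List Lit} (hC : C ∈ φ) {l : Lit} (hl : l ∈ C) :
    l.2 ∈ vars φ := by
  unfold vars
  rw [List.mem_dedup]
  exact List.mem_cons_of_mem _ (List.mem_flatMap.2 ⟨C, hC, List.mem_map.2 ⟨l, hl, rfl⟩⟩)

theorem mem_sls {φ : List (List Lit)} {l : Lit} : l ∈ sls φ ↔ l.2 ∈ vars φ := by
  obtain ⟨b, x⟩ := l
  unfold sls
  rw [List.mem_flatMap]
  constructor
  · rintro ⟨y, hy, h⟩
    simp at h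
    rcases h with ⟨_, rfl⟩ | ⟨_, rfl⟩ <;> exact hy
  · intro h
    exact ⟨x, h, by cases b <;> simp⟩

theorem sat_iff_msat (φ : List (List Lit)) : PTime.Sat φ ↔ MSat (sls φ) (cls φ) := by
  constructor
  · rintro ⟨v, hv⟩
    refine ⟨fun l => v l.2 == l.1, fun c hc => ?_⟩
    unfold cls at hc
    rcases List.mem_append.1 hc with hc | hc
    · rcases List.mem_append.1 hc with hc | hc
      · obtain ⟨C, hC, rfl⟩ := List.mem_map.1 hc
        obtain ⟨l, hl, h⟩ := hv C hC
        exact ⟨l, hl, mem_sls.2 (mem_vars hC hl), by simp [h]⟩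
      · obtain ⟨x, hx, rfl⟩ := List.mem_map.1 hc
        refine ⟨(v x, x), ?_, mem_sls.2 hx, by simp⟩
        cases v x <;> simp
    · obtain ⟨x, hx, rfl⟩ := List.mem_map.1 hc
      refine ⟨(!v x, x), ?_, mem_sls.2 hx, by simp⟩
      cases v x <;> simp
  · rintro ⟨w, hw⟩
    refine ⟨fun x => w (true, x), fun C hC => ?_⟩
    obtain ⟨s, hs, _, h2⟩ := hw (true, C) (by
      unfold cls
      exact List.mem_append_left _ (List.mem_append_left _ (List.mem_map.2 ⟨C, hC, rfl⟩)))
    refine ⟨s, hs, ?_⟩
    obtain ⟨b, x⟩ := s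
    have hx := mem_vars hC hs
    cases b with
    | true => exact h2
    | false =>
      obtain ⟨s', hs', _, h3⟩ := hw (false, [(true, x), (false, x)]) (by
        unfold cls
        exact List.mem_append_right _ (List.mem_map.2 ⟨x, hx, rfl⟩))
      simp only [List.mem_cons, List.not_mem_nil, or_false] at hs'
      rcases hs' with rfl | rfl
      · exact h3
      · simp only at h2 h3
        rw [h2] at h3; cases h3

theorem sls_nodup (φ : List (List Lit)) : (sls φ).Nodup := by
  unfold sls
  rw [List.nodup_flatMap]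
  refine ⟨fun x _ => by simp, ?_⟩
  refine List.Pairwise.imp ?_ (List.nodup_dedup _)
  intro a b hab
  simp only [Function.onFun, List.disjoint_left]
  rintro ⟨c, x⟩ h1 h2
  simp at h1 h2
  apply hab
  rcases h1 with ⟨_, rfl⟩ | ⟨_, rfl⟩ <;> rcases h2 with ⟨_, h⟩ | ⟨_, h⟩ <;> exact h

theorem cls_sorted (φ : List (List Lit)) : Sorted (cls φ) := by
  refine ⟨_, _, rfl, ?_, ?_⟩
  · intro c hc
    rcases List.mem_append.1 hc with hc | hc
    · obtain ⟨C, _, rfl⟩ := List.mem_map.1 hc; rfl
    · obtain ⟨C, _, rfl⟩ := List.mem_map.1 hc; rfl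
  · intro c hc
    obtain ⟨C, _, rfl⟩ := List.mem_map.1 hc; rfl

theorem cls_length (φ : List (List Lit)) : 1 ≤ (cls φ).length := by
  have h1 : [] ∈ vars φ := by
    unfold vars; rw [List.mem_dedup]; exact List.mem_cons_self
  have h2 := List.length_pos_of_mem h1
  unfold cls
  simp only [List.length_append, List.length_map]
  omega

theorem mono_wf_inst {σ : Type} [DecidableEq σ] (sl : List σ) (cl : List (Bool × List σ))
    (hm : 1 ≤ cl.length) : WF (2 * cl.length + 1) (inst sl cl) := by
  have hodd : WF (2 * cl.length + 1) (oddL cl.length) := by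
    intro o ho
    simp only [oddL, List.mem_map, List.mem_range] at ho
    obtain ⟨i, hi, rfl⟩ := ho
    show 2 * i + 1 ≤ _
    omega
  have heven : WF (2 * cl.length + 1) (evenL cl.length) := by
    intro o ho
    simp only [evenL, List.mem_map, List.mem_range] at ho
    obtain ⟨i, hi, rfl⟩ := ho
    show 2 * i + 2 ≤ _
    omega
  have hsrc : WF (2 * cl.length + 1) (srcC cl.length) := by
    intro o ho
    simp only [srcC, List.mem_map, List.mem_range] at ho
    obtain ⟨i, hi, rfl⟩ := ho
    show 1 ≤ 4 * i + 5 ∧ 4 * i + 5 ≤ _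
    omega
  have hsnk : WF (2 * cl.length + 1) (snkC cl.length) := by
    intro o ho
    simp only [snkC, List.mem_map, List.mem_range] at ho
    obtain ⟨i, hi, rfl⟩ := ho
    show 4 * i + 5 ≤ _
    omega
  have hvis : WF (2 * cl.length + 1) (visits cl.length) := by
    intro o ho
    simp only [visits, List.mem_flatMap, List.mem_range, List.mem_cons, List.not_mem_nil,
      or_false] at ho
    obtain ⟨i, hi, rfl | rfl⟩ := ho
    · show 1 ≤ i + 1 ∧ i + 1 ≤ _
      omega
    · show i + 1 ≤ _
      omega
  have hcheck : WF (2 * cl.length + 1) (check cl.length) := by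
    intro o ho
    simp only [check, List.mem_append, List.mem_flatMap, List.mem_range, List.mem_cons,
      List.not_mem_nil, or_false] at ho
    rcases ho with ((rfl | rfl) | ⟨i, hi, rfl | rfl⟩) | (rfl | rfl | rfl | rfl) <;>
      simp only <;> omega
  have hinit : WF (2 * cl.length + 1) (init cl.length) := by
    intro o ho
    simp only [init, List.mem_append, List.mem_flatMap, List.mem_range, List.mem_cons,
      List.not_mem_nil, or_false] at ho
    rcases ho with (rfl | ⟨i, hi, rfl | rfl | rfl⟩) | (rfl | rfl | rfl | rfl) <;>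
      simp only <;> omega
  have hfinal : WF (2 * cl.length + 1) (final cl.length) := by
    intro o ho
    simp only [final, List.mem_append, List.mem_flatMap, List.mem_range, List.mem_cons,
      List.not_mem_nil, or_false] at ho
    rcases ho with ((rfl | rfl) | ⟨i, hi, rfl | rfl | rfl⟩) | (rfl | rfl | rfl) <;>
      simp only <;> omega
  have hcross : ∀ s : σ, WF (2 * cl.length + 1) (cross cl s) := by
    intro s o ho
    simp only [cross, List.mem_flatMap] at ho
    obtain ⟨⟨c, k⟩, hk, ho⟩ := ho
    have hk' : k < cl.length := by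
      have := List.mem_zipIdx hk
      omega
    split_ifs at ho
    · cases hc : c.1 with
      | true =>
        simp only [gad, hc, if_true, List.mem_cons, List.not_mem_nil, or_false] at ho
        rcases ho with rfl | rfl | rfl | rfl <;> simp only <;> omega
      | false =>
        simp only [gad, hc, Bool.false_eq_true, if_false, List.mem_cons, List.not_mem_nil,
          or_false] at ho
        rcases ho with rfl | rfl | rfl | rfl <;> simp only <;> omega
    · simp at ho
  intro o ho
  simp only [inst, slab, List.mem_append, List.mem_flatMap] at ho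
  rcases ho with ((ho | ho) | ⟨s, _, (((((((((ho | ho) | ho) | ho) | ho) | ho) | ho) | ho) | ho) | ho) | ho⟩) | ho
  · exact hinit o ho
  · exact hcheck o ho
  · exact hodd o ho
  · exact hsrc o ho
  · exact heven o ho
  · exact hcross s o ho
  · exact hvis o ho
  · exact hodd o ho
  · simp only [List.mem_singleton] at ho
    subst ho
    show 1 ≤ 4 * cl.length + 1 ∧ 4 * cl.length + 1 ≤ _
    omega
  · exact heven o ho
  · exact hsnk o ho
  · simp only [List.mem_singleton] at ho
    subst ho
    show 1 ≤ _
    omega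
  · exact hcheck o ho
  · exact hfinal o ho

theorem opsOf_wf (φ : List (List Lit)) : WF (2 * (cls φ).length + 1) (opsOf φ) :=
  mono_wf_inst _ _ (cls_length φ)

theorem opsOf_length (φ : List (List Lit)) : 3 ≤ (opsOf φ).length := by
  unfold opsOf inst init
  simp only [List.length_append, List.length_cons, List.length_nil]
  omega

end MST
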