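import Pool.Agent.Work.MP_2f1fa1_lc.Mt.ST1

/-! Connectedness of the annotated instance. -/

namespace MST

/-- the local conditions on the colours, for a segment starting at time `t` with the numbers `s`
of open edges -/
def st2_Loc (c : ℕ → Bool) (κ : ℕ → ℕ → Bool) : ℕ → (ℕ → ℤ) → List (Op × ℕ) → Prop
  | _, _, [] => True
  | t, s, x :: S => (∀ r, 0 < stub x r → c t = κ r (if x.1.isSrc then t + 1 else t)) ∧
      (∀ r, 0 < s r → 0 < s r + ctr x r → κ r t = κ r (t + 1)) ∧
      st2_Loc c κ (t + 1) (fun r => s r + ctr x r) S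

variable {c : ℕ → Bool} {κ : ℕ → ℕ → Bool}

theorem st2_loc_append (P : List (Op × ℕ)) : ∀ (t : ℕ) (s : ℕ → ℤ) (Q : List (Op × ℕ)),
    st2_Loc c κ t s (P ++ Q) ↔ st2_Loc c κ t s P ∧
      st2_Loc c κ (t + P.length) (fun r => s r + Dl P r) Q := by
  induction P with
  | nil =>
    intro t s Q
    simp [st2_Loc, dl_nil]
  | cons x P ih =>
    intro t s Q
    have e1 : t + 1 + P.length = t + (x :: P).length := by
      rw [List.length_cons]
      omega
    have e2 : (fun r => s r + ctr x r + Dl P r) = fun r => s r + Dl (x :: P) r := by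
      funext r
      rw [dl_cons]
      ring
    simp only [List.cons_append, st2_Loc, ih, e1, e2, and_assoc]

/-- the local conditions hold for a list satisfying the hypotheses of `Conn` -/
theorem st2_loc_of (L : List (Op × ℕ))
    (h1 : ∀ A x B r, L = A ++ x :: B → 0 < stub x r →
      c A.length = κ r (if x.1.isSrc then A.length + 1 else A.length))
    (h2 : ∀ A x B r, L = A ++ x :: B → 0 < Dl A r → 0 < Dl (A ++ [x]) r →
      κ r A.length = κ r (A.length + 1)) :
    ∀ B A, L = A ++ B → st2_Loc c κ A.length (fun r => Dl A r) B := by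
  intro B
  induction B with
  | nil =>
    intro A _
    trivial
  | cons x B ih =>
    intro A hA
    refine ⟨fun r hr => h1 A x B r hA hr, fun r ha hb => h2 A x B r hA ha ?_, ?_⟩
    · rw [dl_append, dl_cons, dl_nil]
      simpa using hb
    · have h3 := ih (A ++ [x]) (by simp [hA])
      have e1 : (A ++ [x]).length = A.length + 1 := by simp
      have e2 : (fun r => Dl (A ++ [x]) r) = fun r => Dl A r + ctr x r := by
        funext r
        rw [dl_append, dl_cons, dl_nil]
        ring
      rwa [e1, e2] at h3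

/-- row `r` is live on the segment `S` if it starts with `d` open edges -/
def st2_Live (r : ℕ) (d : ℤ) (S : List (Op × ℕ)) : Prop := ∀ A B, S = A ++ B → 0 < d + Dl A r

theorem st2_live_nil {r : ℕ} {d : ℤ} (hd : 0 < d) : st2_Live r d [] := by
  intro A B h
  have : A = [] := by
    cases A with
    | nil => rfl
    | cons a A => simp at h
  subst this
  rw [dl_nil]
  omega

theorem st2_live_cons {r : ℕ} {d : ℤ} {x : Op × ℕ} {S : List (Op × ℕ)} (hd : 0 < d)
    (h : st2_Live r (d + ctr x r) S) : st2_Live r d (x :: S) := by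
  intro A B hAB
  cases A with
  | nil =>
    rw [dl_nil]
    omega
  | cons a A =>
    simp only [List.cons_append, List.cons.injEq] at hAB
    obtain ⟨rfl, h2⟩ := hAB
    rw [dl_cons]
    have := h A B h2
    omega

theorem st2_live_head {r : ℕ} {d : ℤ} {S : List (Op × ℕ)} (h : st2_Live r d S) : 0 < d := by
  have := h [] S rfl
  rw [dl_nil] at this
  omega

theorem st2_live_tail {r : ℕ} {d : ℤ} {x : Op × ℕ} {S : List (Op × ℕ)}
    (h : st2_Live r d (x :: S)) : st2_Live r (d + ctr x r) S := by
  intro A B hAB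
  have := h (x :: A) B (by rw [hAB]; rfl)
  rw [dl_cons] at this
  omega

theorem st2_live_append {r : ℕ} {d : ℤ} {P Q : List (Op × ℕ)} (h : st2_Live r d P)
    (h2 : st2_Live r (d + Dl P r) Q) : st2_Live r d (P ++ Q) := by
  intro A B hAB
  rcases List.append_eq_append_iff.1 hAB with ⟨C, h3, h4⟩ | ⟨C, h3, h4⟩
  · subst h3
    rw [dl_append]
    have := h2 C B h4
    omega
  · exact h A C h3

theorem st2_live_src {r : ℕ} {d : ℤ} {S : List (Op × ℕ)} (hS : ∀ x ∈ S, x.1.isSrc = true)
    (hd : 0 < d) : st2_Live r d S := by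
  intro A B h
  have h1 := st1_dl_src A (fun x hx => hS x (by simp [h, hx])) r
  omega

theorem st2_live_snk {r : ℕ} {d : ℤ} {S : List (Op × ℕ)} (hS : ∀ x ∈ S, x.1.isSrc = false)
    (hd : 0 < d + Dl S r) : st2_Live r d S := by
  intro A B h
  have h1 := st1_dl_snk B (fun x hx => hS x (by simp [h, hx])) r
  rw [h, dl_append] at hd
  omega

theorem st2_live_of_ok {r : ℕ} {s s' : ℕ → ℤ} {S : List (Op × ℕ)} (h : st1_Ok s S)
    (hs : s r < s' r) : st2_Live r (s' r) S := by
  intro A B hAB
  have := h A B hAB r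
  omega

theorem st2_live_range {r : ℕ} {d : ℤ} (n : ℕ) (f : ℕ → List (Op × ℕ)) (hd : 0 < d)
    (h : ∀ j < n, st2_Live r (d + Dl ((List.range j).flatMap f) r) (f j)) :
    st2_Live r d ((List.range n).flatMap f) := by
  induction n with
  | zero => simpa using st2_live_nil hd
  | succ n ih =>
    rw [List.range_succ, List.flatMap_append]
    apply st2_live_append
    · exact ih fun j hj => h j (by omega)
    · simpa using h n (by omega)

theorem st2_live_neutral {ι : Type} {r : ℕ} {d : ℤ} (l : List ι) (f : ι → List (Op × ℕ))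
    (hd : 0 < d) (h0 : ∀ i ∈ l, Dl (f i) r = 0) (h : ∀ i ∈ l, st2_Live r d (f i)) :
    st2_Live r d (l.flatMap f) := by
  induction l with
  | nil => simpa using st2_live_nil hd
  | cons a l ih =>
    rw [List.flatMap_cons]
    apply st2_live_append
    · exact h a (by simp)
    · rw [h0 a (by simp), add_zero]
      exact ih (fun i hi => h0 i (by simp [hi])) (fun i hi => h i (by simp [hi]))

/-! ### consequences of liveness -/

theorem st2_live_end {r : ℕ} (S : List (Op × ℕ)) : ∀ (t : ℕ) (s : ℕ → ℤ),
    st2_Loc c κ t s S → st2_Live r (s r) S → κ r (t + S.length) = κ r t := by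
  induction S with
  | nil =>
    intro t s _ _
    simp
  | cons x S ih =>
    intro t s hL hr
    obtain ⟨_, h2, h3⟩ := hL
    have h4 := st2_live_tail hr
    have h5 := ih (t + 1) _ h3 h4
    have h6 := h2 r (st2_live_head hr) (st2_live_head h4)
    rw [List.length_cons, h6, ← h5]
    congr 1
    omega

theorem st2_live_col {r : ℕ} (S : List (Op × ℕ)) : ∀ (t : ℕ) (s : ℕ → ℤ),
    st2_Loc c κ t s S → st2_Live r (s r) S → ∀ i x, S[i]? = some x → 0 < stub x r →
      c (t + i) = κ r t := by
  induction S with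
  | nil =>
    intro t s _ _ i x hx
    simp at hx
  | cons y S ih =>
    intro t s hL hr i x hx hst
    obtain ⟨h1, h2, h3⟩ := hL
    have h4 := st2_live_tail hr
    have h6 := h2 r (st2_live_head hr) (st2_live_head h4)
    cases i with
    | zero =>
      simp only [List.getElem?_cons_zero, Option.some.injEq] at hx
      subst hx
      have := h1 r hst
      rw [add_zero, this]
      split_ifs
      · exact h6.symm
      · rfl
    | succ i =>
      simp only [List.getElem?_cons_succ] at hx
      have h5 := ih (t + 1) _ h3 h4 i x hx hst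
      rw [h6, ← h5]
      congr 1
      omega

theorem st2_ctr_src {x : Op × ℕ} {r : ℕ} (hx : x.1.isSrc = true) : ctr x r = stub x r := by
  simp [ctr, hx]

theorem st2_ctr_snk {x : Op × ℕ} {r : ℕ} (hx : x.1.isSrc = false) :
    ctr x r = -(stub x r : ℤ) := by
  simp [ctr, hx]

theorem st2_src_col {r : ℕ} (S : List (Op × ℕ)) : ∀ (t : ℕ) (s : ℕ → ℤ),
    st2_Loc c κ t s S → (∀ x ∈ S, x.1.isSrc = true) → 0 ≤ s r →
      ∀ i x, S[i]? = some x → 0 < stub x r → c (t + i) = κ r (t + S.length) := by
  induction S with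
  | nil =>
    intro t s _ _ _ i x hx
    simp at hx
  | cons y S ih =>
    intro t s hL hS hs i x hx hst
    obtain ⟨h1, h2, h3⟩ := hL
    have hy := hS y (by simp)
    have hS' : ∀ x ∈ S, x.1.isSrc = true := fun x hx => hS x (by simp [hx])
    have hcy := st2_ctr_src (r := r) hy
    cases i with
    | zero =>
      simp only [List.getElem?_cons_zero, Option.some.injEq] at hx
      subst hx
      have h4 := h1 r hst
      rw [if_pos hy] at h4
      have h5 := st2_live_end (r := r) S (t + 1) _ h3 (st2_live_src hS' (by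
        have : (0 : ℤ) < stub y r := by exact_mod_cast hst
        omega))
      rw [add_zero, h4, ← h5, List.length_cons]
      congr 1
      omega
    | succ i =>
      simp only [List.getElem?_cons_succ] at hx
      have h5 := ih (t + 1) _ h3 hS' (by omega) i x hx hst
      have e1 : t + 1 + i = t + (i + 1) := by omega
      have e2 : t + 1 + S.length = t + (y :: S).length := by
        rw [List.length_cons]
        omega
      rw [← e1, h5, e2]

theorem st2_snk_col {r : ℕ} (S : List (Op × ℕ)) : ∀ (t : ℕ) (s : ℕ → ℤ),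
    st2_Loc c κ t s S → (∀ x ∈ S, x.1.isSrc = false) → 0 ≤ s r + Dl S r →
      ∀ i x, S[i]? = some x → 0 < stub x r → c (t + i) = κ r t := by
  induction S with
  | nil =>
    intro t s _ _ _ i x hx
    simp at hx
  | cons y S ih =>
    intro t s hL hS hs i x hx hst
    obtain ⟨h1, h2, h3⟩ := hL
    have hy := hS y (by simp)
    have hS' : ∀ x ∈ S, x.1.isSrc = false := fun x hx => hS x (by simp [hx])
    have hcy := st2_ctr_snk (r := r) hy
    rw [dl_cons] at hs
    cases i with
    | zero =>
      simp only [List.getElem?_cons_zero, Option.some.injEq] at hx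
      subst hx
      have h4 := h1 r hst
      rw [hy] at h4
      simpa using h4
    | succ i =>
      simp only [List.getElem?_cons_succ] at hx
      have h5 := ih (t + 1) _ h3 hS' (by omega) i x hx hst
      have hm : x ∈ S := List.mem_of_getElem? hx
      obtain ⟨A, B, hAB⟩ := List.append_of_mem hm
      have h6 : Dl S r ≤ ctr x r := by
        rw [hAB, dl_append, dl_cons]
        have a1 := st1_dl_snk A (fun x hx => hS' x (by simp [hAB, hx])) r
        have a2 := st1_dl_snk B (fun x hx => hS' x (by simp [hAB, hx])) r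
        omega
      have h7 := st2_ctr_snk (r := r) (hS' x hm)
      have h8 : (0 : ℤ) < stub x r := by exact_mod_cast hst
      have h9 := h2 r (by omega) (by omega)
      have e1 : t + 1 + i = t + (i + 1) := by omega
      rw [← e1, h5, h9]

/-! ### the checkpoint -/

/-- the rows which are live at the checkpoints -/
def st2_Per (m r : ℕ) : Prop := r = 1 ∨ r = 4 * m + 1 ∨ (r % 2 = 0 ∧ 2 ≤ r ∧ r ≤ 4 * m)

theorem st2_per_pos {m r : ℕ} (h : st2_Per m r) : 1 ≤ target m r := by
  unfold st2_Per at h
  rw [target]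
  split_ifs <;> omega

theorem st2_check_eq (m : ℕ) : (check m).map an0 = [an0 (.src 1), an0 (.snk 1)] ++
      ((List.range (2 * m)).flatMap fun i =>
        [an0 (.src (2 * i + 2)), an0 (.snk (2 * i + 2))]) ++
      [an0 (.snk (4 * m + 1)), an0 (.src (4 * m + 1)), an0 (.snk (4 * m + 1)),
        an0 (.src (4 * m + 1))] := by
  simp only [check, List.map_append, List.map_flatMap, List.map_cons, List.map_nil]

theorem st2_pair_live {r : ℕ} {d : ℤ} (hd : 0 < d) (k : ℕ) :
    st2_Live r d [an0 (.src k), an0 (.snk k)] := by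
  apply st2_live_cons hd
  apply st2_live_cons
  · rw [st1_c_src]
    split_ifs <;> omega
  apply st2_live_nil
  rw [st1_c_src, st1_c_snk]
  split_ifs <;> omega

theorem st2_check_live {m r : ℕ} (h : st2_Per m r) :
    st2_Live r (target m r) ((check m).map an0) := by
  rw [st2_check_eq]
  have hf := st1_dl_neutral (List.range (2 * m)) (fun i : ℕ =>
        [an0 (.src (2 * i + 2)), an0 (.snk (2 * i + 2))]) (fun i _ r => st1_pair_dl _ r) r
  have hp := st2_per_pos h
  apply st2_live_append
  · apply st2_live_append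
    · exact st2_pair_live (by omega) _
    · rw [st1_pair_dl, add_zero]
      apply st2_live_neutral _ _ (by omega)
      · intro i _
        exact st1_pair_dl _ _
      · intro i _
        exact st2_pair_live (by omega) _
  · rw [dl_append, st1_pair_dl, hf, zero_add, add_zero]
    have ht : target m r = if r = 4 * m + 1 then 3 else
      if r = 1 ∨ (r % 2 = 0 ∧ 2 ≤ r ∧ r ≤ 4 * m) then 1 else 0 := rfl
    rw [ht] at hp ⊢
    apply st2_live_cons
    · omega
    apply st2_live_cons
    · rw [st1_c_snk]
      split_ifs at hp ⊢ <;> omega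
    apply st2_live_cons
    · rw [st1_c_snk, st1_c_src]
      split_ifs at hp ⊢ <;> omega
    apply st2_live_cons
    · rw [st1_c_snk, st1_c_src]
      split_ifs at hp ⊢ <;> omega
    apply st2_live_nil
    rw [st1_c_snk, st1_c_src]
    split_ifs at hp ⊢ <;> omega

theorem st2_check_mem {m : ℕ} {x : Op × ℕ} (hx : x ∈ (check m).map an0) :
    ∃ r, st2_Per m r ∧ 0 < stub x r := by
  rw [st2_check_eq] at hx
  simp only [List.mem_append, List.mem_cons, List.not_mem_nil, or_false, List.mem_flatMap,
    List.mem_range] at hx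
  have h1 : ∀ k, 0 < stub (an0 (.src k)) k := by
    intro k
    simp [stub, an0]
  have h2 : ∀ k, 0 < stub (an0 (.snk k)) k := by
    intro k
    simp [stub, an0]
  rcases hx with ((rfl | rfl) | ⟨i, hi, rfl | rfl⟩) | rfl | rfl | rfl | rfl
  · exact ⟨1, Or.inl rfl, h1 _⟩
  · exact ⟨1, Or.inl rfl, h2 _⟩
  · exact ⟨2 * i + 2, Or.inr (Or.inr ⟨by omega, by omega, by omega⟩), h1 _⟩
  · exact ⟨2 * i + 2, Or.inr (Or.inr ⟨by omega, by omega, by omega⟩), h2 _⟩
  · exact ⟨4 * m + 1, Or.inr (Or.inl rfl), h2 _⟩
  · exact ⟨4 * m + 1, Or.inr (Or.inl rfl), h1 _⟩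
  · exact ⟨4 * m + 1, Or.inr (Or.inl rfl), h2 _⟩
  · exact ⟨4 * m + 1, Or.inr (Or.inl rfl), h1 _⟩

theorem st2_check_col {m t : ℕ}
    (hL : st2_Loc c κ t (target m) ((check m).map an0)) {K : Bool}
    (hK : ∀ r, st2_Per m r → κ r t = K) : ∀ i < ((check m).map an0).length, c (t + i) = K := by
  intro i hi
  obtain ⟨r, hr, hs⟩ := st2_check_mem (m := m) (List.getElem_mem hi)
  rw [← hK r hr]
  exact st2_live_col _ t _ hL (st2_check_live hr) i _ (List.getElem?_eq_getElem hi) hs

theorem st2_check_end {m t r : ℕ}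
    (hL : st2_Loc c κ t (target m) ((check m).map an0)) (hr : st2_Per m r) :
    κ r (t + ((check m).map an0).length) = κ r t :=
  st2_live_end _ t _ hL (st2_check_live hr)

/-! ### the slab -/

variable {σ : Type} [DecidableEq σ]

theorem st2_stub_odd {f z : ℕ} (hf : f % 2 = 1) (r : ℕ) :
    stub (.lnk f, z) r = if r = f then z else if r = f + 1 then 2 - z else 0 := by
  simp [stub, hf]

theorem st2_stub_even {f z : ℕ} (hf : f % 2 = 0) (r : ℕ) :
    stub (.lnk f, z) r = if r = f then 2 - z else if r = f + 1 then z else 0 := by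
  simp [stub, hf]

/-- the operation uses rows between `1` and `4 * m + 1` -/
def st2_In (m : ℕ) (o : Op) : Prop :=
  match o with
  | .lnk f => 1 ≤ f ∧ f ≤ 4 * m
  | .src r => 1 ≤ r ∧ r ≤ 4 * m + 1
  | .snk r => 1 ≤ r ∧ r ≤ 4 * m + 1

theorem st2_in_row {m : ℕ} {x : Op × ℕ} (h : st2_In m x.1) {r : ℕ} (hr : 0 < stub x r) :
    1 ≤ r ∧ r ≤ 4 * m + 1 := by
  obtain ⟨o, z⟩ := x
  cases o with
  | lnk f =>
    simp only [st2_In] at h
    simp only [stub] at hr
    split_ifs at hr <;> omega
  | src s =>
    simp only [st2_In] at h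
    simp only [stub] at hr
    split_ifs at hr <;> omega
  | snk s =>
    simp only [st2_In] at h
    simp only [stub] at hr
    split_ifs at hr <;> omega

theorem st2_in_odd {m : ℕ} {o : Op} (h : o ∈ oddL m) : st2_In m o := by
  simp only [oddL, List.mem_map, List.mem_range] at h
  obtain ⟨i, hi, rfl⟩ := h
  simp only [st2_In]
  omega

theorem st2_in_even {m : ℕ} {o : Op} (h : o ∈ evenL m) : st2_In m o := by
  simp only [evenL, List.mem_map, List.mem_range] at h
  obtain ⟨i, hi, rfl⟩ := h
  simp only [st2_In]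
  omega

theorem st2_in_srcC {m : ℕ} {o : Op} (h : o ∈ srcC m) : st2_In m o := by
  simp only [srcC, List.mem_map, List.mem_range] at h
  obtain ⟨i, hi, rfl⟩ := h
  simp only [st2_In]
  omega

theorem st2_in_snkC {m : ℕ} {o : Op} (h : o ∈ snkC m) : st2_In m o := by
  simp only [snkC, List.mem_map, List.mem_range] at h
  obtain ⟨i, hi, rfl⟩ := h
  simp only [st2_In]
  omega

theorem st2_in_visits {m : ℕ} {o : Op} (h : o ∈ visits m) : st2_In m o := by
  simp only [visits, List.mem_flatMap, List.mem_range, List.mem_cons, List.not_mem_nil,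
    or_false] at h
  obtain ⟨i, hi, rfl | rfl⟩ := h
  · simp only [st2_In]
    omega
  · simp only [st2_In]
    omega

theorem st2_in_gad {m k : ℕ} (hk : k < m) {sg : Bool} {o : Op} (h : o ∈ gad sg k) :
    st2_In m o := by
  cases sg with
  | true =>
    simp only [gad, if_true, List.mem_cons, List.not_mem_nil, or_false] at h
    rcases h with rfl | rfl | rfl | rfl <;> (simp only [st2_In]; omega)
  | false =>
    simp only [gad, Bool.false_eq_true, if_false, List.mem_cons, List.not_mem_nil, or_false] at h
    rcases h with rfl | rfl | rfl | rfl <;> (simp only [st2_In]; omega)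

theorem st2_in_cross {cl : List (Bool × List σ)} {s : σ} {o : Op} (h : o ∈ cross cl s) :
    st2_In cl.length o := by
  simp only [cross, List.mem_flatMap] at h
  obtain ⟨⟨C, k⟩, hc, h⟩ := h
  rw [List.mem_zipIdx_iff_getElem?] at hc
  have hk : k < cl.length := by
    by_contra h2
    rw [List.getElem?_eq_none (by omega)] at hc
    cases hc
  simp only at h
  split_ifs at h with h2
  · exact st2_in_gad hk h
  · cases h

theorem st2_in_slab {cl : List (Bool × List σ)} (hm : 1 ≤ cl.length) {s : σ} {y : ℕ}
    {x : Op × ℕ} (h : x ∈ slabA cl s y) : st2_In cl.length x.1 := by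
  simp only [slabA, List.mem_append, List.mem_map, List.mem_singleton] at h
  rcases h with (((((((((⟨o, ho, rfl⟩ | ⟨o, ho, rfl⟩) | ⟨o, ho, rfl⟩) | ⟨o, ho, rfl⟩) |
    ⟨o, ho, rfl⟩) | ⟨o, ho, rfl⟩) | rfl) | ⟨o, ho, rfl⟩) | ⟨o, ho, rfl⟩) | rfl)
  · exact st2_in_odd ho
  · exact st2_in_srcC ho
  · exact st2_in_even ho
  · exact st2_in_cross ho
  · exact st2_in_visits ho
  · exact st2_in_odd ho
  · simp only [an0, st2_In]
    omega
  · exact st2_in_even ho
  · exact st2_in_snkC ho
  · simp only [an0, st2_In]
    omega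

theorem st2_per_row {m r : ℕ} (hm : 1 ≤ m) (h : st2_Per m r) : 1 ≤ r ∧ r ≤ 4 * m + 1 := by
  unfold st2_Per at h
  omega

/-- all rows are live between the phases -/
theorem st2_V_pos {m : ℕ} {y : ℕ} (hy : y ≤ 1) {r : ℕ} (h : 1 ≤ r ∧ r ≤ 4 * m + 1) :
    1 ≤ st1_V m y r := by
  rw [st1_V]
  split_ifs <;> omega

theorem st2_gad_live {sg : Bool} {k r : ℕ} {d : ℤ} (hd : 0 < d) :
    st2_Live r d ((gad sg k).map an0) := by
  have h := st2_live_of_ok (r := r) (s := fun _ => 0) (s' := fun _ => d)
    (st1_gad_ok sg k (fun _ => 0) (fun _ => le_refl 0)) hd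
  exact h

theorem st2_cross_live {cl : List (Bool × List σ)} {s : σ} {r : ℕ} {d : ℤ} (hd : 0 < d) :
    st2_Live r d ((cross cl s).map an0) := by
  have h := st2_live_of_ok (r := r) (s := fun _ => 0) (s' := fun _ => d)
    (st1_cross_ok cl s (fun _ => 0) (fun _ => le_refl 0)) hd
  exact h

theorem st2_visits_live {m r : ℕ} {d : ℤ} (hd : 0 < d) :
    st2_Live r d ((visits m).map an0) := by
  have h := st2_live_of_ok (r := r) (s := fun _ => 0) (s' := fun _ => d)
    (st1_visits_ok m (fun _ => 0) (fun _ => le_refl 0)) hd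
  exact h

theorem st2_getElem?_append {P Q : List (Op × ℕ)} {i : ℕ} {x : Op × ℕ}
    (h : (P ++ Q)[i]? = some x) :
    P[i]? = some x ∨ ∃ j, i = P.length + j ∧ Q[j]? = some x := by
  by_cases hi : i < P.length
  · left
    rwa [List.getElem?_append_left hi] at h
  · right
    rw [List.getElem?_append_right (by omega)] at h
    exact ⟨i - P.length, by omega, h⟩

/-- colour statement for a segment -/
def st2_Col (c : ℕ → Bool) (a : ℕ → Bool) (m t : ℕ) (S : List (Op × ℕ)) : Prop :=
  ∀ i x, S[i]? = some x → ∀ r, 1 ≤ r ∧ r ≤ 4 * m + 1 → 0 < stub x r → c (t + i) = a r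

theorem st2_col_append {a : ℕ → Bool} {m t : ℕ} {P Q : List (Op × ℕ)}
    (hP : st2_Col c a m t P) (hQ : st2_Col c a m (t + P.length) Q) :
    st2_Col c a m t (P ++ Q) := by
  intro i x hx r hr hs
  rcases st2_getElem?_append hx with h | ⟨j, rfl, h⟩
  · exact hP i x h r hr hs
  · rw [← add_assoc]
    exact hQ j x h r hr hs

/-- the slab lemma -/
theorem st2_slab {cl : List (Bool × List σ)} (hm : 1 ≤ cl.length) {s : σ} {y : ℕ}
    (hy : y ≤ 1) {t : ℕ} (hL : st2_Loc c κ t (target cl.length) (slabA cl s y)) :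
    ∃ a : ℕ → Bool, st2_Col c a cl.length t (slabA cl s y) ∧
      ∀ r, st2_Per cl.length r → a r = κ r t ∧ κ r (t + (slabA cl s y).length) = κ r t := by
  set m := cl.length with hmd
  have h1 := st1_phase1 hm hy
  have h2 := st1_phase2 hm hy
  have ht := st1_target_nonneg m
  have hV := st1_V_nonneg m hy
  rw [st1_slab_eq] at hL ⊢
  rw [← hmd] at hL ⊢
  rw [st2_loc_append, st2_loc_append, st2_loc_append, st2_loc_append, st2_loc_append] at hL
  simp only [List.length_append] at hL
  obtain ⟨⟨⟨⟨⟨l1, l2⟩, l3⟩, l4⟩, l5⟩, l6⟩ := hL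
  set S1 := st1_S1 m y with hS1
  set K1 := st1_K1 m y with hK1
  set X := (cross cl s).map an0 with hX
  set W := (visits m).map an0 with hW
  set S2 := st1_S2 m y with hS2
  set K2 := st1_K2 m y with hK2
  have dX : ∀ r, Dl X r = 0 := st1_cross_dl cl s
  have dW : ∀ r, Dl W r = 0 := st1_visits_dl m
  have e3 : (fun r => target m r + Dl (S1 ++ K1) r) = fun r => st1_V m y r := by
    funext r
    rw [dl_append, ← h1]
    ring
  have e4 : (fun r => target m r + Dl (S1 ++ K1 ++ X) r) = fun r => st1_V m y r := by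
    funext r
    rw [dl_append, dl_append, dX, ← h1]
    ring
  have e5 : (fun r => target m r + Dl (S1 ++ K1 ++ X ++ W) r) = fun r => st1_V m y r := by
    funext r
    rw [dl_append, dl_append, dl_append, dX, dW, ← h1]
    ring
  have e6 : (fun r => target m r + Dl (S1 ++ K1 ++ X ++ W ++ S2) r) =
      fun r => st1_V m y r + Dl S2 r := by
    funext r
    rw [dl_append, dl_append, dl_append, dl_append, dX, dW, ← h1]
    ring
  rw [e3] at l3
  rw [e4] at l4
  rw [e5] at l5
  rw [e6] at l6
  -- the ends of the segments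
  have q1 : ∀ r, st2_Per m r → κ r (t + S1.length) = κ r t := by
    intro r hr
    have := st2_per_pos hr
    exact st2_live_end S1 t _ l1 (st2_live_src (st1_S1_src m y) (by omega))
  have q2 : ∀ r, 1 ≤ r ∧ r ≤ 4 * m + 1 →
      κ r (t + (S1.length + K1.length)) = κ r (t + S1.length) := by
    intro r hr
    have h3 := st2_V_pos (m := m) hy hr
    have h4 := h1 r
    have := st2_live_end K1 (t + S1.length) _ l2 (st2_live_snk (st1_K1_snk m y) (by
      omega) : st2_Live r _ K1)
    rw [← this]
    congr 1
    omega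
  have q3 : ∀ r, 1 ≤ r ∧ r ≤ 4 * m + 1 →
      κ r (t + (S1.length + K1.length + X.length)) = κ r (t + (S1.length + K1.length)) := by
    intro r hr
    have h3 := st2_V_pos (m := m) hy hr
    have := st2_live_end X _ _ l3 (st2_cross_live (by
      omega) : st2_Live r _ X)
    rw [← this]
    congr 1
    omega
  have q4 : ∀ r, 1 ≤ r ∧ r ≤ 4 * m + 1 →
      κ r (t + (S1.length + K1.length + X.length + W.length)) =
        κ r (t + (S1.length + K1.length + X.length)) := by
    intro r hr
    have h3 := st2_V_pos (m := m) hy hr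
    have := st2_live_end W _ _ l4 (st2_visits_live (by
      omega) : st2_Live r _ W)
    rw [← this]
    congr 1
    omega
  have q5 : ∀ r, 1 ≤ r ∧ r ≤ 4 * m + 1 →
      κ r (t + (S1.length + K1.length + X.length + W.length + S2.length)) =
        κ r (t + (S1.length + K1.length + X.length + W.length)) := by
    intro r hr
    have h3 := st2_V_pos (m := m) hy hr
    have := st2_live_end S2 _ _ l5 (st2_live_src (st1_S2_src m y) (by
      omega) : st2_Live r _ S2)
    rw [← this]
    congr 1
    omega
  have q6 : ∀ r, st2_Per m r →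
      κ r (t + (S1.length + K1.length + X.length + W.length + S2.length + K2.length)) =
        κ r (t + (S1.length + K1.length + X.length + W.length + S2.length)) := by
    intro r hr
    have h3 := st2_per_pos hr
    have h4 := h2 r
    have := st2_live_end K2 _ _ l6 (st2_live_snk (st1_K2_snk m y) (by
      omega) : st2_Live r _ K2)
    rw [← this]
    congr 1
    omega
  refine ⟨fun r => κ r (t + S1.length), ?_, ?_⟩
  · apply st2_col_append
    · apply st2_col_append
      · apply st2_col_append
        · apply st2_col_append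
          · apply st2_col_append
            · intro i x hx r hr hs
              exact st2_src_col S1 t _ l1 (st1_S1_src m y) (ht r) i x hx hs
            · intro i x hx r hr hs
              refine st2_snk_col K1 _ _ l2 (st1_K1_snk m y) ?_ i x hx hs
              have h3 := hV r
              have h4 := h1 r
              omega
          · intro i x hx r hr hs
            have h3 := st2_V_pos (m := m) hy hr
            have := st2_live_col X _ _ l3 (st2_cross_live (by
              omega) : st2_Live r _ X) i x hx hs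
            simp only [List.length_append]
            rw [this, q2 r hr]
        · intro i x hx r hr hs
          have h3 := st2_V_pos (m := m) hy hr
          have := st2_live_col W _ _ l4 (st2_visits_live (by
            omega) : st2_Live r _ W) i x hx hs
          simp only [List.length_append]
          rw [this, q3 r hr, q2 r hr]
      · intro i x hx r hr hs
        have h3 := st2_V_pos (m := m) hy hr
        have := st2_live_col S2 _ _ l5 (st2_live_src (st1_S2_src m y) (by
          omega) : st2_Live r _ S2) i x hx hs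
        simp only [List.length_append]
        rw [this, q4 r hr, q3 r hr, q2 r hr]
    · intro i x hx r hr hs
      simp only [List.length_append]
      have := st2_snk_col (r := r) K2 _ _ l6 (st1_K2_snk m y) (by
        have h3 := ht r
        have h4 := h2 r
        omega) i x hx hs
      rw [this, q5 r hr, q4 r hr, q3 r hr, q2 r hr]
  · intro r hr
    have hr2 := st2_per_row hm hr
    refine ⟨q1 r hr, ?_⟩
    simp only [List.length_append]
    rw [q6 r hr, q5 r hr2, q4 r hr2, q3 r hr2, q2 r hr2, q1 r hr]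

/-- two stubs of the same operation -/
theorem st2_same {a : ℕ → Bool} {m t : ℕ} {S : List (Op × ℕ)} (h : st2_Col c a m t S)
    {x : Op × ℕ} (hx : x ∈ S) {r r' : ℕ} (hr : 1 ≤ r ∧ r ≤ 4 * m + 1)
    (hr' : 1 ≤ r' ∧ r' ≤ 4 * m + 1) (h1 : 0 < stub x r) (h2 : 0 < stub x r') : a r = a r' := by
  obtain ⟨i, hi⟩ := List.getElem?_of_mem hx
  rw [← h i x hi r hr h1, ← h i x hi r' hr' h2]

theorem st2_mem_odd1 {cl : List (Bool × List σ)} {s : σ} {y f : ℕ} (hf : f % 2 = 1)
    (h : f < 4 * cl.length) : ((Op.lnk f, zz y f) : Op × ℕ) ∈ slabA cl s y := by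
  have h1 : (Op.lnk f) ∈ oddL cl.length := by
    simp only [oddL, List.mem_map, List.mem_range]
    exact ⟨f / 2, by omega, by congr 1; omega⟩
  have h2 : ((Op.lnk f, zz y f) : Op × ℕ) ∈ (oddL cl.length).map (an1 y) :=
    List.mem_map.2 ⟨_, h1, rfl⟩
  simp only [slabA, List.mem_append]
  tauto

theorem st2_mem_even1 {cl : List (Bool × List σ)} {s : σ} {y f : ℕ} (hf : f % 2 = 0)
    (h0 : 1 ≤ f) (h : f ≤ 4 * cl.length) : ((Op.lnk f, zz y f) : Op × ℕ) ∈ slabA cl s y := by
  have h1 : (Op.lnk f) ∈ evenL cl.length := by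
    simp only [evenL, List.mem_map, List.mem_range]
    exact ⟨f / 2 - 1, by omega, by congr 1; omega⟩
  have h2 : ((Op.lnk f, zz y f) : Op × ℕ) ∈ (evenL cl.length).map (an1 y) :=
    List.mem_map.2 ⟨_, h1, rfl⟩
  simp only [slabA, List.mem_append]
  tauto

theorem st2_odd_same {cl : List (Bool × List σ)} {s : σ} {y t f : ℕ} {a : ℕ → Bool}
    (h : st2_Col c a cl.length t (slabA cl s y)) (hf : f % 2 = 1) (h2 : f < 4 * cl.length)
    (hz : zz y f = 1) : a f = a (f + 1) := by
  apply st2_same h (st2_mem_odd1 hf h2) (by omega) (by omega)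
  · rw [st2_stub_odd hf, if_pos rfl]
    omega
  · rw [st2_stub_odd hf, if_neg (by omega), if_pos rfl]
    omega

theorem st2_even_same {cl : List (Bool × List σ)} {s : σ} {y t f : ℕ} {a : ℕ → Bool}
    (h : st2_Col c a cl.length t (slabA cl s y)) (hf : f % 2 = 0) (h0 : 1 ≤ f)
    (h2 : f ≤ 4 * cl.length) (hz : zz y f = 1) : a f = a (f + 1) := by
  apply st2_same h (st2_mem_even1 hf h0 h2) (by omega) (by omega)
  · rw [st2_stub_even hf, if_pos rfl]
    omega
  · rw [st2_stub_even hf, if_neg (by omega), if_pos rfl]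
    omega

/-- if the live rows have one colour, then all rows have this colour -/
theorem st2_rows {cl : List (Bool × List σ)} {s : σ} {y t : ℕ} (hy : y ≤ 1) {a : ℕ → Bool}
    (h : st2_Col c a cl.length t (slabA cl s y)) {K : Bool}
    (hK : ∀ r, st2_Per cl.length r → a r = K) :
    ∀ r, 1 ≤ r ∧ r ≤ 4 * cl.length + 1 → a r = K := by
  intro r hr
  by_cases hp : st2_Per cl.length r
  · exact hK r hp
  · unfold st2_Per at hp
    have hr1 : r % 2 = 1 := by omega
    have hr2 : 3 ≤ r := by omega
    have hr3 : r < 4 * cl.length := by omega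
    have hp1 : st2_Per cl.length (r - 1) := Or.inr (Or.inr ⟨by omega, by omega, by omega⟩)
    have hp2 : st2_Per cl.length (r + 1) := Or.inr (Or.inr ⟨by omega, by omega, by omega⟩)
    by_cases hq : zz y r = 1
    · rw [st2_odd_same h hr1 hr3 hq]
      exact hK _ hp2
    · have hq2 : zz y (r - 1) = 1 := by
        rw [zz] at hq ⊢
        split_ifs at hq ⊢ <;> omega
      have h3 := st2_even_same h (f := r - 1) (by omega) (by omega) (by omega) hq2
      have e : r - 1 + 1 = r := by omega
      rw [e] at h3
      rw [← h3]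
      exact hK _ hp1

/-- every operation has a stub -/
theorem st2_exists_stub {m : ℕ} {x : Op × ℕ} (h : st2_In m x.1) :
    ∃ r, (1 ≤ r ∧ r ≤ 4 * m + 1) ∧ 0 < stub x r := by
  obtain ⟨o, z⟩ := x
  cases o with
  | lnk f =>
    simp only [st2_In] at h
    rcases Nat.mod_two_eq_zero_or_one f with hf | hf
    · by_cases hz : 0 < z
      · refine ⟨f + 1, by omega, ?_⟩
        rw [st2_stub_even hf, if_neg (by omega), if_pos rfl]
        exact hz
      · refine ⟨f, by omega, ?_⟩
        rw [st2_stub_even hf, if_pos rfl]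
        omega
    · by_cases hz : 0 < z
      · refine ⟨f, by omega, ?_⟩
        rw [st2_stub_odd hf, if_pos rfl]
        exact hz
      · refine ⟨f + 1, by omega, ?_⟩
        rw [st2_stub_odd hf, if_neg (by omega), if_pos rfl]
        omega
  | src s =>
    simp only [st2_In] at h
    exact ⟨s, h, by simp [stub]⟩
  | snk s =>
    simp only [st2_In] at h
    exact ⟨s, h, by simp [stub]⟩

theorem st2_slab_col {cl : List (Bool × List σ)} (hm : 1 ≤ cl.length) {s : σ} {y : ℕ}
    (hy : y ≤ 1) {t : ℕ} (hL : st2_Loc c κ t (target cl.length) (slabA cl s y)) {K : Bool}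
    (hK : ∀ r, st2_Per cl.length r → κ r t = K) :
    ∀ i < (slabA cl s y).length, c (t + i) = K := by
  obtain ⟨a, ha, hp⟩ := st2_slab hm hy hL
  have hall := st2_rows hy ha (K := K) (fun r hr => by rw [(hp r hr).1, hK r hr])
  intro i hi
  obtain ⟨r, hr, hs⟩ := st2_exists_stub (st2_in_slab hm (List.getElem_mem hi))
  rw [ha i _ (List.getElem?_eq_getElem hi) r hr hs, hall r hr]

/-- the crossing gadget connects two rows -/
theorem st2_slab_gad {cl : List (Bool × List σ)} (hm : 1 ≤ cl.length) {s : σ} {y : ℕ}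
    {t : ℕ} (hL : st2_Loc c κ t (target cl.length) (slabA cl s y)) {k : ℕ}
    {C : Bool × List σ} (hC : cl[k]? = some C) (hs : s ∈ C.2)
    (hy : y = if C.1 then 1 else 0) : κ (4 * k + 2) t = κ (4 * k + 4) t := by
  have hk : k < cl.length := by
    by_contra h2
    rw [List.getElem?_eq_none (by omega)] at hC
    cases hC
  have hy1 : y ≤ 1 := by
    rw [hy]
    exact st1_y_le _
  obtain ⟨a, ha, hp⟩ := st2_slab hm hy1 hL
  have hp2 := (hp (4 * k + 2) (Or.inr (Or.inr ⟨by omega, by omega, by omega⟩))).1
  have hp4 := (hp (4 * k + 4) (Or.inr (Or.inr ⟨by omega, by omega, by omega⟩))).1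
  rw [← hp2, ← hp4]
  have hmem : ∀ o ∈ gad C.1 k, an0 o ∈ slabA cl s y := by
    intro o ho
    have h1 : o ∈ cross cl s := by
      simp only [cross, List.mem_flatMap]
      refine ⟨(C, k), List.mem_zipIdx_iff_getElem?.2 hC, ?_⟩
      simp only
      rw [if_pos hs]
      exact ho
    have h2 : an0 o ∈ (cross cl s).map an0 := List.mem_map.2 ⟨_, h1, rfl⟩
    simp only [slabA, List.mem_append]
    tauto
  cases hC1 : C.1 with
  | true =>
    rw [hC1] at hy hmem
    simp only [if_true] at hy
    have h3 := st2_even_same ha (f := 4 * k + 2) (by omega) (by omega) (by omega) (by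
      rw [zz, hy, if_pos (by omega)])
    have h4 := st2_same ha (hmem (.lnk (4 * k + 3)) (by simp [gad])) (r := 4 * k + 3)
      (r' := 4 * k + 4) (by omega) (by omega) (by
        rw [an0, st2_stub_odd (by omega), if_pos rfl]
        omega) (by
        rw [an0, st2_stub_odd (by omega), if_neg (by omega), if_pos rfl]
        omega)
    rw [h3, h4]
  | false =>
    rw [hC1] at hy hmem
    simp only [Bool.false_eq_true, if_false] at hy
    have h3 := st2_odd_same ha (f := 4 * k + 3) (by omega) (by omega) (by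
      rw [zz, hy, if_neg (by omega)])
    have h4 := st2_same ha (hmem (.lnk (4 * k + 2)) (by simp [gad])) (r := 4 * k + 2)
      (r' := 4 * k + 3) (by omega) (by omega) (by
        rw [an0, st2_stub_even (by omega), if_pos rfl]
        omega) (by
        rw [an0, st2_stub_even (by omega), if_neg (by omega), if_pos rfl]
        omega)
    rw [h4, h3]

/-! ### the middle part -/

theorem st2_all_append {t : ℕ} {P Q : List (Op × ℕ)} {K : Bool}
    (hP : ∀ i < P.length, c (t + i) = K)
    (hQ : ∀ i < Q.length, c (t + P.length + i) = K) :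
    ∀ i < (P ++ Q).length, c (t + i) = K := by
  intro i hi
  by_cases h : i < P.length
  · exact hP i h
  · rw [List.length_append] at hi
    have := hQ (i - P.length) (by omega)
    rw [← this]
    congr 1
    omega

theorem st2_blocks {cl : List (Bool × List σ)} (hm : 1 ≤ cl.length) (v : σ → Bool) :
    ∀ (sl : List σ) (t : ℕ), st2_Loc c κ t (target cl.length)
      (sl.flatMap fun s => slabA cl s (if v s then 1 else 0) ++ (check cl.length).map an0) →
    (∀ r, st2_Per cl.length r → κ r (t + (sl.flatMap fun s =>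
      slabA cl s (if v s then 1 else 0) ++ (check cl.length).map an0).length) = κ r t) ∧
    (∀ s ∈ sl, ∀ (k : ℕ) (C : Bool × List σ), cl[k]? = some C → s ∈ C.2 → v s = C.1 →
      κ (4 * k + 2) t = κ (4 * k + 4) t) ∧
    ∀ K, (∀ r, st2_Per cl.length r → κ r t = K) → ∀ i < (sl.flatMap fun s =>
      slabA cl s (if v s then 1 else 0) ++ (check cl.length).map an0).length,
        c (t + i) = K := by
  intro sl
  induction sl with
  | nil =>
    intro t _
    refine ⟨fun r _ => by simp, fun s hs => by simp at hs, fun K _ i hi => by simp at hi⟩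
  | cons s0 sl ih =>
    intro t hL
    rw [List.flatMap_cons] at hL ⊢
    set y := if v s0 then 1 else 0 with hy
    have hy1 : y ≤ 1 := st1_y_le _
    rw [st2_loc_append, st2_loc_append] at hL
    obtain ⟨⟨l1, l2⟩, l3⟩ := hL
    have e1 : (fun r => target cl.length r + Dl (slabA cl s0 y) r) = target cl.length := by
      funext r
      rw [st1_slab_dl cl hm s0 hy1, add_zero]
    have e2 : (fun r => target cl.length r + Dl (slabA cl s0 y ++ (check cl.length).map an0) r) =
        target cl.length := by
      funext r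
      rw [st1_sc_dl cl hm s0 hy1, add_zero]
    rw [e1] at l2
    rw [e2] at l3
    obtain ⟨i1, i2, i3⟩ := ih _ l3
    obtain ⟨a, ha, hp⟩ := st2_slab hm hy1 l1
    have hend : ∀ r, st2_Per cl.length r →
        κ r (t + (slabA cl s0 y ++ (check cl.length).map an0).length) = κ r t := by
      intro r hr
      rw [List.length_append, ← add_assoc, st2_check_end l2 hr, (hp r hr).2]
    refine ⟨?_, ?_, ?_⟩
    · intro r hr
      rw [List.length_append, ← add_assoc, i1 r hr, hend r hr]
    · intro s hs k C hC hsC hv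
      have hk : k < cl.length := by
        by_contra h2
        rw [List.getElem?_eq_none (by omega)] at hC
        cases hC
      rw [List.mem_cons] at hs
      rcases hs with rfl | hs
      · refine st2_slab_gad hm l1 hC hsC ?_
        rw [hy, hv]
      · have h5 := i2 s hs k C hC hsC hv
        rw [hend _ (Or.inr (Or.inr ⟨by omega, by omega, by omega⟩)),
          hend _ (Or.inr (Or.inr ⟨by omega, by omega, by omega⟩))] at h5
        exact h5
    · intro K hK
      apply st2_all_append
      · apply st2_all_append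
        · exact st2_slab_col hm hy1 l1 hK
        · exact st2_check_col l2 fun r hr => by rw [(hp r hr).2, hK r hr]
      · exact i3 K fun r hr => by rw [hend r hr, hK r hr]

/-! ### the initial part -/

/-- rows which are live after the first blocks of the initial part -/
def st2_R (n r : ℕ) : Prop := r = 1 ∨ r = 2 ∨ (r % 2 = 0 ∧ 4 ≤ r ∧ r ≤ 4 * n + 2)

theorem st2_init_dl (n r : ℕ) : Dl ([an0 (.lnk 1)] ++ (List.range n).flatMap st1_ib) r =
    (if r = 1 then 1 else if r = 2 then 1 else 0) +
      if r % 4 = 0 ∧ 4 ≤ r ∧ r ≤ 4 * n then 1 else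
        if r % 4 = 2 ∧ 6 ≤ r ∧ r ≤ 4 * n + 2 then 1 else 0 := by
  rw [dl_append, dl_cons, dl_nil, st1_ibs_dl, st1_c_odd (by norm_num)]
  split_ifs <;> omega

theorem st2_ib_live {n r : ℕ} (h : st2_R n r) : st2_Live r
    (0 + Dl ([an0 (.lnk 1)] ++ (List.range n).flatMap st1_ib) r) (st1_ib n) := by
  have h1 := st1_c_odd (f := 4 * n + 5) (by omega) r
  have h2 := st1_c_even (f := 4 * n + 4) (by omega) r
  unfold st2_R at h
  rw [st2_init_dl]
  apply st2_live_cons
  · split_ifs <;> omega
  apply st2_live_cons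
  · rw [st1_c_src]
    split_ifs <;> omega
  apply st2_live_cons
  · rw [st1_c_src, h1]
    split_ifs <;> omega
  apply st2_live_nil
  rw [st1_c_src, h1, h2]
  split_ifs <;> omega

theorem st2_stub_src (k : ℕ) : 0 < stub (an0 (.src k)) k := by
  simp [stub, an0]

theorem st2_stub_snk (k : ℕ) : 0 < stub (an0 (.snk k)) k := by
  simp [stub, an0]

theorem st2_stub_lnk (k : ℕ) : 0 < stub (an0 (.lnk k)) k := by
  rcases Nat.mod_two_eq_zero_or_one k with hf | hf
  · rw [an0, st2_stub_even hf, if_pos rfl]
    omega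
  · rw [an0, st2_stub_odd hf, if_pos rfl]
    omega

theorem st2_stub_lnk' (k : ℕ) : 0 < stub (an0 (.lnk k)) (k + 1) := by
  rcases Nat.mod_two_eq_zero_or_one k with hf | hf
  · rw [an0, st2_stub_even hf, if_neg (by omega), if_pos rfl]
    omega
  · rw [an0, st2_stub_odd hf, if_neg (by omega), if_pos rfl]
    omega

theorem st2_init_ind (n : ℕ) :
    st2_Loc c κ 0 (fun _ => 0) ([an0 (.lnk 1)] ++ (List.range n).flatMap st1_ib) →
    κ 1 (3 * n + 1) = κ 2 (3 * n + 1) ∧
    (∀ j < n, κ (4 * j + 4) (3 * n + 1) = κ (4 * j + 6) (3 * n + 1)) ∧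
    ∀ i < 3 * n + 1, ∃ r, st2_R n r ∧ c i = κ r (3 * n + 1) := by
  induction n with
  | zero =>
    intro hL
    simp only [List.range_zero, List.flatMap_nil, List.append_nil, st2_Loc] at hL
    obtain ⟨h1, -⟩ := hL
    have a1 := h1 1 (st2_stub_lnk 1)
    have a2 := h1 2 (st2_stub_lnk' 1)
    have e : (an0 (.lnk 1)).1.isSrc = true := rfl
    rw [if_pos e] at a1 a2
    refine ⟨?_, fun j hj => absurd hj (by omega), ?_⟩
    · show κ 1 (0 + 1) = κ 2 (0 + 1)
      rw [← a1, ← a2]
    · intro i hi
      obtain rfl : i = 0 := by omega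
      exact ⟨1, Or.inl rfl, a1⟩
  | succ n ih =>
    intro hL
    rw [List.range_succ, List.flatMap_append, ← List.append_assoc, st2_loc_append] at hL
    obtain ⟨hL1, hL2⟩ := hL
    obtain ⟨i1, i2, i3⟩ := ih hL1
    have hlen : ([an0 (.lnk 1)] ++ (List.range n).flatMap st1_ib).length = 3 * n + 1 := by
      rw [List.length_append, List.length_flatMap]
      have : (fun x => (st1_ib x).length) = fun _ => 3 := rfl
      simp [this]
      omega
    have e0 : List.flatMap st1_ib [n] = st1_ib n := by simp
    rw [hlen, e0, zero_add] at hL2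
    set s := fun r => 0 + Dl ([an0 (.lnk 1)] ++ (List.range n).flatMap st1_ib) r with hs
    have hlive : ∀ r, st2_R n r → κ r (3 * (n + 1) + 1) = κ r (3 * n + 1) := by
      intro r hr
      have := st2_live_end (st1_ib n) _ s hL2 (st2_ib_live hr)
      rw [← this]
      congr 1
    obtain ⟨p1, p2, p3, p4, p5, p6, -⟩ := hL2
    have f1 : (an0 (.src (4 * n + 4))).1.isSrc = true := rfl
    have f2 : (an0 (.lnk (4 * n + 5))).1.isSrc = true := by
      simp only [an0, Op.isSrc, beq_iff_eq]
      omega
    have f3 : (an0 (.lnk (4 * n + 4))).1.isSrc = false := by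
      have : (4 * n + 4) % 2 = 0 := by omega
      simp only [an0, Op.isSrc, this]
      rfl
    have g1 := fun r => st1_c_odd (f := 4 * n + 5) (by omega) r
    have g2 := fun r => st1_c_even (f := 4 * n + 4) (by omega) r
    have b1 := p1 (4 * n + 4) (st2_stub_src _)
    have b2 := p3 (4 * n + 5) (st2_stub_lnk _)
    have b3 := p3 (4 * n + 6) (st2_stub_lnk' _)
    have b4 := p5 (4 * n + 4) (st2_stub_lnk _)
    have b5 := p5 (4 * n + 5) (st2_stub_lnk' _)
    rw [if_pos f1] at b1
    rw [if_pos f2] at b2 b3
    rw [f3] at b4 b5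
    simp only [Bool.false_eq_true, if_false] at b4 b5
    have hs4 : s (4 * n + 4) = 0 := by
      rw [hs]
      simp only
      rw [st2_init_dl]
      split_ifs <;> omega
    have hs6 : s (4 * n + 6) = 0 := by
      rw [hs]
      simp only
      rw [st2_init_dl]
      split_ifs <;> omega
    have c1 := p4 (4 * n + 4) (by
      beta_reduce
      rw [hs4, st1_c_src, if_pos rfl]
      norm_num) (by
      beta_reduce
      rw [hs4, st1_c_src, if_pos rfl, g1, if_neg (by omega), if_neg (by omega)]
      norm_num)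
    have c2 := p6 (4 * n + 4) (by
      beta_reduce
      rw [hs4, st1_c_src, if_pos rfl, g1, if_neg (by omega), if_neg (by omega)]
      norm_num) (by
      beta_reduce
      rw [hs4, st1_c_src, if_pos rfl, g1, if_neg (by omega), if_neg (by omega), g2, if_pos rfl]
      norm_num)
    have c3 := p6 (4 * n + 6) (by
      beta_reduce
      rw [hs6, st1_c_src, if_neg (by omega), g1, if_neg (by omega), if_pos rfl]
      norm_num) (by
      beta_reduce
      rw [hs6, st1_c_src, if_neg (by omega), g1, if_neg (by omega), if_pos rfl, g2,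
        if_neg (by omega), if_neg (by omega)]
      norm_num)
    have eT : 3 * n + 1 + 1 + 1 + 1 = 3 * (n + 1) + 1 := by ring
    rw [eT] at c2 c3
    -- all equal
    have k1 : κ (4 * n + 4) (3 * (n + 1) + 1) = κ (4 * n + 6) (3 * (n + 1) + 1) := by
      rw [← c2, ← b4, b5, ← b2, b3, c3]
    refine ⟨?_, ?_, ?_⟩
    · rw [hlive 1 (Or.inl rfl), hlive 2 (Or.inr (Or.inl rfl)), i1]
    · intro j hj
      by_cases hjn : j < n
      · rw [hlive _ (Or.inr (Or.inr ⟨by omega, by omega, by omega⟩)),
          hlive _ (Or.inr (Or.inr ⟨by omega, by omega, by omega⟩)), i2 j hjn]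
      · obtain rfl : j = n := by omega
        exact k1
    · intro i hi
      by_cases h1 : i < 3 * n + 1
      · obtain ⟨r, hr, hc⟩ := i3 i h1
        refine ⟨r, ?_, ?_⟩
        · unfold st2_R at hr ⊢
          omega
        · rw [hlive r hr, hc]
      · refine ⟨4 * n + 4, Or.inr (Or.inr ⟨by omega, by omega, by omega⟩), ?_⟩
        have h2 : i = 3 * n + 1 ∨ i = 3 * n + 1 + 1 ∨ i = 3 * n + 1 + 1 + 1 := by omega
        rcases h2 with rfl | rfl | rfl
        · rw [b1, c1, c2]
        · rw [b3, c3, k1]
        · rw [b4, c2]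

theorem st2_init {m : ℕ} (hm : 1 ≤ m)
    (hL : st2_Loc c κ 0 (fun _ => 0) ((init m).map an0)) :
    κ 1 ((init m).map an0).length = κ 2 ((init m).map an0).length ∧
    (∀ j, j + 1 < m → κ (4 * j + 4) ((init m).map an0).length =
      κ (4 * j + 6) ((init m).map an0).length) ∧
    κ (4 * m) ((init m).map an0).length = κ (4 * m + 1) ((init m).map an0).length ∧
    ∀ i < ((init m).map an0).length, ∃ r, st2_Per m r ∧
      c i = κ r ((init m).map an0).length := by
  rw [st1_init_eq] at hL ⊢
  rw [st2_loc_append] at hL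
  obtain ⟨hL1, hL2⟩ := hL
  obtain ⟨i1, i2, i3⟩ := st2_init_ind (m - 1) hL1
  have hlen : ([an0 (.lnk 1)] ++ (List.range (m - 1)).flatMap st1_ib).length =
      3 * (m - 1) + 1 := by
    rw [List.length_append, List.length_flatMap]
    have : (fun x => (st1_ib x).length) = fun _ => 3 := rfl
    simp [this]
    omega
  have hlen2 : ([an0 (.lnk 1)] ++ (List.range (m - 1)).flatMap st1_ib ++
      [an0 (.src (4 * m)), an0 (.src (4 * m + 1)), an0 (.src (4 * m + 1)),
        an0 (.lnk (4 * m))]).length = 3 * (m - 1) + 1 + 4 := by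
    rw [List.length_append, hlen]
    rfl
  rw [hlen2]
  rw [hlen, zero_add] at hL2
  have g2 := fun r => st1_c_even (f := 4 * m) (by omega) r
  set s := fun r => 0 + Dl ([an0 (.lnk 1)] ++ (List.range (m - 1)).flatMap st1_ib) r with hs
  have hlive : ∀ r, st2_R (m - 1) r → κ r (3 * (m - 1) + 1 + 4) = κ r (3 * (m - 1) + 1) := by
    intro r hr
    refine st2_live_end [an0 (.src (4 * m)), an0 (.src (4 * m + 1)), an0 (.src (4 * m + 1)),
        an0 (.lnk (4 * m))] _ s hL2 ?_
    unfold st2_R at hr
    rw [hs]
    simp only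
    rw [st2_init_dl]
    apply st2_live_cons
    · split_ifs <;> omega
    apply st2_live_cons
    · rw [st1_c_src]
      split_ifs <;> omega
    apply st2_live_cons
    · rw [st1_c_src, st1_c_src]
      split_ifs <;> omega
    apply st2_live_cons
    · rw [st1_c_src, st1_c_src]
      split_ifs <;> omega
    apply st2_live_nil
    rw [st1_c_src, st1_c_src, g2]
    split_ifs <;> omega
  obtain ⟨p1, p2, p3, p4, p5, p6, p7, p8, -⟩ := hL2
  have f1 : (an0 (.src (4 * m))).1.isSrc = true := rfl
  have f2 : (an0 (.src (4 * m + 1))).1.isSrc = true := rfl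
  have f3 : (an0 (.lnk (4 * m))).1.isSrc = false := by
    have : (4 * m) % 2 = 0 := by omega
    simp only [an0, Op.isSrc, this]
    rfl
  have b1 := p1 (4 * m) (st2_stub_src _)
  have b2 := p3 (4 * m + 1) (st2_stub_src _)
  have b3 := p5 (4 * m + 1) (st2_stub_src _)
  have b4 := p7 (4 * m) (st2_stub_lnk _)
  have b5 := p7 (4 * m + 1) (st2_stub_lnk' _)
  rw [if_pos f1] at b1
  rw [if_pos f2] at b2 b3
  rw [f3] at b4 b5
  simp only [Bool.false_eq_true, if_false] at b4 b5
  have hs0 : s (4 * m) = 0 := by
    rw [hs]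
    simp only
    rw [st2_init_dl]
    split_ifs <;> omega
  have hs1 : s (4 * m + 1) = 0 := by
    rw [hs]
    simp only
    rw [st2_init_dl]
    split_ifs <;> omega
  have d0 : ∀ k, ctr (an0 (.src k)) k = 2 := fun k => by rw [st1_c_src, if_pos rfl]
  have d1 : ctr (an0 (.src (4 * m))) (4 * m + 1) = 0 := by rw [st1_c_src, if_neg (by omega)]
  have d2 : ctr (an0 (.src (4 * m + 1))) (4 * m) = 0 := by rw [st1_c_src, if_neg (by omega)]
  have d3 : ctr (an0 (.lnk (4 * m))) (4 * m) = -1 := by rw [g2, if_pos rfl]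
  have d4 : ctr (an0 (.lnk (4 * m))) (4 * m + 1) = -1 := by
    rw [g2, if_neg (by omega), if_pos rfl]
  have c1 := p4 (4 * m) (by
    beta_reduce
    rw [hs0, d0]
    norm_num) (by
    beta_reduce
    rw [hs0, d0, d2]
    norm_num)
  have c2 := p6 (4 * m) (by
    beta_reduce
    rw [hs0, d0, d2]
    norm_num) (by
    beta_reduce
    rw [hs0, d0, d2]
    norm_num)
  have c3 := p8 (4 * m) (by
    beta_reduce
    rw [hs0, d0, d2]
    norm_num) (by
    beta_reduce
    rw [hs0, d0, d2, d3]
    norm_num)
  have c4 := p6 (4 * m + 1) (by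
    beta_reduce
    rw [hs1, d0, d1]
    norm_num) (by
    beta_reduce
    rw [hs1, d0, d1]
    norm_num)
  have c5 := p8 (4 * m + 1) (by
    beta_reduce
    rw [hs1, d0, d1]
    norm_num) (by
    beta_reduce
    rw [hs1, d0, d1, d4]
    norm_num)
  have eT : 3 * (m - 1) + 1 + 1 + 1 + 1 + 1 = 3 * (m - 1) + 1 + 4 := by ring
  rw [eT] at c3 c5
  have k1 : κ (4 * m) (3 * (m - 1) + 1 + 4) = κ (4 * m + 1) (3 * (m - 1) + 1 + 4) := by
    rw [← c3, ← b4, b5, c5]
  refine ⟨?_, ?_, k1, ?_⟩
  · rw [hlive 1 (Or.inl rfl), hlive 2 (Or.inr (Or.inl rfl)), i1]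
  · intro j hj
    rw [hlive _ (Or.inr (Or.inr ⟨by omega, by omega, by omega⟩)),
      hlive _ (Or.inr (Or.inr ⟨by omega, by omega, by omega⟩)), i2 j (by omega)]
  · intro i hi
    by_cases h1 : i < 3 * (m - 1) + 1
    · obtain ⟨r, hr, hc⟩ := i3 i h1
      refine ⟨r, ?_, ?_⟩
      · unfold st2_R at hr
        unfold st2_Per
        omega
      · rw [hlive r hr, hc]
    · have h2 : i = 3 * (m - 1) + 1 ∨ i = 3 * (m - 1) + 1 + 1 ∨
        i = 3 * (m - 1) + 1 + 1 + 1 ∨ i = 3 * (m - 1) + 1 + 1 + 1 + 1 := by omega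
      rcases h2 with rfl | rfl | rfl | rfl
      · exact ⟨4 * m, Or.inr (Or.inr ⟨by omega, by omega, by omega⟩), by rw [b1, c1, c2, c3]⟩
      · exact ⟨4 * m + 1, Or.inr (Or.inl rfl), by rw [b2, c4, c5]⟩
      · exact ⟨4 * m + 1, Or.inr (Or.inl rfl), by rw [b3, c5]⟩
      · exact ⟨4 * m + 1, Or.inr (Or.inl rfl), by rw [b5, c5]⟩

/-! ### the final part -/

/-- rows which are live after the first blocks of the final part -/
def st2_Q (m n r : ℕ) : Prop :=
  r = 2 ∨ r = 4 * m + 1 ∨ (r % 2 = 0 ∧ 4 * n + 4 ≤ r ∧ r ≤ 4 * m)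

theorem st2_final_dl (n r : ℕ) :
    Dl ([an0 (.lnk 1), an0 (.snk 1)] ++ (List.range n).flatMap st1_fb) r =
    (if r = 1 then -1 else if r = 2 then 1 else 0) +
      if r % 4 = 0 ∧ 4 ≤ r ∧ r ≤ 4 * n then -1 else
        if r % 4 = 2 ∧ 6 ≤ r ∧ r ≤ 4 * n + 2 then -1 else 0 := by
  rw [dl_append, dl_cons, dl_cons, dl_nil, st1_fbs_dl, st1_c_odd (by norm_num), st1_c_snk]
  split_ifs <;> omega

theorem st2_fb_live {m n r : ℕ} (hn : n + 1 < m) (h : st2_Q m (n + 1) r) : st2_Live r
    (target m r + Dl ([an0 (.lnk 1), an0 (.snk 1)] ++ (List.range n).flatMap st1_fb) r)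
      (st1_fb n) := by
  have h1 := st1_c_odd (f := 4 * n + 5) (by omega) r
  have h2 := st1_c_even (f := 4 * n + 4) (by omega) r
  unfold st2_Q at h
  rw [st2_final_dl, target]
  apply st2_live_cons
  · split_ifs <;> omega
  apply st2_live_cons
  · rw [h1]
    split_ifs <;> omega
  apply st2_live_cons
  · rw [h1, h2]
    split_ifs <;> omega
  apply st2_live_nil
  rw [h1, h2, st1_c_snk]
  split_ifs <;> omega

theorem st2_final_ind {m t : ℕ} {K : Bool} (hm : 1 ≤ m) (hK : ∀ r, st2_Per m r → κ r t = K)
    (n : ℕ) (hn : n < m) :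
    st2_Loc c κ t (target m) ([an0 (.lnk 1), an0 (.snk 1)] ++ (List.range n).flatMap st1_fb) →
    (∀ i < 3 * n + 2, c (t + i) = K) ∧ ∀ r, st2_Q m n r → κ r (t + (3 * n + 2)) = K := by
  induction n with
  | zero =>
    intro hL
    simp only [List.range_zero, List.flatMap_nil, List.append_nil] at hL
    have g1 := fun r => st1_c_odd (f := 1) (by omega) r
    constructor
    · have hl : st2_Live 1 (target m 1) [an0 (.lnk 1)] := by
        apply st2_live_cons
        · rw [target]
          split_ifs <;> omega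
        apply st2_live_nil
        rw [target, g1]
        split_ifs <;> omega
      obtain ⟨p1, p2, p3, p4, -⟩ := hL
      have f1 : (an0 (.lnk 1)).1.isSrc = true := rfl
      have f2 : (an0 (.snk 1)).1.isSrc = false := rfl
      have b1 := p1 1 (st2_stub_lnk 1)
      have b2 := p3 1 (st2_stub_snk 1)
      rw [if_pos f1] at b1
      rw [f2] at b2
      simp only [Bool.false_eq_true, if_false] at b2
      have hT : target m 1 = 1 := by
        rw [target]
        split_ifs <;> omega
      have c1 := p2 1 (by rw [hT]; norm_num) (by rw [hT, g1, if_pos rfl]; norm_num)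
      intro i hi
      have h2 : i = 0 ∨ i = 1 := by omega
      rcases h2 with rfl | rfl
      · rw [add_zero, b1, ← c1]
        exact hK 1 (Or.inl rfl)
      · rw [b2, ← c1]
        exact hK 1 (Or.inl rfl)
    · intro r hr
      have hp : st2_Per m r := by
        unfold st2_Q at hr
        unfold st2_Per
        omega
      have hl : st2_Live r (target m r) [an0 (.lnk 1), an0 (.snk 1)] := by
        unfold st2_Q at hr
        apply st2_live_cons
        · rw [target]
          split_ifs <;> omega
        apply st2_live_cons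
        · rw [target, g1]
          split_ifs <;> omega
        apply st2_live_nil
        rw [target, g1, st1_c_snk]
        split_ifs <;> omega
      have := st2_live_end _ t _ hL hl
      rw [← hK r hp, ← this]
      congr 1
  | succ n ih =>
    intro hL
    rw [List.range_succ, List.flatMap_append, ← List.append_assoc, st2_loc_append] at hL
    obtain ⟨hL1, hL2⟩ := hL
    obtain ⟨i1, i2⟩ := ih (by omega) hL1
    have hlen : ([an0 (.lnk 1), an0 (.snk 1)] ++ (List.range n).flatMap st1_fb).length =
        3 * n + 2 := by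
      rw [List.length_append, List.length_flatMap]
      have : (fun x => (st1_fb x).length) = fun _ => 3 := rfl
      simp [this]
      omega
    have e0 : List.flatMap st1_fb [n] = st1_fb n := by simp
    rw [hlen, e0] at hL2
    set s := fun r => target m r +
      Dl ([an0 (.lnk 1), an0 (.snk 1)] ++ (List.range n).flatMap st1_fb) r with hs
    have hlive : ∀ r, st2_Q m (n + 1) r → κ r (t + (3 * (n + 1) + 2)) =
        κ r (t + (3 * n + 2)) := by
      intro r hr
      have := st2_live_end (st1_fb n) _ s hL2 (st2_fb_live hn hr)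
      rw [← this]
      congr 1
    obtain ⟨p1, p2, p3, p4, p5, p6, -⟩ := hL2
    have f1 : (an0 (.lnk (4 * n + 5))).1.isSrc = true := by
      simp only [an0, Op.isSrc, beq_iff_eq]
      omega
    have f2 : (an0 (.lnk (4 * n + 4))).1.isSrc = false := by
      have : (4 * n + 4) % 2 = 0 := by omega
      simp only [an0, Op.isSrc, this]
      rfl
    have f3 : (an0 (.snk (4 * n + 6))).1.isSrc = false := rfl
    have g1 := fun r => st1_c_odd (f := 4 * n + 5) (by omega) r
    have g2 := fun r => st1_c_even (f := 4 * n + 4) (by omega) r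
    have b1 := p1 (4 * n + 6) (st2_stub_lnk' _)
    have b2 := p3 (4 * n + 4) (st2_stub_lnk _)
    have b3 := p5 (4 * n + 6) (st2_stub_snk _)
    rw [if_pos f1] at b1
    rw [f2] at b2
    rw [f3] at b3
    simp only [Bool.false_eq_true, if_false] at b2 b3
    have hs4 : s (4 * n + 4) = 1 := by
      rw [hs]
      simp only
      rw [st2_final_dl, target]
      split_ifs <;> omega
    have hs6 : s (4 * n + 6) = 1 := by
      rw [hs]
      simp only
      rw [st2_final_dl, target]
      split_ifs <;> omega
    have d1 : ctr (an0 (.lnk (4 * n + 5))) (4 * n + 6) = 1 := by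
      rw [g1, if_neg (by omega), if_pos rfl]
    have d2 : ctr (an0 (.lnk (4 * n + 5))) (4 * n + 4) = 0 := by
      rw [g1, if_neg (by omega), if_neg (by omega)]
    have d3 : ctr (an0 (.lnk (4 * n + 4))) (4 * n + 6) = 0 := by
      rw [g2, if_neg (by omega), if_neg (by omega)]
    have c1 := p2 (4 * n + 6) (by
      rw [hs6]
      norm_num) (by
      rw [hs6, d1]
      norm_num)
    have c2 := p2 (4 * n + 4) (by
      rw [hs4]
      norm_num) (by
      rw [hs4, d2]
      norm_num)
    have c3 := p4 (4 * n + 6) (by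
      beta_reduce
      rw [hs6, d1]
      norm_num) (by
      beta_reduce
      rw [hs6, d1, d3]
      norm_num)
    have k4 := i2 (4 * n + 4) (Or.inr (Or.inr ⟨by omega, by omega, by omega⟩))
    have k6 := i2 (4 * n + 6) (Or.inr (Or.inr ⟨by omega, by omega, by omega⟩))
    constructor
    · intro i hi
      by_cases h1 : i < 3 * n + 2
      · exact i1 i h1
      · have h2 : t + i = t + (3 * n + 2) ∨ t + i = t + (3 * n + 2) + 1 ∨
          t + i = t + (3 * n + 2) + 1 + 1 := by omega
        rcases h2 with h2 | h2 | h2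
        · rw [h2, b1, ← c1, k6]
        · rw [h2, b2, ← c2, k4]
        · rw [h2, b3, ← c3, ← c1, k6]
    · intro r hr
      rw [hlive r hr]
      apply i2 r
      unfold st2_Q at hr ⊢
      omega

theorem st2_final {m t : ℕ} {K : Bool} (hm : 1 ≤ m) (hK : ∀ r, st2_Per m r → κ r t = K)
    (hL : st2_Loc c κ t (target m) ((final m).map an0)) :
    ∀ i < ((final m).map an0).length, c (t + i) = K := by
  rw [st1_final_eq] at hL ⊢
  rw [st2_loc_append] at hL
  obtain ⟨hL1, hL2⟩ := hL
  obtain ⟨i1, i2⟩ := st2_final_ind hm hK (m - 1) (by omega) hL1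
  have hlen : ([an0 (.lnk 1), an0 (.snk 1)] ++ (List.range (m - 1)).flatMap st1_fb).length =
      3 * (m - 1) + 2 := by
    rw [List.length_append, List.length_flatMap]
    have : (fun x => (st1_fb x).length) = fun _ => 3 := rfl
    simp [this]
    omega
  have hlen2 : ([an0 (.lnk 1), an0 (.snk 1)] ++ (List.range (m - 1)).flatMap st1_fb ++
      [an0 (.lnk (4 * m)), an0 (.snk (4 * m + 1)), an0 (.snk 2)]).length =
        3 * (m - 1) + 2 + 3 := by
    rw [List.length_append, hlen]
    rfl
  rw [hlen2]
  rw [hlen] at hL2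
  have g2 := fun r => st1_c_even (f := 4 * m) (by omega) r
  set s := fun r => target m r +
    Dl ([an0 (.lnk 1), an0 (.snk 1)] ++ (List.range (m - 1)).flatMap st1_fb) r with hs
  obtain ⟨p1, p2, p3, p4, p5, p6, -⟩ := hL2
  have f1 : (an0 (.lnk (4 * m))).1.isSrc = false := by
    have : (4 * m) % 2 = 0 := by omega
    simp only [an0, Op.isSrc, this]
    rfl
  have f2 : (an0 (.snk (4 * m + 1))).1.isSrc = false := rfl
  have f3 : (an0 (.snk 2)).1.isSrc = false := rfl
  have b1 := p1 (4 * m) (st2_stub_lnk _)
  have b2 := p3 (4 * m + 1) (st2_stub_snk _)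
  have b3 := p5 2 (st2_stub_snk _)
  rw [f1] at b1
  rw [f2] at b2
  rw [f3] at b3
  simp only [Bool.false_eq_true, if_false] at b1 b2 b3
  have hs1 : s (4 * m + 1) = 3 := by
    rw [hs]
    simp only
    rw [st2_final_dl, target]
    split_ifs <;> omega
  have hs2 : s 2 = 2 := by
    rw [hs]
    simp only
    rw [st2_final_dl, target]
    split_ifs <;> omega
  have d1 : ctr (an0 (.lnk (4 * m))) (4 * m + 1) = -1 := by
    rw [g2, if_neg (by omega), if_pos rfl]
  have d2 : ctr (an0 (.lnk (4 * m))) 2 = 0 := by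
    rw [g2, if_neg (by omega), if_neg (by omega)]
  have d3 : ctr (an0 (.snk (4 * m + 1))) 2 = 0 := by
    rw [st1_c_snk, if_neg (by omega)]
  have c1 := p2 (4 * m + 1) (by
    rw [hs1]
    norm_num) (by
    rw [hs1, d1]
    norm_num)
  have c2 := p2 2 (by
    rw [hs2]
    norm_num) (by
    rw [hs2, d2]
    norm_num)
  have c3 := p4 2 (by
    beta_reduce
    rw [hs2, d2]
    norm_num) (by
    beta_reduce
    rw [hs2, d2, d3]
    norm_num)
  have k0 := i2 (4 * m) (Or.inr (Or.inr ⟨by omega, by omega, by omega⟩))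
  have k1 := i2 (4 * m + 1) (Or.inr (Or.inl rfl))
  have k2 := i2 2 (Or.inl rfl)
  intro i hi
  by_cases h1 : i < 3 * (m - 1) + 2
  · exact i1 i h1
  · have h2 : t + i = t + (3 * (m - 1) + 2) ∨ t + i = t + (3 * (m - 1) + 2) + 1 ∨
      t + i = t + (3 * (m - 1) + 2) + 1 + 1 := by omega
    rcases h2 with h2 | h2 | h2
    · rw [h2, b1, k0]
    · rw [h2, b2, ← c1, k1]
    · rw [h2, b3, ← c3, ← c2, k2]

/-! ### conclusion -/

/-- connectedness of the annotated instance of a satisfying assignment -/
theorem conn_instA (sl : List σ) (cl : List (Bool × List σ)) (hm : 1 ≤ cl.length)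
    (v : σ → Bool) (hv : ∀ c ∈ cl, ∃ s ∈ c.2, s ∈ sl ∧ v s = c.1) : Conn (instA sl cl v) := by
  intro c κ h1 h2
  have hL := st2_loc_of (c := c) (κ := κ) _ h1 h2 (instA sl cl v) [] rfl
  have e0 : (fun r => Dl [] r) = fun _ => 0 := by
    funext r
    exact dl_nil r
  rw [e0] at hL
  unfold instA at hL
  rw [List.length_nil, st2_loc_append, st2_loc_append, st2_loc_append] at hL
  obtain ⟨⟨⟨l1, l2⟩, l3⟩, l4⟩ := hL
  have hf : ∀ r, Dl (sl.flatMap fun s => slabA cl s (if v s then 1 else 0) ++
      (check cl.length).map an0) r = 0 := fun r => by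
    apply st1_dl_neutral
    intro s _ r
    exact st1_sc_dl cl hm s (st1_y_le _) r
  simp only [dl_append, st1_init_dl hm, st1_check_dl, hf, zero_add, add_zero] at l2 l3 l4
  obtain ⟨i1, i2, i3, i4⟩ := st2_init hm l1
  obtain ⟨j1, j2, j3⟩ := st2_blocks hm v sl _ l3
  set m := cl.length with hmd
  set T := ((init m).map an0).length with hT
  set T2 := ((init m).map an0 ++ (check m).map an0).length with hT2
  set W := sl.flatMap fun s => slabA cl s (if v s then 1 else 0) ++ (check m).map an0 with hW
  have hTT : T2 = T + ((check m).map an0).length := by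
    rw [hT2, List.length_append]
  have hck : ∀ r, st2_Per m r → κ r T2 = κ r T := by
    intro r hr
    rw [hTT]
    exact st2_check_end l2 hr
  -- the clauses
  have hcl : ∀ k < m, κ (4 * k + 2) T = κ (4 * k + 4) T := by
    intro k hk
    have hC : cl[k]? = some cl[k] := List.getElem?_eq_getElem hk
    obtain ⟨s, hs, hsl, hvs⟩ := hv cl[k] (List.getElem_mem hk)
    have := j2 s hsl k cl[k] hC hs hvs
    rwa [hck _ (Or.inr (Or.inr ⟨by omega, by omega, by omega⟩)),
      hck _ (Or.inr (Or.inr ⟨by omega, by omega, by omega⟩))] at this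
  have hev : ∀ k < m, κ (4 * k + 2) T = κ 2 T := by
    intro k
    induction k with
    | zero =>
      intro _
      rfl
    | succ k ih =>
      intro hk
      have a1 := i2 k hk
      have a2 := hcl k (by omega)
      have a3 := ih (by omega)
      have e : 4 * (k + 1) + 2 = 4 * k + 6 := by ring
      rw [e, ← a1, ← a2, a3]
  have hev2 : ∀ k < m, κ (4 * k + 4) T = κ 2 T := by
    intro k hk
    rw [← hcl k hk, hev k hk]
  have hper : ∀ r, st2_Per m r → κ r T = κ 2 T := by
    intro r hr
    rcases hr with rfl | rfl | ⟨h3, h4, h5⟩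
    · exact i1
    · rw [← i3]
      have := hev2 (m - 1) (by omega)
      have e : 4 * (m - 1) + 4 = 4 * m := by omega
      rwa [e] at this
    · have h6 : r % 4 = 0 ∨ r % 4 = 2 := by omega
      rcases h6 with h6 | h6
      · have := hev2 (r / 4 - 1) (by omega)
        have e : 4 * (r / 4 - 1) + 4 = r := by omega
        rwa [e] at this
      · have := hev (r / 4) (by omega)
        have e : 4 * (r / 4) + 2 = r := by omega
        rwa [e] at this
  have hper2 : ∀ r, st2_Per m r → κ r T2 = κ 2 T := fun r hr => by rw [hck r hr, hper r hr]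
  have hall : ∀ i < (instA sl cl v).length, c (0 + i) = κ 2 T := by
    unfold instA
    apply st2_all_append
    · apply st2_all_append
      · apply st2_all_append
        · intro i hi
          obtain ⟨r, hr, hc⟩ := i4 i hi
          rw [zero_add, hc, hper r hr]
        · rw [zero_add]
          exact st2_check_col l2 fun r hr => hper r hr
      · rw [zero_add]
        exact j3 _ hper2
    · rw [zero_add]
      refine st2_final hm ?_ l4
      intro r hr
      have := j1 r hr
      rw [List.length_append, ← hT2, ← hW, this]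
      exact hper2 r hr
  intro i j hi hj
  have a1 := hall i hi
  have a2 := hall j hj
  rw [zero_add] at a1 a2
  rw [a1, a2]

end MST
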