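import Pool.Agent.Work.MP_2f1fa1_lc.Mt.Blocks

/-! TS1 (helper53): the checkpoint tests force the numbers of open edges. -/

namespace MST

/-! ### stubs of one operation -/

theorem ts1_sum_ite (a R : ℕ) (z : ℤ) :
    (∑ r ∈ Finset.Icc 1 R, if r = a then z else 0) = if 1 ≤ a ∧ a ≤ R then z else 0 := by
  rw [Finset.sum_ite_eq']
  simp only [Finset.mem_Icc]

theorem ts1_stub_eq (x : Op × ℕ) : ∃ a b za zb : ℕ, a ≠ b ∧
    (x.2 ≤ 2 → za + zb = 2) ∧ ∀ r, stub x r = (if r = a then za else 0) + (if r = b then zb else 0) := by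
  obtain ⟨o, z⟩ := x
  rcases o with f | s | s
  · by_cases hf : f % 2 = 1
    · refine ⟨f, f + 1, z, 2 - z, by omega, fun h => by simp only at h; omega, fun r => ?_⟩
      simp only [stub, hf, if_true]
      by_cases h1 : r = f
      · subst h1; simp
      · simp [h1]
    · refine ⟨f, f + 1, 2 - z, z, by omega, fun h => by simp only at h; omega, fun r => ?_⟩
      simp only [stub, hf, if_false]
      by_cases h1 : r = f
      · subst h1; simp
      · simp [h1]
  · exact ⟨s, s + 1, 2, 0, by omega, fun _ => rfl, fun r => by simp [stub]⟩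
  · exact ⟨s, s + 1, 2, 0, by omega, fun _ => rfl, fun r => by simp [stub]⟩

theorem ts1_sum_stub (x : Op × ℕ) (R : ℕ) (h2 : x.2 ≤ 2)
    (hr : ∀ r, 0 < stub x r → 1 ≤ r ∧ r ≤ R) :
    (∑ r ∈ Finset.Icc 1 R, (stub x r : ℤ)) = 2 := by
  obtain ⟨a, b, za, zb, hab, hz, hs⟩ := ts1_stub_eq x
  have hz := hz h2
  have ha : 0 < za → 1 ≤ a ∧ a ≤ R := fun h => hr a (by rw [hs]; simp; omega)
  have hb : 0 < zb → 1 ≤ b ∧ b ≤ R := fun h => hr b (by rw [hs]; simp; omega)
  have h3 : ∀ r, (stub x r : ℤ) = (if r = a then (za : ℤ) else 0) + (if r = b then (zb : ℤ) else 0) := by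
    intro r
    rw [hs r]
    push_cast
    rfl
  simp only [h3]
  rw [Finset.sum_add_distrib, ts1_sum_ite, ts1_sum_ite]
  rcases Nat.eq_zero_or_pos za with h0 | h0
  · have := hb (by omega)
    rw [if_pos this]
    have h4 : zb = 2 := by omega
    rw [h0, h4]; simp
  · rw [if_pos (ha h0)]
    rcases Nat.eq_zero_or_pos zb with h1 | h1
    · have h4 : za = 2 := by omega
      rw [h1, h4]; simp
    · rw [if_pos (hb h1)]
      exact_mod_cast hz

/-- sign of an operation -/
def ts1_sg (o : Op) : ℤ := if o.isSrc then 1 else -1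

theorem ts1_sum_ctr (x : Op × ℕ) (R : ℕ) (h2 : x.2 ≤ 2)
    (hr : ∀ r, 0 < stub x r → 1 ≤ r ∧ r ≤ R) :
    (∑ r ∈ Finset.Icc 1 R, ctr x r) = 2 * ts1_sg x.1 := by
  have h := ts1_sum_stub x R h2 hr
  unfold ctr ts1_sg
  cases hx : x.1.isSrc
  · simp only [Bool.false_eq_true, if_false, Finset.sum_neg_distrib, h]; norm_num
  · simp only [if_true, h]; norm_num

theorem ts1_sum_Dl (A : List (Op × ℕ)) (R : ℕ) (h2 : ∀ x ∈ A, x.2 ≤ 2)
    (hr : ∀ x ∈ A, ∀ r, 0 < stub x r → 1 ≤ r ∧ r ≤ R) :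
    (∑ r ∈ Finset.Icc 1 R, Dl A r) = 2 * (A.map fun x => ts1_sg x.1).sum := by
  induction A with
  | nil => simp [dl_nil]
  | cons x A ih =>
    simp only [dl_cons, Finset.sum_add_distrib, List.map_cons, List.sum_cons]
    rw [ts1_sum_ctr x R (h2 x (by simp)) (hr x (by simp)),
      ih (fun y hy => h2 y (by simp [hy])) (fun y hy => hr y (by simp [hy]))]
    ring

theorem ts1_ctr_zero (x : Op × ℕ) (r : ℕ) (h : ¬ 0 < stub x r) : ctr x r = 0 := by
  have h0 : stub x r = 0 := by omega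
  unfold ctr
  rw [h0]
  simp

theorem ts1_Dl_zero (A : List (Op × ℕ)) (r : ℕ) (h : ∀ x ∈ A, ¬ 0 < stub x r) : Dl A r = 0 := by
  induction A with
  | nil => exact dl_nil r
  | cons x A ih =>
    rw [dl_cons, ts1_ctr_zero x r (h x (by simp)), ih (fun y hy => h y (by simp [hy])), zero_add]

/-! ### pairs -/

theorem ts1_pairs (g : ℕ → ℕ) : ∀ (is : List ℕ) {P : List (Op × ℕ)},
    P.map Prod.fst = (is.flatMap fun i => [Op.src (g i), Op.snk (g i)]) →
    (∀ r, Dl P r = 0) ∧ ∀ i ∈ is, ∃ A B x y,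
      P = A ++ (Op.src (g i), x) :: (Op.snk (g i), y) :: B ∧ ∀ r, Dl A r = 0
  | [], P, h => by
    have hP : P = [] := by simpa using h
    subst hP
    exact ⟨fun r => dl_nil r, fun i hi => by simp at hi⟩
  | j :: js, P, h => by
    rw [List.flatMap_cons] at h
    match P, h with
    | [], h => simp at h
    | [p], h => simp at h
    | p :: q :: P', h =>
      simp only [List.map_cons, List.cons_append, List.nil_append, List.cons.injEq] at h
      obtain ⟨h1, h2, h3⟩ := h
      obtain ⟨ih1, ih2⟩ := ts1_pairs g js h3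
      obtain ⟨o1, z1⟩ := p
      obtain ⟨o2, z2⟩ := q
      simp only at h1 h2
      subst h1 h2
      have hz : ∀ r, ctr (Op.src (g j), z1) r + (ctr (Op.snk (g j), z2) r) = 0 := by
        intro r
        rw [ctr_src, ctr_snk]
        split_ifs <;> simp
      constructor
      · intro r
        rw [dl_cons, dl_cons, ih1 r, add_zero, hz r]
      · intro i hi
        rcases List.mem_cons.1 hi with rfl | hi
        · exact ⟨[], P', z1, z2, rfl, fun r => dl_nil r⟩
        · obtain ⟨A, B, x, y, hP, hA⟩ := ih2 i hi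
          refine ⟨(Op.src (g j), z1) :: (Op.snk (g j), z2) :: A, B, x, y, by rw [hP]; simp, fun r => ?_⟩
          rw [dl_cons, dl_cons, hA r, add_zero, hz r]

/-- the checkpoint tests force the numbers of open edges -/
theorem target_eq {m : ℕ} (hm : 1 ≤ m) {L A C B : List (Op × ℕ)} (hL : L = A ++ C ++ B)
    (hC : C.map Prod.fst = check m) (hF : Feas L) (hV : Visit L)
    (hr : ∀ x ∈ A, ∀ r, 0 < stub x r → 1 ≤ r ∧ r ≤ 4 * m + 1)
    (hs : (A.map fun x => if x.1.isSrc then (1 : ℤ) else -1).sum = m + 2) (r : ℕ) :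
    Dl A r = target m r := by
  have hsum := ts1_sum_Dl A (4 * m + 1) (fun x hx => hF.le2 x (by rw [hL]; simp [hx])) hr
  have hs' : (A.map fun x => ts1_sg x.1).sum = m + 2 := hs
  rw [hs'] at hsum
  -- decompose the checkpoint
  unfold check at hC
  obtain ⟨C12, C3, rfl, hC12, hC3⟩ := List.map_eq_append_iff.1 hC
  obtain ⟨C1, C2, rfl, hC1, hC2⟩ := List.map_eq_append_iff.1 hC12
  obtain ⟨hp0, hp⟩ := ts1_pairs (fun i => 2 * i + 2) (List.range (2 * m)) hC2
  have hC1' : C1.map Prod.fst = ([0].flatMap fun i => [Op.src (1 + i), Op.snk (1 + i)]) := by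
    rw [hC1]; rfl
  obtain ⟨hq0, hq⟩ := ts1_pairs (fun i => 1 + i) [0] hC1'
  have nn : ∀ r, 0 ≤ Dl A r := hF.nonneg A ((C1 ++ C2 ++ C3) ++ B) (by rw [hL]; simp)
  have l1 : 1 ≤ Dl A 1 := by
    obtain ⟨A1, B1, x, y, h1, h2⟩ := hq 0 (by simp)
    have := hV (A ++ A1) (B1 ++ C2 ++ C3 ++ B) 1 x y (by rw [hL, h1]; simp)
    rw [dl_append, h2, add_zero] at this
    exact this
  have l2 : ∀ i < 2 * m, 1 ≤ Dl A (2 * i + 2) := by
    intro i hi
    obtain ⟨A1, B1, x, y, h1, h2⟩ := hp i (List.mem_range.2 hi)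
    have := hV (A ++ C1 ++ A1) (B1 ++ C3 ++ B) (2 * i + 2) x y (by rw [hL, h1]; simp)
    rw [dl_append, dl_append, h2, hq0, add_zero, add_zero] at this
    exact this
  have l3 : 3 ≤ Dl A (4 * m + 1) := by
    match C3, hC3 with
    | [], h => simp at h
    | [a], h => simp at h
    | [a, b], h => simp at h
    | [a, b, c], h => simp at h
    | a :: b :: c :: d :: E, h =>
      simp only [List.map_cons, List.cons.injEq] at h
      obtain ⟨h1, h2, h3, h4, h5⟩ := h
      obtain ⟨oa, za⟩ := a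
      obtain ⟨ob, zb⟩ := b
      obtain ⟨oc, zc⟩ := c
      simp only at h1 h2 h3
      subst h1 h2 h3
      have := hV (A ++ C1 ++ C2 ++ [(Op.snk (4 * m + 1), za)]) (d :: E ++ B) (4 * m + 1) zb zc
        (by rw [hL]; simp)
      rw [dl_append, dl_append, dl_append, hq0, hp0, dl_cons, dl_nil, ctr_snk, if_pos rfl] at this
      linarith
  -- pointwise lower bound
  have lb : ∀ r, target m r ≤ Dl A r := by
    intro r
    unfold target
    split_ifs with h1 h2
    · rw [h1]; exact l3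
    · rcases h2 with h2 | ⟨h2, h3, h4⟩
      · rw [h2]; exact l1
      · have h5 := l2 (r / 2 - 1) (by omega)
        have h6 : 2 * (r / 2 - 1) + 2 = r := by omega
        rwa [h6] at h5
    · exact nn r
  have hT : (∑ r ∈ Finset.Icc 1 (4 * m + 1), target m r) = 2 * (m + 2) := by
    clear hsum hs hs' hC hC12 hC1 hC2 hp0 hp hC1' hq0 hq nn l1 l2 l3 lb hr hF hV hL
    have aux : ∀ k : ℕ, (∑ r ∈ Finset.Icc 1 (2 * k + 1),
        (if r = 1 ∨ (r % 2 = 0 ∧ 2 ≤ r) then (1 : ℤ) else 0)) = k + 1 := by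
      intro k
      induction k with
      | zero =>
        rw [show 2 * 0 + 1 = 1 from rfl, Finset.Icc_self, Finset.sum_singleton]; simp
      | succ k ih =>
        have e1 : 2 * (k + 1) + 1 = (2 * k + 1) + 1 + 1 := by ring
        rw [e1, Finset.sum_Icc_succ_top (by omega), Finset.sum_Icc_succ_top (by omega), ih,
          if_pos (by omega), if_neg (by omega)]
        push_cast
        ring
    have h1 := aux (2 * m)
    have e2 : 2 * (2 * m) + 1 = 4 * m + 1 := by ring
    rw [e2, Finset.sum_Icc_succ_top (by omega), if_neg (by omega), add_zero] at h1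
    rw [Finset.sum_Icc_succ_top (by omega)]
    have h2 : (∑ r ∈ Finset.Icc 1 (4 * m), target m r) = ∑ r ∈ Finset.Icc 1 (4 * m),
        (if r = 1 ∨ (r % 2 = 0 ∧ 2 ≤ r) then (1 : ℤ) else 0) := by
      refine Finset.sum_congr rfl fun r hr => ?_
      rw [Finset.mem_Icc] at hr
      unfold target
      rw [if_neg (by omega)]
      by_cases h3 : r = 1 ∨ (r % 2 = 0 ∧ 2 ≤ r)
      · rw [if_pos h3, if_pos (by omega)]
      · rw [if_neg h3, if_neg (by omega)]
    have h4 : target m (4 * m + 1) = 3 := by unfold target; rw [if_pos rfl]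
    rw [h2, h1, h4]
    push_cast
    ring
  by_cases hrr : r ∈ Finset.Icc 1 (4 * m + 1)
  · have h7 : (∑ r ∈ Finset.Icc 1 (4 * m + 1), (Dl A r - target m r)) = 0 := by
      rw [Finset.sum_sub_distrib, hsum, hT, sub_self]
    have h8 := (Finset.sum_eq_zero_iff_of_nonneg (fun r _ => sub_nonneg.2 (lb r))).1 h7 r hrr
    linarith
  · rw [Finset.mem_Icc] at hrr
    rw [ts1_Dl_zero A r (fun x hx h => hrr (hr x hx r h))]
    unfold target
    rw [if_neg (by omega), if_neg (by omega)]

/-! ### rows and signs of the parts of the instance -/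

/-- the operation stays within the rows `1, …, 4m+1` -/
def ts1_ok (m : ℕ) : Op → Prop
  | .lnk f => 1 ≤ f ∧ f ≤ 4 * m
  | .src r => 1 ≤ r ∧ r ≤ 4 * m + 1
  | .snk r => 1 ≤ r ∧ r ≤ 4 * m + 1

theorem ts1_ok_stub {m : ℕ} {x : Op × ℕ} (h : ts1_ok m x.1) (r : ℕ) (hr : 0 < stub x r) :
    1 ≤ r ∧ r ≤ 4 * m + 1 := by
  obtain ⟨o, z⟩ := x
  rcases o with f | s | s
  · simp only [ts1_ok] at h
    simp only [stub] at hr
    by_cases h1 : r = f
    · omega
    · by_cases h2 : r = f + 1
      · omega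
      · simp [h1, h2] at hr
  · simp only [ts1_ok] at h
    simp only [stub] at hr
    by_cases h1 : r = s
    · omega
    · simp [h1] at hr
  · simp only [ts1_ok] at h
    simp only [stub] at hr
    by_cases h1 : r = s
    · omega
    · simp [h1] at hr

theorem ts1_ok_oddL (m : ℕ) : ∀ o ∈ oddL m, ts1_ok m o := by
  intro o ho
  unfold oddL at ho
  rw [List.mem_map] at ho
  obtain ⟨i, hi, rfl⟩ := ho
  rw [List.mem_range] at hi
  simp only [ts1_ok]; omega

theorem ts1_ok_evenL (m : ℕ) : ∀ o ∈ evenL m, ts1_ok m o := by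
  intro o ho
  unfold evenL at ho
  rw [List.mem_map] at ho
  obtain ⟨i, hi, rfl⟩ := ho
  rw [List.mem_range] at hi
  simp only [ts1_ok]; omega

theorem ts1_ok_srcC (m : ℕ) : ∀ o ∈ srcC m, ts1_ok m o := by
  intro o ho
  unfold srcC at ho
  rw [List.mem_map] at ho
  obtain ⟨i, hi, rfl⟩ := ho
  rw [List.mem_range] at hi
  simp only [ts1_ok]; omega

theorem ts1_ok_snkC (m : ℕ) : ∀ o ∈ snkC m, ts1_ok m o := by
  intro o ho
  unfold snkC at ho
  rw [List.mem_map] at ho
  obtain ⟨i, hi, rfl⟩ := ho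
  rw [List.mem_range] at hi
  simp only [ts1_ok]; omega

theorem ts1_ok_visits (m : ℕ) : ∀ o ∈ visits m, ts1_ok m o := by
  intro o ho
  unfold visits at ho
  rw [List.mem_flatMap] at ho
  obtain ⟨i, hi, ho⟩ := ho
  rw [List.mem_range] at hi
  simp only [List.mem_cons, List.not_mem_nil, or_false] at ho
  rcases ho with rfl | rfl <;> simp only [ts1_ok] <;> omega

theorem ts1_ok_check {m : ℕ} (hm : 1 ≤ m) : ∀ o ∈ check m, ts1_ok m o := by
  intro o ho
  unfold check at ho
  simp only [List.mem_append, List.mem_flatMap, List.mem_range, List.mem_cons, List.not_mem_nil,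
    or_false] at ho
  rcases ho with (((rfl | rfl) | ⟨i, hi, rfl | rfl⟩)) | (rfl | rfl | rfl | rfl) <;>
    simp only [ts1_ok] <;> omega

theorem ts1_ok_init {m : ℕ} (hm : 1 ≤ m) : ∀ o ∈ init m, ts1_ok m o := by
  intro o ho
  unfold init at ho
  simp only [List.mem_append, List.mem_flatMap, List.mem_range, List.mem_cons, List.not_mem_nil,
    or_false] at ho
  rcases ho with ((rfl | ⟨i, hi, rfl | rfl | rfl⟩)) | (rfl | rfl | rfl | rfl) <;>
    simp only [ts1_ok] <;> omega

variable {σ : Type} [DecidableEq σ]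

theorem ts1_ok_cross (cl : List (Bool × List σ)) (s : σ) :
    ∀ o ∈ cross cl s, ts1_ok cl.length o := by
  intro o ho
  unfold cross at ho
  rw [List.mem_flatMap] at ho
  obtain ⟨c, hc, ho⟩ := ho
  have hk : c.2 < cl.length := by
    have := List.mem_zipIdx hc
    omega
  split_ifs at ho with h1
  · unfold gad at ho
    split_ifs at ho with h2
    · simp only [List.mem_cons, List.not_mem_nil, or_false] at ho
      rcases ho with rfl | rfl | rfl | rfl <;> simp only [ts1_ok] <;> omega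
    · simp only [List.mem_cons, List.not_mem_nil, or_false] at ho
      rcases ho with rfl | rfl | rfl | rfl <;> simp only [ts1_ok] <;> omega
  · simp at ho

theorem ts1_ok_slab {cl : List (Bool × List σ)} (hm : 1 ≤ cl.length) (s : σ) :
    ∀ o ∈ slab cl s, ts1_ok cl.length o := by
  intro o ho
  unfold slab at ho
  simp only [List.mem_append, List.mem_cons, List.not_mem_nil, or_false] at ho
  rcases ho with ((((((((h | h) | h) | h) | h) | h) | rfl) | h) | h) | rfl
  · exact ts1_ok_oddL _ o h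
  · exact ts1_ok_srcC _ o h
  · exact ts1_ok_evenL _ o h
  · exact ts1_ok_cross _ _ o h
  · exact ts1_ok_visits _ o h
  · exact ts1_ok_oddL _ o h
  · simp only [ts1_ok]; omega
  · exact ts1_ok_evenL _ o h
  · exact ts1_ok_snkC _ o h
  · simp only [ts1_ok]; omega

/-- sum of the signs -/
def ts1_S (ops : List Op) : ℤ := (ops.map ts1_sg).sum

theorem ts1_S_append (a b : List Op) : ts1_S (a ++ b) = ts1_S a + ts1_S b := by
  simp [ts1_S]

theorem ts1_S_cons (a : Op) (b : List Op) : ts1_S (a :: b) = ts1_sg a + ts1_S b := by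
  simp [ts1_S]

theorem ts1_S_nil : ts1_S [] = 0 := rfl

theorem ts1_S_flatMap {ι : Type} (l : List ι) (f : ι → List Op) (c : ℤ)
    (h : ∀ i ∈ l, ts1_S (f i) = c) : ts1_S (l.flatMap f) = l.length * c := by
  induction l with
  | nil => simp [ts1_S]
  | cons a l ih =>
    rw [List.flatMap_cons, ts1_S_append, h a (by simp), ih (fun i hi => h i (by simp [hi]))]
    simp only [List.length_cons]
    push_cast
    ring

theorem ts1_S_map {ι : Type} (l : List ι) (f : ι → Op) (c : ℤ)
    (h : ∀ i ∈ l, ts1_sg (f i) = c) : ts1_S (l.map f) = l.length * c := by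
  induction l with
  | nil => simp [ts1_S]
  | cons a l ih =>
    rw [List.map_cons, ts1_S_cons, h a (by simp), ih (fun i hi => h i (by simp [hi]))]
    simp only [List.length_cons]
    push_cast
    ring

theorem ts1_sg_src (r : ℕ) : ts1_sg (.src r) = 1 := rfl
theorem ts1_sg_snk (r : ℕ) : ts1_sg (.snk r) = -1 := rfl
theorem ts1_sg_odd {f : ℕ} (h : f % 2 = 1) : ts1_sg (.lnk f) = 1 := by
  simp [ts1_sg, Op.isSrc, h]
theorem ts1_sg_even {f : ℕ} (h : f % 2 = 0) : ts1_sg (.lnk f) = -1 := by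
  simp [ts1_sg, Op.isSrc, h]

theorem ts1_S_oddL (m : ℕ) : ts1_S (oddL m) = 2 * m := by
  unfold oddL
  rw [ts1_S_map _ _ 1 (fun i _ => ts1_sg_odd (by omega))]
  simp

theorem ts1_S_evenL (m : ℕ) : ts1_S (evenL m) = -(2 * m) := by
  unfold evenL
  rw [ts1_S_map _ _ (-1) (fun i _ => ts1_sg_even (by omega))]
  simp

theorem ts1_S_srcC (m : ℕ) : ts1_S (srcC m) = (m - 1 : ℕ) := by
  unfold srcC
  rw [ts1_S_map _ _ 1 (fun i _ => rfl)]
  simp

theorem ts1_S_snkC (m : ℕ) : ts1_S (snkC m) = -(m - 1 : ℕ) := by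
  unfold snkC
  rw [ts1_S_map _ _ (-1) (fun i _ => rfl)]
  simp

theorem ts1_S_visits (m : ℕ) : ts1_S (visits m) = 0 := by
  unfold visits
  rw [ts1_S_flatMap _ _ 0 (fun i _ => by simp [ts1_S_cons, ts1_S_nil, ts1_sg_src, ts1_sg_snk])]
  simp

theorem ts1_S_check (m : ℕ) : ts1_S (check m) = 0 := by
  unfold check
  rw [ts1_S_append, ts1_S_append,
    ts1_S_flatMap _ _ 0 (fun i _ => by simp [ts1_S_cons, ts1_S_nil, ts1_sg_src, ts1_sg_snk])]
  simp [ts1_S_cons, ts1_S_nil, ts1_sg_src, ts1_sg_snk]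

theorem ts1_S_init {m : ℕ} (hm : 1 ≤ m) : ts1_S (init m) = m + 2 := by
  unfold init
  rw [ts1_S_append, ts1_S_append,
    ts1_S_flatMap _ _ 1 (fun i _ => by
      rw [ts1_S_cons, ts1_S_cons, ts1_S_cons, ts1_S_nil, ts1_sg_src, ts1_sg_odd (by omega),
        ts1_sg_even (by omega)]; norm_num)]
  rw [ts1_S_cons, ts1_S_nil, ts1_S_cons, ts1_S_cons, ts1_S_cons, ts1_S_cons, ts1_S_nil, ts1_sg_src,
    ts1_sg_src, ts1_sg_odd (by omega), ts1_sg_even (by omega)]
  simp only [List.length_range]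
  push_cast [Nat.cast_sub hm]
  ring

theorem ts1_S_cross (cl : List (Bool × List σ)) (s : σ) : ts1_S (cross cl s) = 0 := by
  unfold cross
  rw [ts1_S_flatMap _ _ 0 (fun c _ => ?_)]
  · simp
  · split_ifs
    · unfold gad
      split_ifs
      · rw [ts1_S_cons, ts1_S_cons, ts1_S_cons, ts1_S_cons, ts1_S_nil, ts1_sg_odd (by omega),
          ts1_sg_snk, ts1_sg_snk]; norm_num
      · rw [ts1_S_cons, ts1_S_cons, ts1_S_cons, ts1_S_cons, ts1_S_nil, ts1_sg_even (by omega),
          ts1_sg_src, ts1_sg_src]; norm_num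
    · rfl

theorem ts1_S_slab (cl : List (Bool × List σ)) (s : σ) : ts1_S (slab cl s) = 0 := by
  unfold slab
  simp only [ts1_S_append, ts1_S_oddL, ts1_S_evenL, ts1_S_srcC, ts1_S_snkC, ts1_S_cross,
    ts1_S_visits, ts1_S_cons, ts1_S_nil, ts1_sg_src, ts1_sg_snk]
  ring

theorem ts1_sum_of_map {A : List (Op × ℕ)} {ops : List Op} (h : A.map Prod.fst = ops) :
    (A.map fun x => if x.1.isSrc then (1 : ℤ) else -1).sum = ts1_S ops := by
  rw [← h]
  unfold ts1_S
  rw [List.map_map]
  rfl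

/-- numbers of open edges before and after every slab -/
theorem target_slab {sl : List σ} {cl : List (Bool × List σ)} {L I C0 Fn : List (Op × ℕ)}
    {bl : List (σ × List (Op × ℕ) × List (Op × ℕ))} (hD : Dec sl cl L I C0 Fn bl)
    (hm : 1 ≤ cl.length) (hF : Feas L) (hV : Visit L) :
    (∀ r, Dl I r = target cl.length r) ∧ ∀ b1 b b2, bl = b1 ++ b :: b2 →
      (∀ r, Dl (I ++ C0 ++ b1.flatMap fun b => b.2.1 ++ b.2.2) r = target cl.length r) ∧
      (∀ r, Dl ((I ++ C0 ++ b1.flatMap fun b => b.2.1 ++ b.2.2) ++ b.2.1) r =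
        target cl.length r) := by
  have hI : ∀ r, Dl I r = target cl.length r := by
    intro r
    refine target_eq hm (L := L) (A := I) (C := C0)
      (B := (bl.flatMap fun b => b.2.1 ++ b.2.2) ++ Fn) (by rw [hD.L_eq]; simp) hD.C_eq hF hV
      (fun x hx => ts1_ok_stub (ts1_ok_init hm x.1 ?_)) ?_ r
    · rw [← hD.I_eq]; exact List.mem_map_of_mem hx
    · rw [ts1_sum_of_map hD.I_eq, ts1_S_init hm]
  -- after a slab
  have hA : ∀ b1 b b2, bl = b1 ++ b :: b2 →
      (∀ r, Dl ((I ++ C0 ++ b1.flatMap fun b => b.2.1 ++ b.2.2) ++ b.2.1) r =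
        target cl.length r) := by
    intro b1 b b2 hb r
    have hb1 : ∀ x ∈ b1, x ∈ bl := fun x hx => by rw [hb]; simp [hx]
    have hbb : b ∈ bl := by rw [hb]; simp
    refine target_eq hm (L := L) (C := b.2.2)
      (B := (b2.flatMap fun b => b.2.1 ++ b.2.2) ++ Fn) (by rw [hD.L_eq, hb]; simp)
      (hD.K_eq b hbb) hF hV (fun x hx => ts1_ok_stub ?_) ?_ r
    · simp only [List.mem_append, List.mem_flatMap] at hx
      rcases hx with ((h | h) | ⟨c, hc, h | h⟩) | h
      · exact ts1_ok_init hm x.1 (by rw [← hD.I_eq]; exact List.mem_map_of_mem h)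
      · exact ts1_ok_check hm x.1 (by rw [← hD.C_eq]; exact List.mem_map_of_mem h)
      · exact ts1_ok_slab hm c.1 x.1 (by rw [← hD.S_eq c (hb1 c hc)]; exact List.mem_map_of_mem h)
      · exact ts1_ok_check hm x.1 (by rw [← hD.K_eq c (hb1 c hc)]; exact List.mem_map_of_mem h)
      · exact ts1_ok_slab hm b.1 x.1 (by rw [← hD.S_eq b hbb]; exact List.mem_map_of_mem h)
    · have hfl : ∀ (l : List (σ × List (Op × ℕ) × List (Op × ℕ))), (∀ x ∈ l, x ∈ bl) →
          ((l.flatMap fun b => b.2.1 ++ b.2.2).map fun x => if x.1.isSrc then (1 : ℤ) else -1).sum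
            = 0 := by
        intro l hl
        induction l with
        | nil => simp
        | cons c l ih =>
          rw [List.flatMap_cons, List.map_append, List.sum_append,
            ih (fun x hx => hl x (by simp [hx])), List.map_append, List.sum_append,
            ts1_sum_of_map (hD.S_eq c (hl c (by simp))), ts1_sum_of_map (hD.K_eq c (hl c (by simp))),
            ts1_S_slab, ts1_S_check]
          norm_num
      rw [List.map_append, List.sum_append, List.map_append, List.sum_append, List.map_append,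
        List.sum_append, ts1_sum_of_map hD.I_eq, ts1_sum_of_map hD.C_eq, hfl b1 hb1,
        ts1_sum_of_map (hD.S_eq b hbb), ts1_S_init hm, ts1_S_check, ts1_S_slab]
      ring
  refine ⟨hI, fun b1 b b2 hb => ⟨fun r => ?_, hA b1 b b2 hb⟩⟩
  rcases List.eq_nil_or_concat b1 with rfl | ⟨b1', b', rfl⟩
  · rw [List.flatMap_nil, List.append_nil, dl_append, hI r, dl_check hD.C_eq, add_zero]
  · have h1 := hA b1' b' (b :: b2) (by rw [hb]; simp) r
    have hb' : b' ∈ bl := by rw [hb]; simp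
    have h2 : I ++ C0 ++ (b1' ++ [b']).flatMap (fun b => b.2.1 ++ b.2.2) =
        ((I ++ C0 ++ b1'.flatMap fun b => b.2.1 ++ b.2.2) ++ b'.2.1) ++ b'.2.2 := by
      simp
    rw [List.concat_eq_append, h2, dl_append, h1, dl_check (hD.K_eq b' hb'), add_zero]

end MST
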