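import Pool.Agent.Work.MP_2f1fa1_lc.Mt.Blocks

/-! Module TS2: analysis of one slab. -/

namespace MST

variable {σ : Type} [DecidableEq σ]

theorem ts2_nc {k : ℕ} {c : Bool} {S : List (Op × ℕ)}
    (h : ∀ x ∈ S, ∀ f, x.1 = .lnk f → x.2 = 1 →
      (f = 4 * k + 2 → c = true) ∧ (f = 4 * k + 3 → c = false)) : NC k c S := by
  rintro ⟨o, z⟩ hx r r' h1 h2
  cases o with
  | lnk f =>
    have h3 := h _ hx f rfl
    have hcol : z = 1 → col k c f = col k c (f + 1) := by
      intro hz
      obtain ⟨h4, h5⟩ := h3 hz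
      unfold col
      by_cases e1 : f = 4 * k + 2
      · rw [h4 e1]
        simp [e1]
      · by_cases e2 : f = 4 * k + 3
        · rw [h5 e2]
          simp [e2]
        · by_cases e3 : f ≤ 4 * k + 2
          · rw [if_pos e3, if_pos (by omega)]
          · rw [if_neg e3, if_pos (show 4 * k + 4 ≤ f by omega),
              if_neg (show ¬ f + 1 ≤ 4 * k + 2 by omega), if_pos (show 4 * k + 4 ≤ f + 1 by omega)]
    simp only [stub] at h1 h2
    by_cases e1 : r = r'
    · rw [e1]
    · have e2 : (r = f ∧ r' = f + 1 ∨ r = f + 1 ∧ r' = f) ∧ z = 1 := by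
        split_ifs at h1 h2 <;> omega
      obtain ⟨e3 | e3, hz⟩ := e2
      · rw [e3.1, e3.2]
        exact hcol hz
      · rw [e3.1, e3.2]
        exact (hcol hz).symm
  | src s =>
    simp only [stub] at h1 h2
    have e1 : r = r' := by
      split_ifs at h1 h2 <;> omega
    rw [e1]
  | snk s =>
    simp only [stub] at h1 h2
    have e1 : r = r' := by
      split_ifs at h1 h2 <;> omega
    rw [e1]

/-- the crossing gadgets change the split of their face -/
theorem ts2_cross (s : σ) : ∀ (cl : List (Bool × List σ)) (n : ℕ) (X : List (Op × ℕ)),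
    X.map Prod.fst = ((cl.zipIdx n).flatMap fun c => if s ∈ c.1.2 then gad c.1.1 c.2 else []) →
    (∀ x ∈ X, x.2 ≤ 2) →
    ∃ δ : ℕ → ℤ, (∀ r, 1 ≤ r → Dl X r = δ r - δ (r - 1)) ∧
      (∀ f, δ f ≠ 0 → ∃ (k : ℕ) (sg : Bool) (vs : List σ), cl[k]? = some (sg, vs) ∧ s ∈ vs ∧
        f = if sg then 4 * (n + k) + 3 else 4 * (n + k) + 2) ∧
      (∀ x ∈ X, ∀ f, x.1 = .lnk f → ∃ (k : ℕ) (sg : Bool) (vs : List σ), cl[k]? = some (sg, vs) ∧ s ∈ vs ∧
        f = if sg then 4 * (n + k) + 3 else 4 * (n + k) + 2) := by
  intro cl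
  induction cl with
  | nil =>
    intro n X hX _
    simp only [List.zipIdx_nil, List.flatMap_nil, List.map_eq_nil_iff] at hX
    subst hX
    refine ⟨fun _ => 0, ?_, ?_, ?_⟩
    · intro r _
      rw [dl_nil]
      simp
    · intro f hf
      exact absurd rfl hf
    · intro x hx
      simp at hx
  | cons c cl ih =>
    intro n X hX h2
    rw [List.zipIdx_cons, List.flatMap_cons, List.map_eq_append_iff] at hX
    obtain ⟨X1, X2, rfl, hX1, hX2⟩ := hX
    obtain ⟨δ, hd1, hd2, hd3⟩ := ih (n + 1) X2 hX2
      (fun x hx => h2 x (List.mem_append_right _ hx))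
    have hX1' : ∀ x ∈ X1, x.2 ≤ 2 := fun x hx => h2 x (List.mem_append_left _ hx)
    have hshift : ∀ f, (∃ (k : ℕ) (sg : Bool) (vs : List σ), cl[k]? = some (sg, vs) ∧ s ∈ vs ∧
        f = if sg then 4 * (n + 1 + k) + 3 else 4 * (n + 1 + k) + 2) →
        ∃ (k : ℕ) (sg : Bool) (vs : List σ), (c :: cl)[k]? = some (sg, vs) ∧ s ∈ vs ∧
          f = if sg then 4 * (n + k) + 3 else 4 * (n + k) + 2 := by
      rintro f ⟨k, sg, vs, e1, e2, e3⟩
      refine ⟨k + 1, sg, vs, ?_, e2, ?_⟩
      · simpa using e1
      · rw [e3]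
        have e4 : n + 1 + k = n + (k + 1) := by omega
        rw [e4]
    have key : ∃ δ1 : ℕ → ℤ, (∀ r, 1 ≤ r → Dl X1 r = δ1 r - δ1 (r - 1)) ∧
        (∀ f, δ1 f ≠ 0 → s ∈ c.2 ∧ f = if c.1 then 4 * n + 3 else 4 * n + 2) ∧
        (∀ x ∈ X1, ∀ f, x.1 = .lnk f → s ∈ c.2 ∧ f = if c.1 then 4 * n + 3 else 4 * n + 2) := by
      by_cases hs : s ∈ c.2
      · simp only [hs, if_true] at hX1
        obtain ⟨sg, vs⟩ := c
        cases sg with
        | true =>
          simp only [gad, if_true] at hX1
          match X1, hX1 with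
          | [(o1, p1), (o2, p2), (o3, p3), (o4, p4)], hX1 =>
            simp only [List.map_cons, List.map_nil, List.cons.injEq, and_true] at hX1
            obtain ⟨rfl, rfl, rfl, rfl⟩ := hX1
            have hp1 : p1 ≤ 2 := hX1' (.lnk (4 * n + 3), p1) (by simp)
            have hp2 : p2 ≤ 2 := hX1' (.lnk (4 * n + 3), p2) (by simp)
            refine ⟨fun f => if f = 4 * n + 3 then (p1 : ℤ) + p2 - 2 else 0, ?_, ?_, ?_⟩
            · intro r hr
              rw [dl_cons, dl_cons, dl_cons, dl_cons, dl_nil, ctr_lnk_odd (by omega) hp1,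
                ctr_lnk_odd (by omega) hp2, ctr_snk, ctr_snk]
              beta_reduce
              split_ifs <;> omega
            · intro f hf
              by_cases e : f = 4 * n + 3
              · exact ⟨hs, by simpa using e⟩
              · exact absurd (if_neg e) hf
            · intro x hx f hxf
              simp only [List.mem_cons, List.not_mem_nil, or_false] at hx
              rcases hx with rfl | rfl | rfl | rfl
              · simp only [Op.lnk.injEq] at hxf
                exact ⟨hs, by simpa using hxf.symm⟩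
              · simp only [Op.lnk.injEq] at hxf
                exact ⟨hs, by simpa using hxf.symm⟩
              · simp at hxf
              · simp at hxf
        | false =>
          simp only [gad] at hX1
          match X1, hX1 with
          | [(o1, p1), (o2, p2), (o3, p3), (o4, p4)], hX1 =>
            simp only [Bool.false_eq_true, if_false, List.map_cons, List.map_nil,
              List.cons.injEq, and_true] at hX1
            obtain ⟨rfl, rfl, rfl, rfl⟩ := hX1
            have hp1 : p3 ≤ 2 := hX1' (.lnk (4 * n + 2), p3) (by simp)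
            have hp2 : p4 ≤ 2 := hX1' (.lnk (4 * n + 2), p4) (by simp)
            refine ⟨fun f => if f = 4 * n + 2 then (p3 : ℤ) + p4 - 2 else 0, ?_, ?_, ?_⟩
            · intro r hr
              rw [dl_cons, dl_cons, dl_cons, dl_cons, dl_nil, ctr_lnk_even (by omega) hp1,
                ctr_lnk_even (by omega) hp2, ctr_src, ctr_src]
              beta_reduce
              split_ifs <;> omega
            · intro f hf
              by_cases e : f = 4 * n + 2
              · exact ⟨hs, by simpa using e⟩
              · exact absurd (if_neg e) hf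
            · intro x hx f hxf
              simp only [List.mem_cons, List.not_mem_nil, or_false] at hx
              rcases hx with rfl | rfl | rfl | rfl
              · simp at hxf
              · simp at hxf
              · simp only [Op.lnk.injEq] at hxf
                exact ⟨hs, by simpa using hxf.symm⟩
              · simp only [Op.lnk.injEq] at hxf
                exact ⟨hs, by simpa using hxf.symm⟩
      · simp only [hs, if_false, List.map_eq_nil_iff] at hX1
        subst hX1
        refine ⟨fun _ => 0, ?_, ?_, ?_⟩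
        · intro r _
          rw [dl_nil]
          simp
        · intro f hf
          exact absurd rfl hf
        · intro x hx
          simp at hx
    obtain ⟨δ1, k1, k2, k3⟩ := key
    refine ⟨fun f => δ1 f + δ f, ?_, ?_, ?_⟩
    · intro r hr
      rw [dl_append, k1 r hr, hd1 r hr]
      ring
    · intro f hf
      by_cases e : δ1 f = 0
      · have e' : δ f ≠ 0 := by
          intro e'
          apply hf
          simp [e, e']
        exact hshift f (hd2 f e')
      · obtain ⟨e1, e2⟩ := k2 f e
        exact ⟨0, c.1, c.2, by simp, e1, by simpa using e2⟩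
    · intro x hx f hxf
      rw [List.mem_append] at hx
      rcases hx with hx | hx
      · obtain ⟨e1, e2⟩ := k3 x hx f hxf
        exact ⟨0, c.1, c.2, by simp, e1, by simpa using e2⟩
      · exact hshift f (hd3 x hx f hxf)

/-- both families of links of a phase -/
theorem ts2_phase {m : ℕ} {P1 P3 : List (Op × ℕ)} (h1 : P1.map Prod.fst = oddL m)
    (h3 : P3.map Prod.fst = evenL m) (hP1 : ∀ x ∈ P1, x.2 ≤ 2) (hP3 : ∀ x ∈ P3, x.2 ≤ 2) :
    ∃ z : ℕ → ℤ, z 0 = 0 ∧ z (4 * m + 1) = 0 ∧
      (∀ r, 1 ≤ r → r ≤ 4 * m + 1 → Dl P1 r + Dl P3 r = z r - z (r - 1)) ∧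
      (∀ x ∈ P1 ++ P3, ∀ f, x.1 = .lnk f → 1 ≤ f ∧ f ≤ 4 * m ∧ (x.2 : ℤ) = z f) := by
  obtain ⟨g1, rfl⟩ := exists_ann h1 (nodup_oddL m)
  obtain ⟨g3, rfl⟩ := exists_ann h3 (nodup_evenL m)
  have hg1 : ∀ o ∈ oddL m, g1 o ≤ 2 := fun o ho => hP1 (o, g1 o) (List.mem_map.2 ⟨o, ho, rfl⟩)
  have hg3 : ∀ o ∈ evenL m, g3 o ≤ 2 := fun o ho => hP3 (o, g3 o) (List.mem_map.2 ⟨o, ho, rfl⟩)
  refine ⟨fun f => if f = 0 ∨ 4 * m < f then 0 else if f % 2 = 1 then (g1 (.lnk f) : ℤ)
    else (g3 (.lnk f) : ℤ), by simp, by simp, ?_, ?_⟩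
  · intro r hr1 hr2
    rw [dl_oddL m g1 hg1, dl_evenL m g3 hg3]
    beta_reduce
    rcases Nat.mod_two_eq_zero_or_one r with e | e
    · have e1 : (r - 1) % 2 = 1 := by omega
      rw [if_neg (by omega), if_pos (by omega), if_pos (by omega), if_neg (by omega),
        if_neg (by omega), if_neg (by omega), if_pos e1]
      ring
    · have e1 : ¬ (r - 1) % 2 = 1 := by omega
      by_cases e2 : r = 4 * m + 1
      · by_cases e3 : m = 0
        · subst e3
          simp [e2]
        · rw [if_neg (by omega), if_neg (by omega), if_neg (by omega), if_pos (by omega),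
            if_pos (by omega), if_neg (by omega), if_neg e1]
          ring
      · by_cases e3 : r = 1
        · rw [if_pos (by omega), if_neg (by omega), if_neg (by omega), if_neg (by omega),
            if_pos e, if_pos (by omega)]
          ring
        · rw [if_pos (by omega), if_neg (by omega), if_pos (by omega), if_neg (by omega),
            if_pos e, if_neg (by omega), if_neg e1]
          ring
  · intro x hx f hxf
    rw [List.mem_append, List.mem_map, List.mem_map] at hx
    rcases hx with ⟨o, ho, rfl⟩ | ⟨o, ho, rfl⟩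
    · simp only at hxf
      subst hxf
      simp only [oddL, List.mem_map, List.mem_range, Op.lnk.injEq] at ho
      obtain ⟨i, hi, rfl⟩ := ho
      refine ⟨by omega, by omega, ?_⟩
      simp only
      rw [if_neg (by omega), if_pos (by omega)]
    · simp only at hxf
      subst hxf
      simp only [evenL, List.mem_map, List.mem_range, Op.lnk.injEq] at ho
      obtain ⟨i, hi, rfl⟩ := ho
      refine ⟨by omega, by omega, ?_⟩
      simp only
      rw [if_neg (by omega), if_neg (by omega)]

/-- analysis of one slab: the mobile token -/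
theorem slab_main {cl : List (Bool × List σ)} {s : σ} (hm : 1 ≤ cl.length)
    {L A S B : List (Op × ℕ)} (hL : L = A ++ S ++ B) (hS : S.map Prod.fst = slab cl s)
    (hF : Feas L) (hV : Visit L) (hA : ∀ r, Dl A r = target cl.length r)
    (hAS : ∀ r, Dl (A ++ S) r = target cl.length r) :
    ∃ Y : ℕ → ℕ, (∀ f, 1 ≤ f → f < 4 * cl.length → Y f ≤ Y (f + 1)) ∧ (∀ f, Y f ≤ 1) ∧
      ∀ k sg vs, cl[k]? = some (sg, vs) →
        (s ∉ vs → ∃ c, NC k c S) ∧
        (s ∈ vs → sg = true → Y (4 * k + 2) = 0 → NC k false S) ∧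
        (s ∈ vs → sg = false → Y (4 * k + 3) = 1 → NC k true S) := by
  set m := cl.length with hmdef
  have hle : ∀ x ∈ S, x.2 ≤ 2 := fun x hx => hF.le2 x (by rw [hL]; simp [hx])
  rw [slab] at hS
  rw [List.map_eq_append_iff] at hS
  obtain ⟨S9, Q5, rfl, hS, hQ5⟩ := hS
  rw [List.map_eq_append_iff] at hS
  obtain ⟨S8, Q4, rfl, hS, hQ4⟩ := hS
  rw [List.map_eq_append_iff] at hS
  obtain ⟨S7, Q3, rfl, hS, hQ3⟩ := hS
  rw [List.map_eq_append_iff] at hS
  obtain ⟨S6, Q2, rfl, hS, hQ2⟩ := hS
  rw [List.map_eq_append_iff] at hS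
  obtain ⟨S5, Q1, rfl, hS, hQ1⟩ := hS
  rw [List.map_eq_append_iff] at hS
  obtain ⟨S4, V, rfl, hS, hVs⟩ := hS
  rw [List.map_eq_append_iff] at hS
  obtain ⟨S3, X, rfl, hS, hX⟩ := hS
  rw [List.map_eq_append_iff] at hS
  obtain ⟨S2, P3, rfl, hS, hP3⟩ := hS
  rw [List.map_eq_append_iff] at hS
  obtain ⟨P1, P2, rfl, hP1, hP2⟩ := hS
  obtain ⟨z, z0, z1, zD, zm⟩ := ts2_phase hP1 hP3 (fun x hx => hle x (by simp [hx]))
    (fun x hx => hle x (by simp [hx]))
  obtain ⟨z', z0', z1', zD', zm'⟩ := ts2_phase hQ1 hQ3 (fun x hx => hle x (by simp [hx]))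
    (fun x hx => hle x (by simp [hx]))
  obtain ⟨δ, dD, d0, dm⟩ := ts2_cross s cl 0 X (by rw [hX]; rfl)
    (fun x hx => hle x (by simp [hx]))
  have dval : ∀ f, δ f ≠ 0 → 2 ≤ f ∧ f < 4 * m := by
    intro f hf
    obtain ⟨k, sg, vs, h1, -, h3⟩ := d0 f hf
    have h4 : k < m := by
      rw [List.getElem?_eq_some_iff] at h1
      exact h1.1
    rw [h3]
    split_ifs <;> omega
  have dz0 : δ 0 = 0 := by
    by_contra h
    have := dval 0 h
    omega
  have dz1 : δ (4 * m + 1) = 0 := by
    by_contra h
    have := dval _ h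
    omega
  -- numbers of open edges at the visits
  have hvis : ∀ r, 1 ≤ r → r ≤ 4 * m + 1 → 1 ≤ target m r + (z r + δ r) - (z (r - 1) + δ (r - 1))
      + if r % 4 = 1 ∧ 5 ≤ r ∧ r < 4 * m then 2 else 0 := by
    intro r hr1 hr2
    obtain ⟨V1, V2, x, y, hVe, hV1⟩ := visits_split hVs hr1 hr2
    have h1 := hV (A ++ P1 ++ P2 ++ P3 ++ X ++ V1) (V2 ++ Q1 ++ Q2 ++ Q3 ++ Q4 ++ Q5 ++ B) r x y
      (by rw [hL, hVe]; simp)
    rw [dl_append, dl_append, dl_append, dl_append, dl_append, hA, hV1, dl_srcC hP2,
      dD r hr1] at h1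
    have h2 := zD r hr1 hr2
    linarith
  -- numbers of open edges at the end
  have hend : ∀ r, 1 ≤ r → r ≤ 4 * m + 1 → (z r + δ r + z' r) - (z (r - 1) + δ (r - 1) + z' (r - 1))
      + (if r = 4 * m + 1 then 2 else 0) - (if r = 1 then 2 else 0) = 0 := by
    intro r hr1 hr2
    have h1 := hAS r
    match Q2, hQ2 with
    | [(o1, p1)], hQ2 =>
    match Q5, hQ5 with
    | [(o2, p2)], hQ5 =>
    simp only [List.map_cons, List.map_nil, List.cons.injEq, and_true] at hQ2 hQ5
    subst hQ2 hQ5
    rw [dl_append, dl_append, dl_append, dl_append, dl_append, dl_append, dl_append, dl_append,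
      dl_append, dl_append, hA, dl_srcC hP2, dl_snkC hQ4, dl_visits hVs, dD r hr1, dl_cons,
      dl_nil, dl_cons, dl_nil, ctr_src, ctr_snk] at h1
    have h2 := zD r hr1 hr2
    have h3 := zD' r hr1 hr2
    split_ifs at h1 ⊢ <;> linarith
  -- the second phase
  have hz' : ∀ f, 1 ≤ f → f ≤ 4 * m → z f + δ f + z' f = 2 := by
    intro f
    induction f with
    | zero => omega
    | succ f ih =>
      intro _ hf
      have h1 := hend (f + 1) (by omega) (by omega)
      rw [if_neg (by omega)] at h1
      simp only [Nat.add_sub_cancel] at h1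
      by_cases e : f = 0
      · subst e
        simp only [z0, dz0, z0', zero_add] at h1 ⊢
        simp at h1
        linarith
      · rw [if_neg (by omega)] at h1
        have := ih (by omega) (by omega)
        linarith
  -- the token
  set U : ℕ → ℤ := fun f => z f + δ f - (if f % 4 = 1 ∨ f % 4 = 2 then 0 else 1) with hU
  have hU1 : 0 ≤ U 1 := by
    have h1 := hvis 1 le_rfl (by omega)
    have t1 : target m 1 = 1 := by
      unfold target
      rw [if_neg (by omega), if_pos (Or.inl rfl)]
    rw [t1, if_neg (by omega)] at h1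
    simp only [Nat.sub_self, z0, dz0] at h1
    simp only [hU]
    norm_num
    linarith
  have hUm : U (4 * m) ≤ 1 := by
    have h1 := hvis (4 * m + 1) (by omega) le_rfl
    simp only [target, Nat.add_sub_cancel, dz1] at h1
    rw [if_pos trivial, if_neg (by omega)] at h1
    simp only [hU]
    rw [if_neg (by omega)]
    linarith
  have hUs : ∀ f, 1 ≤ f → f < 4 * m → U f ≤ U (f + 1) := by
    intro f hf1 hf2
    have h1 := hvis (f + 1) (by omega) (by omega)
    simp only [target, Nat.add_sub_cancel] at h1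
    simp only [hU]
    rw [if_neg (by omega)] at h1
    have h4 : f % 4 = 0 ∨ f % 4 = 1 ∨ f % 4 = 2 ∨ f % 4 = 3 := by omega
    rcases h4 with h4 | h4 | h4 | h4
    · rw [if_neg (by omega), if_pos (by omega)] at h1
      rw [if_neg (by omega), if_pos (by omega)]
      linarith
    · rw [if_pos (by omega), if_neg (by omega)] at h1
      rw [if_pos (by omega), if_pos (by omega)]
      linarith
    · rw [if_neg (by omega), if_neg (by omega)] at h1
      rw [if_pos (by omega), if_neg (by omega)]
      linarith
    · rw [if_pos (by omega), if_neg (by omega)] at h1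
      rw [if_neg (by omega), if_neg (by omega)]
      linarith
  have hU0 : ∀ f, 1 ≤ f → f ≤ 4 * m → 0 ≤ U f := by
    intro f
    induction f with
    | zero => omega
    | succ f ih =>
      intro _ hf
      by_cases e : f = 0
      · subst e
        exact hU1
      · exact (ih (by omega) (by omega)).trans (hUs f (by omega) (by omega))
  have hU2 : ∀ j f, f + j = 4 * m → 1 ≤ f → U f ≤ 1 := by
    intro j
    induction j with
    | zero =>
      intro f hf _
      rw [Nat.add_zero] at hf
      rw [hf]
      exact hUm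
    | succ j ih =>
      intro f hf hf1
      exact (hUs f hf1 (by omega)).trans (ih (f + 1) (by omega) (by omega))
  have hUle : ∀ f, 1 ≤ f → f ≤ 4 * m → U f ≤ 1 := fun f h1 h2 => hU2 (4 * m - f) f (by omega) h1
  refine ⟨fun f => if 1 ≤ f ∧ f ≤ 4 * m then (U f).toNat else 0, ?_, ?_, ?_⟩
  · intro f hf1 hf2
    simp only
    rw [if_pos (by omega), if_pos (by omega)]
    exact Int.toNat_le_toNat (hUs f hf1 hf2)
  · intro f
    simp only
    split_ifs with h
    · have := hUle f h.1 h.2
      omega
    · omega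
  · intro k sg vs hk
    have hkm : k < m := by
      rw [List.getElem?_eq_some_iff] at hk
      exact hk.1
    have hY2 : (if 1 ≤ 4 * k + 2 ∧ 4 * k + 2 ≤ 4 * m then (U (4 * k + 2)).toNat else 0) =
        (U (4 * k + 2)).toNat := if_pos (by omega)
    have hY3 : (if 1 ≤ 4 * k + 3 ∧ 4 * k + 3 ≤ 4 * m then (U (4 * k + 3)).toNat else 0) =
        (U (4 * k + 3)).toNat := if_pos (by omega)
    simp only [hY2, hY3]
    have u2 : U (4 * k + 2) = z (4 * k + 2) + δ (4 * k + 2) := by
      simp only [hU]
      rw [if_pos (by omega)]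
      ring
    have u3 : U (4 * k + 3) = z (4 * k + 3) + δ (4 * k + 3) - 1 := by
      simp only [hU]
      rw [if_neg (by omega)]
    have a2 := hU0 (4 * k + 2) (by omega) (by omega)
    have b2 := hUle (4 * k + 2) (by omega) (by omega)
    have a3 := hU0 (4 * k + 3) (by omega) (by omega)
    have b3 := hUle (4 * k + 3) (by omega) (by omega)
    have c23 := hUs (4 * k + 2) (by omega) (by omega)
    have s2 := hz' (4 * k + 2) (by omega) (by omega)
    have s3 := hz' (4 * k + 3) (by omega) (by omega)
    -- no gadget on the face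
    have g2 : (s ∉ vs ∨ sg = true) → δ (4 * k + 2) = 0 ∧ ∀ x ∈ X, x.1 ≠ .lnk (4 * k + 2) := by
      intro h
      have key : ¬ ∃ (k' : ℕ) (sg' : Bool) (vs' : List σ), cl[k']? = some (sg', vs') ∧ s ∈ vs' ∧
          4 * k + 2 = if sg' then 4 * (0 + k') + 3 else 4 * (0 + k') + 2 := by
        rintro ⟨k', sg', vs', h1, h2, h3⟩
        cases sg' with
        | true => simp only [if_true] at h3; omega
        | false =>
          simp only [Bool.false_eq_true, if_false] at h3
          have h4 : k' = k := by omega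
          subst h4
          rw [hk] at h1
          simp only [Option.some.injEq, Prod.mk.injEq] at h1
          rcases h with h | h
          · rw [h1.2] at h
            exact h h2
          · rw [h1.1] at h
            simp at h
      constructor
      · by_contra h1
        exact key (d0 _ h1)
      · intro x hx h1
        exact key (dm x hx _ h1)
    have g3 : (s ∉ vs ∨ sg = false) → δ (4 * k + 3) = 0 ∧ ∀ x ∈ X, x.1 ≠ .lnk (4 * k + 3) := by
      intro h
      have key : ¬ ∃ (k' : ℕ) (sg' : Bool) (vs' : List σ), cl[k']? = some (sg', vs') ∧ s ∈ vs' ∧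
          4 * k + 3 = if sg' then 4 * (0 + k') + 3 else 4 * (0 + k') + 2 := by
        rintro ⟨k', sg', vs', h1, h2, h3⟩
        cases sg' with
        | false => simp only [Bool.false_eq_true, if_false] at h3; omega
        | true =>
          simp only [if_true] at h3
          have h4 : k' = k := by omega
          subst h4
          rw [hk] at h1
          simp only [Option.some.injEq, Prod.mk.injEq] at h1
          rcases h with h | h
          · rw [h1.2] at h
            exact h h2
          · rw [h1.1] at h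
            simp at h
      constructor
      · by_contra h1
        exact key (d0 _ h1)
      · intro x hx h1
        exact key (dm x hx _ h1)
    -- splits of the links of a face without gadget
    have hmem : ∀ f, (∀ x ∈ X, x.1 ≠ .lnk f) → ∀ x ∈ P1 ++ P2 ++ P3 ++ X ++ V ++ Q1 ++ Q2 ++ Q3 ++
        Q4 ++ Q5, x.1 = .lnk f → (x.2 : ℤ) = z f ∨ (x.2 : ℤ) = z' f := by
      intro f hf x hx hxf
      have hP2' : ∀ x ∈ P2, x.1 ≠ .lnk f := by
        intro x hx h1
        have h2 : x.1 ∈ P2.map Prod.fst := List.mem_map.2 ⟨x, hx, rfl⟩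
        rw [hP2, h1] at h2
        simp [srcC] at h2
      have hV' : ∀ x ∈ V, x.1 ≠ .lnk f := by
        intro x hx h1
        have h2 : x.1 ∈ V.map Prod.fst := List.mem_map.2 ⟨x, hx, rfl⟩
        rw [hVs, h1] at h2
        simp [visits] at h2
      have hQ2' : ∀ x ∈ Q2, x.1 ≠ .lnk f := by
        intro x hx h1
        have h2 : x.1 ∈ Q2.map Prod.fst := List.mem_map.2 ⟨x, hx, rfl⟩
        rw [hQ2, h1] at h2
        simp at h2
      have hQ4' : ∀ x ∈ Q4, x.1 ≠ .lnk f := by
        intro x hx h1
        have h2 : x.1 ∈ Q4.map Prod.fst := List.mem_map.2 ⟨x, hx, rfl⟩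
        rw [hQ4, h1] at h2
        simp [snkC] at h2
      have hQ5' : ∀ x ∈ Q5, x.1 ≠ .lnk f := by
        intro x hx h1
        have h2 : x.1 ∈ Q5.map Prod.fst := List.mem_map.2 ⟨x, hx, rfl⟩
        rw [hQ5, h1] at h2
        simp at h2
      simp only [List.mem_append] at hx
      rcases hx with ((((((((hx | hx) | hx) | hx) | hx) | hx) | hx) | hx) | hx) | hx
      · exact Or.inl (zm x (List.mem_append_left _ hx) f hxf).2.2
      · exact absurd hxf (hP2' x hx)
      · exact Or.inl (zm x (List.mem_append_right _ hx) f hxf).2.2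
      · exact absurd hxf (hf x hx)
      · exact absurd hxf (hV' x hx)
      · exact Or.inr (zm' x (List.mem_append_left _ hx) f hxf).2.2
      · exact absurd hxf (hQ2' x hx)
      · exact Or.inr (zm' x (List.mem_append_right _ hx) f hxf).2.2
      · exact absurd hxf (hQ4' x hx)
      · exact absurd hxf (hQ5' x hx)
    have hfalse : (s ∉ vs ∨ sg = true) → U (4 * k + 2) = 0 → NC k false (P1 ++ P2 ++ P3 ++ X ++ V ++
        Q1 ++ Q2 ++ Q3 ++ Q4 ++ Q5) := by
      intro h hY
      obtain ⟨h1, h2⟩ := g2 h
      apply ts2_nc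
      intro x hx f hxf hx1
      refine ⟨fun e => ?_, fun _ => rfl⟩
      exfalso
      subst e
      rcases hmem _ h2 x hx hxf with h3 | h3
      · rw [hx1] at h3
        push_cast at h3
        linarith
      · rw [hx1] at h3
        push_cast at h3
        linarith
    have htrue : (s ∉ vs ∨ sg = false) → U (4 * k + 3) = 1 → NC k true (P1 ++ P2 ++ P3 ++ X ++ V ++
        Q1 ++ Q2 ++ Q3 ++ Q4 ++ Q5) := by
      intro h hY
      obtain ⟨h1, h2⟩ := g3 h
      apply ts2_nc
      intro x hx f hxf hx1
      refine ⟨fun _ => rfl, fun e => ?_⟩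
      exfalso
      subst e
      rcases hmem _ h2 x hx hxf with h3 | h3
      · rw [hx1] at h3
        push_cast at h3
        linarith
      · rw [hx1] at h3
        push_cast at h3
        linarith
    refine ⟨fun h => ?_, fun h h' hY => ?_, fun h h' hY => ?_⟩
    · rcases (show U (4 * k + 2) = 0 ∨ U (4 * k + 2) = 1 by omega) with e | e
      · exact ⟨false, hfalse (Or.inl h) e⟩
      · exact ⟨true, htrue (Or.inl h) (by
          have e1 : 4 * k + 2 + 1 = 4 * k + 3 := rfl
          rw [e1] at c23
          omega)⟩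
    · exact hfalse (Or.inr h') (by omega)
    · exact htrue (Or.inr h') (by omega)

end MST
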