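import Pool.Agent.Work.MP_2f1fa1_lc.Mt.Blocks

/-! TS3 (helper53): a monochromatic colouring of every slab disconnects the splits. -/

namespace MST

/-! ### lists -/

theorem ts3_split {α : Type} {P Q A B : List α} {x : α} (h : P ++ Q = A ++ x :: B) :
    (∃ B', P = A ++ x :: B') ∨ (∃ A', A = P ++ A' ∧ Q = A' ++ x :: B) := by
  rcases List.append_eq_append_iff.1 h with ⟨a', h1, h2⟩ | ⟨c', h1, h2⟩
  · exact Or.inr ⟨a', h1, h2⟩
  · rcases c' with _ | ⟨y, c''⟩
    · right
      refine ⟨[], by simpa using h1.symm, ?_⟩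
      simpa using h2.symm
    · left
      simp only [List.cons_append, List.cons.injEq] at h2
      exact ⟨c'', by rw [h1, h2.1]⟩

theorem ts3_flatMap {α β : Type} (f : α → List β) : ∀ (bl : List α) {A B : List β} {x : β},
    bl.flatMap f = A ++ x :: B → ∃ b1 b b2 A' B', bl = b1 ++ b :: b2 ∧ A = b1.flatMap f ++ A' ∧
      f b = A' ++ x :: B'
  | [], A, B, x, h => by simp at h
  | b :: bl, A, B, x, h => by
    rw [List.flatMap_cons] at h
    rcases ts3_split h with ⟨B', h1⟩ | ⟨A', h1, h2⟩
    · exact ⟨[], b, bl, A, B', rfl, by simp, h1⟩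
    · obtain ⟨b1, b', b2, A'', B', h3, h4, h5⟩ := ts3_flatMap f bl h2
      exact ⟨b :: b1, b', b2, A'', B', by rw [h3]; rfl, by rw [h1, h4]; simp, h5⟩

/-! ### operations outside of the slabs -/

theorem ts3_on {x : Op × ℕ} {r : ℕ} (h : 0 < stub x r) : x.1.on r = true := by
  obtain ⟨o, z⟩ := x
  rcases o with f | s | s
  · simp only [stub] at h
    simp only [Op.on]
    by_cases h1 : r = f
    · simp [h1]
    · by_cases h2 : r = f + 1
      · simp [h2]
      · simp [h1, h2] at h
  · simp only [stub] at h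
    simp only [Op.on]
    by_cases h1 : r = s
    · simp [h1]
    · simp [h1] at h
  · simp only [stub] at h
    simp only [Op.on]
    by_cases h1 : r = s
    · simp [h1]
    · simp [h1] at h

/-- the operation stays on one side of the row `4k+3` -/
def ts3_out (k : ℕ) (o : Op) : Prop :=
  (∀ r, o.on r = true → r ≤ 4 * k + 2) ∨ (∀ r, o.on r = true → 4 * k + 4 ≤ r)

theorem ts3_out_lnk {k f : ℕ} (h : f + 1 ≤ 4 * k + 2 ∨ 4 * k + 4 ≤ f) : ts3_out k (.lnk f) := by
  rcases h with h | h
  · left
    intro r hr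
    simp only [Op.on, Bool.or_eq_true, beq_iff_eq] at hr
    omega
  · right
    intro r hr
    simp only [Op.on, Bool.or_eq_true, beq_iff_eq] at hr
    omega

theorem ts3_out_src {k s : ℕ} (h : s ≠ 4 * k + 3) : ts3_out k (.src s) := by
  rcases Nat.lt_or_gt_of_ne h with h | h
  · left
    intro r hr
    simp only [Op.on, beq_iff_eq] at hr
    omega
  · right
    intro r hr
    simp only [Op.on, beq_iff_eq] at hr
    omega

theorem ts3_out_snk {k s : ℕ} (h : s ≠ 4 * k + 3) : ts3_out k (.snk s) := by
  rcases Nat.lt_or_gt_of_ne h with h | h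
  · left
    intro r hr
    simp only [Op.on, beq_iff_eq] at hr
    omega
  · right
    intro r hr
    simp only [Op.on, beq_iff_eq] at hr
    omega

theorem ts3_out_stub {k : ℕ} {x : Op × ℕ} (h : ts3_out k x.1) : ¬ 0 < stub x (4 * k + 3) := by
  intro h1
  have h2 := ts3_on h1
  rcases h with h | h
  · have := h _ h2; omega
  · have := h _ h2; omega

theorem ts3_out_col {k : ℕ} {x : Op × ℕ} (h : ts3_out k x.1) {r r' : ℕ} {c c' : Bool}
    (h1 : 0 < stub x r) (h2 : 0 < stub x r') : col k c r = col k c' r' := by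
  have h3 := ts3_on h1
  have h4 := ts3_on h2
  unfold col
  rcases h with h | h
  · rw [if_pos (h r h3), if_pos (h r' h4)]
  · have h5 := h r h3
    have h6 := h r' h4
    rw [if_neg (show ¬ r ≤ 4 * k + 2 by omega), if_pos h5,
      if_neg (show ¬ r' ≤ 4 * k + 2 by omega), if_pos h6]

theorem ts3_out_init {m k : ℕ} (hk : k < m) : ∀ o ∈ init m, ts3_out k o := by
  intro o ho
  unfold init at ho
  simp only [List.mem_append, List.mem_flatMap, List.mem_range, List.mem_cons, List.not_mem_nil,
    or_false] at ho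
  rcases ho with ((rfl | ⟨i, hi, rfl | rfl | rfl⟩)) | (rfl | rfl | rfl | rfl)
  · exact ts3_out_lnk (by omega)
  · exact ts3_out_src (by omega)
  · exact ts3_out_lnk (by omega)
  · exact ts3_out_lnk (by omega)
  · exact ts3_out_src (by omega)
  · exact ts3_out_src (by omega)
  · exact ts3_out_src (by omega)
  · exact ts3_out_lnk (by omega)

theorem ts3_out_check {m k : ℕ} (hk : k < m) : ∀ o ∈ check m, ts3_out k o := by
  intro o ho
  unfold check at ho
  simp only [List.mem_append, List.mem_flatMap, List.mem_range, List.mem_cons, List.not_mem_nil,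
    or_false] at ho
  rcases ho with (((rfl | rfl) | ⟨i, hi, rfl | rfl⟩)) | (rfl | rfl | rfl | rfl)
  · exact ts3_out_src (by omega)
  · exact ts3_out_snk (by omega)
  · exact ts3_out_src (by omega)
  · exact ts3_out_snk (by omega)
  · exact ts3_out_snk (by omega)
  · exact ts3_out_src (by omega)
  · exact ts3_out_snk (by omega)
  · exact ts3_out_src (by omega)

theorem ts3_out_final {m k : ℕ} (hk : k < m) : ∀ o ∈ final m, ts3_out k o := by
  intro o ho
  unfold final at ho
  simp only [List.mem_append, List.mem_flatMap, List.mem_range, List.mem_cons, List.not_mem_nil,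
    or_false] at ho
  rcases ho with (((rfl | rfl) | ⟨i, hi, rfl | rfl | rfl⟩)) | (rfl | rfl | rfl)
  · exact ts3_out_lnk (by omega)
  · exact ts3_out_snk (by omega)
  · exact ts3_out_lnk (by omega)
  · exact ts3_out_lnk (by omega)
  · exact ts3_out_snk (by omega)
  · exact ts3_out_lnk (by omega)
  · exact ts3_out_snk (by omega)
  · exact ts3_out_snk (by omega)

theorem ts3_Dl_zero {k : ℕ} : ∀ (A : List (Op × ℕ)), (∀ x ∈ A, ts3_out k x.1) →
    Dl A (4 * k + 3) = 0
  | [], _ => dl_nil _
  | x :: A, h => by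
    have h0 : stub x (4 * k + 3) = 0 := by
      have := ts3_out_stub (h x (by simp)); omega
    have h1 : ctr x (4 * k + 3) = 0 := by
      unfold ctr
      rw [h0]
      simp
    rw [dl_cons, h1, ts3_Dl_zero A (fun y hy => h y (by simp [hy])), zero_add]

/-! ### the colour of the cuts -/

variable {σ : Type}

theorem ts3_cuts (k : ℕ) : ∀ (bl : List (σ × List (Op × ℕ) × List (Op × ℕ))) (N : ℕ),
    (∀ b ∈ bl, 1 ≤ b.2.2.length) → (∀ b ∈ bl, ∃ c, NC k c b.2.1) →
    ∃ g : ℕ → Bool, ∀ b1 b b2, bl = b1 ++ b :: b2 → ∃ c, NC k c b.2.1 ∧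
      ∀ t, N + (b1.flatMap fun b => b.2.1 ++ b.2.2).length ≤ t →
        t ≤ N + (b1.flatMap fun b => b.2.1 ++ b.2.2).length + b.2.1.length → g t = c
  | [], N, _, _ => ⟨fun _ => false, fun b1 b b2 h => by simp at h⟩
  | b0 :: bl, N, h1, h2 => by
    obtain ⟨c0, hc0⟩ := h2 b0 (by simp)
    obtain ⟨g, hg⟩ := ts3_cuts k bl (N + b0.2.1.length + b0.2.2.length)
      (fun b hb => h1 b (by simp [hb])) (fun b hb => h2 b (by simp [hb]))
    refine ⟨fun t => if t ≤ N + b0.2.1.length then c0 else g t, ?_⟩
    intro b1 b b2 h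
    rcases b1 with _ | ⟨b1h, b1t⟩
    · simp only [List.nil_append, List.cons.injEq] at h
      obtain ⟨rfl, rfl⟩ := h
      refine ⟨c0, hc0, fun t _ h4 => ?_⟩
      simp only [List.flatMap_nil, List.length_nil, add_zero] at h4
      simp only [if_pos h4]
    · simp only [List.cons_append, List.cons.injEq] at h
      obtain ⟨rfl, h⟩ := h
      obtain ⟨c, hc, hgc⟩ := hg b1t b b2 h
      refine ⟨c, hc, fun t h3 h4 => ?_⟩
      have hpos := h1 b0 (by simp)
      simp only [List.flatMap_cons, List.length_append] at h3 h4 hgc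
      show (if t ≤ N + b0.2.1.length then c0 else g t) = c
      rw [if_neg (by omega)]
      exact hgc t (by omega) (by omega)

variable [DecidableEq σ]

/-- if every slab has a monochromatic colouring for the clause `k`, the splits are not connected -/
theorem cut {sl : List σ} {cl : List (Bool × List σ)} {L I C0 Fn : List (Op × ℕ)}
    {bl : List (σ × List (Op × ℕ) × List (Op × ℕ))} (hD : Dec sl cl L I C0 Fn bl)
    (hC : Conn L) {k : ℕ} (hk : k < cl.length) (hF : Feas L)
    (h0 : ∀ b1 b b2, bl = b1 ++ b :: b2 →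
      Dl (I ++ C0 ++ b1.flatMap fun b => b.2.1 ++ b.2.2) (4 * k + 3) = 0 ∧
      Dl ((I ++ C0 ++ b1.flatMap fun b => b.2.1 ++ b.2.2) ++ b.2.1) (4 * k + 3) = 0)
    (h : ∀ b ∈ bl, ∃ c, NC k c b.2.1) : False := by
  have oI : ∀ x ∈ I, ts3_out k x.1 := fun x hx =>
    ts3_out_init hk x.1 (by rw [← hD.I_eq]; exact List.mem_map_of_mem hx)
  have oC : ∀ x ∈ C0, ts3_out k x.1 := fun x hx =>
    ts3_out_check hk x.1 (by rw [← hD.C_eq]; exact List.mem_map_of_mem hx)
  have oF : ∀ x ∈ Fn, ts3_out k x.1 := fun x hx =>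
    ts3_out_final hk x.1 (by rw [← hD.F_eq]; exact List.mem_map_of_mem hx)
  have oK : ∀ b ∈ bl, ∀ x ∈ b.2.2, ts3_out k x.1 := fun b hb x hx =>
    ts3_out_check hk x.1 (by rw [← hD.K_eq b hb]; exact List.mem_map_of_mem hx)
  have hlen : ∀ b ∈ bl, 1 ≤ b.2.2.length := by
    intro b hb
    have h1 := congrArg List.length (hD.K_eq b hb)
    rw [List.length_map] at h1
    rw [h1]
    unfold check
    simp
  obtain ⟨g, hg⟩ := ts3_cuts k bl (I ++ C0).length hlen h
  -- classification of the vertices
  have hcls : ∀ A x B, L = A ++ x :: B → (ts3_out k x.1 ∧ Dl A (4 * k + 3) = 0) ∨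
      ∃ c, (∀ r r', 0 < stub x r → 0 < stub x r' → col k c r = col k c r') ∧
        g A.length = c ∧ g (A.length + 1) = c := by
    intro A x B hL
    rw [hD.L_eq] at hL
    rcases ts3_split hL with ⟨B1, h1⟩ | ⟨A1, h1, h2⟩
    · rcases ts3_split h1 with ⟨B2, h3⟩ | ⟨A2, h3, h4⟩
      · left
        have hAo : ∀ y ∈ A ++ x :: B2, ts3_out k y.1 := by
          rw [← h3]
          intro y hy
          rcases List.mem_append.1 hy with hy | hy
          · exact oI y hy
          · exact oC y hy
        exact ⟨hAo x (by simp), ts3_Dl_zero A (fun y hy => hAo y (by simp [hy]))⟩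
      · obtain ⟨b1, b, b2, A', B', h5, h6, h7⟩ := ts3_flatMap _ bl h4
        have hb : b ∈ bl := by rw [h5]; simp
        rcases ts3_split h7 with ⟨B3, h8⟩ | ⟨A3, h8, h9⟩
        · right
          obtain ⟨c, hc, hgc⟩ := hg b1 b b2 h5
          refine ⟨c, fun r r' hr hr' => hc x (by rw [h8]; simp) r r' hr hr', ?_, ?_⟩
          · apply hgc
            · rw [h3, h6]; simp only [List.length_append]; omega
            · rw [h3, h6, h8]; simp only [List.length_append, List.length_cons]; omega
          · apply hgc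
            · rw [h3, h6]; simp only [List.length_append]; omega
            · rw [h3, h6, h8]; simp only [List.length_append, List.length_cons]; omega
        · left
          have hKo : ∀ y ∈ A3 ++ x :: B', ts3_out k y.1 := by
            rw [← h9]; exact oK b hb
          refine ⟨hKo x (by simp), ?_⟩
          have h10 : A = ((I ++ C0 ++ b1.flatMap fun b => b.2.1 ++ b.2.2) ++ b.2.1) ++ A3 := by
            rw [h3, h6, h8]; simp
          rw [h10, dl_append, (h0 b1 b b2 h5).2, ts3_Dl_zero A3 (fun y hy => hKo y (by simp [hy])),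
            zero_add]
    · left
      have hFo : ∀ y ∈ A1 ++ x :: B, ts3_out k y.1 := by
        rw [← h2]; exact oF
      refine ⟨hFo x (by simp), ?_⟩
      have h11 : Dl (I ++ C0 ++ bl.flatMap fun b => b.2.1 ++ b.2.2) (4 * k + 3) = 0 := by
        rcases List.eq_nil_or_concat bl with hbl | ⟨b1, b, hbl⟩
        · rw [hbl, List.flatMap_nil, List.append_nil]
          apply ts3_Dl_zero
          intro y hy
          rcases List.mem_append.1 hy with hy | hy
          · exact oI y hy
          · exact oC y hy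
        · rw [List.concat_eq_append] at hbl
          have hb : b ∈ bl := by rw [hbl]; simp
          have h12 : I ++ C0 ++ bl.flatMap (fun b => b.2.1 ++ b.2.2) =
              ((I ++ C0 ++ b1.flatMap fun b => b.2.1 ++ b.2.2) ++ b.2.1) ++ b.2.2 := by
            rw [hbl]; simp
          rw [h12, dl_append, (h0 b1 b [] hbl).2, ts3_Dl_zero _ (oK b hb), zero_add]
      rw [h1, dl_append, h11, ts3_Dl_zero A1 (fun y hy => hFo y (by simp [hy])), zero_add]
  -- colours
  set κ : ℕ → ℕ → Bool := fun r t => col k (g t) r with hκ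
  classical
  set c : ℕ → Bool := fun i => if ∃ r x, L[i]? = some x ∧ 0 < stub x r ∧
    κ r (if x.1.isSrc then i + 1 else i) = true then true else false with hc
  have hcon : ∀ A x B r r', L = A ++ x :: B → 0 < stub x r → 0 < stub x r' →
      κ r (if x.1.isSrc then A.length + 1 else A.length) =
        κ r' (if x.1.isSrc then A.length + 1 else A.length) := by
    intro A x B r r' hL hr hr'
    simp only [hκ]
    rcases hcls A x B hL with ⟨h1, -⟩ | ⟨c', h1, h2, h3⟩
    · exact ts3_out_col h1 hr hr'
    · split_ifs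
      · rw [h3]; exact h1 r r' hr hr'
      · rw [h2]; exact h1 r r' hr hr'
  have hci : ∀ A x B r, L = A ++ x :: B → 0 < stub x r →
      c A.length = κ r (if x.1.isSrc then A.length + 1 else A.length) := by
    intro A x B r hL hr
    have hget : L[A.length]? = some x := by rw [hL]; simp
    simp only [hc]
    by_cases h1 : κ r (if x.1.isSrc then A.length + 1 else A.length) = true
    · rw [if_pos ⟨r, x, hget, hr, h1⟩, h1]
    · rw [if_neg, Bool.eq_false_iff.2 h1]
      rintro ⟨r', x', h2, h3, h4⟩
      rw [hget] at h2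
      obtain rfl : x = x' := Option.some.inj h2
      exact h1 ((hcon A x B r r' hL hr h3).trans h4)
  have hκi : ∀ A x B r, L = A ++ x :: B → 0 < Dl A r → 0 < Dl (A ++ [x]) r →
      κ r A.length = κ r (A.length + 1) := by
    intro A x B r hL hr hr'
    simp only [hκ]
    rcases hcls A x B hL with ⟨h1, h2⟩ | ⟨c', h1, h2, h3⟩
    · by_cases h3 : r = 4 * k + 3
      · rw [h3, h2] at hr
        exact absurd hr (lt_irrefl _)
      · unfold col
        split_ifs <;> first | rfl | omega
    · rw [h2, h3]
  have hall := hC c κ hci hκi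
  -- two vertices of different colours
  have m1 : Op.src 1 ∈ C0.map Prod.fst := by rw [hD.C_eq]; unfold check; simp
  have m2 : Op.src (4 * cl.length + 1) ∈ C0.map Prod.fst := by rw [hD.C_eq]; unfold check; simp
  obtain ⟨x1, hx1, e1⟩ := List.mem_map.1 m1
  obtain ⟨x2, hx2, e2⟩ := List.mem_map.1 m2
  have hx1L : x1 ∈ L := by rw [hD.L_eq]; simp [hx1]
  have hx2L : x2 ∈ L := by rw [hD.L_eq]; simp [hx2]
  obtain ⟨A1, B1, hL1⟩ := List.append_of_mem hx1L
  obtain ⟨A2, B2, hL2⟩ := List.append_of_mem hx2L
  have s1 : 0 < stub x1 1 := by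
    obtain ⟨o, z⟩ := x1
    simp only at e1
    subst e1
    simp [stub]
  have s2 : 0 < stub x2 (4 * cl.length + 1) := by
    obtain ⟨o, z⟩ := x2
    simp only at e2
    subst e2
    simp [stub]
  have c1 : c A1.length = true := by
    rw [hci A1 x1 B1 1 hL1 s1]
    simp only [hκ]
    unfold col
    rw [if_pos (by omega)]
  have c2 : c A2.length = false := by
    rw [hci A2 x2 B2 (4 * cl.length + 1) hL2 s2]
    simp only [hκ]
    unfold col
    rw [if_neg (by omega), if_pos (by omega)]
  have l1 : A1.length < L.length := by rw [hL1]; simp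
  have l2 : A2.length < L.length := by rw [hL2]; simp
  have := hall A1.length A2.length l1 l2
  rw [c1, c2] at this
  exact absurd this (by decide)

end MST
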