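import Pool.Agent.Work.MP_2f1fa1_lc.Mt.TS0
import Pool.Agent.Work.MP_2f1fa1_lc.Mt.TS1
import Pool.Agent.Work.MP_2f1fa1_lc.Mt.TS2
import Pool.Agent.Work.MP_2f1fa1_lc.Mt.TS3

/-! TS4: a feasible, connected annotation gives a satisfying assignment. -/

namespace MST

variable {σ : Type} [DecidableEq σ]

theorem ts4_mono {Y : ℕ → ℕ} {m : ℕ} (h : ∀ f, 1 ≤ f → f < 4 * m → Y f ≤ Y (f + 1)) :
    ∀ f g, 1 ≤ f → f ≤ g → g ≤ 4 * m → Y f ≤ Y g := by
  intro f g hf hfg
  induction g, hfg using Nat.le_induction with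
  | base => intro _; exact le_rfl
  | succ g hg ih => intro hgm; exact (ih (by omega)).trans (h g (by omega) (by omega))

theorem msat_of_feas {sl : List σ} {cl : List (Bool × List σ)} (hm : 1 ≤ cl.length)
    (hn : sl.Nodup) (hs : Sorted cl) {L : List (Op × ℕ)} (hL : L.map Prod.fst = inst sl cl)
    (hF : Feas L) (hC : Conn L) (hV : Visit L) : MSat sl cl := by
  classical
  obtain ⟨I, C0, Fn, bl, hD⟩ := dec_of_inst hL
  obtain ⟨P, N, hcl, hP, hN⟩ := hs
  have hT := (target_slab hD hm hF hV).2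
  -- the targets at the row 4k+3 vanish
  have h0 : ∀ k, ∀ b1 b b2, bl = b1 ++ b :: b2 →
      Dl (I ++ C0 ++ b1.flatMap fun b => b.2.1 ++ b.2.2) (4 * k + 3) = 0 ∧
      Dl ((I ++ C0 ++ b1.flatMap fun b => b.2.1 ++ b.2.2) ++ b.2.1) (4 * k + 3) = 0 := by
    intro k b1 b b2 hb
    have h1 := (hT b1 b b2 hb).1 (4 * k + 3)
    have h2 := (hT b1 b b2 hb).2 (4 * k + 3)
    have h3 : target cl.length (4 * k + 3) = 0 := by
      unfold target
      rw [if_neg (by omega), if_neg (by omega)]
    rw [h1, h2, h3]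
    exact ⟨rfl, rfl⟩
  -- the slab functions
  have hY : ∀ b ∈ bl, ∃ Y : ℕ → ℕ, (∀ f, 1 ≤ f → f < 4 * cl.length → Y f ≤ Y (f + 1)) ∧
      (∀ f, Y f ≤ 1) ∧ ∀ k sg vs, cl[k]? = some (sg, vs) →
        (b.1 ∉ vs → ∃ c, NC k c b.2.1) ∧
        (b.1 ∈ vs → sg = true → Y (4 * k + 2) = 0 → NC k false b.2.1) ∧
        (b.1 ∈ vs → sg = false → Y (4 * k + 3) = 1 → NC k true b.2.1) := by
    intro b hb
    obtain ⟨b1, b2, hb12⟩ := List.append_of_mem hb
    have hh := hT b1 b b2 hb12
    refine slab_main (s := b.1) (A := I ++ C0 ++ b1.flatMap fun b => b.2.1 ++ b.2.2) (S := b.2.1)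
      (B := b.2.2 ++ ((b2.flatMap fun b => b.2.1 ++ b.2.2) ++ Fn)) (L := L) hm ?_ (hD.S_eq b hb) hF
      hV hh.1 hh.2
    rw [hD.L_eq, hb12]
    simp only [List.flatMap_append, List.flatMap_cons, List.append_assoc]
  choose! Y hY1 hY2 hY3 using hY
  -- blocks with the same variable are equal
  have huniq : ∀ b ∈ bl, ∀ b' ∈ bl, b.1 = b'.1 → b = b' := by
    intro b hb b' hb' h
    have hnd : (bl.map Prod.fst).Nodup := by rw [hD.sl_eq]; exact hn
    exact List.inj_on_of_nodup_map hnd hb hb' h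
  -- the assignment
  set v : σ → Bool := fun s => decide (1 ≤ P.length ∧ ∃ b ∈ bl, b.1 = s ∧
    Y b (4 * (P.length - 1) + 2) = 1) with hv
  have hlen : cl.length = P.length + N.length := by rw [hcl, List.length_append]
  refine ⟨v, fun c hc => ?_⟩
  obtain ⟨k, hk⟩ := List.mem_iff_getElem?.1 hc
  have hkl : k < cl.length := by
    by_contra hcon
    rw [List.getElem?_eq_none (by omega)] at hk
    exact absurd hk (by simp)
  obtain ⟨sg, vs⟩ := c
  by_contra hcon
  simp only [not_exists, not_and] at hcon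
  refine cut hD hC hkl hF (h0 k) fun b hb => ?_
  have h3 := hY3 b hb k sg vs hk
  by_cases hbv : b.1 ∈ vs
  · have hsl : b.1 ∈ sl := by
      rw [← hD.sl_eq]; exact List.mem_map_of_mem hb
    have hvb := hcon b.1 hbv hsl
    by_cases hkP : k < P.length
    · -- positive clause
      have hsg : sg = true := by
        rw [hcl, List.getElem?_append_left hkP] at hk
        exact hP _ (List.mem_of_getElem? hk)
      subst hsg
      refine ⟨false, h3.2.1 hbv rfl ?_⟩
      have h4 : ¬ (1 ≤ P.length ∧ ∃ b' ∈ bl, b'.1 = b.1 ∧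
          Y b' (4 * (P.length - 1) + 2) = 1) := by
        intro h5
        apply hvb
        rw [hv]
        exact decide_eq_true h5
      have h5 : Y b (4 * (P.length - 1) + 2) ≠ 1 := fun h6 =>
        h4 ⟨by omega, b, hb, rfl, h6⟩
      have h6 := hY2 b hb (4 * (P.length - 1) + 2)
      have h7 := ts4_mono (hY1 b hb) (4 * k + 2) (4 * (P.length - 1) + 2) (by omega) (by omega)
        (by omega)
      omega
    · -- negative clause
      have hsg : sg = false := by
        rw [hcl, List.getElem?_append_right (by omega)] at hk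
        exact hN _ (List.mem_of_getElem? hk)
      subst hsg
      refine ⟨true, h3.2.2 hbv rfl ?_⟩
      have h4 : v b.1 = true := by
        cases hb1 : v b.1
        · exact absurd hb1 hvb
        · rfl
      have h5 : 1 ≤ P.length ∧ ∃ b' ∈ bl, b'.1 = b.1 ∧
          Y b' (4 * (P.length - 1) + 2) = 1 := of_decide_eq_true h4
      obtain ⟨hP1, b', hb', hbb, hYb⟩ := h5
      have h6 : b' = b := huniq b' hb' b hb hbb
      subst h6
      have h7 := ts4_mono (hY1 b' hb') (4 * (P.length - 1) + 2) (4 * k + 3) (by omega) (by omega)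
        (by omega)
      have h8 := hY2 b' hb' (4 * k + 3)
      omega
  · exact h3.1 hbv

end MST
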