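import Pool.Agent.Work.MP_2f1fa1_lc.Mt.Glue1b
import Pool.Agent.Work.MP_2f1fa1_lc.Mt.Glue1c
import Pool.Agent.Work.MP_2f1fa1_lc.Mt.Glue2b
import Pool.Agent.Work.MP_2f1fa1_lc.Mt.Geo3
import Pool.Agent.Work.MP_2f1fa1_lc.Mt.TS4
import Pool.Agent.Work.MP_2f1fa1_lc.Mt.ST2
import Pool.Agent.Work.MP_2f1fa1_lc.Mt.Mono

namespace MST

theorem red_iff (φ : List (List Lit)) :
    PTime.Sat φ ↔ ScatterYes (red φ).1 (red φ).2 := by
  have h1 := scatter_iff (opsOf_wf φ) (opsOf_length φ)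
  unfold red
  simp only
  rw [h1, sat_iff_msat]
  constructor
  · rintro ⟨v, hv⟩
    have hm := cls_length φ
    obtain ⟨M, hM, hA⟩ := exists_conn_mat _ (feas_instA (sls φ) (cls φ) hm v)
      (conn_instA (sls φ) (cls φ) hm v hv)
    have h2 := ham_of_mat _ M hM hA
    rw [instA_fst] at h2
    have h3 : (instA (sls φ) (cls φ) v).length = (opsOf φ).length := by
      rw [opsOf, ← instA_fst (sls φ) (cls φ) v, List.length_map]
    rwa [h3] at h2
  · intro h
    obtain ⟨L, hL, hF, hC, hV⟩ := feas_of_ham _ (opsOf_length φ) h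
    exact msat_of_feas (cls_length φ) (sls_nodup φ) (cls_sorted φ) hL hF hC hV

end MST
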