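import Pool.Agent.Work.MP_2f1fa1_lc.Mt.Defs2
import Pool.Agent.Work.MP_2f1fa1_lc.PDiv

/-!
# The reduction is computed in polynomial time
-/

namespace MST

open PTime

variable {α β γ : Type} [Code α] [Code β] [Code γ]

/-! ### integers of polynomial size -/

/-- integer valued functions which are differences of unary polynomial time functions -/
def ZPT (z : α → ℤ) : Prop :=
  ∃ p n : α → ℕ, PT p ∧ PT n ∧ ∀ a, z a = (p a : ℤ) - (n a : ℤ)

theorem ZPT.pt {z : α → ℤ} (h : ZPT z) : PT z := by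
  obtain ⟨p, n, hp, hn, e⟩ := h
  exact (PT.intSub hp hn).congr fun a => (e a).symm

theorem ZPT.toNat {z : α → ℤ} (h : ZPT z) : PT (fun a => (z a).toNat) := by
  obtain ⟨p, n, hp, hn, e⟩ := h
  refine (PT.sub hp hn).congr fun a => ?_
  rw [e a]
  omega

theorem ZPT.congr {z w : α → ℤ} (h : ZPT z) (e : ∀ a, z a = w a) : ZPT w := by
  obtain ⟨p, n, hp, hn, e'⟩ := h
  exact ⟨p, n, hp, hn, fun a => (e a) ▸ e' a⟩

theorem ZPT.cast {n : α → ℕ} (h : PT n) : ZPT (fun a => (n a : ℤ)) :=
  ⟨n, fun _ => 0, h, PT.const 0, fun a => by simp⟩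

theorem ZPT.const (c : ℤ) : ZPT (fun _ : α => c) :=
  ⟨fun _ => c.toNat, fun _ => (-c).toNat, PT.const _, PT.const _, fun a => by
    show c = (c.toNat : ℤ) - ((-c).toNat : ℤ)
    omega⟩

theorem ZPT.add {z w : α → ℤ} (hz : ZPT z) (hw : ZPT w) : ZPT (fun a => z a + w a) := by
  obtain ⟨p, n, hp, hn, e⟩ := hz
  obtain ⟨p', n', hp', hn', e'⟩ := hw
  exact ⟨fun a => p a + p' a, fun a => n a + n' a, hp.add hp', hn.add hn', fun a => by
    simp only [e, e']; push_cast; ring⟩

theorem ZPT.neg {z : α → ℤ} (hz : ZPT z) : ZPT (fun a => -z a) := by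
  obtain ⟨p, n, hp, hn, e⟩ := hz
  exact ⟨n, p, hn, hp, fun a => by simp only [e]; ring⟩

theorem ZPT.sub {z w : α → ℤ} (hz : ZPT z) (hw : ZPT w) : ZPT (fun a => z a - w a) :=
  (hz.add hw.neg).congr fun a => by ring

theorem ZPT.mul {z w : α → ℤ} (hz : ZPT z) (hw : ZPT w) : ZPT (fun a => z a * w a) := by
  obtain ⟨p, n, hp, hn, e⟩ := hz
  obtain ⟨p', n', hp', hn', e'⟩ := hw
  exact ⟨fun a => p a * p' a + n a * n' a, fun a => p a * n' a + n a * p' a,
    (hp.mul hp').add (hn.mul hn'), (hp.mul hn').add (hn.mul hp'), fun a => by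
    simp only [e, e']; push_cast; ring⟩

theorem ZPT.pow {z : α → ℤ} (hz : ZPT z) (k : ℕ) : ZPT (fun a => z a ^ k) := by
  induction k with
  | zero => exact (ZPT.const 1).congr fun a => by simp
  | succ k ih => exact (ih.mul hz).congr fun a => by rw [pow_succ]

theorem ZPT.ite {P : α → Prop} [DecidablePred P] {z w : α → ℤ} (hc : PT (fun a => decide (P a)))
    (hz : ZPT z) (hw : ZPT w) : ZPT (fun a => if P a then z a else w a) := by
  obtain ⟨p, n, hp, hn, e⟩ := hz
  obtain ⟨p', n', hp', hn', e'⟩ := hw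
  refine ⟨fun a => if P a then p a else p' a, fun a => if P a then n a else n' a,
    PT.ite hc hp hp', PT.ite hc hn hn', fun a => ?_⟩
  by_cases h : P a
  · simp only [if_pos h, e]
  · simp only [if_neg h, e']

/-! ### lists -/

theorem ptDedup [DecidableEq β] {l : α → List β} (hl : PT l) : PT (fun a => (l a).dedup) := by
  have h := PT.foldl (g := fun x : List β × List β × β =>
    if x.2.2 ∈ x.2.1 then x.2.1 else x.2.2 :: x.2.1)
    (l := fun l : List β => l.reverse) (s := fun _ => ([] : List β))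
    PT.id.reverse (PT.const _) (PT.ite (PT.mem (PT.fst.comp PT.snd) (PT.snd.comp PT.snd))
      (PT.fst.comp PT.snd) ((PT.snd.comp PT.snd).cons (PT.fst.comp PT.snd)))
    (Polynomial.X + 1) (by
      intro a l' hl'
      have key : ∀ (l' acc : List β), sz (l'.foldl (fun acc b =>
          if b ∈ acc then acc else b :: acc) acc) ≤ sz acc + sz l' := by
        intro l'
        induction l' with
        | nil => intro acc; simp
        | cons b l' ih =>
          intro acc
          rw [List.foldl_cons]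
          refine (ih _).trans ?_
          rw [sz_cons]
          split_ifs
          · omega
          · rw [sz_cons]; omega
      have := key l' []
      rw [sz_nil] at this
      have h2 := sz_prefix hl'
      rw [sz_reverse] at h2
      simp only [Polynomial.eval_add, Polynomial.eval_X, Polynomial.eval_one]
      exact this.trans (by omega))
  refine (h.comp hl).congr fun a => ?_
  show (l a).reverse.foldl (fun acc b => if b ∈ acc then acc else b :: acc) [] = _
  rw [List.foldl_reverse]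
  induction l a with
  | nil => rfl
  | cons b m ih =>
    rw [List.foldr_cons, ih, List.dedup_cons]
    simp only [List.mem_dedup]

theorem ptZipIdx {l : α → List β} (d : β) (hl : PT l) : PT (fun a => (l a).zipIdx) := by
  have h := PT.map (g := fun x : α × ℕ => ((l x.1).getD x.2 d, x.2)) hl.length.range
    ((PT.getD (hl.comp PT.fst) PT.snd (PT.const d)).pair PT.snd)
  refine h.congr fun a => ?_
  refine List.ext_getElem (by simp) fun i h1 h2 => ?_
  have hi : i < (l a).length := by simpa using h1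
  rw [List.getElem_map, List.getElem_range, List.getElem_zipIdx, List.getD_eq_getElem _ _ hi]
  simp

/-! ### operations -/

/-- an operation as a pair -/
def Op.pr : Op → ℕ × ℕ
  | .lnk f => (0, f)
  | .src r => (1, r)
  | .snk r => (2, r)

theorem Op.pr_inj : Function.Injective Op.pr := by
  intro a b h
  cases a <;> cases b <;> simp_all [Op.pr]

instance : Code Op := ⟨fun o => Code.toT o.pr, fun _ _ h => Op.pr_inj (Code.inj h)⟩

theorem ptPr {o : α → Op} (ho : PT o) : PT (fun a => (o a).pr) := PT.recode2 ho fun _ => rfl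

theorem ptLnk {n : α → ℕ} (hn : PT n) : PT (fun a => Op.lnk (n a)) :=
  PT.recode2 ((PT.const 0).pair hn) fun _ => rfl

theorem ptSrc {n : α → ℕ} (hn : PT n) : PT (fun a => Op.src (n a)) :=
  PT.recode2 ((PT.const 1).pair hn) fun _ => rfl

theorem ptSnk {n : α → ℕ} (hn : PT n) : PT (fun a => Op.snk (n a)) :=
  PT.recode2 ((PT.const 2).pair hn) fun _ => rfl

theorem ptOpCases {o : α → Op} {f g h : α × ℕ → γ} (ho : PT o) (hf : PT f) (hg : PT g)
    (hh : PT h) : PT (fun a => match o a with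
      | .lnk n => f (a, n)
      | .src n => g (a, n)
      | .snk n => h (a, n)) := by
  have h1 : PT (fun a => (a, (o a).pr.2)) := PT.id.pair (PT.snd.comp (ptPr ho))
  have := PT.ite (P := fun a => (o a).pr.1 = 0) (PT.natEq (PT.fst.comp (ptPr ho)) (PT.const 0))
    (hf.comp h1) (PT.ite (P := fun a => (o a).pr.1 = 1)
      (PT.natEq (PT.fst.comp (ptPr ho)) (PT.const 1)) (hg.comp h1) (hh.comp h1))
  refine this.congr fun a => ?_
  cases o a <;> simp [Op.pr]

theorem ptNil1 {f : α → List β} (e : ∀ a, f a = []) : PT f := (PT.const []).congr fun a => (e a).symm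

/-- `c * n + d` -/
theorem ptLin (c d : ℕ) {n : α → ℕ} (hn : PT n) : PT (fun a => c * n a + d) :=
  (PT.mul (PT.const c) hn).add (PT.const d)

theorem ptOddL {m : α → ℕ} (hm : PT m) : PT (fun a => oddL (m a)) :=
  PT.map (g := fun x : α × ℕ => Op.lnk (2 * x.2 + 1)) (PT.mul (PT.const 2) hm).range
    (ptLnk (ptLin 2 1 PT.snd))

theorem ptEvenL {m : α → ℕ} (hm : PT m) : PT (fun a => evenL (m a)) :=
  PT.map (g := fun x : α × ℕ => Op.lnk (2 * x.2 + 2)) (PT.mul (PT.const 2) hm).range
    (ptLnk (ptLin 2 2 PT.snd))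

theorem ptSrcC {m : α → ℕ} (hm : PT m) : PT (fun a => srcC (m a)) :=
  PT.map (g := fun x : α × ℕ => Op.src (4 * x.2 + 5)) hm.pred.range (ptSrc (ptLin 4 5 PT.snd))

theorem ptSnkC {m : α → ℕ} (hm : PT m) : PT (fun a => snkC (m a)) :=
  PT.map (g := fun x : α × ℕ => Op.snk (4 * x.2 + 5)) hm.pred.range (ptSnk (ptLin 4 5 PT.snd))

theorem ptVisits {m : α → ℕ} (hm : PT m) : PT (fun a => visits (m a)) :=
  PT.flatMap (g := fun x : α × ℕ => [Op.src (x.2 + 1), Op.snk (x.2 + 1)]) (ptLin 4 1 hm).range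
    ((ptSrc PT.snd.succ).cons ((ptSnk PT.snd.succ).cons (PT.const [])))

theorem ptCheck {m : α → ℕ} (hm : PT m) : PT (fun a => check (m a)) :=
  ((PT.const [Op.src 1, Op.snk 1]).append
    (PT.flatMap (g := fun x : α × ℕ => [Op.src (2 * x.2 + 2), Op.snk (2 * x.2 + 2)])
      (PT.mul (PT.const 2) hm).range
      ((ptSrc (ptLin 2 2 PT.snd)).cons ((ptSnk (ptLin 2 2 PT.snd)).cons (PT.const []))))).append
    ((ptSnk (ptLin 4 1 hm)).cons ((ptSrc (ptLin 4 1 hm)).cons
      ((ptSnk (ptLin 4 1 hm)).cons ((ptSrc (ptLin 4 1 hm)).cons (PT.const [])))))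

theorem ptInit {m : α → ℕ} (hm : PT m) : PT (fun a => init (m a)) :=
  ((PT.const [Op.lnk 1]).append
    (PT.flatMap (g := fun x : α × ℕ => [Op.src (4 * x.2 + 4), Op.lnk (4 * x.2 + 5),
      Op.lnk (4 * x.2 + 4)]) hm.pred.range
      ((ptSrc (ptLin 4 4 PT.snd)).cons ((ptLnk (ptLin 4 5 PT.snd)).cons
        ((ptLnk (ptLin 4 4 PT.snd)).cons (PT.const [])))))).append
    ((ptSrc (PT.mul (PT.const 4) hm)).cons ((ptSrc (ptLin 4 1 hm)).cons
      ((ptSrc (ptLin 4 1 hm)).cons ((ptLnk (PT.mul (PT.const 4) hm)).cons (PT.const [])))))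

theorem ptFinal {m : α → ℕ} (hm : PT m) : PT (fun a => final (m a)) :=
  ((PT.const [Op.lnk 1, Op.snk 1]).append
    (PT.flatMap (g := fun x : α × ℕ => [Op.lnk (4 * x.2 + 5), Op.lnk (4 * x.2 + 4),
      Op.snk (4 * x.2 + 6)]) hm.pred.range
      ((ptLnk (ptLin 4 5 PT.snd)).cons ((ptLnk (ptLin 4 4 PT.snd)).cons
        ((ptSnk (ptLin 4 6 PT.snd)).cons (PT.const [])))))).append
    ((ptLnk (PT.mul (PT.const 4) hm)).cons ((ptSnk (ptLin 4 1 hm)).cons
      ((PT.const (Op.snk 2)).cons (PT.const []))))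

theorem ptGad {sg : α → Bool} {k : α → ℕ} (hs : PT sg) (hk : PT k) :
    PT (fun a => gad (sg a) (k a)) := by
  have h := PT.cond hs
    ((ptLnk (ptLin 4 3 hk)).cons ((ptLnk (ptLin 4 3 hk)).cons ((ptSnk (ptLin 4 3 hk)).cons
      ((ptSnk (ptLin 4 4 hk)).cons (PT.const [])))))
    ((ptSrc (ptLin 4 2 hk)).cons ((ptSrc (ptLin 4 3 hk)).cons ((ptLnk (ptLin 4 2 hk)).cons
      ((ptLnk (ptLin 4 2 hk)).cons (PT.const [])))))
  refine h.congr fun a => ?_
  unfold gad
  cases sg a <;> simp

theorem ptCross {cl : α → List (Bool × List Lit)} {s : α → Lit} (hc : PT cl) (hs : PT s) :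
    PT (fun a => cross (cl a) (s a)) := by
  have h := PT.flatMap (g := fun x : α × (Bool × List Lit) × ℕ =>
    if s x.1 ∈ x.2.1.2 then gad x.2.1.1 x.2.2 else []) (ptZipIdx (true, []) hc)
    (PT.ite ((PT.mem (PT.snd.comp (PT.fst.comp PT.snd)) (hs.comp PT.fst)).congr fun _ =>
      decide_eq_decide.2 Iff.rfl)
      (ptGad (PT.fst.comp (PT.fst.comp PT.snd)) (PT.snd.comp PT.snd)) (PT.const []))
  refine h.congr fun a => ?_
  unfold cross
  congr 1
  funext c
  by_cases h : s a ∈ c.1.2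
  · simp only [if_pos h]
  · simp only [if_neg h]

theorem ptSlab {cl : α → List (Bool × List Lit)} {s : α → Lit} (hc : PT cl) (hs : PT s) :
    PT (fun a => slab (cl a) (s a)) :=
  (((((((((ptOddL hc.length).append (ptSrcC hc.length)).append (ptEvenL hc.length)).append
    (ptCross hc hs)).append (ptVisits hc.length)).append (ptOddL hc.length)).append
    ((ptSrc (ptLin 4 1 hc.length)).cons (PT.const []))).append (ptEvenL hc.length)).append
    (ptSnkC hc.length)).append (PT.const [Op.snk 1])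

theorem ptInst {sl : α → List Lit} {cl : α → List (Bool × List Lit)} (hs : PT sl) (hc : PT cl) :
    PT (fun a => inst (sl a) (cl a)) :=
  (((ptInit hc.length).append (ptCheck hc.length)).append
    (PT.flatMap (g := fun x : α × Lit => slab (cl x.1) x.2 ++ check (cl x.1).length) hs
      ((ptSlab (hc.comp PT.fst) PT.snd).append (ptCheck (hc.comp PT.fst).length)))).append
    (ptFinal hc.length)

theorem ptVars : PT vars :=
  ptDedup ((PT.const ([] : List Bool)).cons
    (PT.flatMap (g := fun x : List (List Lit) × List Lit => x.2.map Prod.snd) PT.id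
      (PT.map (g := fun x : (List (List Lit) × List Lit) × Lit => x.2.2) PT.snd
        (PT.snd.comp PT.snd))))

/-- both literals of a name -/
theorem ptBoth {x : α → List Bool} (hx : PT x) :
    PT (fun a => [(true, x a), (false, x a)]) :=
  ((PT.const true).pair hx).cons (((PT.const false).pair hx).cons (PT.const []))

theorem ptSls : PT sls :=
  PT.flatMap (g := fun x : List (List Lit) × List Bool => [(true, x.2), (false, x.2)]) ptVars
    (ptBoth PT.snd)

theorem ptCls : PT cls :=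
  ((PT.map (g := fun x : List (List Lit) × List Lit => (true, x.2)) PT.id
    ((PT.const true).pair PT.snd)).append
    (PT.map (g := fun x : List (List Lit) × List Bool => (true, [(true, x.2), (false, x.2)]))
      ptVars ((PT.const true).pair (ptBoth PT.snd)))).append
    (PT.map (g := fun x : List (List Lit) × List Bool => (false, [(true, x.2), (false, x.2)]))
      ptVars ((PT.const false).pair (ptBoth PT.snd)))

theorem ptOpsOf : PT opsOf := ptInst ptSls ptCls

/-! ### points -/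

theorem ptRecOf {n t : α → ℕ} {o : α → Op} (hn : PT n) (ht : PT t) (ho : PT o) :
    PT (fun a => recOf (n a) (t a) (o a)) := by
  have h2 : PT (fun x : α × ℕ => x.2 / 2) := PT.div PT.snd (PT.const 2)
  have hm : PT (fun x : α × ℕ => x.2 % 2) := PT.mod PT.snd (PT.const 2)
  have ht1 : PT (fun x : α × ℕ => t x.1 + 1) := (ht.comp PT.fst).succ
  have hn1 : PT (fun x : α × ℕ => n x.1 + 1) := (hn.comp PT.fst).succ
  exact ptOpCases (f := fun x : α × ℕ => if x.2 % 2 = 1 then (true, x.2 / 2, t x.1 + 1, t x.1 + 1)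
      else (false, x.2 / 2, t x.1 + 1, t x.1 + 1))
    (g := fun x : α × ℕ => if x.2 % 2 = 1 then (true, x.2 / 2, t x.1 + 1, n x.1 + 1)
      else (true, x.2 / 2 - 1, n x.1 + 1, t x.1 + 1))
    (h := fun x : α × ℕ => if x.2 % 2 = 0 then (false, x.2 / 2, t x.1 + 1, 0)
      else (false, x.2 / 2, 0, t x.1 + 1)) ho
    (PT.ite (PT.natEq hm (PT.const 1)) ((PT.const true).pair (h2.pair (ht1.pair ht1)))
      ((PT.const false).pair (h2.pair (ht1.pair ht1))))
    (PT.ite (PT.natEq hm (PT.const 1)) ((PT.const true).pair (h2.pair (ht1.pair hn1)))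
      ((PT.const true).pair (h2.pred.pair (hn1.pair ht1))))
    (PT.ite (PT.natEq hm (PT.const 0)) ((PT.const false).pair (h2.pair (ht1.pair (PT.const 0))))
      ((PT.const false).pair (h2.pair ((PT.const 0).pair ht1))))

theorem ZPT.scQ {P : α → ℕ} (hP : PT P) : ZPT (fun a => scQ (P a)) :=
  (ZPT.const 8).mul (((ZPT.cast hP).add (ZPT.const 1)).pow 2)

theorem ZPT.scN {P K : α → ℕ} (hP : PT P) (hK : PT K) : ZPT (fun a => scN (P a) (K a)) :=
  ((ZPT.const 1000).mul ((ZPT.scQ hP).pow 2)).mul (((ZPT.cast hK).add (ZPT.const 1)).pow 2)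

theorem ptPt {P K : α → ℕ} {r : α → Rec} (hP : PT P) (hK : PT K) (hr : PT r) :
    PT (fun a => pt (P a) (K a) (r a)) := by
  have hQ := ZPT.scQ hP
  have hN := ZPT.scN hP hK
  have hm : ZPT (fun a => ((r a).2.1 : ℤ)) := ZPT.cast (PT.fst.comp (PT.snd.comp hr))
  have hpu : ZPT (fun a => ((r a).2.2.1 : ℤ)) :=
    ZPT.cast (PT.fst.comp (PT.snd.comp (PT.snd.comp hr)))
  have hpl : ZPT (fun a => ((r a).2.2.2 : ℤ)) :=
    ZPT.cast (PT.snd.comp (PT.snd.comp (PT.snd.comp hr)))
  have h2 : ZPT (fun _ : α => (2 : ℤ)) := ZPT.const 2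
  have h4 : ZPT (fun _ : α => (4 : ℤ)) := ZPT.const 4
  have h8 : ZPT (fun _ : α => (8 : ℤ)) := ZPT.const 8
  have h1 : ZPT (fun _ : α => (1 : ℤ)) := ZPT.const 1
  have hd := hpu.sub hpl
  have hu := (hQ.mul hm).add hd
  have hs := (((h4.mul (hQ.pow 2)).mul (hm.pow 2)).add
    (((h4.mul hQ).mul ((h2.mul hm).sub h1)).mul hd)).add ((h8.mul hQ).mul hpu)
  have hv := (hQ.neg.mul ((h2.mul hm).sub h1)).add (h2.mul hd)
  have ht := (((((ZPT.const (-4)).mul (hQ.pow 2)).mul (hm.mul (hm.sub h1))).add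
    ((h8.mul hQ).mul hpl)).add (h4.mul hQ)).add (((h8.mul hQ).mul hm).mul hd)
  have hT : PT (fun a => (4 * scQ (P a) ^ 2 * ((r a).2.1 : ℤ) ^ 2 +
      4 * scQ (P a) * (2 * ((r a).2.1 : ℤ) - 1) * (((r a).2.2.1 : ℤ) - ((r a).2.2.2 : ℤ)) +
      8 * scQ (P a) * ((r a).2.2.1 : ℤ) +
      2 * (scQ (P a) * ((r a).2.1 : ℤ) + (((r a).2.2.1 : ℤ) - ((r a).2.2.2 : ℤ))) ^ 2,
      2 * scN (P a) (K a) * (scQ (P a) * ((r a).2.1 : ℤ) +
        (((r a).2.2.1 : ℤ) - ((r a).2.2.2 : ℤ))))) :=
    (hs.add (h2.mul (hu.pow 2))).pt.pair ((h2.mul hN).mul hu).pt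
  have hF := (((hN.pow 2).add ht).sub (h2.mul (hv.pow 2))).pt.pair ((h2.mul hN).mul hv).pt
  refine (PT.cond (PT.fst.comp hr) hT hF).congr fun a => ?_
  unfold pt
  cases (r a).1 <;> rfl

theorem ptPoints {K : α → ℕ} {o : α → List Op} (hK : PT K) (ho : PT o) :
    PT (fun a => points (K a) (o a)) :=
  PT.map (g := fun x : α × Op × ℕ => pt ((o x.1).length + 1) (K x.1)
      (recOf (o x.1).length x.2.2 x.2.1)) (ptZipIdx (.lnk 0) ho)
    (ptPt (ho.comp PT.fst).length.succ (hK.comp PT.fst)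
      (ptRecOf (ho.comp PT.fst).length (PT.snd.comp PT.snd) (PT.fst.comp PT.snd)))

/-- the point list of the reduction is computed in polynomial time -/
theorem ptRed1 : PT (fun φ => (red φ).1) := ptPoints (ptLin 2 1 ptCls.length) ptOpsOf

/-- the threshold of the reduction is computed in polynomial time (even in unary) -/
theorem ptRed2 : PT (fun φ => (red φ).2.toNat) :=
  ((ZPT.scN ptOpsOf.length.succ (ptLin 2 1 ptCls.length)).pow 4).toNat

end MST
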