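import Pool.Agent.Work.MP_2f1fa1_lc.Mt.Blocks

/-! Annotated instance: forgetting the annotation, feasibility. -/

namespace MST

variable {σ : Type} [DecidableEq σ]

theorem instA_fst (sl : List σ) (cl : List (Bool × List σ)) (v : σ → Bool) :
    (instA sl cl v).map Prod.fst = inst sl cl := by
  have h0 : Prod.fst ∘ an0 = id := rfl
  have h1 : ∀ y, Prod.fst ∘ an1 y = id := fun _ => rfl
  have h2 : ∀ y, Prod.fst ∘ an2 y = id := fun _ => rfl
  have h3 : ∀ o, (an0 o).1 = o := fun _ => rfl
  simp only [instA, inst, slabA, slab, List.map_append, List.map_map, List.map_flatMap, h0, h1, h2,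
    List.map_id, List.map_cons, List.map_nil, h3]

/-- prefix sums starting at `s` are nonnegative -/
def st1_Ok (s : ℕ → ℤ) (P : List (Op × ℕ)) : Prop :=
  ∀ A B, P = A ++ B → ∀ r, 0 ≤ s r + Dl A r

theorem st1_ok_nil (s : ℕ → ℤ) (hs : ∀ r, 0 ≤ s r) : st1_Ok s [] := by
  intro A B h r
  have : A = [] := by
    cases A with
    | nil => rfl
    | cons a A => simp at h
  subst this
  rw [dl_nil]
  have := hs r
  omega

theorem st1_ok_cons (s : ℕ → ℤ) (x : Op × ℕ) (P : List (Op × ℕ)) (hs : ∀ r, 0 ≤ s r)
    (h : st1_Ok (fun r => s r + ctr x r) P) : st1_Ok s (x :: P) := by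
  intro A B hAB r
  cases A with
  | nil =>
    rw [dl_nil]
    have := hs r
    omega
  | cons a A =>
    simp only [List.cons_append, List.cons.injEq] at hAB
    obtain ⟨rfl, h2⟩ := hAB
    rw [dl_cons]
    have := h A B h2 r
    simp only at this
    omega

theorem st1_ok_append (s : ℕ → ℤ) (P Q : List (Op × ℕ)) (h : st1_Ok s P)
    (h2 : st1_Ok (fun r => s r + Dl P r) Q) : st1_Ok s (P ++ Q) := by
  intro A B hAB r
  rcases List.append_eq_append_iff.1 hAB with ⟨C, h3, h4⟩ | ⟨C, h3, h4⟩
  · subst h3
    rw [dl_append]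
    have := h2 C B h4 r
    simp only at this
    omega
  · exact h A C h3 r

theorem st1_ctr_src (x : Op × ℕ) (r : ℕ) (hx : x.1.isSrc = true) : 0 ≤ ctr x r := by
  simp [ctr, hx]

theorem st1_ctr_snk (x : Op × ℕ) (r : ℕ) (hx : x.1.isSrc = false) : ctr x r ≤ 0 := by
  simp [ctr, hx]

theorem st1_dl_src (P : List (Op × ℕ)) (hP : ∀ x ∈ P, x.1.isSrc = true) (r : ℕ) :
    0 ≤ Dl P r := by
  induction P with
  | nil => rw [dl_nil]
  | cons x P ih =>
    rw [dl_cons]
    have h1 := st1_ctr_src x r (hP x (by simp))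
    have h2 := ih (fun y hy => hP y (by simp [hy]))
    omega

theorem st1_dl_snk (P : List (Op × ℕ)) (hP : ∀ x ∈ P, x.1.isSrc = false) (r : ℕ) :
    Dl P r ≤ 0 := by
  induction P with
  | nil => rw [dl_nil]
  | cons x P ih =>
    rw [dl_cons]
    have h1 := st1_ctr_snk x r (hP x (by simp))
    have h2 := ih (fun y hy => hP y (by simp [hy]))
    omega

theorem st1_ok_src (s : ℕ → ℤ) (P : List (Op × ℕ)) (hP : ∀ x ∈ P, x.1.isSrc = true)
    (hs : ∀ r, 0 ≤ s r) : st1_Ok s P := by
  intro A B h r
  have h1 := st1_dl_src A (fun x hx => hP x (by simp [h, hx])) r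
  have := hs r
  omega

theorem st1_ok_snk (s : ℕ → ℤ) (P : List (Op × ℕ)) (hP : ∀ x ∈ P, x.1.isSrc = false)
    (hs : ∀ r, 0 ≤ s r + Dl P r) : st1_Ok s P := by
  intro A B h r
  have h1 := st1_dl_snk B (fun x hx => hP x (by simp [h, hx])) r
  have := hs r
  rw [h, dl_append] at this
  omega

/-- blocks -/
theorem st1_ok_range (n : ℕ) (f : ℕ → List (Op × ℕ)) (s : ℕ → ℤ) (hs : ∀ r, 0 ≤ s r)
    (h : ∀ j < n, st1_Ok (fun r => s r + Dl ((List.range j).flatMap f) r) (f j)) :
    st1_Ok s ((List.range n).flatMap f) := by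
  induction n with
  | zero => simpa using st1_ok_nil s hs
  | succ n ih =>
    rw [List.range_succ, List.flatMap_append]
    apply st1_ok_append
    · exact ih fun j hj => h j (by omega)
    · simpa using h n (by omega)

/-- neutral blocks -/
theorem st1_ok_neutral {ι : Type} (l : List ι) (f : ι → List (Op × ℕ)) (s : ℕ → ℤ)
    (hs : ∀ r, 0 ≤ s r) (h0 : ∀ i ∈ l, ∀ r, Dl (f i) r = 0) (h : ∀ i ∈ l, st1_Ok s (f i)) :
    st1_Ok s (l.flatMap f) := by
  induction l with
  | nil => simpa using st1_ok_nil s hs
  | cons a l ih =>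
    rw [List.flatMap_cons]
    apply st1_ok_append
    · exact h a (by simp)
    · have : (fun r => s r + Dl (f a) r) = s := by
        funext r
        rw [h0 a (by simp) r]
        ring
      rw [this]
      exact ih (fun i hi => h0 i (by simp [hi])) (fun i hi => h i (by simp [hi]))

theorem st1_dl_neutral {ι : Type} (l : List ι) (f : ι → List (Op × ℕ))
    (h0 : ∀ i ∈ l, ∀ r, Dl (f i) r = 0) (r : ℕ) : Dl (l.flatMap f) r = 0 := by
  rw [dl_flatMap]
  apply List.sum_eq_zero
  intro x hx
  rw [List.mem_map] at hx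
  obtain ⟨i, hi, rfl⟩ := hx
  exact h0 i hi r

/-! ### contributions of the elementary operations with split one -/

theorem st1_c_odd {f : ℕ} (hf : f % 2 = 1) (r : ℕ) :
    ctr (an0 (.lnk f)) r = if r = f then 1 else if r = f + 1 then 1 else 0 := by
  have := ctr_lnk_odd (f := f) (z := 1) hf (by norm_num) r
  rw [an0, this]
  split_ifs <;> norm_num

theorem st1_c_even {f : ℕ} (hf : f % 2 = 0) (r : ℕ) :
    ctr (an0 (.lnk f)) r = if r = f then -1 else if r = f + 1 then -1 else 0 := by
  have := ctr_lnk_even (f := f) (z := 1) hf (by norm_num) r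
  rw [an0, this]
  split_ifs <;> norm_num

theorem st1_c_src (f : ℕ) (r : ℕ) : ctr (an0 (.src f)) r = if r = f then 2 else 0 :=
  ctr_src f 1 r

theorem st1_c_snk (f : ℕ) (r : ℕ) : ctr (an0 (.snk f)) r = if r = f then -2 else 0 :=
  ctr_snk f 1 r

/-! ### the initial part -/

/-- block of the initial part -/
def st1_ib (j : ℕ) : List (Op × ℕ) :=
  [an0 (.src (4 * j + 4)), an0 (.lnk (4 * j + 5)), an0 (.lnk (4 * j + 4))]

theorem st1_ib_dl (j r : ℕ) : Dl (st1_ib j) r =
    if r = 4 * j + 4 then 1 else if r = 4 * j + 6 then 1 else 0 := by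
  have h1 := st1_c_odd (f := 4 * j + 5) (by omega) r
  have h2 := st1_c_even (f := 4 * j + 4) (by omega) r
  rw [st1_ib, dl_cons, dl_cons, dl_cons, dl_nil, st1_c_src, h1, h2]
  split_ifs <;> omega

theorem st1_ibs_dl (n r : ℕ) : Dl ((List.range n).flatMap st1_ib) r =
    if r % 4 = 0 ∧ 4 ≤ r ∧ r ≤ 4 * n then 1 else
      if r % 4 = 2 ∧ 6 ≤ r ∧ r ≤ 4 * n + 2 then 1 else 0 := by
  induction n with
  | zero =>
    simp only [List.range_zero, List.flatMap_nil, dl_nil]
    split_ifs <;> omega
  | succ n ih =>
    rw [List.range_succ, List.flatMap_append, dl_append, ih]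
    simp only [List.flatMap_cons, List.flatMap_nil, List.append_nil]
    rw [st1_ib_dl]
    split_ifs <;> omega

theorem st1_init_eq (m : ℕ) : (init m).map an0 = [an0 (.lnk 1)] ++
    ((List.range (m - 1)).flatMap st1_ib) ++
    [an0 (.src (4 * m)), an0 (.src (4 * m + 1)), an0 (.src (4 * m + 1)), an0 (.lnk (4 * m))] := by
  simp only [init, List.map_append, List.map_flatMap, List.map_cons, List.map_nil]
  rfl

theorem st1_init_dl {m : ℕ} (hm : 1 ≤ m) (r : ℕ) : Dl ((init m).map an0) r = target m r := by
  have h1 := st1_c_odd (f := 1) (by omega) r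
  have h2 := st1_c_even (f := 4 * m) (by omega) r
  rw [st1_init_eq, dl_append, dl_append, dl_cons, dl_cons, dl_cons, dl_cons, dl_cons, dl_nil,
    st1_ibs_dl, h1, h2, st1_c_src, st1_c_src, target]
  split_ifs <;> omega

theorem st1_init_ok {m : ℕ} (hm : 1 ≤ m) : st1_Ok (fun _ => 0) ((init m).map an0) := by
  rw [st1_init_eq]
  apply st1_ok_append
  · apply st1_ok_append
    · apply st1_ok_src
      · intro x hx
        simp only [List.mem_singleton] at hx
        subst hx
        rfl
      · intro r
        exact le_refl 0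
    · have h0 : ∀ r, Dl [an0 (.lnk 1)] r = if r = 1 then 1 else if r = 2 then 1 else 0 := by
        intro r
        rw [dl_cons, dl_nil, st1_c_odd (by norm_num)]
        split_ifs <;> omega
      apply st1_ok_range
      · intro r
        simp only [h0]
        split_ifs <;> omega
      · intro j hj
        have h1 := fun r => st1_c_odd (f := 4 * j + 5) (by omega) r
        have h2 := fun r => st1_c_even (f := 4 * j + 4) (by omega) r
        apply st1_ok_cons
        · intro r
          simp only [h0, st1_ibs_dl]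
          split_ifs <;> omega
        apply st1_ok_cons
        · intro r
          simp only [h0, st1_ibs_dl, st1_c_src]
          split_ifs <;> omega
        apply st1_ok_cons
        · intro r
          simp only [h0, st1_ibs_dl, st1_c_src, h1]
          split_ifs <;> omega
        apply st1_ok_nil
        · intro r
          simp only [h0, st1_ibs_dl, st1_c_src, h1, h2]
          split_ifs <;> omega
  · have h1 := fun r => st1_c_odd (f := 1) (by omega) r
    have h2 := fun r => st1_c_even (f := 4 * m) (by omega) r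
    have h0 : ∀ r, Dl ([an0 (.lnk 1)] ++ ((List.range (m - 1)).flatMap st1_ib)) r =
        (if r = 1 then 1 else if r = 2 then 1 else 0) +
          if r % 4 = 0 ∧ 4 ≤ r ∧ r ≤ 4 * (m - 1) then 1 else
          if r % 4 = 2 ∧ 6 ≤ r ∧ r ≤ 4 * (m - 1) + 2 then 1 else 0 := by
      intro r
      rw [dl_append, dl_cons, dl_nil, st1_ibs_dl, h1]
      split_ifs <;> omega
    apply st1_ok_cons
    · intro r
      simp only [h0]
      split_ifs <;> omega
    apply st1_ok_cons
    · intro r
      simp only [h0, st1_c_src]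
      split_ifs <;> omega
    apply st1_ok_cons
    · intro r
      simp only [h0, st1_c_src]
      split_ifs <;> omega
    apply st1_ok_cons
    · intro r
      simp only [h0, st1_c_src]
      split_ifs <;> omega
    apply st1_ok_nil
    · intro r
      simp only [h0, st1_c_src, h2]
      split_ifs <;> omega

/-! ### the final part -/

/-- block of the final part -/
def st1_fb (j : ℕ) : List (Op × ℕ) :=
  [an0 (.lnk (4 * j + 5)), an0 (.lnk (4 * j + 4)), an0 (.snk (4 * j + 6))]

theorem st1_fb_dl (j r : ℕ) : Dl (st1_fb j) r =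
    if r = 4 * j + 4 then -1 else if r = 4 * j + 6 then -1 else 0 := by
  have h1 := st1_c_odd (f := 4 * j + 5) (by omega) r
  have h2 := st1_c_even (f := 4 * j + 4) (by omega) r
  rw [st1_fb, dl_cons, dl_cons, dl_cons, dl_nil, st1_c_snk, h1, h2]
  split_ifs <;> omega

theorem st1_fbs_dl (n r : ℕ) : Dl ((List.range n).flatMap st1_fb) r =
    if r % 4 = 0 ∧ 4 ≤ r ∧ r ≤ 4 * n then -1 else
      if r % 4 = 2 ∧ 6 ≤ r ∧ r ≤ 4 * n + 2 then -1 else 0 := by
  induction n with
  | zero =>
    simp only [List.range_zero, List.flatMap_nil, dl_nil]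
    split_ifs <;> omega
  | succ n ih =>
    rw [List.range_succ, List.flatMap_append, dl_append, ih]
    simp only [List.flatMap_cons, List.flatMap_nil, List.append_nil]
    rw [st1_fb_dl]
    split_ifs <;> omega

theorem st1_final_eq (m : ℕ) : (final m).map an0 = [an0 (.lnk 1), an0 (.snk 1)] ++
    ((List.range (m - 1)).flatMap st1_fb) ++
    [an0 (.lnk (4 * m)), an0 (.snk (4 * m + 1)), an0 (.snk 2)] := by
  simp only [final, List.map_append, List.map_flatMap, List.map_cons, List.map_nil]
  rfl

theorem st1_final_dl {m : ℕ} (hm : 1 ≤ m) (r : ℕ) :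
    Dl ((final m).map an0) r = - target m r := by
  have h1 := st1_c_odd (f := 1) (by omega) r
  have h2 := st1_c_even (f := 4 * m) (by omega) r
  rw [st1_final_eq, dl_append, dl_append, dl_cons, dl_cons, dl_cons, dl_cons, dl_cons, dl_nil,
    st1_fbs_dl, h1, h2, st1_c_snk, st1_c_snk, st1_c_snk, target]
  split_ifs <;> omega

theorem st1_final_ok {m : ℕ} (hm : 1 ≤ m) : st1_Ok (target m) ((final m).map an0) := by
  rw [st1_final_eq]
  have g1 := fun r => st1_c_odd (f := 1) (by omega) r
  have h0 : ∀ r, Dl [an0 (.lnk 1), an0 (.snk 1)] r =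
      if r = 1 then -1 else if r = 2 then 1 else 0 := by
    intro r
    rw [dl_cons, dl_cons, dl_nil, g1, st1_c_snk]
    split_ifs <;> omega
  apply st1_ok_append
  · apply st1_ok_append
    · apply st1_ok_cons
      · intro r
        simp only [target]
        split_ifs <;> omega
      apply st1_ok_cons
      · intro r
        simp only [target, g1]
        split_ifs <;> omega
      apply st1_ok_nil
      · intro r
        simp only [target, g1, st1_c_snk]
        split_ifs <;> omega
    · apply st1_ok_range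
      · intro r
        simp only [h0, target]
        split_ifs <;> omega
      · intro j hj
        have h1 := fun r => st1_c_odd (f := 4 * j + 5) (by omega) r
        have h2 := fun r => st1_c_even (f := 4 * j + 4) (by omega) r
        apply st1_ok_cons
        · intro r
          simp only [h0, st1_fbs_dl, target]
          split_ifs <;> omega
        apply st1_ok_cons
        · intro r
          simp only [h0, st1_fbs_dl, target, h1]
          split_ifs <;> omega
        apply st1_ok_cons
        · intro r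
          simp only [h0, st1_fbs_dl, target, h1, h2]
          split_ifs <;> omega
        apply st1_ok_nil
        · intro r
          simp only [h0, st1_fbs_dl, target, h1, h2, st1_c_snk]
          split_ifs <;> omega
  · have h2 := fun r => st1_c_even (f := 4 * m) (by omega) r
    apply st1_ok_snk
    · intro x hx
      simp only [List.mem_cons, List.not_mem_nil, or_false] at hx
      have h4 : (Op.lnk (4 * m)).isSrc = false := by
        simp only [Op.isSrc]
        have : 4 * m % 2 = 0 := by omega
        rw [this]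
        rfl
      rcases hx with rfl | rfl | rfl
      · exact h4
      · rfl
      · rfl
    · intro r
      rw [dl_append, h0, st1_fbs_dl, dl_cons, dl_cons, dl_cons, dl_nil, h2, st1_c_snk, st1_c_snk,
        target]
      split_ifs <;> omega

/-! ### the checkpoint and the visits -/

theorem st1_pair_ok (s : ℕ → ℤ) (hs : ∀ r, 0 ≤ s r) (k : ℕ) :
    st1_Ok s [an0 (.src k), an0 (.snk k)] := by
  apply st1_ok_cons _ _ _ hs
  apply st1_ok_cons
  · intro r
    have := hs r
    simp only [st1_c_src]
    split_ifs <;> omega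
  apply st1_ok_nil
  intro r
  have := hs r
  simp only [st1_c_src, st1_c_snk]
  split_ifs <;> omega

theorem st1_pair_dl (k r : ℕ) : Dl [an0 (.src k), an0 (.snk k)] r = 0 := by
  rw [dl_cons, dl_cons, dl_nil, st1_c_src, st1_c_snk]
  split_ifs <;> omega

theorem st1_visits_ok (m : ℕ) (s : ℕ → ℤ) (hs : ∀ r, 0 ≤ s r) :
    st1_Ok s ((visits m).map an0) := by
  have e : (visits m).map an0 = (List.range (4 * m + 1)).flatMap fun i =>
      [an0 (.src (i + 1)), an0 (.snk (i + 1))] := by
    simp only [visits, List.map_flatMap, List.map_cons, List.map_nil]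
  rw [e]
  exact st1_ok_neutral _ _ _ hs (fun i _ r => st1_pair_dl _ r) fun i _ => st1_pair_ok s hs _

theorem st1_target_nonneg (m r : ℕ) : 0 ≤ target m r := by
  rw [target]
  split_ifs <;> omega

theorem st1_check_dl (m r : ℕ) : Dl ((check m).map an0) r = 0 := by
  apply dl_check
  have h0 : Prod.fst ∘ an0 = id := rfl
  rw [List.map_map, h0, List.map_id]

theorem st1_check_ok (m : ℕ) : st1_Ok (target m) ((check m).map an0) := by
  have e : (check m).map an0 = [an0 (.src 1), an0 (.snk 1)] ++
      ((List.range (2 * m)).flatMap fun i =>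
        [an0 (.src (2 * i + 2)), an0 (.snk (2 * i + 2))]) ++
      [an0 (.snk (4 * m + 1)), an0 (.src (4 * m + 1)), an0 (.snk (4 * m + 1)),
        an0 (.src (4 * m + 1))] := by
    simp only [check, List.map_append, List.map_flatMap, List.map_cons, List.map_nil]
  rw [e]
  have hf := st1_dl_neutral (List.range (2 * m)) (fun i : ℕ =>
        [an0 (.src (2 * i + 2)), an0 (.snk (2 * i + 2))]) fun i _ r => st1_pair_dl _ r
  apply st1_ok_append
  · apply st1_ok_append
    · exact st1_pair_ok _ (st1_target_nonneg m) 1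
    · have : (fun r => target m r + Dl [an0 (.src 1), an0 (.snk 1)] r) = target m := by
        funext r
        rw [st1_pair_dl]
        ring
      rw [this]
      exact st1_ok_neutral _ _ _ (st1_target_nonneg m) (fun i _ r => st1_pair_dl _ r)
        fun i _ => st1_pair_ok _ (st1_target_nonneg m) _
  · simp only [dl_append, st1_pair_dl, hf]
    have ht : ∀ r, target m r = if r = 4 * m + 1 then 3 else
      if r = 1 ∨ (r % 2 = 0 ∧ 2 ≤ r ∧ r ≤ 4 * m) then 1 else 0 := fun r => rfl
    apply st1_ok_cons
    · intro r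
      simp only [ht]
      split_ifs <;> omega
    apply st1_ok_cons
    · intro r
      simp only [ht, st1_c_snk]
      split_ifs <;> omega
    apply st1_ok_cons
    · intro r
      simp only [ht, st1_c_snk, st1_c_src]
      split_ifs <;> omega
    apply st1_ok_cons
    · intro r
      simp only [ht, st1_c_snk, st1_c_src]
      split_ifs <;> omega
    apply st1_ok_nil
    intro r
    simp only [ht, st1_c_snk, st1_c_src]
    split_ifs <;> omega

/-! ### the gadgets -/

theorem st1_gad_dl (sg : Bool) (k r : ℕ) : Dl ((gad sg k).map an0) r = 0 := by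
  have h1 := st1_c_odd (f := 4 * k + 3) (by omega) r
  have h2 := st1_c_even (f := 4 * k + 2) (by omega) r
  cases sg with
  | true =>
    simp only [gad, if_true, List.map_cons, List.map_nil]
    rw [dl_cons, dl_cons, dl_cons, dl_cons, dl_nil, h1, st1_c_snk, st1_c_snk]
    split_ifs <;> omega
  | false =>
    simp only [gad, Bool.false_eq_true, if_false, List.map_cons, List.map_nil]
    rw [dl_cons, dl_cons, dl_cons, dl_cons, dl_nil, h2, st1_c_src, st1_c_src]
    split_ifs <;> omega

theorem st1_gad_ok (sg : Bool) (k : ℕ) (s : ℕ → ℤ) (hs : ∀ r, 0 ≤ s r) :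
    st1_Ok s ((gad sg k).map an0) := by
  have h1 := fun r => st1_c_odd (f := 4 * k + 3) (by omega) r
  have h2 := fun r => st1_c_even (f := 4 * k + 2) (by omega) r
  cases sg with
  | true =>
    simp only [gad, if_true, List.map_cons, List.map_nil]
    apply st1_ok_cons _ _ _ hs
    apply st1_ok_cons
    · intro r
      have := hs r
      simp only [h1]
      split_ifs <;> omega
    apply st1_ok_cons
    · intro r
      have := hs r
      simp only [h1]
      split_ifs <;> omega
    apply st1_ok_cons
    · intro r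
      have := hs r
      simp only [h1, st1_c_snk]
      split_ifs <;> omega
    apply st1_ok_nil
    intro r
    have := hs r
    simp only [h1, st1_c_snk]
    split_ifs <;> omega
  | false =>
    simp only [gad, Bool.false_eq_true, if_false, List.map_cons, List.map_nil]
    apply st1_ok_cons _ _ _ hs
    apply st1_ok_cons
    · intro r
      have := hs r
      simp only [st1_c_src]
      split_ifs <;> omega
    apply st1_ok_cons
    · intro r
      have := hs r
      simp only [st1_c_src]
      split_ifs <;> omega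
    apply st1_ok_cons
    · intro r
      have := hs r
      simp only [h2, st1_c_src]
      split_ifs <;> omega
    apply st1_ok_nil
    intro r
    have := hs r
    simp only [h2, st1_c_src]
    split_ifs <;> omega

theorem st1_cross_eq (cl : List (Bool × List σ)) (s : σ) : (cross cl s).map an0 =
    cl.zipIdx.flatMap fun c => if s ∈ c.1.2 then (gad c.1.1 c.2).map an0 else [] := by
  rw [cross, List.map_flatMap]
  congr 1
  funext c
  split_ifs <;> rfl

theorem st1_cross_dl (cl : List (Bool × List σ)) (s : σ) (r : ℕ) :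
    Dl ((cross cl s).map an0) r = 0 := by
  rw [st1_cross_eq]
  apply st1_dl_neutral
  intro c _ r
  split_ifs
  · exact st1_gad_dl _ _ _
  · exact dl_nil r

theorem st1_cross_ok (cl : List (Bool × List σ)) (s : σ) (d : ℕ → ℤ) (hd : ∀ r, 0 ≤ d r) :
    st1_Ok d ((cross cl s).map an0) := by
  rw [st1_cross_eq]
  apply st1_ok_neutral _ _ _ hd
  · intro c _ r
    split_ifs
    · exact st1_gad_dl _ _ _
    · exact dl_nil r
  · intro c _
    split_ifs
    · exact st1_gad_ok _ _ _ hd
    · exact st1_ok_nil _ hd

/-! ### the slab -/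

/-- sources of the first phase -/
def st1_S1 (m y : ℕ) : List (Op × ℕ) := (oddL m).map (an1 y) ++ (srcC m).map an0

/-- sinks of the first phase -/
def st1_K1 (m y : ℕ) : List (Op × ℕ) := (evenL m).map (an1 y)

/-- sources of the second phase -/
def st1_S2 (m y : ℕ) : List (Op × ℕ) := (oddL m).map (an2 y) ++ [an0 (.src (4 * m + 1))]

/-- sinks of the second phase -/
def st1_K2 (m y : ℕ) : List (Op × ℕ) :=
  (evenL m).map (an2 y) ++ (snkC m).map an0 ++ [an0 (.snk 1)]

theorem st1_slab_eq (cl : List (Bool × List σ)) (s : σ) (y : ℕ) : slabA cl s y =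
    st1_S1 cl.length y ++ st1_K1 cl.length y ++ (cross cl s).map an0 ++
      (visits cl.length).map an0 ++ st1_S2 cl.length y ++ st1_K2 cl.length y := by
  simp only [slabA, st1_S1, st1_K1, st1_S2, st1_K2, List.append_assoc]

theorem st1_odd_mem {m : ℕ} {o : Op} (ho : o ∈ oddL m) : o.isSrc = true := by
  simp only [oddL, List.mem_map] at ho
  obtain ⟨i, _, rfl⟩ := ho
  simp only [Op.isSrc, beq_iff_eq]
  omega

theorem st1_even_mem {m : ℕ} {o : Op} (ho : o ∈ evenL m) : o.isSrc = false := by
  simp only [evenL, List.mem_map] at ho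
  obtain ⟨i, _, rfl⟩ := ho
  have : (2 * i + 2) % 2 = 0 := by omega
  simp only [Op.isSrc, this]
  rfl

theorem st1_S1_src (m y : ℕ) : ∀ x ∈ st1_S1 m y, x.1.isSrc = true := by
  intro x hx
  simp only [st1_S1, List.mem_append, List.mem_map] at hx
  rcases hx with ⟨o, ho, rfl⟩ | ⟨o, ho, rfl⟩
  · exact st1_odd_mem ho
  · simp only [srcC, List.mem_map] at ho
    obtain ⟨i, _, rfl⟩ := ho
    rfl

theorem st1_K1_snk (m y : ℕ) : ∀ x ∈ st1_K1 m y, x.1.isSrc = false := by
  intro x hx
  simp only [st1_K1, List.mem_map] at hx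
  obtain ⟨o, ho, rfl⟩ := hx
  exact st1_even_mem ho

theorem st1_S2_src (m y : ℕ) : ∀ x ∈ st1_S2 m y, x.1.isSrc = true := by
  intro x hx
  simp only [st1_S2, List.mem_append, List.mem_map, List.mem_singleton] at hx
  rcases hx with ⟨o, ho, rfl⟩ | rfl
  · exact st1_odd_mem ho
  · rfl

theorem st1_K2_snk (m y : ℕ) : ∀ x ∈ st1_K2 m y, x.1.isSrc = false := by
  intro x hx
  simp only [st1_K2, List.mem_append, List.mem_map, List.mem_singleton] at hx
  rcases hx with (⟨o, ho, rfl⟩ | ⟨o, ho, rfl⟩) | rfl
  · exact st1_even_mem ho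
  · simp only [snkC, List.mem_map] at ho
    obtain ⟨i, _, rfl⟩ := ho
    rfl
  · rfl

/-- numbers of open edges between the two phases -/
def st1_V (m y r : ℕ) : ℤ :=
  if r = 0 then 0 else if r = 1 then 1 + (y : ℤ) else if r = 4 * m + 1 then 2 - (y : ℤ) else
    if r ≤ 4 * m then 1 else 0

theorem st1_V_nonneg (m : ℕ) {y : ℕ} (hy : y ≤ 1) (r : ℕ) : 0 ≤ st1_V m y r := by
  rw [st1_V]
  split_ifs <;> omega

theorem st1_zz_le {y : ℕ} (hy : y ≤ 1) (f : ℕ) : zz y f ≤ 2 := by
  rw [zz]
  split_ifs <;> omega

theorem st1_fst_an0 (l : List Op) : (l.map an0).map Prod.fst = l := by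
  have h0 : Prod.fst ∘ an0 = id := rfl
  rw [List.map_map, h0, List.map_id]

theorem st1_odd1 (m : ℕ) {y : ℕ} (hy : y ≤ 1) (r : ℕ) : Dl ((oddL m).map (an1 y)) r =
      if r % 2 = 1 ∧ r < 4 * m then (zz y r : ℤ)
      else if r % 2 = 0 ∧ 1 ≤ r ∧ r ≤ 4 * m then 2 - (zz y (r - 1) : ℤ) else 0 := by
  have h := dl_oddL m (fun o => (an1 y o).2) (by
    intro o ho
    simp only [oddL, List.mem_map] at ho
    obtain ⟨i, _, rfl⟩ := ho
    exact st1_zz_le hy _) r
  exact h

theorem st1_odd2 (m : ℕ) {y : ℕ} (hy : y ≤ 1) (r : ℕ) : Dl ((oddL m).map (an2 y)) r =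
      if r % 2 = 1 ∧ r < 4 * m then 2 - (zz y r : ℤ)
      else if r % 2 = 0 ∧ 1 ≤ r ∧ r ≤ 4 * m then (zz y (r - 1) : ℤ) else 0 := by
  have h := dl_oddL m (fun o => (an2 y o).2) (by
    intro o ho
    simp only [oddL, List.mem_map] at ho
    obtain ⟨i, _, rfl⟩ := ho
    show 2 - zz y _ ≤ 2
    omega) r
  have h1 := st1_zz_le hy r
  have h2 := st1_zz_le hy (r - 1)
  have h3 : (an2 y (.lnk r)).2 = 2 - zz y r := rfl
  have h4 : (an2 y (.lnk (r - 1))).2 = 2 - zz y (r - 1) := rfl
  simp only [h3, h4] at h
  refine h.trans ?_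
  split_ifs <;> omega

theorem st1_even1 (m : ℕ) {y : ℕ} (hy : y ≤ 1) (r : ℕ) : Dl ((evenL m).map (an1 y)) r =
      if r % 2 = 0 ∧ 1 ≤ r ∧ r ≤ 4 * m then (zz y r : ℤ) - 2
      else if r % 2 = 1 ∧ 3 ≤ r ∧ r ≤ 4 * m + 1 then -(zz y (r - 1) : ℤ) else 0 := by
  have h := dl_evenL m (fun o => (an1 y o).2) (by
    intro o ho
    simp only [evenL, List.mem_map] at ho
    obtain ⟨i, _, rfl⟩ := ho
    exact st1_zz_le hy _) r
  exact h

theorem st1_even2 (m : ℕ) {y : ℕ} (hy : y ≤ 1) (r : ℕ) : Dl ((evenL m).map (an2 y)) r =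
      if r % 2 = 0 ∧ 1 ≤ r ∧ r ≤ 4 * m then -(zz y r : ℤ)
      else if r % 2 = 1 ∧ 3 ≤ r ∧ r ≤ 4 * m + 1 then (zz y (r - 1) : ℤ) - 2 else 0 := by
  have h := dl_evenL m (fun o => (an2 y o).2) (by
    intro o ho
    simp only [evenL, List.mem_map] at ho
    obtain ⟨i, _, rfl⟩ := ho
    show 2 - zz y _ ≤ 2
    omega) r
  have h1 := st1_zz_le hy r
  have h2 := st1_zz_le hy (r - 1)
  have h3 : (an2 y (.lnk r)).2 = 2 - zz y r := rfl
  have h4 : (an2 y (.lnk (r - 1))).2 = 2 - zz y (r - 1) := rfl
  simp only [h3, h4] at h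
  refine h.trans ?_
  split_ifs <;> omega

theorem st1_S1_dl (m : ℕ) {y : ℕ} (r : ℕ) :
    Dl (st1_S1 m y) r = Dl ((oddL m).map (an1 y)) r +
      if r % 4 = 1 ∧ 5 ≤ r ∧ r < 4 * m then 2 else 0 := by
  rw [st1_S1, dl_append, dl_srcC (st1_fst_an0 _)]

theorem st1_phase1 {m : ℕ} (hm : 1 ≤ m) {y : ℕ} (hy : y ≤ 1) (r : ℕ) :
    target m r + Dl (st1_S1 m y) r + Dl (st1_K1 m y) r = st1_V m y r := by
  rw [st1_S1_dl m, st1_K1, st1_odd1 m hy, st1_even1 m hy, target, st1_V]
  simp only [zz]
  push_cast
  split_ifs <;> omega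

theorem st1_phase2 {m : ℕ} (hm : 1 ≤ m) {y : ℕ} (hy : y ≤ 1) (r : ℕ) :
    st1_V m y r + Dl (st1_S2 m y) r + Dl (st1_K2 m y) r = target m r := by
  rw [st1_S2, st1_K2, dl_append, dl_append, dl_append, dl_snkC (st1_fst_an0 _), st1_odd2 m hy,
    st1_even2 m hy, dl_cons, dl_nil, dl_cons, dl_nil, st1_c_src, st1_c_snk, target, st1_V]
  simp only [zz]
  push_cast
  split_ifs <;> omega

theorem st1_visits_dl (m r : ℕ) : Dl ((visits m).map an0) r = 0 := dl_visits (st1_fst_an0 _) r

theorem st1_slab_dl (cl : List (Bool × List σ)) (hm : 1 ≤ cl.length) (s : σ) {y : ℕ}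
    (hy : y ≤ 1) (r : ℕ) : Dl (slabA cl s y) r = 0 := by
  have h1 := st1_phase1 hm hy r
  have h2 := st1_phase2 hm hy r
  rw [st1_slab_eq, dl_append, dl_append, dl_append, dl_append, dl_append, st1_cross_dl,
    st1_visits_dl]
  omega

theorem st1_slab_ok (cl : List (Bool × List σ)) (hm : 1 ≤ cl.length) (s : σ) {y : ℕ}
    (hy : y ≤ 1) : st1_Ok (target cl.length) (slabA cl s y) := by
  rw [st1_slab_eq]
  have h1 := st1_phase1 hm hy
  have h2 := st1_phase2 hm hy
  have ht := st1_target_nonneg cl.length
  have hV := st1_V_nonneg cl.length hy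
  apply st1_ok_append
  · apply st1_ok_append
    · apply st1_ok_append
      · apply st1_ok_append
        · apply st1_ok_append
          · exact st1_ok_src _ _ (st1_S1_src _ _) ht
          · refine st1_ok_snk _ _ (st1_K1_snk _ _) fun r => ?_
            have a1 := h1 r
            have a2 := hV r
            omega
        · apply st1_cross_ok
          intro r
          have a1 := h1 r
          have a2 := hV r
          simp only [dl_append]
          omega
      · apply st1_visits_ok
        intro r
        have a1 := h1 r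
        have a2 := hV r
        simp only [dl_append, st1_cross_dl]
        omega
    · refine st1_ok_src _ _ (st1_S2_src _ _) fun r => ?_
      have a1 := h1 r
      have a2 := hV r
      simp only [dl_append, st1_cross_dl, st1_visits_dl]
      omega
  · refine st1_ok_snk _ _ (st1_K2_snk _ _) fun r => ?_
    have a1 := h1 r
    have a2 := h2 r
    have a3 := ht r
    simp only [dl_append, st1_cross_dl, st1_visits_dl]
    omega

/-! ### the annotated instance -/

theorem st1_sc_dl (cl : List (Bool × List σ)) (hm : 1 ≤ cl.length) (s : σ) {y : ℕ}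
    (hy : y ≤ 1) (r : ℕ) : Dl (slabA cl s y ++ (check cl.length).map an0) r = 0 := by
  rw [dl_append, st1_slab_dl cl hm s hy, st1_check_dl]
  rfl

theorem st1_sc_ok (cl : List (Bool × List σ)) (hm : 1 ≤ cl.length) (s : σ) {y : ℕ}
    (hy : y ≤ 1) : st1_Ok (target cl.length) (slabA cl s y ++ (check cl.length).map an0) := by
  apply st1_ok_append _ _ _ (st1_slab_ok cl hm s hy)
  simp only [st1_slab_dl cl hm s hy, add_zero]
  exact st1_check_ok _

theorem st1_y_le (b : Bool) : (if b then 1 else 0) ≤ 1 := by
  cases b <;> simp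

/-- the annotations are at most two -/
theorem st1_le2 (sl : List σ) (cl : List (Bool × List σ)) (v : σ → Bool) :
    ∀ x ∈ instA sl cl v, x.2 ≤ 2 := by
  have h0 : ∀ (l : List Op), ∀ x ∈ l.map an0, x.2 ≤ 2 := by
    intro l x hx
    rw [List.mem_map] at hx
    obtain ⟨o, _, rfl⟩ := hx
    simp [an0]
  have h1 : ∀ (y : ℕ), y ≤ 1 → ∀ (l : List Op), ∀ x ∈ l.map (an1 y), x.2 ≤ 2 := by
    intro y hy l x hx
    rw [List.mem_map] at hx
    obtain ⟨o, _, rfl⟩ := hx
    cases o with
    | lnk f => exact st1_zz_le hy f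
    | src r => simp [an1]
    | snk r => simp [an1]
  have h2 : ∀ (y : ℕ), y ≤ 1 → ∀ (l : List Op), ∀ x ∈ l.map (an2 y), x.2 ≤ 2 := by
    intro y hy l x hx
    rw [List.mem_map] at hx
    obtain ⟨o, _, rfl⟩ := hx
    cases o with
    | lnk f =>
      show 2 - zz y f ≤ 2
      omega
    | src r => simp [an2]
    | snk r => simp [an2]
  intro x hx
  simp only [instA, slabA, List.mem_append, List.mem_flatMap, List.mem_singleton] at hx
  rcases hx with ((hx | hx) | ⟨s, hs, hx⟩) | hx
  · exact h0 _ x hx
  · exact h0 _ x hx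
  · have hy := st1_y_le (v s)
    rcases hx with (((((((((hx | hx) | hx) | hx) | hx) | hx) | hx) | hx) | hx) | hx) | hx
    · exact h1 _ hy _ x hx
    · exact h0 _ x hx
    · exact h1 _ hy _ x hx
    · exact h0 _ x hx
    · exact h0 _ x hx
    · exact h2 _ hy _ x hx
    · subst hx
      simp [an0]
    · exact h2 _ hy _ x hx
    · exact h0 _ x hx
    · subst hx
      simp [an0]
    · exact h0 _ x hx
  · exact h0 _ x hx

/-- feasibility of the annotated instance -/
theorem feas_instA (sl : List σ) (cl : List (Bool × List σ)) (hm : 1 ≤ cl.length)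
    (v : σ → Bool) : Feas (instA sl cl v) := by
  have hf : ∀ r, Dl (sl.flatMap fun s => slabA cl s (if v s then 1 else 0) ++
      (check cl.length).map an0) r = 0 := fun r => by
    apply st1_dl_neutral
    intro s _ r
    exact st1_sc_dl cl hm s (st1_y_le _) r
  have hok : st1_Ok (fun _ => 0) (instA sl cl v) := by
    unfold instA
    apply st1_ok_append
    · apply st1_ok_append
      · apply st1_ok_append
        · exact st1_init_ok hm
        · simp only [st1_init_dl hm, zero_add]
          exact st1_check_ok _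
      · simp only [dl_append, st1_init_dl hm, st1_check_dl, zero_add, add_zero]
        apply st1_ok_neutral _ _ _ (st1_target_nonneg _)
        · intro s _ r
          exact st1_sc_dl cl hm s (st1_y_le _) r
        · intro s _
          exact st1_sc_ok cl hm s (st1_y_le _)
    · simp only [dl_append, st1_init_dl hm, st1_check_dl, zero_add, add_zero, hf]
      exact st1_final_ok hm
  refine ⟨st1_le2 sl cl v, ?_, ?_⟩
  · intro A B h r
    have := hok A B h r
    simpa using this
  · intro r
    unfold instA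
    rw [dl_append, dl_append, dl_append, st1_init_dl hm, st1_check_dl, hf, st1_final_dl hm]
    ring

end MST
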