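import Pool.Agent.Work.MP_2f1fa1_lc.Mt.Defs2

namespace MST

variable {σ : Type} [DecidableEq σ]

theorem ts0_blocks (cl : List (Bool × List σ)) (sl : List σ) : ∀ P : List (Op × ℕ),
    P.map Prod.fst = (sl.flatMap fun s => slab cl s ++ check cl.length) →
    ∃ bl : List (σ × List (Op × ℕ) × List (Op × ℕ)), bl.map Prod.fst = sl ∧
      (∀ b ∈ bl, b.2.1.map Prod.fst = slab cl b.1) ∧
      (∀ b ∈ bl, b.2.2.map Prod.fst = check cl.length) ∧
      P = bl.flatMap fun b => b.2.1 ++ b.2.2 := by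
  induction sl with
  | nil =>
    intro P h
    refine ⟨[], rfl, by simp, by simp, ?_⟩
    simpa using h
  | cons s sl ih =>
    intro P h
    rw [List.flatMap_cons] at h
    obtain ⟨P1, P2, rfl, h1, h2⟩ := List.map_eq_append_iff.1 h
    obtain ⟨S, C, rfl, h3, h4⟩ := List.map_eq_append_iff.1 h1
    obtain ⟨bl, e1, e2, e3, e4⟩ := ih P2 h2
    refine ⟨(s, S, C) :: bl, by simp [e1], ?_, ?_, ?_⟩
    · intro b hb
      rcases List.mem_cons.1 hb with rfl | hb
      · exact h3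
      · exact e2 b hb
    · intro b hb
      rcases List.mem_cons.1 hb with rfl | hb
      · exact h4
      · exact e3 b hb
    · rw [List.flatMap_cons, ← e4]

theorem dec_of_inst {sl : List σ} {cl : List (Bool × List σ)} {L : List (Op × ℕ)}
    (h : L.map Prod.fst = inst sl cl) : ∃ I C0 Fn bl, Dec sl cl L I C0 Fn bl := by
  unfold inst at h
  obtain ⟨L1, Fn, rfl, h1, hF⟩ := List.map_eq_append_iff.1 h
  obtain ⟨L2, P, rfl, h2, hP⟩ := List.map_eq_append_iff.1 h1
  obtain ⟨I, C0, rfl, hI, hC⟩ := List.map_eq_append_iff.1 h2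
  obtain ⟨bl, e1, e2, e3, e4⟩ := ts0_blocks cl sl P hP
  exact ⟨I, C0, Fn, bl, hI, hC, hF, e1, e2, e3, by rw [e4]⟩

end MST
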